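import Pool.Agent.Lib.MP_100fe7_ntG.DefsG
import Pool.Agent.Lib.MP_100fe7_ntU.FinalV

/-!
The periods of the Artin motives of rank one are Deligne periods.
-/

set_option linter.unusedSectionVars false

namespace Pool.Agent.MP100fe7G

open MP100fe7U Matrix

variable {ι : Type} [Fintype ι] [DecidableEq ι] {F : ι → Type} [∀ i, Field (F i)]
  [∀ i, NumberField (F i)] {E : Type} [Field E] [NumberField E] {n : ι → ℕ} {w : ι → ℤ}
  {T : ∀ i, MType (F i) E (n i) (w i)} {hE : Split F E} {τ₀ : E →+* ℂ}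

/-- the one dimensional representation of a character -/
noncomputable def chiRep (n : ι → ℕ) (χ : Gal F E → E) (hχ : IsCharacter χ) :
    Rep F E n (Fin 1) where
  mat := 1
  twist := fun _ => 0
  wt := fun _ _ => 0
  deg := fun _ => 0
  sum_wt := by
    intro s i
    simp
  map_mul := by
    intro S _ _ A B
    unfold MP100fe7U.evalMat
    rw [Matrix.map_one _ (map_zero _) (map_one _), Matrix.map_one _ (map_zero _) (map_one _),
      Matrix.map_one _ (map_zero _) (map_one _), Matrix.mul_one]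
  map_diagonal := by
    intro S _ _ x
    unfold MP100fe7U.evalMat
    rw [Matrix.map_one _ (map_zero _) (map_one _)]
    ext i j
    simp [Matrix.one_apply, Matrix.diagonal_apply]
  perm := fun g => Matrix.of fun _ _ => χ g
  perm_one := by
    ext i j
    rw [of_apply, hχ.1, Subsingleton.elim i j, Matrix.one_apply_eq]
  perm_mul := by
    intro g h
    ext i j
    rw [of_apply, hχ.2, Matrix.mul_apply]
    simp
  perm_eval := by
    intro g S _ _ A
    unfold MP100fe7U.evalMat
    rw [Matrix.map_one _ (map_zero _) (map_one _), Matrix.map_one _ (map_zero _) (map_one _),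
      Matrix.mul_one, Matrix.one_mul]

theorem chiRep_ev (χ : Gal F E → E) (hχ : IsCharacter χ) (S : Type) [CommRing S] [Algebra E S]
    (A : Fam F E n S) : (chiRep n χ hχ).ev S A = 1 := by
  unfold Rep.ev MP100fe7U.evalMat
  change Ring.inverse (∏ q : Emb F E, (A q).det ^ 0) •
    (1 : Matrix (Fin 1) (Fin 1) (MvPolynomial (Ent F E n) E)).map _ = 1
  rw [Matrix.map_one _ (map_zero _) (map_one _)]
  simp

theorem artin_mem (X : Fun T) (hX : X ∈ artinPeriods T hE τ₀) : X ∈ allPeriods T hE τ₀ := by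
  obtain ⟨χ, hχ, h1⟩ := hX
  have hc : χ (conjElt hE τ₀) = 1 ∨ χ (conjElt hE τ₀) = -1 := by
    have h2 := hχ.2 (conjElt hE τ₀) (conjElt hE τ₀)
    rw [conjElt_sq, hχ.1] at h2
    have h3 : χ (conjElt hE τ₀) * χ (conjElt hE τ₀) = 1 := h2.symm
    exact mul_self_eq_one_iff.mp h3
  have hfr : ∀ v : Fin 1 → E, ((chiRep n χ hχ).frob T hE τ₀).mulVec v =
      χ (conjElt hE τ₀) • v := by
    intro v
    unfold Rep.frob
    rw [chiRep_ev, Matrix.mul_one]
    funext i
    change ∑ j, χ (conjElt hE τ₀) * v j = χ (conjElt hE τ₀) * v i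
    rw [Fin.sum_univ_one, Subsingleton.elim i 0]
  have hone : Function.Injective (1 : Matrix (Fin 1) (Fin 1) E).mulVec := by
    intro x y hxy
    rw [Matrix.one_mulVec, Matrix.one_mulVec] at hxy
    exact hxy
  have hsur : Function.Surjective (1 : Matrix (Fin 1) (Fin 1) E).mulVec := fun x =>
    ⟨x, Matrix.one_mulVec x⟩
  refine ⟨Fin 1, inferInstance, inferInstance, chiRep n χ hχ, χ (conjElt hE τ₀), hc, ?_⟩
  intro M
  refine ⟨1, 1, 1, 1, ⟨hone, ?_⟩, hsur, ?_, ?_⟩
  · intro v
    refine ⟨fun _ => hfr v, fun _ => ?_⟩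
    obtain ⟨u, hu⟩ := hsur v
    exact ⟨u, hu⟩
  · intro v
    rw [Matrix.one_mulVec]
    have h2 : ∀ s, (chiRep n χ hχ).hodgeIdx T s = 0 := by
      intro s
      unfold Rep.hodgeIdx Rep.weight
      change ∑ t : Tot F E n, (((0 : ℕ) : ℤ) - ((0 : ℕ) : ℤ)) * (T t.1.1).p t.1.2 t.2 = 0
      simp
    constructor
    · intro h s _
      rw [h]
      rfl
    · intro h
      funext s
      exact h s (by rw [h2]; norm_num)
  · intro τ
    change (X M τ : ℂ) = _
    rw [h1 M τ]
    unfold Rep.compN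
    let _ := τ.toAlgebra
    rw [chiRep_ev]
    rw [Matrix.map_one _ (map_zero _) (map_one _)]
    simp only [Matrix.one_mul, Matrix.mul_one]
    rw [Matrix.det_fin_one]
    rfl

end Pool.Agent.MP100fe7G
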