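import Pool.Agent.Lib.MP_100fe7_ntU.FinalV
import Pool.Agent.Lib.MP_100fe7_nt.CvCB

/-!
The group of the Deligne periods over number fields: weights, orbits, families of subsets.
-/

set_option linter.unusedSectionVars false

namespace Pool.Agent.MP100fe7G

open MP100fe7U MP100fe7Cv

section orbits

variable {J : Type} [Fintype J] [DecidableEq J]

/-- the translate of a weight by a permutation -/
def tr (γ : Equiv.Perm J) (x : J → ℕ) : J → ℕ := fun j => x (γ⁻¹ j)

/-- the orbit of a weight -/
noncomputable def orb (Γ : Subgroup (Equiv.Perm J)) (x : J → ℕ) : Finset (J → ℕ) := by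
  classical
  exact (Finset.univ.filter fun γ : Equiv.Perm J => γ ∈ Γ).image fun γ => tr γ x

/-- the coordinates of a weight, if it is low and its product with `lam` is odd -/
def lowv (lam : J → ℤ) (ν : J → ℕ) (j : J) : ℤ :=
  if Odd (∑ i, lam i * (ν i : ℤ)) ∧ ∑ i, lam i * (ν i : ℤ) < 0 then (ν j : ℤ) else 0

/-- the sum of the low weights of an orbit -/
noncomputable def Vo (Γ : Subgroup (Equiv.Perm J)) (lam : J → ℤ) (x : J → ℕ) : J → ℤ :=
  fun j => ∑ ν ∈ orb Γ x, lowv lam ν j

/-- the lattice spanned by these sums -/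
def Lat (Γ : Subgroup (Equiv.Perm J)) (lam : J → ℤ) : Submodule ℤ (J → ℤ) :=
  Submodule.span ℤ {v | ∃ x : J → ℕ, v = Vo Γ lam x}

end orbits

section fams

variable {ι : Type} (F : ι → Type) [∀ i, Field (F i)] (E : Type) [Field E]

/-- the group of the permutations of the basis vectors which permute the blocks by an element of the
Galois group -/
def gam (n : ι → ℕ) : Subgroup (Equiv.Perm (Tot F E n)) where
  carrier := {σ | ∃ g : Gal F E, ∀ t, (σ t).1 = act g t.1}
  mul_mem' := by
    rintro σ τ ⟨g, hg⟩ ⟨h, hh⟩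
    refine ⟨g * h, fun t => ?_⟩
    rw [Equiv.Perm.mul_apply, hg, hh]
    rfl
  one_mem' := ⟨1, fun _ => rfl⟩
  inv_mem' := by
    rintro σ ⟨g, hg⟩
    refine ⟨g⁻¹, fun t => ?_⟩
    have h1 := hg (σ⁻¹ t)
    rw [show σ (σ⁻¹ t) = t from σ.apply_symm_apply t] at h1
    rw [h1, act_inv_act]

/-- families of subsets of the bases, `r` for each embedding -/
abbrev Fams (n : ι → ℕ) (r : ℕ) : Type := ∀ q : Emb F E, Fin r → Finset (Fin (n q.1))

variable {F E}

/-- the sizes of the subsets -/
def prof {n : ι → ℕ} {r : ℕ} (S : Fams F E n r) : Emb F E → Fin r → ℕ := fun q k => (S q k).card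

/-- the action of the Galois group on the profiles -/
def pact {r : ℕ} (g : Gal F E) (ω : Emb F E → Fin r → ℕ) : Emb F E → Fin r → ℕ :=
  fun q => ω (act g⁻¹ q)

/-- the action of the Galois group on the families -/
def fact {n : ι → ℕ} {r : ℕ} (g : Gal F E) (S : Fams F E n r) : Fams F E n r :=
  fun q => S (act g⁻¹ q)

/-- the families of subsets whose profile is in the orbit of `ω` -/
def KO (n : ι → ℕ) {r : ℕ} (ω : Emb F E → Fin r → ℕ) : Type :=
  {S : Fams F E n r // ∃ g : Gal F E, prof S = pact g ω}

/-- the weight of a family of subsets -/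
def wtS {n : ι → ℕ} {r : ℕ} (S : Fams F E n r) (t : Tot F E n) : ℕ :=
  (Finset.univ.filter fun k : Fin r => t.2 ∈ S t.1 k).card

end fams

section fin

variable {ι : Type} [Fintype ι] {F : ι → Type} [∀ i, Field (F i)] [∀ i, NumberField (F i)]
  {E : Type} [Field E] [NumberField E]

noncomputable instance decTot (n : ι → ℕ) : DecidableEq (Tot F E n) := Classical.decEq _

noncomputable instance decEmbs : DecidableEq (Emb F E) := Classical.decEq _

noncomputable instance finKO (n : ι → ℕ) {r : ℕ} (ω : Emb F E → Fin r → ℕ) :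
    Fintype (KO n ω) := by
  classical
  exact inferInstanceAs (Fintype {S : Fams F E n r // ∃ g : Gal F E, prof S = pact g ω})

noncomputable instance decKO (n : ι → ℕ) {r : ℕ} (ω : Emb F E → Fin r → ℕ) :
    DecidableEq (KO n ω) := Classical.decEq _

/-- the minor of `X` with the rows `A` and the columns `B`, or `0` if their numbers differ -/
noncomputable def mnr {m : ℕ} {S : Type} [CommRing S] (X : Matrix (Fin m) (Fin m) S)
    (A B : Finset (Fin m)) : S :=
  if h : B.card = A.card then
    (X.submatrix (em (⟨A, rfl⟩ : Sub m A.card)) (em (⟨B, h⟩ : Sub m A.card))).det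
  else 0

end fin

end Pool.Agent.MP100fe7G
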