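import Pool.Agent.Lib.MP_100fe7_ntG.ExpA

/-!
The character of the Galois group on the eigenspace.
-/

set_option linter.unusedSectionVars false

namespace Pool.Agent.MP100fe7G

open MP100fe7U Matrix MP100fe7L

variable {ι : Type} [Fintype ι] [DecidableEq ι] {F : ι → Type} [∀ i, Field (F i)]
  [∀ i, NumberField (F i)] {E : Type} [Field E] [NumberField E] {n : ι → ℕ} {w : ι → ℤ}
  {T : ∀ i, MType (F i) E (n i) (w i)} {hE : Split F E} {τ₀ : E →+* ℂ} {Φ : Finset (Emb F E)}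
  (hG : Good T hE τ₀ Φ) {κ : Type} [Fintype κ] [DecidableEq κ] (ρ : Rep F E n κ)

include hG in
theorem exists_chi {ε : E} (hε : ε * ε = 1) {a₀ : ℤ} (hst : ρ.IsStep T hE τ₀ ε a₀) :
    ∃ χ : Gal F E → E, IsCharacter χ ∧ ∀ g, ρ.IsGalDet T hE τ₀ ε g (χ g) := by
  obtain ⟨A, hA⟩ := hst
  obtain ⟨L, hL⟩ := exists_left A hA.1
  have hA' : IsEig (ρ.Fr (conjElt hE τ₀) (sD (sT T τ₀) E)) ε A := hA
  have h1 : ∀ g, ρ.perm g * A = A * (L * ρ.perm g * A) := fun g =>
    perm_eig ρ T hE τ₀ hε hA' hL (central hG g) (pull_sgn hG g)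
  refine ⟨fun g => (L * ρ.perm g * A).det, ⟨?_, ?_⟩, ?_⟩
  · change (L * ρ.perm 1 * A).det = 1
    rw [ρ.perm_one, Matrix.mul_one, hL, det_one]
  · intro g h
    change (L * ρ.perm (g * h) * A).det = (L * ρ.perm g * A).det * (L * ρ.perm h * A).det
    have h2 : L * ρ.perm (g * h) * A = (L * ρ.perm g * A) * (L * ρ.perm h * A) := by
      calc L * ρ.perm (g * h) * A = L * ρ.perm g * (ρ.perm h * A) := by
            rw [ρ.perm_mul]
            simp only [Matrix.mul_assoc]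
        _ = L * ρ.perm g * (A * (L * ρ.perm h * A)) := by rw [← h1 h]
        _ = (L * ρ.perm g * A) * (L * ρ.perm h * A) := by simp only [Matrix.mul_assoc]
    rw [h2, det_mul]
  · intro g
    exact ⟨_, A, _, hA, h1 g, rfl⟩

end Pool.Agent.MP100fe7G
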