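import Pool.Agent.Lib.MP_100fe7_ntG.Base
import Pool.Agent.Lib.MP_100fe7_nt.CvTwo

/-!
The orbit sums of one block.
-/

set_option linter.unusedSectionVars false

namespace Pool.Agent.MP100fe7G

open MP100fe7U MP100fe7Cv

/-- the orbit of a weight under all permutations -/
noncomputable def oneOrb {m : ℕ} (y : Fin m → ℕ) : Finset (Fin m → ℕ) := by
  classical
  exact Finset.univ.image fun π : Equiv.Perm (Fin m) => fun j => y (π j)

/-- the sum of the monomials of this orbit -/
noncomputable def onePoly {m : ℕ} (y : Fin m → ℕ) : MvPolynomial (Fin m) ℤ :=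
  ∑ y' ∈ oneOrb y, ∏ j, MvPolynomial.X j ^ y' j

private lemma one_mem {m : ℕ} (y z : Fin m → ℕ) :
    z ∈ oneOrb y ↔ ∃ π : Equiv.Perm (Fin m), (fun j => y (π j)) = z := by
  classical
  rw [oneOrb, Finset.mem_image]
  constructor
  · rintro ⟨π, -, h⟩
    exact ⟨π, h⟩
  · rintro ⟨π, h⟩
    exact ⟨π, Finset.mem_univ π, h⟩

private lemma one_self {m : ℕ} (y : Fin m → ℕ) : y ∈ oneOrb y :=
  (one_mem y y).2 ⟨1, rfl⟩

private lemma one_mono {m : ℕ} (x : Fin m → ℕ) :
    (∏ j, MvPolynomial.X j ^ x j : MvPolynomial (Fin m) ℤ)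
      = MvPolynomial.monomial (Finsupp.equivFunOnFinite.symm x) 1 := by
  rw [MvPolynomial.monomial_eq, map_one, one_mul, Finsupp.prod_fintype]
  · rfl
  · intro i
    exact pow_zero _

private lemma one_coeff {m : ℕ} (y z : Fin m → ℕ) :
    MvPolynomial.coeff (Finsupp.equivFunOnFinite.symm z) (onePoly y)
      = if z ∈ oneOrb y then 1 else 0 := by
  rw [onePoly, MvPolynomial.coeff_sum]
  have h1 : ∀ x ∈ oneOrb y, MvPolynomial.coeff (Finsupp.equivFunOnFinite.symm z)
      (∏ j, MvPolynomial.X j ^ x j : MvPolynomial (Fin m) ℤ) = if x = z then 1 else 0 := by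
    intro x _
    rw [one_mono, MvPolynomial.coeff_monomial]
    by_cases h : x = z
    · rw [if_pos h, if_pos (by rw [h])]
    · rw [if_neg h, if_neg fun h2 => h (Finsupp.equivFunOnFinite.symm.injective h2)]
  rw [Finset.sum_congr rfl h1, Finset.sum_ite_eq']

theorem onePoly_eq_iff {m : ℕ} (y y' : Fin m → ℕ) : onePoly y = onePoly y' ↔ y' ∈ oneOrb y := by
  constructor
  · intro h
    have h1 := one_coeff y y'
    rw [h, one_coeff, if_pos (one_self y')] at h1
    by_contra h2
    rw [if_neg h2] at h1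
    exact one_ne_zero h1
  · intro h
    obtain ⟨π, h1⟩ := (one_mem y y').1 h
    have h2 : oneOrb y = oneOrb y' := by
      ext z
      rw [one_mem, one_mem]
      constructor
      · rintro ⟨ρ, h3⟩
        refine ⟨π⁻¹ * ρ, ?_⟩
        rw [← h1, ← h3]
        funext j
        show y (π ((π⁻¹ * ρ) j)) = y (ρ j)
        rw [Equiv.Perm.mul_apply]
        congr 1
        exact Equiv.apply_symm_apply π (ρ j)
      · rintro ⟨ρ, h3⟩
        refine ⟨π * ρ, ?_⟩
        rw [← h3, ← h1]
        rfl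
    rw [onePoly, onePoly, h2]

private lemma one_symm {m : ℕ} (y : Fin m → ℕ) : (onePoly y).IsSymmetric := by
  intro e
  rw [onePoly, map_sum]
  refine Finset.sum_nbij' (fun x j => x (e.symm j)) (fun x j => x (e j)) ?_ ?_ ?_ ?_ ?_
  · intro x hx
    obtain ⟨π, h1⟩ := (one_mem y x).1 hx
    refine (one_mem y _).2 ⟨π * e.symm, ?_⟩
    rw [← h1]
    rfl
  · intro x hx
    obtain ⟨π, h1⟩ := (one_mem y x).1 hx
    refine (one_mem y _).2 ⟨π * e, ?_⟩
    rw [← h1]
    rfl
  · intro x _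
    funext j
    show x (e.symm (e j)) = x j
    rw [Equiv.symm_apply_apply]
  · intro x _
    funext j
    show x (e (e.symm j)) = x j
    rw [Equiv.apply_symm_apply]
  · intro x _
    rw [map_prod]
    have h1 : ∀ j, MvPolynomial.rename e (MvPolynomial.X j ^ x j : MvPolynomial (Fin m) ℤ)
        = MvPolynomial.X (e j) ^ x (e.symm (e j)) := by
      intro j
      rw [map_pow, MvPolynomial.rename_X, Equiv.symm_apply_apply]
    rw [Finset.prod_congr rfl fun j _ => h1 j]
    exact Equiv.prod_comp e fun j => (MvPolynomial.X j : MvPolynomial (Fin m) ℤ) ^ x (e.symm j)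

private lemma one_pad {R : Type} [CommRing R] (f : ℕ → R) (hf : f 0 = 1) : ∀ (r : ℕ) (l : List ℕ),
    l.length ≤ r → ∏ k : Fin r, f (l.getD (k : ℕ) 0) = (l.map f).prod := by
  intro r
  induction r with
  | zero =>
    intro l hl
    rw [List.length_eq_zero_iff.1 (Nat.le_zero.1 hl)]
    simp
  | succ r ih =>
    intro l hl
    rw [Fin.prod_univ_succ]
    rcases l with _ | ⟨a, l⟩
    · simp [hf]
    · have h1 := ih l (by simpa using hl)
      rw [List.map_cons, List.prod_cons, ← h1]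
      rfl

theorem one_block {m : ℕ} (y : Fin m → ℕ) : ∃ r₀ : ℕ, ∀ r, r₀ ≤ r →
    ∃ c : (Fin r → ℕ) →₀ ℤ, onePoly y = c.sum fun ω a =>
      a • ∏ k, ∑ B ∈ Finset.univ.filter (fun B : Finset (Fin m) => B.card = ω k),
        ∏ j ∈ B, MvPolynomial.X j := by
  classical
  have h1 := one_set (onePoly y) (one_symm y)
  have h2 : {g : MvPolynomial (Fin m) ℤ | ∃ l : List ℕ,
      g = (l.map (MvPolynomial.esymm (Fin m) ℤ)).prod}
      = Set.range fun l : List ℕ => (l.map (MvPolynomial.esymm (Fin m) ℤ)).prod := by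
    ext g
    constructor
    · rintro ⟨l, h⟩
      exact ⟨l, h.symm⟩
    · rintro ⟨l, h⟩
      exact ⟨l, h.symm⟩
  rw [h2, Finsupp.mem_span_range_iff_exists_finsupp] at h1
  obtain ⟨c₀, h3⟩ := h1
  refine ⟨c₀.support.sup List.length, fun r hr => ?_⟩
  have hes : ∀ k : ℕ, ∑ B ∈ Finset.univ.filter (fun B : Finset (Fin m) => B.card = k),
      ∏ j ∈ B, (MvPolynomial.X j : MvPolynomial (Fin m) ℤ) = MvPolynomial.esymm (Fin m) ℤ k := by
    intro k
    rw [MvPolynomial.esymm]
    refine Finset.sum_congr ?_ fun _ _ => rfl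
    ext B
    rw [Finset.mem_filter, Finset.mem_powersetCard]
    exact ⟨fun h => ⟨Finset.subset_univ B, h.2⟩, fun h => ⟨Finset.mem_univ B, h.2⟩⟩
  refine ⟨c₀.mapDomain fun l (k : Fin r) => l.getD (k : ℕ) 0, ?_⟩
  have h5 := Finsupp.sum_mapDomain_index (s := c₀)
    (f := fun (l : List ℕ) (k : Fin r) => l.getD (k : ℕ) 0)
    (h := fun (ω : Fin r → ℕ) (a : ℤ) =>
      a • ∏ k, ∑ B ∈ Finset.univ.filter (fun B : Finset (Fin m) => B.card = ω k),
        ∏ j ∈ B, (MvPolynomial.X j : MvPolynomial (Fin m) ℤ))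
    (fun _ => zero_smul ℤ _) fun _ _ _ => add_smul _ _ _
  rw [h5, ← h3]
  refine Finset.sum_congr rfl fun l hl => ?_
  show c₀ l • (l.map (MvPolynomial.esymm (Fin m) ℤ)).prod = c₀ l • _
  congr 1
  have h4 := one_pad (MvPolynomial.esymm (Fin m) ℤ) (MvPolynomial.esymm_zero (Fin m) ℤ) r l
    ((Finset.le_sup (f := List.length) hl).trans hr)
  rw [← h4]
  exact Finset.prod_congr rfl fun k _ => (hes _).symm

end Pool.Agent.MP100fe7G
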