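import Pool.Agent.Lib.MP_100fe7_ntG.Base
import Pool.Agent.Lib.MP_100fe7_ntG.One

/-!
The orbit sums are integer combinations of the characters of the representations `N_ω`.
-/

set_option linter.unusedSectionVars false

namespace Pool.Agent.MP100fe7G

open MP100fe7U MP100fe7Cv

variable {ι : Type} [Fintype ι] {F : ι → Type} [∀ i, Field (F i)] [∀ i, NumberField (F i)]
  {E : Type} [Field E] [NumberField E] (n : ι → ℕ)

variable {n} in
/-- the part of a weight at an embedding -/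
def chrPart (ν : Tot F E n → ℕ) (q : Emb F E) : Fin (n q.1) → ℕ := fun j => ν ⟨q, j⟩

variable {n} in
theorem chr_mem_oneOrb {m : ℕ} (y y' : Fin m → ℕ) :
    y' ∈ oneOrb y ↔ ∃ π : Equiv.Perm (Fin m), y' = fun j => y (π j) := by
  unfold oneOrb
  rw [Finset.mem_image]
  constructor
  · rintro ⟨π, -, h⟩
    exact ⟨π, h.symm⟩
  · rintro ⟨π, h⟩
    exact ⟨π, Finset.mem_univ _, h.symm⟩

variable {n} in
theorem chr_mem_orb (x ν : Tot F E n → ℕ) : ν ∈ orb (gam F E n) x ↔
    ∃ g : Gal F E, ∀ q : Emb F E, chrPart ν q ∈ oneOrb (m := n q.1) (chrPart x (act g⁻¹ q)) := by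
  classical
  unfold orb
  rw [Finset.mem_image]
  constructor
  · rintro ⟨γ, hγ, rfl⟩
    rw [Finset.mem_filter] at hγ
    obtain ⟨g, hg⟩ := (gam F E n).inv_mem hγ.2
    refine ⟨g⁻¹, fun q => ?_⟩
    rw [inv_inv, chr_mem_oneOrb]
    have h1 : ∀ j : Fin (n q.1), ∃ j' : Fin (n q.1), γ⁻¹ ⟨q, j⟩ = ⟨act g q, j'⟩ := by
      intro j
      have h2 := hg ⟨q, j⟩
      generalize γ⁻¹ ⟨q, j⟩ = t at h2
      obtain ⟨q', j'⟩ := t
      change q' = act g q at h2
      subst h2
      exact ⟨j', rfl⟩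
    choose π hπ using h1
    have h2 : Function.Injective π := by
      intro a b hab
      have h3 : γ⁻¹ ⟨q, a⟩ = γ⁻¹ ⟨q, b⟩ := by rw [hπ, hπ, hab]
      have h4 := γ⁻¹.injective h3
      exact eq_of_heq (Sigma.mk.inj h4).2
    refine ⟨Equiv.ofBijective π ⟨h2, Finite.surjective_of_injective h2⟩, ?_⟩
    funext j
    change x (γ⁻¹ ⟨q, j⟩) = x ⟨act g q, π j⟩
    rw [hπ]
  · rintro ⟨g, hg⟩
    have h1 : ∀ q : Emb F E, ∃ π : Equiv.Perm (Fin (n q.1)), ∀ j,
        ν ⟨q, j⟩ = x ⟨act g⁻¹ q, π j⟩ := by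
      intro q
      obtain ⟨π, hπ⟩ := (chr_mem_oneOrb _ _).1 (hg q)
      exact ⟨π, fun j => congrFun hπ j⟩
    choose π hπ using h1
    let e : Tot F E n → Tot F E n := fun t => ⟨act g⁻¹ t.1, π t.1 t.2⟩
    have he : Function.Injective e := by
      rintro ⟨q, j⟩ ⟨q', j'⟩ h
      have h2 : act g⁻¹ q = act g⁻¹ q' := congrArg Sigma.fst h
      have h3 : q = q' := by
        have h4 := congrArg (act g) h2
        have h5 : ∀ q : Emb F E, act g (act g⁻¹ q) = q := by
          intro q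
          have h6 := act_inv_act g⁻¹ q
          rwa [inv_inv] at h6
        rwa [h5, h5] at h4
      subst h3
      have h4 : π q j = π q j' := eq_of_heq (Sigma.mk.inj h).2
      rw [(π q).injective h4]
    let σ : Equiv.Perm (Tot F E n) := Equiv.ofBijective e ⟨he, Finite.surjective_of_injective he⟩
    have hσ : σ ∈ gam F E n := ⟨g⁻¹, fun t => rfl⟩
    refine ⟨σ⁻¹, Finset.mem_filter.2 ⟨Finset.mem_univ _, (gam F E n).inv_mem hσ⟩, ?_⟩
    funext t
    unfold tr
    rw [inv_inv]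
    exact (hπ t.1 t.2).symm

/-- the monomial of a weight -/
noncomputable def chrMono (ν : Tot F E n → ℕ) : MvPolynomial (Tot F E n) ℤ :=
  ∏ t, MvPolynomial.X t ^ ν t

theorem chrMono_eq (ν : Tot F E n → ℕ) : chrMono n ν =
    ∏ q : Emb F E, ∏ j : Fin (n q.1), MvPolynomial.X ⟨q, j⟩ ^ ν ⟨q, j⟩ := by
  unfold chrMono
  rw [Fintype.prod_sigma]

theorem chrMono_monomial (ν : Tot F E n → ℕ) : chrMono n ν =
    MvPolynomial.monomial (Finsupp.equivFunOnFinite.symm ν) 1 := by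
  rw [MvPolynomial.monomial_eq, MvPolynomial.C_1, one_mul, Finsupp.prod_fintype]
  · rfl
  · intro t
    exact pow_zero _

/-- the product of polynomials, one for each embedding -/
noncomputable def chrProd (P : ∀ q : Emb F E, MvPolynomial (Fin (n q.1)) ℤ) :
    MvPolynomial (Tot F E n) ℤ :=
  ∏ q : Emb F E, MvPolynomial.rename (fun j : Fin (n q.1) => (⟨q, j⟩ : Tot F E n)) (P q)

theorem chrProd_box (y : ∀ q : Emb F E, Fin (n q.1) → ℕ) :
    chrProd n (fun q : Emb F E => onePoly (y q)) =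
      ∑ z ∈ Fintype.piFinset (fun q : Emb F E => oneOrb (y q)), chrMono n fun t => z t.1 t.2 := by
  unfold chrProd onePoly
  have h1 : ∀ q : Emb F E, MvPolynomial.rename (fun j : Fin (n q.1) => (⟨q, j⟩ : Tot F E n))
      (∑ y' ∈ oneOrb (y q), ∏ j, (MvPolynomial.X j : MvPolynomial (Fin (n q.1)) ℤ) ^ y' j) =
      ∑ y' ∈ oneOrb (y q), ∏ j, (MvPolynomial.X ⟨q, j⟩ : MvPolynomial (Tot F E n) ℤ) ^ y' j := by
    intro q
    simp only [map_sum, map_prod, map_pow, MvPolynomial.rename_X]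
  rw [Finset.prod_congr rfl fun q _ => h1 q, Finset.prod_univ_sum]
  apply Finset.sum_congr rfl
  intro z _
  rw [chrMono_eq]

/-- the families of the orbit polynomials of the Galois conjugates of a weight -/
noncomputable def chrFam (x : Tot F E n → ℕ) :
    Finset (∀ q : Emb F E, MvPolynomial (Fin (n q.1)) ℤ) := by
  classical
  exact Finset.univ.image fun g : Gal F E => fun q : Emb F E =>
    (onePoly (chrPart x (act g q)) : MvPolynomial (Fin (n q.1)) ℤ)

theorem mem_chrFam (x : Tot F E n → ℕ) (P : ∀ q : Emb F E, MvPolynomial (Fin (n q.1)) ℤ) :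
    P ∈ chrFam n x ↔ ∃ g : Gal F E, P = fun q : Emb F E =>
      (onePoly (chrPart x (act g q)) : MvPolynomial (Fin (n q.1)) ℤ) := by
  classical
  unfold chrFam
  rw [Finset.mem_image]
  constructor
  · rintro ⟨g, -, h⟩
    exact ⟨g, h.symm⟩
  · rintro ⟨g, h⟩
    exact ⟨g, Finset.mem_univ _, h.symm⟩

theorem chr_fib (x : Tot F E n → ℕ) : ∑ ν ∈ orb (gam F E n) x, chrMono n ν =
    ∑ P ∈ chrFam n x, chrProd n P := by
  classical
  have h0 : ∀ ν ∈ orb (gam F E n) x, (fun q : Emb F E => onePoly (chrPart ν q)) ∈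
      chrFam n x := by
    intro ν hν
    obtain ⟨g, hg⟩ := (chr_mem_orb x ν).1 hν
    rw [mem_chrFam]
    refine ⟨g⁻¹, ?_⟩
    funext q
    exact ((onePoly_eq_iff _ _).2 (hg q)).symm
  rw [← Finset.sum_fiberwise_of_maps_to h0]
  apply Finset.sum_congr rfl
  intro P hP
  obtain ⟨g, rfl⟩ := (mem_chrFam n x P).1 hP
  rw [chrProd_box n fun q : Emb F E => (chrPart x (act g q) : Fin (n q.1) → ℕ)]
  apply Finset.sum_nbij' (fun ν q => chrPart ν q) (fun z t => z t.1 t.2)
  · intro ν hν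
    rw [Finset.mem_filter] at hν
    rw [Fintype.mem_piFinset]
    intro q
    rw [← onePoly_eq_iff]
    exact (congrFun hν.2 q).symm
  · intro z hz
    rw [Fintype.mem_piFinset] at hz
    rw [Finset.mem_filter]
    constructor
    · rw [chr_mem_orb]
      refine ⟨g⁻¹, fun q => ?_⟩
      rw [inv_inv]
      exact hz q
    · funext q
      exact ((onePoly_eq_iff _ _).2 (hz q)).symm
  · intro ν _
    rfl
  · intro z _
    rfl
  · intro ν _
    rfl

/-- the sum of the monomials of the families of subsets with a given profile -/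
noncomputable def chrW {r : ℕ} (w : Emb F E → Fin r → ℕ) : MvPolynomial (Tot F E n) ℤ := by
  classical
  exact ∑ S ∈ Finset.univ.filter (fun S : Fams F E n r => prof S = w), chrMono n (wtS S)

theorem chrW_eq {r : ℕ} (w : Emb F E → Fin r → ℕ) : chrW n w =
    ∏ q : Emb F E, ∏ k : Fin r,
      ∑ B ∈ Finset.univ.filter (fun B : Finset (Fin (n q.1)) => B.card = w q k),
        ∏ j ∈ B, (MvPolynomial.X ⟨q, j⟩ : MvPolynomial (Tot F E n) ℤ) := by
  classical
  have h1 : ∀ q : Emb F E, ∏ k : Fin r,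
      ∑ B ∈ Finset.univ.filter (fun B : Finset (Fin (n q.1)) => B.card = w q k),
        ∏ j ∈ B, (MvPolynomial.X ⟨q, j⟩ : MvPolynomial (Tot F E n) ℤ) =
      ∑ s ∈ Fintype.piFinset (fun k : Fin r =>
        Finset.univ.filter (fun B : Finset (Fin (n q.1)) => B.card = w q k)),
        ∏ k, ∏ j ∈ s k, (MvPolynomial.X ⟨q, j⟩ : MvPolynomial (Tot F E n) ℤ) :=
    fun q => Finset.prod_univ_sum _ _
  rw [Finset.prod_congr rfl fun q _ => h1 q, Finset.prod_univ_sum]
  unfold chrW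
  apply Finset.sum_congr
  · ext S
    simp [prof, funext_iff]
  · intro S _
    rw [chrMono_eq]
    apply Finset.prod_congr rfl
    intro q _
    have h2 : ∀ k, ∏ j ∈ S q k, (MvPolynomial.X ⟨q, j⟩ : MvPolynomial (Tot F E n) ℤ) =
        ∏ j, if j ∈ S q k then (MvPolynomial.X ⟨q, j⟩ : MvPolynomial (Tot F E n) ℤ) else 1 := by
      intro k
      rw [Finset.prod_ite_mem, Finset.univ_inter]
    rw [Finset.prod_congr rfl fun k _ => h2 k, Finset.prod_comm]
    apply Finset.prod_congr rfl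
    intro j _
    rw [Finset.prod_ite, Finset.prod_const_one, mul_one, Finset.prod_const]
    congr 1

/-- one product of sums over subsets, in the polynomial ring of a block -/
noncomputable def chrV {r : ℕ} (m : ℕ) (ω : Fin r → ℕ) : MvPolynomial (Fin m) ℤ :=
  ∏ k, ∑ B ∈ Finset.univ.filter (fun B : Finset (Fin m) => B.card = ω k),
    ∏ j ∈ B, MvPolynomial.X j

theorem rename_chrV {r : ℕ} (q : Emb F E) (ω : Fin r → ℕ) :
    MvPolynomial.rename (fun j : Fin (n q.1) => (⟨q, j⟩ : Tot F E n)) (chrV (n q.1) ω) =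
      ∏ k : Fin r, ∑ B ∈ Finset.univ.filter (fun B : Finset (Fin (n q.1)) => B.card = ω k),
        ∏ j ∈ B, (MvPolynomial.X ⟨q, j⟩ : MvPolynomial (Tot F E n) ℤ) := by
  unfold chrV
  simp only [map_sum, map_prod, MvPolynomial.rename_X]

theorem chrProd_expand {r : ℕ} (c : ∀ m : ℕ, MvPolynomial (Fin m) ℤ → (Fin r → ℕ) →₀ ℤ)
    (U : Finset (Fin r → ℕ)) (P : ∀ q : Emb F E, MvPolynomial (Fin (n q.1)) ℤ)
    (hP : ∀ q : Emb F E, P q = (c (n q.1) (P q)).sum fun ω a => a • chrV (n q.1) ω)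
    (hU : ∀ q : Emb F E, (c (n q.1) (P q)).support ⊆ U) :
    chrProd n P = ∑ w ∈ Fintype.piFinset (fun _ : Emb F E => U),
      (∏ q : Emb F E, c (n q.1) (P q) (w q)) • chrW n w := by
  have h1 : ∀ q : Emb F E, MvPolynomial.rename (fun j : Fin (n q.1) => (⟨q, j⟩ : Tot F E n)) (P q) =
      ∑ ω ∈ U, (c (n q.1) (P q)) ω •
        MvPolynomial.rename (fun j : Fin (n q.1) => (⟨q, j⟩ : Tot F E n)) (chrV (n q.1) ω) := by
    intro q
    conv_lhs => rw [hP q]
    rw [Finsupp.sum_of_support_subset _ (hU q) (fun ω a => a • chrV (n q.1) ω)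
      (fun ω _ => zero_smul _ _), map_sum]
    apply Finset.sum_congr rfl
    intro ω _
    rw [map_zsmul]
  unfold chrProd
  rw [Finset.prod_congr rfl fun q _ => h1 q, Finset.prod_univ_sum]
  apply Finset.sum_congr rfl
  intro w _
  rw [chrW_eq]
  simp only [zsmul_eq_mul, Finset.prod_mul_distrib, Int.cast_prod, rename_chrV]

theorem pact_mul {r : ℕ} (g h : Gal F E) (w : Emb F E → Fin r → ℕ) :
    pact (g * h) w = pact g (pact h w) := by
  funext q
  unfold pact
  rw [mul_inv_rev, act_mul]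

theorem pact_one {r : ℕ} (w : Emb F E → Fin r → ℕ) : pact (1 : Gal F E) w = w := by
  funext q
  unfold pact
  rw [inv_one, act_one]

theorem chr_reindex {S : Type} [CommMonoid S] {A : ℕ → Type} (P : ∀ q : Emb F E, A (n q.1))
    (f : ∀ m, A m → Emb F E → S) (g : Gal F E) :
    ∏ q : Emb F E, f (n q.1) (P q) (act g⁻¹ q) = ∏ q : Emb F E, f (n q.1) (P (act g q)) q := by
  rw [← Equiv.prod_comp (actEquiv g)]
  apply Finset.prod_congr rfl
  intro q _
  change f (n q.1) (P (act g q)) (act g⁻¹ (act g q)) = _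
  rw [act_inv_act]

theorem chr_comp_inv {A : ℕ → Type} (P : ∀ q : Emb F E, A (n q.1)) (g : Gal F E) (q : Emb F E) :
    (P (act g (act g⁻¹ q)) : A (n q.1)) = P q := by
  obtain ⟨i, φ⟩ := q
  have h1 : g.1 i ((g⁻¹).1 i φ) = φ := by
    have h2 := act_act_inv g (⟨i, φ⟩ : Emb F E)
    exact eq_of_heq (Sigma.mk.inj_iff.mp h2).2
  let G : Hm F E i → A (n i) := fun φ' => P ⟨i, φ'⟩
  exact congrArg G h1

theorem chr_coeff (x : Tot F E n → ℕ) : ∃ (r : ℕ) (W : Finset (Emb F E → Fin r → ℕ))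
    (C : (Emb F E → Fin r → ℕ) → ℤ), (∀ (g : Gal F E) (w), w ∈ W → pact g w ∈ W) ∧
      (∀ (g : Gal F E) (w), C (pact g w) = C w) ∧
      ∑ ν ∈ orb (gam F E n) x, chrMono n ν = ∑ w ∈ W, C w • chrW n w := by
  classical
  choose r₀ hr₀ using fun q : Emb F E => one_block (chrPart x q)
  obtain ⟨r, hr⟩ : ∃ r, ∀ q, r₀ q ≤ r :=
    ⟨∑ q, r₀ q, fun q => Finset.single_le_sum (fun _ _ => Nat.zero_le _) (Finset.mem_univ q)⟩
  let c : ∀ m : ℕ, MvPolynomial (Fin m) ℤ → (Fin r → ℕ) →₀ ℤ := fun m p =>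
    if h : ∃ c : (Fin r → ℕ) →₀ ℤ, p = c.sum fun ω a => a • chrV m ω then h.choose else 0
  have hc : ∀ P ∈ chrFam n x, ∀ q : Emb F E,
      P q = (c (n q.1) (P q)).sum fun ω a => a • chrV (n q.1) ω := by
    intro P hP q
    obtain ⟨g, rfl⟩ := (mem_chrFam n x P).1 hP
    obtain ⟨c₀, hc₀⟩ := hr₀ (act g q) r (hr _)
    have h1 : ∃ c : (Fin r → ℕ) →₀ ℤ, (onePoly (chrPart x (act g q)) :
        MvPolynomial (Fin (n q.1)) ℤ) = c.sum fun ω a => a • chrV (n q.1) ω := ⟨c₀, hc₀⟩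
    have h2 : c (n q.1) (onePoly (chrPart x (act g q))) = h1.choose := dif_pos h1
    change (onePoly (chrPart x (act g q)) : MvPolynomial (Fin (n q.1)) ℤ) =
      (c (n q.1) (onePoly (chrPart x (act g q)))).sum fun ω a => a • chrV (n q.1) ω
    rw [h2]
    exact h1.choose_spec
  let U : Finset (Fin r → ℕ) := (chrFam n x).biUnion fun P =>
    Finset.univ.biUnion fun q : Emb F E => (c (n q.1) (P q)).support
  have hU : ∀ P ∈ chrFam n x, ∀ q : Emb F E, (c (n q.1) (P q)).support ⊆ U := by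
    intro P hP q ω hω
    exact Finset.mem_biUnion.2 ⟨P, hP, Finset.mem_biUnion.2 ⟨q, Finset.mem_univ _, hω⟩⟩
  refine ⟨r, Fintype.piFinset fun _ : Emb F E => U,
    fun w => ∑ P ∈ chrFam n x, ∏ q : Emb F E, c (n q.1) (P q) (w q), ?_, ?_, ?_⟩
  · intro g w hw
    rw [Fintype.mem_piFinset] at hw ⊢
    intro q
    exact hw _
  · intro g w
    have h1 : ∀ P : ∀ q : Emb F E, MvPolynomial (Fin (n q.1)) ℤ,
        ∏ q : Emb F E, c (n q.1) (P q) (pact g w q) =
        ∏ q : Emb F E, c (n q.1) (P (act g q)) (w q) := fun P =>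
      chr_reindex n (A := fun m => MvPolynomial (Fin m) ℤ) P (fun m p q => c m p (w q)) g
    change ∑ P ∈ chrFam n x, ∏ q : Emb F E, c (n q.1) (P q) (pact g w q) =
      ∑ P ∈ chrFam n x, ∏ q : Emb F E, c (n q.1) (P q) (w q)
    rw [Finset.sum_congr rfl fun P _ => h1 P]
    apply Finset.sum_nbij' (fun P (q : Emb F E) => (P (act g q) : MvPolynomial (Fin (n q.1)) ℤ))
      (fun P (q : Emb F E) => (P (act g⁻¹ q) : MvPolynomial (Fin (n q.1)) ℤ))
    · intro P hP
      rw [mem_chrFam] at hP ⊢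
      obtain ⟨h, rfl⟩ := hP
      exact ⟨h * g, rfl⟩
    · intro P hP
      rw [mem_chrFam] at hP ⊢
      obtain ⟨h, rfl⟩ := hP
      exact ⟨h * g⁻¹, rfl⟩
    · intro P _
      funext q
      exact chr_comp_inv n (A := fun m => MvPolynomial (Fin m) ℤ) P g q
    · intro P _
      funext q
      have h2 := chr_comp_inv n (A := fun m => MvPolynomial (Fin m) ℤ) P g⁻¹ q
      rw [inv_inv] at h2
      exact h2
    · intro P _
      rfl
  · rw [chr_fib, Finset.sum_congr rfl fun P hP =>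
      chrProd_expand n c U P (hc P hP) (hU P hP), Finset.sum_comm]
    apply Finset.sum_congr rfl
    intro w _
    rw [Finset.sum_smul]

theorem orb_span (x : Tot F E n → ℕ) : ∃ (r : ℕ) (I : Type) (_ : Fintype I)
    (ω : I → Emb F E → Fin r → ℕ) (m : I → ℤ), ∀ f : (Tot F E n → ℕ) → ℤ,
      ∑ ν ∈ orb (gam F E n) x, f ν = ∑ i, m i * ∑ S : KO n (ω i), f (wtS S.1) := by
  classical
  obtain ⟨r, W, C, hW, hC, hsum⟩ := chr_coeff n x
  let s : Setoid (Emb F E → Fin r → ℕ) :=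
    { r := fun w w' => ∃ g : Gal F E, w' = pact g w
      iseqv := ⟨fun w => ⟨1, (pact_one w).symm⟩, fun {w w'} ⟨g, h⟩ => ⟨g⁻¹, by
          rw [h, ← pact_mul, inv_mul_cancel, pact_one]⟩,
        fun {w w' w''} ⟨g, h⟩ ⟨g', h'⟩ => ⟨g' * g, by rw [h', h, pact_mul]⟩⟩ }
  let rep : (Emb F E → Fin r → ℕ) → (Emb F E → Fin r → ℕ) := fun w => (Quotient.mk s w).out
  have hrep : ∀ w, ∃ g : Gal F E, w = pact g (rep w) := fun w => Quotient.mk_out (s := s) w
  have hrep' : ∀ w (g : Gal F E), rep (pact g w) = rep w := by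
    intro w g
    have h1 : Quotient.mk s (pact g w) = Quotient.mk s w := (Quotient.sound (s := s) ⟨g, rfl⟩).symm
    change (Quotient.mk s (pact g w)).out = (Quotient.mk s w).out
    rw [h1]
  have hrepW : ∀ w ∈ W, rep w ∈ W := by
    intro w hw
    obtain ⟨g, hg⟩ := hrep w
    have h1 : rep w = pact g⁻¹ w := by
      conv_rhs => rw [hg]
      rw [← pact_mul, inv_mul_cancel, pact_one]
    rw [h1]
    exact hW _ _ hw
  refine ⟨r, {w // w ∈ W.image rep}, inferInstance, fun w => w.1, fun w => C w.1, fun f => ?_⟩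
  -- the functional
  let L : MvPolynomial (Tot F E n) ℤ →ₗ[ℤ] ℤ :=
    (MvPolynomial.basisMonomials (Tot F E n) ℤ).constr ℤ fun ν => f fun t => ν t
  have hL : ∀ ν : Tot F E n → ℕ, L (chrMono n ν) = f ν := by
    intro ν
    rw [chrMono_monomial]
    have h := (MvPolynomial.basisMonomials (Tot F E n) ℤ).constr_basis ℤ
      (fun ν => f fun t => ν t) (Finsupp.equivFunOnFinite.symm ν)
    rw [MvPolynomial.coe_basisMonomials] at h
    exact h
  have h1 : ∑ ν ∈ orb (gam F E n) x, f ν = ∑ w ∈ W, C w *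
      ∑ S ∈ Finset.univ.filter (fun S : Fams F E n r => prof S = w), f (wtS S) := by
    have h2 := congrArg L hsum
    rw [map_sum, map_sum, Finset.sum_congr rfl fun ν _ => hL ν] at h2
    rw [h2]
    apply Finset.sum_congr rfl
    intro w _
    rw [map_smul, smul_eq_mul]
    unfold chrW
    rw [map_sum, Finset.sum_congr rfl fun S _ => hL (wtS S)]
  rw [h1]
  have h3 : ∀ w ∈ W, rep w ∈ W.image rep := fun w hw => Finset.mem_image_of_mem rep hw
  rw [← Finset.sum_fiberwise_of_maps_to h3]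
  have h4 : ∑ i : {w // w ∈ W.image rep}, C i.1 * ∑ S : KO n i.1, f (wtS S.1) =
      ∑ w₀ ∈ W.image rep, C w₀ * ∑ S : KO n w₀, f (wtS S.1) :=
    Finset.sum_coe_sort (W.image rep) fun w₀ => C w₀ * ∑ S : KO n w₀, f (wtS S.1)
  refine Eq.trans ?_ h4.symm
  apply Finset.sum_congr rfl
  intro w₀ hw₀
  obtain ⟨w₁, hw₁, rfl⟩ := Finset.mem_image.1 hw₀
  have h5 : ∀ w ∈ W.filter (fun w => rep w = rep w₁), C w *
      ∑ S ∈ Finset.univ.filter (fun S : Fams F E n r => prof S = w), f (wtS S) =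
      C (rep w₁) *
        ∑ S ∈ Finset.univ.filter (fun S : Fams F E n r => prof S = w), f (wtS S) := by
    intro w hw
    rw [Finset.mem_filter] at hw
    obtain ⟨g, hg⟩ := hrep w
    rw [hw.2] at hg
    have h6 : C w = C (rep w₁) := by rw [hg, hC]
    rw [h6]
  rw [Finset.sum_congr rfl h5, ← Finset.mul_sum]
  congr 1
  have h6 : ∑ S ∈ Finset.univ.filter (fun S : Fams F E n r =>
      ∃ g : Gal F E, prof S = pact g (rep w₁)), f (wtS S) =
      ∑ S : KO n (rep w₁), f (wtS S.1) :=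
    Finset.sum_subtype (p := fun S : Fams F E n r => ∃ g : Gal F E, prof S = pact g (rep w₁)) _
      (fun S => by simp) fun S => f (wtS S)
  rw [← h6]
  have h7 : ∀ S ∈ Finset.univ.filter (fun S : Fams F E n r =>
      ∃ g : Gal F E, prof S = pact g (rep w₁)), prof S ∈ W.filter (fun w => rep w = rep w₁) := by
    intro S hS
    obtain ⟨g, hg⟩ := (Finset.mem_filter.1 hS).2
    rw [Finset.mem_filter]
    constructor
    · rw [hg]
      exact hW _ _ (hrepW _ hw₁)
    · obtain ⟨g', hg'⟩ := hrep w₁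
      rw [hg, hrep']
      conv_rhs => rw [hg', hrep']
  rw [← Finset.sum_fiberwise_of_maps_to h7]
  apply Finset.sum_congr rfl
  intro w hw
  apply Finset.sum_congr _ fun _ _ => rfl
  rw [Finset.filter_filter]
  apply Finset.filter_congr
  intro S _
  constructor
  · intro hS
    refine ⟨?_, hS⟩
    obtain ⟨g, hg⟩ := hrep w
    rw [(Finset.mem_filter.1 hw).2] at hg
    exact ⟨g, hS.trans hg⟩
  · intro hS
    exact hS.2

end Pool.Agent.MP100fe7G
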