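import Pool.Agent.Lib.MP_100fe7_ntU.Defs

/-!
The group generated by the Deligne periods of the motives over `ℚ` obtained from motives `M i` over
number fields `F i`, and the group generated by the local periods.
-/

namespace Pool.Agent.MP100fe7G

open MP100fe7U

variable {ι : Type} [Fintype ι] [DecidableEq ι] {F : ι → Type} [∀ i, Field (F i)]
  [∀ i, NumberField (F i)] {E : Type} [Field E] [NumberField E] {n : ι → ℕ} {w : ι → ℤ}

/-- The functions of the data `M` with values in `(E ⊗ ℂ)ˣ = (ℂˣ)^{Hom(E, ℂ)}`. -/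
abbrev Fun (T : ∀ i, MType (F i) E (n i) (w i)) : Type :=
  (∀ i, Datum (T i)) → (E →+* ℂ) → ℂˣ

/-- The functions with values in `Eˣ`. -/
def coefficients (T : ∀ i, MType (F i) E (n i) (w i)) : Set (Fun T) :=
  {X | ∀ M, ∃ e : E, e ≠ 0 ∧ ∀ τ, (X M τ : ℂ) = τ e}

/-- `χ` is a character of the Galois group with values in `E`. -/
def IsCharacter (χ : Gal F E → E) : Prop := χ 1 = 1 ∧ ∀ g h, χ (g * h) = χ g * χ h

/-- The periods of the Artin motives of rank `1`, attached to the characters `χ` of the Galois group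
with values in `E`: the constant functions `(τ (χ g_τ))_τ`, where `τ ∘ g_τ φ = τ₀ ∘ φ`. -/
def artinPeriods (T : ∀ i, MType (F i) E (n i) (w i)) (hE : Split F E) (τ₀ : E →+* ℂ) :
    Set (Fun T) :=
  {X | ∃ χ : Gal F E → E, IsCharacter χ ∧ ∀ M τ, (X M τ : ℂ) = τ (χ (galElt hE τ τ₀))}

/-- The Deligne periods `c^+(N)`, `c^-(N)` of all the motives `N = ρ(M)` for which the step `F^±` of
the Hodge filtration exists. -/
def allPeriods (T : ∀ i, MType (F i) E (n i) (w i)) (hE : Split F E) (τ₀ : E →+* ℂ) :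
    Set (Fun T) :=
  {X | ∃ (κ : Type) (_ : Fintype κ) (_ : DecidableEq κ) (ρ : Rep F E n κ) (ε : E),
    (ε = 1 ∨ ε = -1) ∧ ∀ M, ρ.IsPeriod M hE τ₀ ε fun τ => (X M τ : ℂ)}

/-- `c q = c^+`, `d q = c^-` and `v q a = Q_a` are the periods of `M i` at the embedding
`q = ⟨i, φ⟩`, and `D q` is the determinant of its comparison matrix there. -/
structure IsLocal {T : ∀ i, MType (F i) E (n i) (w i)} (c d D : Emb F E → Fun T)
    (v : Emb F E → ℤ → Fun T) : Prop where
  pos : ∀ (q : Emb F E) (M : ∀ i, Datum (T i)) (τ : E →+* ℂ), IsConj τ q.2 q.2 →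
    (M q.1).IsRealPeriod τ q.2 1 (c q M τ)
  neg : ∀ (q : Emb F E) (M : ∀ i, Datum (T i)) (τ : E →+* ℂ), IsConj τ q.2 q.2 →
    (M q.1).IsRealPeriod τ q.2 (-1) (d q M τ)
  det : ∀ (q : Emb F E) (M : ∀ i, Datum (T i)) (τ : E →+* ℂ),
    (D q M τ : ℂ) = ((M q.1).comp τ q.2).det
  hodge : ∀ (q : Emb F E) (a : ℤ) (M : ∀ i, Datum (T i)) (τ : E →+* ℂ),
    (M q.1).IsHodgePeriod τ q.2 a (v q a M τ)

section group

variable (T : ∀ i, MType (F i) E (n i) (w i)) (hE : Split F E) (τ₀ : E →+* ℂ)
  (Φ : Finset (Emb F E)) {G : Type} [CommGroup G] (c d D : Emb F E → G) (v : Emb F E → ℤ → G)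

/-- The contribution of the embedding `q = ⟨i, φ⟩` to the period of the restriction of scalars of
`M i`: the real period `c q`, if `τ₀ ∘ φ` is real, the product of the determinant at the complex
conjugate of `φ` and the `v q a`, `a < w / 2`, if `q` is in `Φ`, and `1` otherwise. -/
noncomputable def resFactor (q : Emb F E) : G :=
  if IsConj τ₀ q.2 q.2 then c q
  else if q ∈ Φ then D (act (conjElt hE τ₀) q) * ∏ a ∈ (T q.1).lowIndices q.2, v q a
  else 1

/-- The period `c^+` of the restriction of scalars of `M i` to `ℚ`, or `c^-` if `c q` is the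
period `c^-` of `M i` at the real embeddings. -/
noncomputable def resPeriod (i : ι) : G := ∏ φ : Hm F E i, resFactor T hE τ₀ Φ c D v ⟨i, φ⟩

/-- The embedding `q'` is the image of `q` under an element of the Galois group which preserves
the Hodge indices of the `M i`. -/
def InOrbit (q q' : Emb F E) : Prop :=
  ∃ g : Gal F E, (∀ r : Emb F E, (T r.1).p (act g r).2 = (T r.1).p r.2) ∧ act g q = q'

noncomputable instance instDecOrbit (q : Emb F E) : DecidablePred (InOrbit T q) :=
  Classical.decPred _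

/-- The product of the periods `v q' a` over the orbit of `q` under these elements. -/
noncomputable def orbitPeriod (q : Emb F E) (a : ℤ) : G := ∏ q' with InOrbit T q q', v q' a

/-- The periods of the restrictions of scalars of the `M i`, and the products over the orbits. -/
def localPeriods : Set G :=
  Set.range (resPeriod T hE τ₀ Φ c D v) ∪ Set.range (resPeriod T hE τ₀ Φ d D v) ∪
    {x | ∃ q a, x = orbitPeriod T v q a}

end group

end Pool.Agent.MP100fe7G
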