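import Pool.Agent.Lib.MP_100fe7_ntG.Mnr

/-!
The representation on the sum over a Galois orbit of size profiles of the tensor products of the
exterior powers.
-/

set_option linter.unusedSectionVars false

namespace Pool.Agent.MP100fe7G

open MP100fe7U MP100fe7Cv Matrix

section no

variable {ι : Type} [Fintype ι] {F : ι → Type} [∀ i, Field (F i)] [∀ i, NumberField (F i)]
  {E : Type} [Field E] [NumberField E] (n : ι → ℕ) {r : ℕ} (ω : Emb F E → Fin r → ℕ)

/-- the polynomial matrix -/
noncomputable def matKO : Matrix (KO n ω) (KO n ω) (MvPolynomial (Ent F E n) E) :=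
  Matrix.of fun S T => ∏ q, ∏ k, mnr (Matrix.of fun a b => MvPolynomial.X ⟨q, (a, b)⟩)
    (S.1 q k) (T.1 q k)

theorem evalMat_matKO (S : Type) [CommRing S] [Algebra E S] (A : Fam F E n S) (U V : KO n ω) :
    evalMat (matKO n ω) S A U V = ∏ q, ∏ k, mnr (A q) (U.1 q k) (V.1 q k) := by
  have h1 : evalMat (matKO n ω) S A U V =
      (MvPolynomial.aeval fun t : Ent F E n => A t.1 t.2.1 t.2.2) (∏ q, ∏ k,
        mnr (Matrix.of fun a b => (MvPolynomial.X ⟨q, (a, b)⟩ : MvPolynomial (Ent F E n) E))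
          (U.1 q k) (V.1 q k)) := rfl
  rw [h1, map_prod]
  refine Finset.prod_congr rfl fun q _ => ?_
  rw [map_prod]
  refine Finset.prod_congr rfl fun k _ => ?_
  have h2 := mnr_map (MvPolynomial.aeval (R := E) fun t : Ent F E n => A t.1 t.2.1 t.2.2).toRingHom
    (Matrix.of fun a b => (MvPolynomial.X ⟨q, (a, b)⟩ : MvPolynomial (Ent F E n) E))
    (U.1 q k) (V.1 q k)
  have h3 : (Matrix.of fun a b => (MvPolynomial.X ⟨q, (a, b)⟩ : MvPolynomial (Ent F E n) E)).map
      (MvPolynomial.aeval (R := E) fun t : Ent F E n => A t.1 t.2.1 t.2.2).toRingHom = A q := by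
    ext a b
    rw [Matrix.map_apply, Matrix.of_apply]
    exact MvPolynomial.aeval_X _ _
  rw [h3] at h2
  exact h2.symm

variable {n ω} in
private theorem no_card_sum {m : ℕ} (G : Fin r → Finset (Fin m)) :
    ∑ j, (Finset.univ.filter fun k : Fin r => j ∈ G k).card = ∑ k, (G k).card := by
  have h1 : ∀ j : Fin m, (Finset.univ.filter fun k : Fin r => j ∈ G k).card =
      ∑ k, if j ∈ G k then 1 else 0 := fun j => by
    rw [Finset.card_filter]
  have h2 : ∀ k : Fin r, (G k).card = ∑ j, if j ∈ G k then 1 else 0 := fun k => by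
    rw [← Finset.card_filter]
    congr 1
    ext j
    simp
  simp_rw [h1, h2]
  exact Finset.sum_comm

variable {n} in
private theorem no_prof_fact (g : Gal F E) (S : Fams F E n r) :
    prof (fact g S) = pact g (prof S) := rfl

private theorem no_pact_mul (g h : Gal F E) (x : Emb F E → Fin r → ℕ) :
    pact g (pact h x) = pact (g * h) x := by
  funext q
  unfold pact
  rw [_root_.mul_inv_rev]
  rfl

variable {n} in
private theorem no_fact_mul (g h : Gal F E) (S : Fams F E n r) :
    fact (g * h) S = fact g (fact h S) := by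
  have h1 : (g * h)⁻¹ = h⁻¹ * g⁻¹ := _root_.mul_inv_rev g h
  funext q
  unfold fact
  rw [h1]
  rfl

variable {n} in
private theorem no_fact_one (S : Fams F E n r) : fact 1 S = S := by
  funext q
  unfold fact
  rw [inv_one]
  rfl

/-- the Galois group acts on `KO` -/
private noncomputable def no_fk (g : Gal F E) (T : KO n ω) : KO n ω :=
  ⟨fact g T.1, by
    obtain ⟨h, hh⟩ := T.2
    exact ⟨g * h, by rw [no_prof_fact, hh, no_pact_mul]⟩⟩

private theorem no_fk_inv (g : Gal F E) (U W : KO n ω) :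
    U.1 = fact g W.1 ↔ W = no_fk n ω g⁻¹ U := by
  constructor
  · intro h
    apply Subtype.ext
    show W.1 = fact g⁻¹ U.1
    rw [h, ← no_fact_mul, inv_mul_cancel, no_fact_one]
  · intro h
    rw [h]
    show U.1 = fact g (fact g⁻¹ U.1)
    rw [← no_fact_mul, mul_inv_cancel, no_fact_one]

private theorem no_act_back (g : Gal F E) (V : Fams F E n r) (q : Emb F E) :
    V (act g⁻¹ (act g q)) = V q := by
  obtain ⟨i, φ⟩ := q
  have h : (g⁻¹ : Gal F E).1 i (g.1 i φ) = φ := by
    have h1 := act_inv_act g (⟨i, φ⟩ : Emb F E)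
    exact eq_of_heq (Sigma.mk.inj_iff.mp h1).2
  show V ⟨i, (g⁻¹ : Gal F E).1 i (g.1 i φ)⟩ = V ⟨i, φ⟩
  rw [h]

/-- the representation `N_ω` -/
noncomputable def noRep : Rep F E n (KO n ω) where
  mat := matKO n ω
  twist := fun _ => 0
  wt := fun S t => wtS S.1 t
  deg := fun i => ∑ φ : Hm F E i, ∑ k, ω ⟨i, φ⟩ k
  sum_wt := by
    rintro ⟨S, g, hg⟩ i
    have h1 : ∀ φ : Hm F E i, ∑ j, wtS S ⟨⟨i, φ⟩, j⟩ = ∑ k, ω ⟨i, (g⁻¹ : Gal F E).1 i φ⟩ k := by
      intro φ
      have h2 := no_card_sum (S ⟨i, φ⟩)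
      refine h2.trans (Finset.sum_congr rfl fun k _ => ?_)
      have h3 := congrFun (congrFun hg ⟨i, φ⟩) k
      exact h3
    have h4 : ∑ φ : Hm F E i, ∑ j, wtS S ⟨⟨i, φ⟩, j⟩ =
        ∑ φ : Hm F E i, ∑ k, ω ⟨i, (g⁻¹ : Gal F E).1 i φ⟩ k :=
      Finset.sum_congr rfl fun φ _ => h1 φ
    rw [h4]
    exact Equiv.sum_comp ((g⁻¹ : Gal F E).1 i) (fun φ => ∑ k, ω ⟨i, φ⟩ k)
  map_mul := by
    intro S _ _ A B
    ext U V
    rw [evalMat_matKO, Matrix.mul_apply]
    have h1 : ∀ T : KO n ω, evalMat (matKO n ω) S A U T * evalMat (matKO n ω) S B T V =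
        ∏ q, ∏ k, (mnr (A q) (U.1 q k) (T.1 q k) * mnr (B q) (T.1 q k) (V.1 q k)) := by
      intro T
      rw [evalMat_matKO, evalMat_matKO, ← Finset.prod_mul_distrib]
      refine Finset.prod_congr rfl fun q _ => ?_
      rw [← Finset.prod_mul_distrib]
    rw [Finset.sum_congr rfl fun T _ => h1 T]
    have h2 : ∏ q, ∏ k, mnr ((A * B) q) (U.1 q k) (V.1 q k) =
        ∑ T : Fams F E n r, ∏ q, ∏ k,
          (mnr (A q) (U.1 q k) (T q k) * mnr (B q) (T q k) (V.1 q k)) := by
      have h3 : ∀ q, ∏ k, mnr ((A * B) q) (U.1 q k) (V.1 q k) =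
          ∑ c : Fin r → Finset (Fin (n q.1)), ∏ k,
            (mnr (A q) (U.1 q k) (c k) * mnr (B q) (c k) (V.1 q k)) := by
        intro q
        have h4 : ∀ k, mnr ((A * B) q) (U.1 q k) (V.1 q k) =
            ∑ C, mnr (A q) (U.1 q k) C * mnr (B q) C (V.1 q k) := fun k => mnr_mul _ _ _ _
        rw [Finset.prod_congr rfl fun k _ => h4 k]
        rw [Finset.prod_univ_sum]
        rw [Fintype.piFinset_univ]
      rw [Finset.prod_congr rfl fun q _ => h3 q]
      rw [Finset.prod_univ_sum]
      rw [Fintype.piFinset_univ]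
    rw [h2]
    classical
    have h5 : ∑ T : KO n ω, ∏ q, ∏ k,
          (mnr (A q) (U.1 q k) (T.1 q k) * mnr (B q) (T.1 q k) (V.1 q k)) =
        ∑ T ∈ (Finset.univ.filter fun T : Fams F E n r => ∃ g : Gal F E, prof T = pact g ω),
          ∏ q, ∏ k, (mnr (A q) (U.1 q k) (T q k) * mnr (B q) (T q k) (V.1 q k)) := by
      refine Finset.sum_bij (fun T _ => T.1) ?_ ?_ ?_ ?_
      · intro T _
        exact Finset.mem_filter.2 ⟨Finset.mem_univ _, T.2⟩
      · intro T _ T' _ h
        exact Subtype.ext h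
      · intro T hT
        exact ⟨⟨T, (Finset.mem_filter.1 hT).2⟩, Finset.mem_univ _, rfl⟩
      · intro T _
        rfl
    rw [h5, Finset.sum_filter_of_ne]
    intro T _ hne
    have h6 : prof U.1 = prof T := by
      funext q k
      have h8 : mnr (A q) (U.1 q k) (T q k) ≠ 0 := fun h0 => hne
        (Finset.prod_eq_zero (Finset.mem_univ q) (Finset.prod_eq_zero (Finset.mem_univ k)
          (by rw [h0, zero_mul])))
      exact mnr_card h8
    obtain ⟨g, hg⟩ := U.2
    exact ⟨g, by rw [← h6, hg]⟩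
  map_diagonal := by
    intro S _ _ x
    ext U V
    rw [evalMat_matKO]
    by_cases h : U = V
    · subst h
      rw [Matrix.diagonal_apply_eq]
      have hR : (∏ t : Tot F E n, x t ^ wtS U.1 t) =
          ∏ q : Emb F E, ∏ j : Fin (n q.1), x ⟨q, j⟩ ^ wtS U.1 ⟨q, j⟩ := Fintype.prod_sigma _
      rw [hR]
      refine Finset.prod_congr rfl fun q _ => ?_
      have h1 : ∀ k : Fin r, mnr (diagonal fun j => x ⟨q, j⟩) (U.1 q k) (U.1 q k) =
          ∏ j, if j ∈ U.1 q k then x ⟨q, j⟩ else 1 := by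
        intro k
        rw [mnr_diagonal, if_pos rfl]
        rw [← Finset.prod_filter]
        refine Finset.prod_congr ?_ fun _ _ => rfl
        ext j
        simp
      rw [Finset.prod_congr rfl fun k _ => h1 k, Finset.prod_comm]
      refine Finset.prod_congr rfl fun j _ => ?_
      unfold wtS
      rw [← Finset.prod_filter, Finset.prod_const]
    · rw [Matrix.diagonal_apply_ne _ h]
      have h1 : ∃ q k, U.1 q k ≠ V.1 q k := by
        by_contra h2
        push Not at h2
        exact h (Subtype.ext (funext fun q => funext fun k => h2 q k))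
      obtain ⟨q, k, hqk⟩ := h1
      refine Finset.prod_eq_zero (Finset.mem_univ q) (Finset.prod_eq_zero (Finset.mem_univ k) ?_)
      rw [mnr_diagonal, if_neg hqk]
  perm := fun g => Matrix.of fun S T => if S.1 = fact g T.1 then 1 else 0
  perm_one := by
    ext U V
    rw [Matrix.of_apply, Matrix.one_apply, no_fact_one]
    by_cases h : U = V
    · rw [if_pos h, if_pos (congrArg Subtype.val h)]
    · rw [if_neg h, if_neg fun h2 => h (Subtype.ext h2)]
  perm_mul := by
    intro g h
    ext U V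
    rw [Matrix.mul_apply, Finset.sum_eq_single (no_fk n ω h V)]
    · rw [Matrix.of_apply, Matrix.of_apply, Matrix.of_apply, no_fact_mul]
      have h1 : (no_fk n ω h V).1 = fact h V.1 := rfl
      rw [h1, if_pos rfl, mul_one]
    · intro W _ hW
      rw [Matrix.of_apply, Matrix.of_apply, if_neg fun h2 : W.1 = fact h V.1 =>
        hW (Subtype.ext h2), mul_zero]
    · intro h2
      exact absurd (Finset.mem_univ _) h2
  perm_eval := by
    intro g S _ _ A
    ext U V
    rw [Matrix.mul_apply, Matrix.mul_apply, Finset.sum_eq_single (no_fk n ω g⁻¹ U),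
      Finset.sum_eq_single (no_fk n ω g V)]
    · rw [Matrix.map_apply, Matrix.map_apply, Matrix.of_apply, Matrix.of_apply,
        if_pos ((no_fk_inv n ω g U _).2 rfl),
        if_pos (show (no_fk n ω g V).1 = fact g V.1 from rfl), map_one, one_mul, mul_one,
        evalMat_matKO, evalMat_matKO]
      rw [← Equiv.prod_comp (actEquiv g)
        (fun q => ∏ k, mnr (A q) (U.1 q k) ((no_fk n ω g V).1 q k))]
      refine Finset.prod_congr rfl fun q _ => ?_
      refine Finset.prod_congr rfl fun k _ => ?_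
      have h1 : (no_fk n ω g V).1 (act g q) = V.1 q := no_act_back n g V.1 q
      have h2 : (no_fk n ω g⁻¹ U).1 q = U.1 (act g q) := by
        show U.1 (act (g⁻¹)⁻¹ q) = U.1 (act g q)
        rw [inv_inv]
      show mnr (A (act g q)) ((no_fk n ω g⁻¹ U).1 q k) (V.1 q k) =
        mnr (A (act g q)) (U.1 (act g q) k) ((no_fk n ω g V).1 (act g q) k)
      rw [h1, h2]
    · intro W _ hW
      rw [Matrix.map_apply, Matrix.of_apply, if_neg fun h2 : W.1 = fact g V.1 =>
        hW (Subtype.ext h2), map_zero, mul_zero]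
    · intro h2
      exact absurd (Finset.mem_univ _) h2
    · intro W _ hW
      rw [Matrix.map_apply, Matrix.of_apply, if_neg fun h2 : U.1 = fact g W.1 =>
        hW ((no_fk_inv n ω g U W).1 h2), map_zero, zero_mul]
    · intro h2
      exact absurd (Finset.mem_univ _) h2

end no

end Pool.Agent.MP100fe7G
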