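import Pool.Agent.Lib.MP_100fe7_ntG.DefsI
import Pool.Agent.Lib.MP_100fe7_ntG.NO

/-!
The Deligne periods of the motives `N_ω`.
-/

namespace Pool.Agent.MP100fe7G

open MP100fe7U

variable {ι : Type} [Fintype ι] [DecidableEq ι] {F : ι → Type} [∀ i, Field (F i)]
  [∀ i, NumberField (F i)] {E : Type} [Field E] [NumberField E] {n : ι → ℕ} {w : ι → ℤ}

/-- The differences `p - q` of the Hodge types of `M i` are odd multiples of `b`. -/
def OddMultiples (T : ∀ i, MType (F i) E (n i) (w i)) (b : ℤ) (i : ι) : Prop :=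
  ∀ (φ : Hm F E i) (j : Fin (n i)), ∃ k, 2 * (T i).p φ j - w i = b * (2 * k + 1)

/-- The differences `p - q` of the Hodge types of `M i` are even multiples of `b`. -/
def EvenMultiples (T : ∀ i, MType (F i) E (n i) (w i)) (b : ℤ) (i : ι) : Prop :=
  ∀ (φ : Hm F E i) (j : Fin (n i)), ∃ k, 2 * (T i).p φ j - w i = b * (2 * k)

/-- For each `M i`, the differences `p - q` are all odd multiples of `b` or all even multiples of
`b`. If they are even, then for each embedding `q` of `F i` there is an embedding `q'` of a field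
`F j` whose image is contained in that of `q` (`q'` is fixed by the elements of the Galois group
which fix `q`), such that the differences of `M j` are odd multiples of `b` and `M j` has a Hodge
number at `q'` which is odd. -/
def ParityCond (T : ∀ i, MType (F i) E (n i) (w i)) (b : ℤ) : Prop :=
  b ≠ 0 ∧ ∀ q : Emb F E, OddMultiples T b q.1 ∨ (EvenMultiples T b q.1 ∧
    ∃ (q' : Emb F E) (a : ℤ), (∀ g : Gal F E, act g q = q → act g q' = q') ∧
      OddMultiples T b q'.1 ∧ Odd (Fintype.card ((T q'.1).Block q'.2 a)))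

/-- The Deligne periods of the `N_ω` without middle classes: `N_ω` is the motive over `ℚ` whose
realisation is the sum over the conjugates `ω'` of `ω` of the tensor products of the exterior powers
`Λ^(ω' q k)` of the `q`-parts of the `M i`, over all embeddings `q` and all `k`. -/
def noPeriods (T : ∀ i, MType (F i) E (n i) (w i)) (hE : Split F E) (τ₀ : E →+* ℂ) :
    Set (Fun T) :=
  {X | ∃ (r : ℕ) (ω : Emb F E → Fin r → ℕ) (ε : E), (ε = 1 ∨ ε = -1) ∧
    (noRep n ω).NoMiddle T ∧ ∀ M, (noRep n ω).IsPeriod M hE τ₀ ε fun τ => (X M τ : ℂ)}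

theorem parityCond {T : ∀ i, MType (F i) E (n i) (w i)} {b : ℤ} {e : ι → ℤ}
    (h : ParityCondition T b e) : ParityCond T b := by
  obtain ⟨hb, h1, h2⟩ := h
  have h3 : ∀ i, Odd (e i) → OddMultiples T b i := by
    rintro i ⟨m, hm⟩ φ j
    obtain ⟨k, hk⟩ := h1 i φ j
    exact ⟨k + m, by rw [hk, hm]; ring⟩
  refine ⟨hb, fun q => ?_⟩
  rcases Int.even_or_odd (e q.1) with h4 | h4
  · rcases h2 q with h5 | ⟨q', a, h5, h6, h7⟩
    · exact absurd h4 (Int.not_even_iff_odd.2 h5)
    · refine Or.inr ⟨?_, q', a, h6, h3 _ h5, h7⟩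
      intro φ j
      obtain ⟨m, hm⟩ := h4
      obtain ⟨k, hk⟩ := h1 q.1 φ j
      exact ⟨k + m, by rw [hk, hm]; ring⟩
  · exact Or.inl (h3 _ h4)

end Pool.Agent.MP100fe7G
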