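import Pool.Agent.Lib.MP_100fe7_ntG.DefsG

/-!
The group of all the periods, and the Deligne periods of the motives `N_ω`.
-/

set_option linter.unusedSectionVars false

namespace Pool.Agent.MP100fe7G

open MP100fe7U

variable {ι : Type} [Fintype ι] [DecidableEq ι] {F : ι → Type} [∀ i, Field (F i)]
  [∀ i, NumberField (F i)] {E : Type} [Field E] [NumberField E] {n : ι → ℕ} {w : ι → ℤ}

/-- The differences `p - q` of the Hodge types of `M i` are odd multiples of `b`, if `e i` is odd,
and even multiples of `b`, if `e i` is even. If `e i` is even, then for each embedding `q` of `F i`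
there is an embedding `q'` of a field `F j` such that the image of `q'` is contained in that of `q`
(`q'` is fixed by the elements of the Galois group which fix `q`), such that `e j` is odd and `M j`
has a Hodge number at `q'` which is odd. -/
def ParityCondition (T : ∀ i, MType (F i) E (n i) (w i)) (b : ℤ) (e : ι → ℤ) : Prop :=
  b ≠ 0 ∧ (∀ (i : ι) (φ : Hm F E i) (j : Fin (n i)), ∃ k, 2 * (T i).p φ j - w i =
    b * (2 * k + e i)) ∧ ∀ q : Emb F E, Odd (e q.1) ∨ ∃ (q' : Emb F E) (a : ℤ), Odd (e q'.1) ∧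
      (∀ g : Gal F E, act g q = q → act g q' = q') ∧
      Odd (Fintype.card ((T q'.1).Block q'.2 a))

/-- The periods of the Artin motives of rank `1`, attached to the characters `χ` of the Galois group
with values in `E`: the constant functions `(τ (χ g_τ))_τ`, where `τ ∘ g_τ φ = τ₀ ∘ φ`. -/
def rankOnePeriods (T : ∀ i, MType (F i) E (n i) (w i)) (hE : Split F E) (τ₀ : E →+* ℂ) :
    Set (Fun T) :=
  {X | ∃ χ : Gal F E → E, χ 1 = 1 ∧ (∀ g h, χ (g * h) = χ g * χ h) ∧
    ∀ M τ, (X M τ : ℂ) = τ (χ (galElt hE τ τ₀))}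

/-- The group generated by the Deligne periods of all the motives `N = ρ(M)`, and by `Eˣ`. -/
def periodGroup (T : ∀ i, MType (F i) E (n i) (w i)) (hE : Split F E) (τ₀ : E →+* ℂ) :
    Subgroup (Fun T) := Subgroup.closure (coefficients T ∪ allPeriods T hE τ₀)

/-- The group generated by `S`, the periods of the Artin motives of rank `1`, and `Eˣ`. -/
def generated (T : ∀ i, MType (F i) E (n i) (w i)) (hE : Split F E) (τ₀ : E →+* ℂ)
    (S : Set (Fun T)) : Subgroup (Fun T) :=
  Subgroup.closure (coefficients T ∪ rankOnePeriods T hE τ₀ ∪ S)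

/-- The minor of `X` with the rows `A` and the columns `B`, or `0` if their numbers differ. -/
noncomputable def minor {m : ℕ} {R : Type} [CommRing R] (X : Matrix (Fin m) (Fin m) R)
    (A B : Finset (Fin m)) : R :=
  if h : B.card = A.card then
    (X.submatrix (A.orderEmbOfFin rfl) (B.orderEmbOfFin h)).det
  else 0

/-- `ρ` is the representation `N_ω` on the sum over the conjugates `ω'` of `ω` of the tensor
products of the exterior powers `Λ^(ω' q k)` of the standard representations of the factors `q`,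
over all embeddings `q` and all `k`. The basis vector `s` is the tensor product of the exterior
products of the basis vectors in the sets `S s q k`, which have `ω' q k` elements. -/
structure IsTensor {κ : Type} [Fintype κ] [DecidableEq κ] (ρ : Rep F E n κ) {r : ℕ}
    (ω : Emb F E → Fin r → ℕ) (S : κ → ∀ q : Emb F E, Fin r → Finset (Fin (n q.1))) : Prop where
  injective : Function.Injective S
  range : ∀ U, U ∈ Set.range S ↔ ∃ g : Gal F E, ∀ q k, (U (act g q) k).card = ω q k
  mat : ∀ s t, ρ.mat s t = ∏ q, ∏ k,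
    minor (Matrix.of fun a b => MvPolynomial.X ⟨q, (a, b)⟩) (S s q k) (S t q k)
  twist : ∀ i, ρ.twist i = 0
  perm_eq : ∀ g s t, (∀ q, S s (act g q) = S t q) → ρ.perm g s t = 1
  perm_ne : ∀ g s t, (¬ ∀ q, S s (act g q) = S t q) → ρ.perm g s t = 0

/-- The Deligne periods of the `N_ω` without middle classes. -/
def tensorPeriods (T : ∀ i, MType (F i) E (n i) (w i)) (hE : Split F E) (τ₀ : E →+* ℂ) :
    Set (Fun T) :=
  {X | ∃ (κ : Type) (_ : Fintype κ) (_ : DecidableEq κ) (ρ : Rep F E n κ) (r : ℕ)
    (ω : Emb F E → Fin r → ℕ) (S : κ → ∀ q : Emb F E, Fin r → Finset (Fin (n q.1))) (ε : E),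
    IsTensor ρ ω S ∧
    ρ.NoMiddle T ∧ (ε = 1 ∨ ε = -1) ∧ ∀ M, ρ.IsPeriod M hE τ₀ ε fun τ => (X M τ : ℂ)}

/-- No product of powers of the periods of the restrictions of scalars and of the `v q a`, `q = ⟨i,
φ⟩`, `a < w / 2` at the real embeddings, `q` in `Φ` at the others, is in the group generated by the
Artin periods and `Eˣ`, except for the powers of `c^+ / c^-` of the restriction of scalars of `M i`
if `F i` has no real embedding, and trivial cases. -/
def Independent (T : ∀ i, MType (F i) E (n i) (w i)) (hE : Split F E) (τ₀ : E →+* ℂ)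
    (Φ : Finset (Emb F E)) (c d D : Emb F E → Fun T) (v : Emb F E → ℤ → Fun T) : Prop :=
  ∀ (α β : ι → ℤ) (y : Emb F E → ℤ → ℤ),
    (∀ q a, y q a ≠ 0 → if IsConj τ₀ q.2 q.2 then 2 * a < w q.1 else q ∈ Φ) →
    (∏ i, (resPeriod T hE τ₀ Φ c D v i ^ α i * resPeriod T hE τ₀ Φ d D v i ^ β i)) *
      ∏ q, ∏ a ∈ (T q.1).indices q.2, v q a ^ y q a ∈ generated T hE τ₀ ∅ →
    (∀ i, n i ≠ 0 → α i + β i = 0 ∧ ((∃ φ : Hm F E i, IsConj τ₀ φ φ) → α i = 0)) ∧
      ∀ q, ∀ a ∈ (T q.1).indices q.2, y q a = 0

end Pool.Agent.MP100fe7G
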