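import Pool.Agent.Lib.MP_100fe7_ntG.Set

/-!
The complex conjugation is central; the traces of the weights.
-/

set_option linter.unusedSectionVars false

namespace Pool.Agent.MP100fe7G

open MP100fe7U Matrix MP100fe7L

variable {ι : Type} [Fintype ι] [DecidableEq ι] {F : ι → Type} [∀ i, Field (F i)]
  [∀ i, NumberField (F i)] {E : Type} [Field E] [NumberField E] {n : ι → ℕ} {w : ι → ℤ}
  {T : ∀ i, MType (F i) E (n i) (w i)} {hE : Split F E} {τ₀ : E →+* ℂ} {Φ : Finset (Emb F E)}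
  (hG : Good T hE τ₀ Φ) {κ : Type} [Fintype κ] [DecidableEq κ] (ρ : Rep F E n κ)

include hG in
theorem central (g : Gal F E) : g * conjElt hE τ₀ = conjElt hE τ₀ * g := by
  have h0 : ∀ g ∈ Gal F E, ∀ h : g ∈ Gal F E,
      (⟨g, h⟩ : Gal F E) * conjElt hE τ₀ = conjElt hE τ₀ * ⟨g, h⟩ := by
    intro g hg
    unfold Gal at hg
    refine Subgroup.closure_induction (p := fun g _ => ∀ h : g ∈ Gal F E,
      (⟨g, h⟩ : Gal F E) * conjElt hE τ₀ = conjElt hE τ₀ * ⟨g, h⟩) ?_ ?_ ?_ ?_ hg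
    · rintro g ⟨τ, τ', hg⟩ h
      have h1 : (⟨g, h⟩ : Gal F E) = galElt hE τ τ' := by
        apply gal_ext
        rintro ⟨i, φ⟩
        change (⟨i, g i φ⟩ : Emb F E) = ⟨i, (galElt hE τ τ').1 i φ⟩
        have h2 : g i φ = (galElt hE τ τ').1 i φ := by
          apply comp_injective τ
          rw [galElt_spec, hg]
        rw [h2]
      rw [h1]
      have h3 := galElt_conj hE τ τ'
      rw [hG.conj τ, hG.conj τ'] at h3
      exact h3
    · intro h
      have h1 : (⟨1, h⟩ : Gal F E) = 1 := rfl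
      rw [h1, one_mul, mul_one]
    · intro x y hx hy h1 h2 h
      have h3 := h1 hx
      have h4 := h2 hy
      have h5 : (⟨x * y, h⟩ : Gal F E) = ⟨x, hx⟩ * ⟨y, hy⟩ := rfl
      rw [h5, mul_assoc, h4, ← mul_assoc, h3, mul_assoc]
    · intro x hx h1 h
      have h3 := h1 hx
      have h5 : (⟨x⁻¹, h⟩ : Gal F E) = (⟨x, hx⟩ : Gal F E)⁻¹ := rfl
      rw [h5]
      exact inv_rel h3
  exact h0 g.1 g.2 g.2

include hG in
theorem pull_sgn (g : Gal F E) : Rep.pull g (sD (sT T τ₀) E) = (sD (sT T τ₀) E : Fam F E n E) := by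
  funext q
  unfold Rep.pull sD fdiag
  congr 1
  funext j
  change (((T q.1).sgn (τ₀.comp (g.1 q.1 q.2)) j : ℤ) : E) = ((T q.1).sgn (τ₀.comp q.2) j : ℤ)
  rw [hG.sgn q.1 (τ₀.comp (g.1 q.1 q.2)) (τ₀.comp q.2)]

include hG in
theorem perm_frob (g : Gal F E) : ρ.perm g * ρ.frob T hE τ₀ = ρ.frob T hE τ₀ * ρ.perm g := by
  rw [frob_eq, ← sD_sT]
  exact ρ.Fr_gal (central hG g) (pull_sgn hG g)

/-- the trace of the weight at `t` on the eigenspace, times two -/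
noncomputable def trW (T : ∀ i, MType (F i) E (n i) (w i)) (hE : Split F E) (τ₀ : E →+* ℂ)
    (ρ : Rep F E n κ) (ε : E) (t : Tot F E n) : E :=
  ∑ s, (ρ.weight s t : E) * (1 + ε * ρ.frob T hE τ₀ s s)

theorem trW_eq (ε : E) (t : Tot F E n) : trW T hE τ₀ ρ ε t =
    Matrix.trace (Matrix.diagonal (fun s => (ρ.weight s t : E)) * (1 + ε • ρ.frob T hE τ₀)) := by
  unfold trW Matrix.trace
  apply Finset.sum_congr rfl
  intro s _
  simp [Matrix.diagonal_mul]

theorem weight_perm (g : Gal F E) (s t : κ) (h : ρ.perm g s t ≠ 0) (q : Emb F E)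
    (j : Fin (n q.1)) : ρ.weight s ⟨act g q, j⟩ = ρ.weight t ⟨q, j⟩ := by
  unfold Rep.weight
  rw [ρ.wt_perm g s t h q j]

theorem diag_perm (g : Gal F E) (q : Emb F E) (j : Fin (n q.1)) :
    Matrix.diagonal (fun s => (ρ.weight s ⟨act g q, j⟩ : E)) * ρ.perm g =
      ρ.perm g * Matrix.diagonal (fun s => (ρ.weight s ⟨q, j⟩ : E)) := by
  ext s t
  rw [diagonal_mul, mul_diagonal]
  by_cases h : ρ.perm g s t = 0
  · rw [h, mul_zero, zero_mul]
  · rw [weight_perm ρ g s t h q j, mul_comm]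

include hG in
theorem trW_gal (g : Gal F E) (ε : E) (q : Emb F E) (j : Fin (n q.1)) :
    trW T hE τ₀ ρ ε ⟨act g q, j⟩ = trW T hE τ₀ ρ ε ⟨q, j⟩ := by
  rw [trW_eq, trW_eq]
  have h1 : Matrix.diagonal (fun s => (ρ.weight s ⟨act g q, j⟩ : E)) =
      ρ.perm g * Matrix.diagonal (fun s => (ρ.weight s ⟨q, j⟩ : E)) * ρ.perm g⁻¹ := by
    rw [← diag_perm, Matrix.mul_assoc, ρ.perm_mul_inv, Matrix.mul_one]
  have h2 : ρ.perm g⁻¹ * (1 + ε • ρ.frob T hE τ₀) = (1 + ε • ρ.frob T hE τ₀) * ρ.perm g⁻¹ := by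
    rw [Matrix.mul_add, Matrix.add_mul, Matrix.mul_one, Matrix.one_mul, Matrix.mul_smul,
      Matrix.smul_mul, perm_frob hG]
  rw [h1, Matrix.mul_assoc, h2, ← Matrix.mul_assoc, Matrix.trace_mul_comm, ← Matrix.mul_assoc,
    ← Matrix.mul_assoc, ρ.perm_inv_mul, Matrix.one_mul]

/-- the sum of the weights at `(q, j)` does not change under the Galois group -/
theorem tot_gal (g : Gal F E) (q : Emb F E) (j : Fin (n q.1)) :
    ∑ s, ρ.weight s ⟨act g q, j⟩ = ∑ s, ρ.weight s ⟨q, j⟩ := by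
  obtain ⟨r, hr⟩ := ρ.exists_perm g
  rw [← Equiv.sum_comp r]
  apply Finset.sum_congr rfl
  intro s _
  exact weight_perm ρ g _ _ (hr s) q j

end Pool.Agent.MP100fe7G
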