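import Pool.Agent.Lib.MP_100fe7_ntG.ExpA

/-!
The sums of the weights over the basis vectors, over the low part, and with the signs.
-/

set_option linter.unusedSectionVars false

namespace Pool.Agent.MP100fe7G

open MP100fe7U Matrix MP100fe7L

variable {ι : Type} [Fintype ι] [DecidableEq ι] {F : ι → Type} [∀ i, Field (F i)]
  [∀ i, NumberField (F i)] {E : Type} [Field E] [NumberField E] {n : ι → ℕ} {w : ι → ℤ}
  {T : ∀ i, MType (F i) E (n i) (w i)} {hE : Split F E} {τ₀ : E →+* ℂ} {Φ : Finset (Emb F E)}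
  (hG : Good T hE τ₀ Φ) {κ : Type} [Fintype κ] [DecidableEq κ] (ρ : Rep F E n κ)

theorem exists_perm_mat (X : Matrix κ κ E) (h1 : X.det ≠ 0) :
    ∃ r : Equiv.Perm κ, ∀ t, X (r t) t ≠ 0 := by
  rw [det_apply] at h1
  obtain ⟨r, -, hr⟩ := Finset.exists_ne_zero_of_sum_ne_zero h1
  refine ⟨r, ?_⟩
  intro t ht
  apply hr
  have h3 : ∏ i, X (r i) i = 0 := Finset.prod_eq_zero (Finset.mem_univ t) ht
  rw [h3, smul_zero]

/-- a family of permutation matrices -/
def pmF (E : Type) [Field E] (π : ∀ q : Emb F E, Equiv.Perm (Fin (n q.1))) : Fam F E n E :=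
  fun q => Matrix.of fun k l => if k = π q l then 1 else 0

theorem pmF_mul (π π' : ∀ q : Emb F E, Equiv.Perm (Fin (n q.1))) :
    pmF E π * pmF E π' = pmF E (fun q => π q * π' q) := by
  funext q
  change pmF E π q * pmF E π' q = pmF E (fun q => π q * π' q) q
  ext k l
  rw [Matrix.mul_apply]
  unfold pmF
  simp only [of_apply]
  rw [Finset.sum_eq_single (π' q l)]
  · rw [if_pos rfl, mul_one]
    rfl
  · intro m _ hm
    rw [if_neg hm, mul_zero]
  · simp

theorem pmF_one : pmF E (fun q => (1 : Equiv.Perm (Fin (n q.1)))) = (1 : Fam F E n E) := by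
  funext q
  ext k l
  change (if k = l then (1 : E) else 0) = (1 : Matrix (Fin (n q.1)) (Fin (n q.1)) E) k l
  rw [Matrix.one_apply]

theorem tot_perm (q : Emb F E) (j j' : Fin (n q.1)) :
    ∑ s, ρ.weight s ⟨q, j'⟩ = ∑ s, ρ.weight s ⟨q, j⟩ := by
  classical
  let π : ∀ q : Emb F E, Equiv.Perm (Fin (n q.1)) :=
    Function.update (fun _ => 1) q (Equiv.swap j j')
  have h1 : ρ.toPol.pol E (pmF E π) * ρ.toPol.pol E (pmF E (fun q => (π q)⁻¹)) = 1 := by
    rw [← ρ.toPol.pol_mul, pmF_mul]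
    have h2 : (fun q => π q * (π q)⁻¹) = fun q : Emb F E => (1 : Equiv.Perm (Fin (n q.1))) := by
      funext q
      exact mul_inv_cancel _
    rw [h2, pmF_one]
    exact ρ.toPol.pol_one E
  have h3 : (ρ.toPol.pol E (pmF E π)).det ≠ 0 := by
    have h4 := congrArg Matrix.det h1
    rw [det_mul, det_one] at h4
    exact left_ne_zero_of_mul_eq_one h4
  obtain ⟨r, hr⟩ := exists_perm_mat _ h3
  rw [← Equiv.sum_comp r]
  apply Finset.sum_congr rfl
  intro s _
  have h5 := wt_mono ρ π (W := pmF E π) (fun q k l hk => if_neg hk) _ _ (hr s) q j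
  have h6 : π q j = j' := by
    simp only [π]
    rw [Function.update_self, Equiv.swap_apply_left]
  rw [h6] at h5
  unfold Rep.weight
  rw [h5]

/-- the degree at `q` -/
theorem deg_pol (P : Fam F E n E) (s t : κ) (h : ρ.toPol.pol E P s t ≠ 0) (q : Emb F E) :
    ∑ j, ρ.wt s ⟨q, j⟩ = ∑ j, ρ.wt t ⟨q, j⟩ := by
  classical
  let R := Polynomial E
  let x : Tot F E n → R := fun t => if t.1 = q then Polynomial.X else 1
  let P' : Fam F E n R := MP100fe7L.Fam.map' P (algebraMap E R)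
  have h1 : (MP100fe7L.fdiag x : Fam F E n R) * P' = P' * MP100fe7L.fdiag x := by
    funext r
    refine Matrix.ext fun k l => ?_
    rw [Pi.mul_apply, Pi.mul_apply]
    change (diagonal (fun j => x ⟨r, j⟩) * P' r) k l = (P' r * diagonal (fun j => x ⟨r, j⟩)) k l
    rw [diagonal_mul, mul_diagonal]
    exact mul_comm _ _
  have h2 := congrArg (ρ.toPol.pol R) h1
  rw [ρ.toPol.pol_mul, ρ.toPol.pol_mul, ρ.toPol.pol_diag] at h2
  have hW : (ρ.toPol.pol E P).map (algebraMap E R) = ρ.toPol.pol R P' :=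
    ρ.toPol.pol_map (Algebra.ofId E R) P
  rw [← hW] at h2
  have h3 := congrFun (congrFun h2 s) t
  rw [mul_diagonal, diagonal_mul, Matrix.map_apply] at h3
  have h4 : ∀ s : κ, ∏ r : Tot F E n, x r ^ ρ.toPol.wt s r =
      Polynomial.X ^ ∑ j, ρ.wt s ⟨q, j⟩ := by
    intro s
    rw [Fintype.prod_sigma, Finset.prod_eq_single q]
    · rw [← Finset.prod_pow_eq_pow_sum]
      apply Finset.prod_congr rfl
      intro j _
      have h5 : x ⟨q, j⟩ = Polynomial.X := if_pos rfl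
      rw [h5]
      rfl
    · intro r _ hr
      apply Finset.prod_eq_one
      intro j _
      have h5 : x ⟨r, j⟩ = 1 := if_neg hr
      rw [h5, one_pow]
    · simp
  rw [h4, h4] at h3
  have h6 : (Polynomial.C (ρ.toPol.pol E P s t) : R) ≠ 0 := Polynomial.C_ne_zero.mpr h
  have h7 : (algebraMap E R) (ρ.toPol.pol E P s t) = Polynomial.C (ρ.toPol.pol E P s t) := rfl
  rw [h7, mul_comm] at h3
  have h8 := mul_left_cancel₀ h6 h3
  have h9 := congrArg Polynomial.natDegree h8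
  simpa using h9

theorem piF_rev (hG : Good T hE τ₀ Φ) (q : Emb F E) (j : Fin (n q.1)) :
    piF T τ₀ q j = Fin.rev j := by
  rw [piF_apply]
  unfold piFun
  rw [if_neg]
  rintro ⟨-, h2⟩
  exact hG.mid q.1 q.2 j h2

theorem weight_W (hG : Good T hE τ₀ Φ) (s t : κ)
    (h : ρ.Fr (conjElt hE τ₀) (wF T τ₀) s t ≠ 0) (u : Tot F E n) :
    ρ.weight s (cpt hE τ₀ u) = ρ.weight t u := by
  have h0 : ∃ r, ρ.perm (conjElt hE τ₀) s r ≠ 0 ∧ ρ.toPol.pol E (wF T τ₀) r t ≠ 0 := by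
    by_contra hcon
    push Not at hcon
    apply h
    unfold Rep.Fr
    rw [Matrix.mul_apply]
    apply Finset.sum_eq_zero
    intro r _
    by_cases hr : ρ.perm (conjElt hE τ₀) s r = 0
    · rw [hr, zero_mul]
    · rw [ρ.ev_eq, Matrix.smul_apply, hcon r hr, smul_zero, mul_zero]
  obtain ⟨r, hr1, hr2⟩ := h0
  have hm : ∀ q k j, k ≠ piF T τ₀ q j → wF T τ₀ q k j = 0 := by
    obtain ⟨π, h1, h2⟩ := wF_mono T hE τ₀
    intro q k j hk
    by_contra h3
    have h4 : k = π q j := by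
      by_contra h5
      exact h3 (h1 q k j h5)
    have h6 : wm T τ₀ q.1 q.2 k j ≠ 0 := h3
    unfold wm at h6
    rw [piF_apply] at hk
    unfold piFun at hk
    by_cases hr : IsConj τ₀ q.2 q.2
    · rw [if_pos hr] at h6
      unfold Wr at h6
      rw [of_apply] at h6
      by_cases hj : 2 * (T q.1).p q.2 j = w q.1
      · exact absurd hj (hG.mid q.1 q.2 j)
      · rw [if_neg hj] at h6
        rw [if_neg (fun h => hj h.2)] at hk
        rw [if_neg hk] at h6
        exact h6 rfl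
    · rw [if_neg hr] at h6
      rw [if_neg (fun h => hr h.1)] at hk
      unfold Rv at h6
      rw [of_apply, if_neg hk] at h6
      exact h6 rfl
  obtain ⟨q, j⟩ := u
  have h1 := ρ.wt_perm (conjElt hE τ₀) s r hr1 q (Fin.rev j)
  have h2 := wt_mono ρ (piF T τ₀) hm r t hr2 q j
  rw [piF_rev hG] at h2
  unfold Rep.weight cpt
  rw [h1, h2]

theorem low_add (hG : Good T hE τ₀ Φ) (hmid : ρ.NoMiddle T) (t : Tot F E n) :
    ∑ s ∈ ρ.lowPart T ((ρ.motWeight w + 1) / 2), ρ.weight s t +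
      ∑ s ∈ ρ.lowPart T ((ρ.motWeight w + 1) / 2), ρ.weight s (cpt hE τ₀ t) =
        ∑ s, ρ.weight s t := by
  classical
  set a₀ := (ρ.motWeight w + 1) / 2 with ha₀
  have h1 : (ρ.Fr (conjElt hE τ₀) (wF T τ₀)).det ≠ 0 := by
    have h2 := congrArg Matrix.det (ρ.Fr_sq (conjElt_sq hE τ₀) (wF_inv T hE τ₀))
    rw [det_mul, det_one] at h2
    exact left_ne_zero_of_mul_eq_one h2
  obtain ⟨r, hr⟩ := exists_perm_mat _ h1
  have hlo : ∀ s, isLo ρ T a₀ (r s) ↔ ¬ isLo ρ T a₀ s := by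
    intro s
    have h1 := hodgeIdx_add ρ T (wF_mono T hE τ₀) _ _ (hr s)
    have h2 := hmid s
    have h3 := hmid (r s)
    unfold isLo
    omega
  have h3 : ∑ s ∈ ρ.lowPart T a₀, ρ.weight s (cpt hE τ₀ t) =
      ∑ s, if ¬ isLo ρ T a₀ s then ρ.weight s t else 0 := by
    rw [← filter_lo, Finset.sum_filter, ← Equiv.sum_comp r]
    apply Finset.sum_congr rfl
    intro s _
    rw [weight_W ρ hG _ _ (hr s)]
    by_cases h : isLo ρ T a₀ s
    · rw [if_neg (fun h' => (hlo s).mp h' h), if_neg (not_not.mpr h)]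
    · rw [if_pos ((hlo s).mpr h), if_pos h]
  rw [h3, ← filter_lo, Finset.sum_filter, ← Finset.sum_add_distrib]
  apply Finset.sum_congr rfl
  intro s _
  by_cases h : isLo ρ T a₀ s
  · rw [if_pos h, if_neg (not_not.mpr h), add_zero]
  · rw [if_neg h, if_pos h, zero_add]

theorem phiOk (hG : Good T hE τ₀ Φ) : PhiOk (fun _ : E →+* ℂ => Φ) :=
  fun τ i φ φ' h => hG.choice τ i φ φ' h

/-- the trace of the degree at `q` times `F_∞` -/
theorem tr_zero (hG : Good T hE τ₀ Φ) (hmid : ρ.NoMiddle T) (q : Emb F E) :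
    ∑ s, ((∑ j, ρ.weight s ⟨q, j⟩ : ℤ) : E) * ρ.frob T hE τ₀ s s = 0 := by
  let Z : Matrix κ κ E := Matrix.diagonal fun s => ((∑ j, ρ.weight s ⟨q, j⟩ : ℤ) : E)
  let P : Fam F E n E := gamF T (fun _ => Φ) τ₀
  let P' : Fam F E n E := gamI T (fun _ => Φ) τ₀
  have hP : P' * P = 1 := gamI_mul T _ τ₀
  have hP' : P * P' = 1 := by
    funext r
    exact mul_nonsing_inv _ (isUnit_iff_ne_zero.mpr (gam_det T (fun _ => Φ) τ₀ r.1 r.2))
  have h1 : ρ.ev E P * ρ.Fr (conjElt hE τ₀) (sD (sT T τ₀) E) =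
      ρ.Fr (conjElt hE τ₀) (wF T τ₀) * ρ.ev E P :=
    ρ.Fr_conj (gamF_rel T hE _ τ₀ (phiOk hG))
  have h2 : ρ.ev E P' * ρ.ev E P = 1 := by rw [← ρ.ev_mul, hP, ρ.ev_one]
  have h2' : ρ.ev E P * ρ.ev E P' = 1 := by rw [← ρ.ev_mul, hP', ρ.ev_one]
  have h3 : ρ.ev E P * Z = Z * ρ.ev E P := by
    ext s t
    simp only [Z]
    rw [diagonal_mul, mul_diagonal]
    by_cases h : ρ.ev E P s t = 0
    · rw [h, mul_zero, zero_mul]
    · have h4 : ρ.toPol.pol E P s t ≠ 0 := by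
        intro h5
        apply h
        rw [ρ.ev_eq, Matrix.smul_apply, h5, smul_zero]
      have h5 := deg_pol ρ P s t h4 q
      have h6 : ∑ j, ρ.weight s ⟨q, j⟩ = ∑ j, ρ.weight t ⟨q, j⟩ := by
        unfold Rep.weight
        rw [Finset.sum_sub_distrib, Finset.sum_sub_distrib]
        have h7 : ∑ j, (ρ.wt s ⟨q, j⟩ : ℤ) = ∑ j, (ρ.wt t ⟨q, j⟩ : ℤ) := by
          exact_mod_cast h5
        rw [h7]
      rw [h6, mul_comm]
  have h4 : ∑ s, ((∑ j, ρ.weight s ⟨q, j⟩ : ℤ) : E) * ρ.frob T hE τ₀ s s =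
      Matrix.trace (Z * ρ.frob T hE τ₀) := by
    unfold Matrix.trace
    apply Finset.sum_congr rfl
    intro s _
    simp only [Z, Matrix.diag_apply, diagonal_mul]
  have h5 : ρ.frob T hE τ₀ = ρ.ev E P' * (ρ.Fr (conjElt hE τ₀) (wF T τ₀) * ρ.ev E P) := by
    rw [← h1, ← Matrix.mul_assoc, h2, Matrix.one_mul, frob_eq, ← sD_sT]
  have h6 : Matrix.trace (Z * ρ.frob T hE τ₀) =
      Matrix.trace (Z * ρ.Fr (conjElt hE τ₀) (wF T τ₀)) := by
    rw [h5]
    have h7 : Z * (ρ.ev E P' * (ρ.Fr (conjElt hE τ₀) (wF T τ₀) * ρ.ev E P)) =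
        (Z * ρ.ev E P' * ρ.Fr (conjElt hE τ₀) (wF T τ₀)) * ρ.ev E P := by
      simp only [Matrix.mul_assoc]
    rw [h7, Matrix.trace_mul_comm, ← Matrix.mul_assoc, ← Matrix.mul_assoc, h3, Matrix.mul_assoc Z,
      h2', Matrix.mul_one]
  rw [h4, h6]
  unfold Matrix.trace
  apply Finset.sum_eq_zero
  intro s _
  simp only [Z, Matrix.diag_apply, diagonal_mul]
  by_cases h : ρ.Fr (conjElt hE τ₀) (wF T τ₀) s s = 0
  · rw [h, mul_zero]
  · exfalso
    have h8 := hodgeIdx_add ρ T (wF_mono T hE τ₀) _ _ h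
    have h9 := hmid s
    omega

end Pool.Agent.MP100fe7G
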