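import Pool.Agent.Lib.MP_100fe7_ntG.ExpB

/-!
The numbers of signs; the exponents of the two real periods.
-/

set_option linter.unusedSectionVars false

namespace Pool.Agent.MP100fe7G

open MP100fe7U Matrix MP100fe7L

variable {ι : Type} [Fintype ι] [DecidableEq ι] {F : ι → Type} [∀ i, Field (F i)]
  [∀ i, NumberField (F i)] {E : Type} [Field E] [NumberField E] {n : ι → ℕ} {w : ι → ℤ}
  {T : ∀ i, MType (F i) E (n i) (w i)} {hE : Split F E} {τ₀ : E →+* ℂ} {Φ : Finset (Emb F E)}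
  (hG : Good T hE τ₀ Φ) {κ : Type} [Fintype κ] [DecidableEq κ] (ρ : Rep F E n κ)

include hG in
/-- the numbers of signs at a real place -/
theorem card_sgn (τ : E →+* ℂ) (q : Emb F E) (hr : IsConj τ q.2 q.2) :
    Fintype.card {j // (T q.1).sgn (τ.comp q.2) j = 1} =
      Fintype.card {j // 2 * (T q.1).p q.2 j < w q.1} ∧
    Fintype.card {j // (T q.1).sgn (τ.comp q.2) j = -1} =
      Fintype.card {j // 2 * (T q.1).p q.2 j < w q.1} ∧
    2 * Fintype.card {j // 2 * (T q.1).p q.2 j < w q.1} = n q.1 := by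
  classical
  have h1 := (T q.1).le_card τ q.2 hr 1 (Or.inl rfl)
  have h2 := (T q.1).le_card τ q.2 hr (-1) (Or.inr rfl)
  have h3 : Fintype.card {j // (T q.1).sgn (τ.comp q.2) j = 1} +
      Fintype.card {j // (T q.1).sgn (τ.comp q.2) j = -1} = n q.1 := by
    rw [Fintype.card_subtype, Fintype.card_subtype, ← Finset.card_union_of_disjoint]
    · have h4 : (Finset.univ.filter fun j => (T q.1).sgn (τ.comp q.2) j = 1) ∪
          (Finset.univ.filter fun j => (T q.1).sgn (τ.comp q.2) j = -1) = Finset.univ := by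
        ext j
        simp only [Finset.mem_union, Finset.mem_filter, Finset.mem_univ, true_and, iff_true]
        exact (T q.1).sgn_eq _ j
      rw [h4, Finset.card_univ, Fintype.card_fin]
    · rw [Finset.disjoint_filter]
      intro j _ h4 h5
      omega
  have h4 : Fintype.card {j // 2 * (T q.1).p q.2 j < w q.1} +
      Fintype.card {j // ¬ 2 * (T q.1).p q.2 j < w q.1} = n q.1 := by
    rw [Fintype.card_subtype, Fintype.card_subtype, Finset.card_filter_add_card_filter_not,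
      Finset.card_univ, Fintype.card_fin]
  have h5 : Fintype.card {j // 2 * (T q.1).p q.2 j < w q.1} =
      Fintype.card {j // ¬ 2 * (T q.1).p q.2 j < w q.1} := by
    apply Fintype.card_congr
    refine Equiv.subtypeEquiv Fin.revPerm ?_
    intro j
    have h6 := (T q.1).p_conj τ q.2 q.2 hr j
    rw [Fin.revPerm_apply, h6]
    have h7 := hG.mid q.1 q.2 j
    omega
  omega

include hG in
theorem isScalar (τ : E →+* ℂ) (q : Emb F E) (hr : IsConj τ q.2 q.2) :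
    (T q.1).IsScalar τ q.2 := ⟨1, Or.inl rfl, (card_sgn hG τ q hr).1⟩

include hG in
/-- the sum of the exponents of the two real periods -/
theorem real_add (hmid : ρ.NoMiddle T) {ε : E} (q : Emb F E) (hr : IsConj τ₀ q.2 q.2) (A B : ℤ)
    (hA : ∀ j, (T q.1).sgn (τ₀.comp q.2) j = 1 →
      ((2 * A : ℤ) : E) = trW T hE τ₀ ρ ε ⟨q, j⟩)
    (hB : ∀ j, (T q.1).sgn (τ₀.comp q.2) j = -1 →
      ((2 * B : ℤ) : E) = trW T hE τ₀ ρ ε ⟨q, j⟩) (j₀ : Fin (n q.1)) :
    A + B = ∑ s, ρ.weight s ⟨q, j₀⟩ := by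
  classical
  obtain ⟨c1, c2, c3⟩ := card_sgn hG τ₀ q hr
  set m := Fintype.card {j // 2 * (T q.1).p q.2 j < w q.1} with hm
  have h1 : ∑ j, trW T hE τ₀ ρ ε ⟨q, j⟩ = (n q.1 : E) * ((∑ s, ρ.weight s ⟨q, j₀⟩ : ℤ) : E) := by
    unfold trW
    rw [Finset.sum_comm]
    have h2 : ∀ s, ∑ j, (ρ.weight s ⟨q, j⟩ : E) * (1 + ε * ρ.frob T hE τ₀ s s) =
        ((∑ j, ρ.weight s ⟨q, j⟩ : ℤ) : E) +
          ε * (((∑ j, ρ.weight s ⟨q, j⟩ : ℤ) : E) * ρ.frob T hE τ₀ s s) := by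
      intro s
      rw [← Finset.sum_mul]
      push_cast
      ring
    rw [Finset.sum_congr rfl (fun s _ => h2 s), Finset.sum_add_distrib, ← Finset.mul_sum,
      tr_zero ρ hG hmid q, mul_zero, add_zero]
    have h3 : ∑ s, ∑ j, ρ.weight s ⟨q, j⟩ = (n q.1 : ℤ) * ∑ s, ρ.weight s ⟨q, j₀⟩ := by
      rw [Finset.sum_comm, Finset.sum_congr rfl (fun j _ => tot_perm ρ q j₀ j), Finset.sum_const,
        Finset.card_univ, Fintype.card_fin, nsmul_eq_mul]
    have h4 : ((∑ s, ∑ j, ρ.weight s ⟨q, j⟩ : ℤ) : E) =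
        (((n q.1 : ℤ) * ∑ s, ρ.weight s ⟨q, j₀⟩ : ℤ) : E) := by rw [h3]
    push_cast at h4 ⊢
    exact h4
  have h2 : ∑ j, trW T hE τ₀ ρ ε ⟨q, j⟩ = (m : E) * (2 * A : ℤ) + (m : E) * (2 * B : ℤ) := by
    rw [← Finset.sum_filter_add_sum_filter_not Finset.univ
      (fun j => (T q.1).sgn (τ₀.comp q.2) j = 1)]
    have e1 : ∑ j with (T q.1).sgn (τ₀.comp q.2) j = 1, trW T hE τ₀ ρ ε ⟨q, j⟩ =
        (m : E) * (2 * A : ℤ) := by
      have e2 : ∀ j ∈ Finset.univ.filter (fun j => (T q.1).sgn (τ₀.comp q.2) j = 1),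
          trW T hE τ₀ ρ ε ⟨q, j⟩ = ((2 * A : ℤ) : E) :=
        fun j hj => (hA j (Finset.mem_filter.mp hj).2).symm
      rw [Finset.sum_congr rfl e2, Finset.sum_const, nsmul_eq_mul, ← Fintype.card_subtype, c1]
    have e3 : ∑ j with ¬ (T q.1).sgn (τ₀.comp q.2) j = 1, trW T hE τ₀ ρ ε ⟨q, j⟩ =
        (m : E) * (2 * B : ℤ) := by
      have e5 : (Finset.univ.filter fun j => ¬ (T q.1).sgn (τ₀.comp q.2) j = 1) =
          Finset.univ.filter fun j => (T q.1).sgn (τ₀.comp q.2) j = -1 := by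
        apply Finset.filter_congr
        intro j _
        have := (T q.1).sgn_eq (τ₀.comp q.2) j
        omega
      have e2 : ∀ j ∈ Finset.univ.filter (fun j => (T q.1).sgn (τ₀.comp q.2) j = -1),
          trW T hE τ₀ ρ ε ⟨q, j⟩ = ((2 * B : ℤ) : E) :=
        fun j hj => (hB j (Finset.mem_filter.mp hj).2).symm
      rw [e5, Finset.sum_congr rfl e2, Finset.sum_const, nsmul_eq_mul, ← Fintype.card_subtype, c2]
    rw [e1, e3]
  rw [h2] at h1
  have hn : (n q.1 : E) = 2 * m := by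
    rw [← c3]
    push_cast
    ring
  have hm0 : (m : E) ≠ 0 := by
    have h3 : 0 < n q.1 := Fin.pos j₀
    have h4 : m ≠ 0 := by omega
    exact_mod_cast h4
  rw [hn] at h1
  have h5 : (2 * (m : E)) * ((A + B : ℤ) : E) = (2 * m) * ((∑ s, ρ.weight s ⟨q, j₀⟩ : ℤ) : E) := by
    rw [← h1]
    push_cast
    ring
  have h6 := mul_left_cancel₀ (mul_ne_zero two_ne_zero hm0) h5
  exact_mod_cast h6

/-- the sums over the low part under the Hodge group -/
theorem low_gal {g : Gal F E} (hg : HodgeGal T g) (a₀ : ℤ) (q : Emb F E) (j : Fin (n q.1)) :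
    ∑ s ∈ ρ.lowPart T a₀, ρ.weight s ⟨act g q, j⟩ = ∑ s ∈ ρ.lowPart T a₀, ρ.weight s ⟨q, j⟩ := by
  have h1 := ρ.sum_low_gal T a₀ g (fun q j => congrFun (hg q) j) q j
  unfold Rep.weight
  rw [Finset.sum_sub_distrib, Finset.sum_sub_distrib]
  have h2 : ∑ s ∈ ρ.lowPart T a₀, (ρ.wt s ⟨act g q, j⟩ : ℤ) =
      ∑ s ∈ ρ.lowPart T a₀, (ρ.wt s ⟨q, j⟩ : ℤ) := by
    exact_mod_cast h1
  rw [h2]

end Pool.Agent.MP100fe7G
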