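import Pool.Agent.Lib.MP_100fe7_ntG.ExpC

/-!
The sum of the exponents of the two real periods, for all motives with a step `F^ε`.
-/

set_option linter.unusedSectionVars false

namespace Pool.Agent.MP100fe7G

open MP100fe7U Matrix MP100fe7L

variable {ι : Type} [Fintype ι] [DecidableEq ι] {F : ι → Type} [∀ i, Field (F i)]
  [∀ i, NumberField (F i)] {E : Type} [Field E] [NumberField E] {n : ι → ℕ} {w : ι → ℤ}
  {T : ∀ i, MType (F i) E (n i) (w i)} {hE : Split F E} {τ₀ : E →+* ℂ} {Φ : Finset (Emb F E)}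
  (hG : Good T hE τ₀ Φ) {κ : Type} [Fintype κ] [DecidableEq κ] (ρ : Rep F E n κ)

/-- the nonzero entries of `Gam` -/
theorem Gam_ne {m : ℕ} {s p : Fin m → ℤ} {w : ℤ} {k l : Fin m} (h : Gam s p w E k l ≠ 0)
    (hmid : ∀ j, 2 * p j ≠ w) : k = (beta s p w).symm l ∨ k = Fin.rev ((beta s p w).symm l) := by
  by_contra hcon
  push Not at hcon
  apply h
  unfold Gam
  rw [of_apply]
  beta_reduce
  rw [if_neg (hmid _), if_neg hcon.2, if_neg hcon.1, add_zero]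

include hG in
/-- The exponents at a real place, in terms of the low part. -/
theorem exp_pair {d : ℕ} {A : Matrix κ (Fin d) E} {ε : E} (hε : ε * ε = 1)
    (hA : IsEig (ρ.Fr (conjElt hE τ₀) (sD (sT T τ₀) E)) ε A)
    {B : Matrix (Fin d) κ E} (hB : Function.Surjective B.mulVec) {a₀ : ℤ}
    (hker : ∀ v : κ → E, B.mulVec v = 0 ↔ ∀ s, isLo ρ T a₀ s → v s = 0)
    {L : Matrix (Fin d) κ E} (hL : L * A = 1) {m : Emb F E → ℤ → ℕ}
    (hm : ∀ t : Tot F E n, (eig ρ L A (Polynomial E) (fdiag (xT (conjElt hE τ₀) t))).det =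
      Polynomial.X ^ m t.1 (cl (conjElt hE τ₀) (sT T τ₀) t)) (q : Emb F E)
    (hr : IsConj τ₀ q.2 q.2) (j : Fin (n q.1)) :
    m q 1 + m q (-1) = ∑ s with isLo ρ T a₀ s, (ρ.wt s ⟨q, j⟩ + ρ.wt s ⟨q, Fin.rev j⟩) := by
  classical
  obtain ⟨i, φ⟩ := q
  dsimp only at hr j
  set β := beta ((T i).sgn (τ₀.comp φ)) ((T i).p φ) (w i) with hβ
  have hmid := hG.mid i φ
  have hrt := realType T τ₀ hr
  obtain ⟨hb1, hb2⟩ := beta_ok hrt
  let t₁ : Tot F E n := ⟨⟨i, φ⟩, j⟩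
  let t₂ : Tot F E n := ⟨⟨i, φ⟩, Fin.rev j⟩
  let u₁ : Tot F E n := ⟨⟨i, φ⟩, β j⟩
  let u₂ : Tot F E n := ⟨⟨i, φ⟩, β (Fin.rev j)⟩
  have hjr : j ≠ Fin.rev j := by
    intro h
    have h1 := hrt.hp j
    rw [← h] at h1
    exact hmid j (by omega)
  have ht : t₁ ≠ t₂ := by
    intro h
    exact hjr (eq_of_heq (Sigma.mk.inj_iff.mp h).2)
  let x : Tot F E n → Polynomial E := fun t => if t = t₁ ∨ t = t₂ then Polynomial.X else 1
  have hcT : ∀ k : Fin (n i), cT (conjElt hE τ₀) (⟨⟨i, φ⟩, k⟩ : Tot F E n) = ⟨⟨i, φ⟩, k⟩ := by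
    intro k
    change (⟨⟨i, (conjElt hE τ₀).1 i φ⟩, k⟩ : Tot F E n) = ⟨⟨i, φ⟩, k⟩
    rw [(conj_eq_iff hE τ₀ i φ).mpr hr]
  have hz : (fdiag (xT (conjElt hE τ₀) u₁) : Fam F E n (Polynomial E)) *
      fdiag (xT (conjElt hE τ₀) u₂) =
      fdiag (fun t => if t = u₁ ∨ t = u₂ then Polynomial.X else 1) := by
    rw [fdiag_mul]
    congr 1
    funext t
    unfold xT
    simp only [u₁, u₂, hcT, or_self]
    by_cases h1 : t = ⟨⟨i, φ⟩, β j⟩
    · have h2 : t ≠ ⟨⟨i, φ⟩, β (Fin.rev j)⟩ := by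
        rw [h1]
        intro h3
        exact hjr (β.injective (eq_of_heq (Sigma.mk.inj_iff.mp h3).2))
      rw [if_pos h1, if_neg h2, if_pos (Or.inl h1), mul_one]
    · rw [if_neg h1, one_mul]
      by_cases h2 : t = ⟨⟨i, φ⟩, β (Fin.rev j)⟩
      · rw [if_pos h2, if_pos (Or.inr h2)]
      · rw [if_neg h2, if_neg (by rintro (h | h); exacts [h1 h, h2 h])]
  have hsy := xT_sym (E := E) (sgnOk T hE τ₀) (F := F) (n := n)
  have h1 := torus_rel ρ T hE (fun _ => Φ) (fun τ i φ φ' h => hG.choice τ i φ φ' h) τ₀ hε hA τ₀ hB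
    hker hL x (fdiag (xT (conjElt hE τ₀) u₁) * fdiag (xT (conjElt hE τ₀) u₂))
    (sym_mul (hsy u₁) (hsy u₂)) (by
      rw [hz]
      funext q
      obtain ⟨i', ψ⟩ := q
      rw [Pi.mul_apply, Pi.mul_apply]
      change diagonal (fun j' => x ⟨⟨i', ψ⟩, j'⟩) * (gam T (fun _ => Φ) τ₀ i' ψ).map _ =
        (gam T (fun _ => Φ) τ₀ i' ψ).map _ * diagonal (fun j' =>
          if (⟨⟨i', ψ⟩, j'⟩ : Tot F E n) = u₁ ∨ (⟨⟨i', ψ⟩, j'⟩ : Tot F E n) = u₂ then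
            Polynomial.X else 1)
      apply diag_rel
      intro k l hkl
      by_cases h1 : (⟨i', ψ⟩ : Emb F E) = ⟨i, φ⟩
      · obtain ⟨rfl, h1'⟩ := Sigma.mk.inj_iff.mp h1
        have h1'' := eq_of_heq h1'
        subst h1''
        have h2 : gam T (fun _ => Φ) τ₀ i' ψ =
            Gam ((T i').sgn (τ₀.comp ψ)) ((T i').p ψ) (w i') E := by
          unfold gam
          rw [if_pos hr]
        have h3 : Gam ((T i').sgn (τ₀.comp ψ)) ((T i').p ψ) (w i') E k l ≠ 0 := by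
          intro h4
          apply hkl
          rw [Matrix.map_apply, h2, h4, map_zero]
        have h4 := Gam_ne h3 hmid
        rw [← hβ] at h4
        have h5 : (k = j ∨ k = Fin.rev j) ↔ (l = β j ∨ l = β (Fin.rev j)) := by
          have e1 : l = β j ↔ β.symm l = j := by
            rw [Equiv.symm_apply_eq]
          have e2 : l = β (Fin.rev j) ↔ β.symm l = Fin.rev j := by
            rw [Equiv.symm_apply_eq]
          rw [e1, e2]
          rcases h4 with h4 | h4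
          · rw [h4]
          · rw [h4]
            rw [Fin.rev_eq_iff, Fin.rev_inj]
            exact or_comm
        simp only [x, t₁, t₂, u₁, u₂, tot_eq_iff]
        by_cases h6 : k = j ∨ k = Fin.rev j
        · rw [if_pos h6, if_pos (h5.mp h6)]
        · rw [if_neg h6, if_neg (fun h => h6 (h5.mpr h))]
      · have hne1 : ∀ (l : Fin (n i')) (k : Fin (n i)),
            (⟨⟨i', ψ⟩, l⟩ : Tot F E n) ≠ ⟨⟨i, φ⟩, k⟩ := fun l k h =>
          h1 (congrArg (fun t : Tot F E n => t.1) h)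
        simp only [x, t₁, t₂, u₁, u₂]
        simp only [hne1, or_false])
  have h2 : Rep.pull (galElt hE τ₀ τ₀) (fdiag (xT (conjElt hE τ₀) u₁) *
      fdiag (xT (conjElt hE τ₀) u₂)) = (fdiag (xT (conjElt hE τ₀) u₁) *
      fdiag (xT (conjElt hE τ₀) u₂) : Fam F E n (Polynomial E)) := by
    rw [galElt_self]
    rfl
  rw [h2, eig_mul (sgnOk T hE τ₀) ρ hL hε hA _ _ (hsy u₂), det_mul, hm, hm, ← pow_add] at h1
  have hcl : ∀ k : Fin (n i), cl (conjElt hE τ₀) (sT T τ₀) (⟨⟨i, φ⟩, k⟩ : Tot F E n) =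
      (T i).sgn (τ₀.comp φ) k := fun k => cl_real T hE τ₀ i φ hr k
  have h3 : m u₁.1 (cl (conjElt hE τ₀) (sT T τ₀) u₁) + m u₂.1 (cl (conjElt hE τ₀) (sT T τ₀) u₂) =
      m ⟨i, φ⟩ 1 + m ⟨i, φ⟩ (-1) := by
    simp only [u₁, u₂, hcl]
    have h4 := hrt.hp j
    have h5 := hmid j
    rcases lt_or_gt_of_ne h5 with h6 | h6
    · rw [hβ, hb2 j h6, hb1 (Fin.rev j) (by omega), add_comm]
    · rw [hβ, hb1 j h6, hb2 (Fin.rev j) (by omega)]
  rw [h3] at h1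
  have h4 : ∀ s, ∏ t, x t ^ ρ.wt s t = Polynomial.X ^ (ρ.wt s t₁ + ρ.wt s t₂) :=
    fun s => prod_two t₁ t₂ ht _
  rw [Finset.prod_congr rfl (fun s _ => h4 s), Finset.prod_pow_eq_pow_sum] at h1
  have h6 := congrArg Polynomial.natDegree h1
  rw [Polynomial.natDegree_X_pow, Polynomial.natDegree_X_pow] at h6
  exact h6.symm

include hG in
/-- the traces of the weights at a real place and the sums over the low part -/
theorem low_real {ε : E} (hε : ε * ε = 1) {a₀ : ℤ} (hst : ρ.IsStep T hE τ₀ ε a₀) (q : Emb F E)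
    (hr : IsConj τ₀ q.2 q.2) (jp jm j : Fin (n q.1)) (hp : (T q.1).sgn (τ₀.comp q.2) jp = 1)
    (hm : (T q.1).sgn (τ₀.comp q.2) jm = -1) :
    trW T hE τ₀ ρ ε ⟨q, jp⟩ + trW T hE τ₀ ρ ε ⟨q, jm⟩ =
      ((2 * (∑ s ∈ ρ.lowPart T a₀, ρ.weight s ⟨q, j⟩ +
        ∑ s ∈ ρ.lowPart T a₀, ρ.weight s ⟨q, Fin.rev j⟩) : ℤ) : E) := by
  obtain ⟨A₀, hA₀⟩ := hst
  have hA : IsEig (ρ.Fr (conjElt hE τ₀) (sD (sT T τ₀) E)) ε A₀ := hA₀
  obtain ⟨B₀, hB₀, hker₀⟩ := exists_B ρ T a₀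
  obtain ⟨L₀, hL₀⟩ := exists_left A₀ hA.1
  obtain ⟨m, hm', -⟩ := sym_formula (sgnOk T hE τ₀) ρ hL₀ hε hA
  have h1 := exp_pair hG ρ hε hA hB₀ hker₀ hL₀ hm' q hr j
  have hact : act (conjElt hE τ₀) q = q := (act_eq_iff hE τ₀ q).mpr hr
  have hfr : ρ.frob T hE τ₀ = ρ.Fr (conjElt hE τ₀) (sD (sT T τ₀) E) := by
    rw [frob_eq, ← sD_sT]
  have h2 : ∑ k, (1 + ε * ρ.frob T hE τ₀ k k) = 2 * ((ρ.lowPart T a₀).card : E) := by
    rw [hfr]
    exact trace_projE (ρ.Fr_sq (conjElt_sq hE τ₀) (sD_inv (sgnOk T hE τ₀) E)) hε hA hL₀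
  have h3 : ∀ j' : Fin (n q.1), trW T hE τ₀ ρ ε ⟨q, j'⟩ =
      2 * (m q ((T q.1).sgn (τ₀.comp q.2) j') : E) -
        (ρ.twist q.1 : E) * (2 * ((ρ.lowPart T a₀).card : E)) := by
    intro j'
    have h4 := trace_formula (sgnOk T hE τ₀) ρ hL₀ hε hA ⟨q, j'⟩ hact _ (hm' ⟨q, j'⟩)
    have h5 : cl (conjElt hE τ₀) (sT T τ₀) (⟨q, j'⟩ : Tot F E n) =
        (T q.1).sgn (τ₀.comp q.2) j' := cl_real T hE τ₀ q.1 q.2 hr j'
    rw [h5] at h4
    change 2 * (m q ((T q.1).sgn (τ₀.comp q.2) j') : E) = _ at h4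
    rw [h4, ← h2, Finset.mul_sum, ← hfr, ← Finset.sum_sub_distrib]
    unfold trW
    apply Finset.sum_congr rfl
    intro s _
    unfold Rep.weight
    push_cast
    ring
  rw [h3, h3, hp, hm, sum_weight_low, sum_weight_low]
  have h6 : (m q 1 : ℤ) + m q (-1) = ((∑ s with isLo ρ T a₀ s, ρ.wt s ⟨q, j⟩ : ℕ) : ℤ) +
      ((∑ s with isLo ρ T a₀ s, ρ.wt s ⟨q, Fin.rev j⟩ : ℕ) : ℤ) := by
    rw [Finset.sum_add_distrib] at h1
    exact_mod_cast h1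
  have h7 : ((m q 1 : ℤ) : E) + ((m q (-1) : ℤ) : E) =
      (((∑ s with isLo ρ T a₀ s, ρ.wt s ⟨q, j⟩ : ℕ) : ℤ) : E) +
      (((∑ s with isLo ρ T a₀ s, ρ.wt s ⟨q, Fin.rev j⟩ : ℕ) : ℤ) : E) := by
    exact_mod_cast congrArg (Int.cast : ℤ → E) h6
  push_cast at h7 ⊢
  linear_combination 2 * h7

end Pool.Agent.MP100fe7G
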