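import Pool.Agent.Lib.MP_100fe7_ntG.ExpC
import Pool.Agent.Lib.MP_100fe7_ntG.Chi

/-!
The periods in terms of the local periods, in the group `(E ⊗ ℂ)ˣ`.
-/

set_option linter.unusedSectionVars false

namespace Pool.Agent.MP100fe7G

open MP100fe7U Matrix MP100fe7L

variable {ι : Type} [Fintype ι] [DecidableEq ι] {F : ι → Type} [∀ i, Field (F i)]
  [∀ i, NumberField (F i)] {E : Type} [Field E] [NumberField E] {n : ι → ℕ} {w : ι → ℤ}
  {T : ∀ i, MType (F i) E (n i) (w i)} {hE : Split F E} {τ₀ : E →+* ℂ} {Φ : Finset (Emb F E)}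

section basic

theorem isConj_tau (hG : Good T hE τ₀ Φ) (τ : E →+* ℂ) (q : Emb F E) :
    IsConj τ q.2 q.2 ↔ IsConj τ₀ q.2 q.2 := by
  rw [← act_eq_iff hE τ q, ← act_eq_iff hE τ₀ q, hG.conj τ]

theorem isConj_act (hG : Good T hE τ₀ Φ) (g : Gal F E) (q : Emb F E) :
    IsConj τ₀ (act g q).2 (act g q).2 ↔ IsConj τ₀ q.2 q.2 := by
  rw [← act_eq_iff hE τ₀ q, ← act_eq_iff hE τ₀ (act g q), ← act_mul, ← central hG g, act_mul]
  constructor
  · intro h
    exact act_injective g h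
  · intro h
    rw [h]

theorem exists_act (hE : Split F E) (τ₀ : E →+* ℂ) (i : ι) (φ φ' : Hm F E i) :
    ∃ g : Gal F E, g.1 i φ = φ' := by
  obtain ⟨τ, h⟩ := exists_gal hE τ₀ i φ φ'
  exact ⟨galElt hE τ τ₀, h⟩

theorem real_const (hG : Good T hE τ₀ Φ) (i : ι) (φ φ' : Hm F E i) :
    IsConj τ₀ φ φ ↔ IsConj τ₀ φ' φ' := by
  obtain ⟨g, hg⟩ := exists_act hE τ₀ i φ φ'
  have h1 := isConj_act hG g ⟨i, φ⟩
  change IsConj τ₀ (g.1 i φ) (g.1 i φ) ↔ IsConj τ₀ φ φ at h1
  rw [hg] at h1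
  exact h1.symm

theorem toC_act (hE : Split F E) (τ₀ τ : E →+* ℂ) (q : Emb F E) :
    toC τ₀ (act (galElt hE τ τ₀)⁻¹ q) = toC τ q := by
  have h1 := galElt_spec hE τ τ₀ q.1 (act (galElt hE τ τ₀)⁻¹ q).2
  have h2 : (galElt hE τ τ₀).1 q.1 (act (galElt hE τ τ₀)⁻¹ q).2 = q.2 :=
    eq_of_heq (Sigma.mk.inj_iff.mp (act_act_inv (galElt hE τ τ₀) q)).2
  rw [h2] at h1
  change (⟨q.1, τ₀.comp (act (galElt hE τ τ₀)⁻¹ q).2⟩ : Emb F ℂ) = ⟨q.1, τ.comp q.2⟩
  rw [h1]

theorem exists_hm (hE : Split F E) (τ₀ : E →+* ℂ) (i : ι) : Nonempty (Hm F E i) := by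
  obtain ⟨σ⟩ : Nonempty (F i →+* ℂ) := inferInstance
  obtain ⟨φ, -⟩ := hE τ₀ i σ
  exact ⟨φ⟩

end basic

section group

variable {G : Type} [CommGroup G]

/-- the product of the Hodge periods at `q` -/
noncomputable def monoAt (T : ∀ i, MType (F i) E (n i) (w i)) (τ₀ : E →+* ℂ)
    (Φ : Finset (Emb F E)) (v : Emb F E → ℤ → G) (yy : Emb F E → ℤ → ℤ)
    (q : Emb F E) : G :=
  if IsConj τ₀ q.2 q.2 then ∏ a ∈ (T q.1).lowIndices q.2, v q a ^ yy q a
  else if q ∈ Φ then ∏ a ∈ (T q.1).indices q.2, v q a ^ yy q a else 1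

theorem prod_half (v : Emb F E → ℤ → G) (yy : Emb F E → ℤ → ℤ) :
    ∏ z : Pt T with InHalf τ₀ Φ z, Qf v z ^ yy z.1 z.2.1 = ∏ q, monoAt T τ₀ Φ v yy q := by
  classical
  rw [Finset.prod_filter, Fintype.prod_sigma]
  apply Finset.prod_congr rfl
  intro q _
  have h1 : ∀ f : ℤ → G, ∏ a : {a : ℤ // a ∈ (T q.1).indices q.2}, f a.1 =
      ∏ a ∈ (T q.1).indices q.2, f a := fun f => Finset.prod_coe_sort _ f
  unfold monoAt
  by_cases hr : IsConj τ₀ q.2 q.2
  · rw [if_pos hr]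
    unfold MType.lowIndices
    rw [Finset.prod_filter, ← h1 (fun a => if 2 * a < w q.1 then v q a ^ yy q a else 1)]
    apply Finset.prod_congr rfl
    intro a _
    have h2 : InHalf τ₀ Φ (⟨q, a⟩ : Pt T) ↔ 2 * a.1 < w q.1 := by
      unfold InHalf
      rw [if_pos hr]
    by_cases h3 : 2 * a.1 < w q.1
    · rw [if_pos (h2.mpr h3), if_pos h3]
      rfl
    · rw [if_neg (fun h => h3 (h2.mp h)), if_neg h3]
  · rw [if_neg hr]
    by_cases hq : q ∈ Φ
    · rw [if_pos hq, ← h1 (fun a => v q a ^ yy q a)]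
      apply Finset.prod_congr rfl
      intro a _
      have h2 : InHalf τ₀ Φ (⟨q, a⟩ : Pt T) := by
        unfold InHalf
        rw [if_neg hr]
        exact hq
      rw [if_pos h2]
      rfl
    · rw [if_neg hq]
      apply Finset.prod_eq_one
      intro a _
      have h2 : ¬ InHalf τ₀ Φ (⟨q, a⟩ : Pt T) := by
        unfold InHalf
        rw [if_neg hr]
        exact hq
      rw [if_neg h2]

variable {c d D : Emb F E → Fun T} {v : Emb F E → ℤ → Fun T}

theorem factor_eq (hG : Good T hE τ₀ Φ) (hl : IsLocal c d D v) (M : ∀ i, Datum (T i))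
    (A B : Emb F ℂ → ℤ) (k : ι → ℤ) (S : Emb F E → ℤ → ℤ) (τ : E →+* ℂ) (q : Emb F E)
    (α β : ℤ) (h1 : IsConj τ₀ q.2 q.2 → A (toC τ q) = α ∧ B (toC τ q) = β)
    (h2 : ¬ IsConj τ₀ q.2 q.2 → k q.1 = α + β) :
    Rep.factor M hE (fun _ => Φ) A B k S τ (fun q => (c q M τ : ℂ)) (fun q => (d q M τ : ℂ))
      (fun q a => (v q a M τ : ℂ)) q =
    ((resFactor T hE τ₀ Φ c D v q ^ α * resFactor T hE τ₀ Φ d D v q ^ β *
      monoAt T τ₀ Φ v (fun q a => S q a - if 2 * a < w q.1 then α + β else 0) q) M τ : ℂˣ) := by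
  classical
  unfold Rep.factor resFactor monoAt
  by_cases hr : IsConj τ₀ q.2 q.2
  · have hr' := (isConj_tau hG τ q).mpr hr
    obtain ⟨hA, hB⟩ := h1 hr
    rw [if_pos hr', if_pos (isScalar hG τ q hr'), if_pos hr, if_pos hr, if_pos hr, hA, hB]
    beta_reduce
    have h3 : ∏ a ∈ (T q.1).lowIndices q.2,
        v q a ^ (S q a - if 2 * a < w q.1 then α + β else 0) =
        ∏ a ∈ (T q.1).lowIndices q.2, v q a ^ (S q a - α - β) := by
      apply Finset.prod_congr rfl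
      intro a ha
      have h4 : 2 * a < w q.1 := (Finset.mem_filter.mp ha).2
      rw [if_pos h4, sub_sub]
    rw [h3]
    simp only [Pi.mul_apply, Pi.pow_apply, Finset.prod_apply, Units.val_mul, Units.coe_prod,
      Units.val_zpow_eq_zpow_val]
  · have hr' : ¬ IsConj τ q.2 q.2 := fun h => hr ((isConj_tau hG τ q).mp h)
    rw [if_neg hr', if_neg hr, if_neg hr, if_neg hr]
    by_cases hq : q ∈ Φ
    · rw [if_pos hq, if_pos hq, if_pos hq, h2 hr, hG.conj τ]
      beta_reduce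
      have h3 : ∏ a ∈ (T q.1).indices q.2,
          v q a ^ (S q a - if 2 * a < w q.1 then α + β else 0) =
          (∏ a ∈ (T q.1).indices q.2, v q a ^ S q a) *
            ((∏ a ∈ (T q.1).lowIndices q.2, v q a) ^ (α + β))⁻¹ := by
        have h4 : ((∏ a ∈ (T q.1).lowIndices q.2, v q a) ^ (α + β))⁻¹ =
            ∏ a ∈ (T q.1).indices q.2, v q a ^ (- if 2 * a < w q.1 then α + β else 0) := by
          unfold MType.lowIndices
          rw [← Finset.prod_zpow, ← Finset.prod_inv_distrib, Finset.prod_filter]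
          apply Finset.prod_congr rfl
          intro a _
          by_cases h5 : 2 * a < w q.1
          · rw [if_pos h5, if_pos h5, _root_.zpow_neg]
          · rw [if_neg h5, if_neg h5, neg_zero, zpow_zero]
        rw [h4, ← Finset.prod_mul_distrib]
        apply Finset.prod_congr rfl
        intro a _
        rw [← _root_.zpow_add, sub_eq_add_neg]
      have h5 : (D (act (conjElt hE τ₀) q) * ∏ a ∈ (T q.1).lowIndices q.2, v q a) ^ α *
          (D (act (conjElt hE τ₀) q) * ∏ a ∈ (T q.1).lowIndices q.2, v q a) ^ β *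
          ((∏ a ∈ (T q.1).indices q.2, v q a ^ S q a) *
            ((∏ a ∈ (T q.1).lowIndices q.2, v q a) ^ (α + β))⁻¹) =
          D (act (conjElt hE τ₀) q) ^ (α + β) * ∏ a ∈ (T q.1).indices q.2, v q a ^ S q a := by
        rw [← _root_.zpow_add, _root_.mul_zpow, mul_assoc,
          mul_comm (∏ a ∈ (T q.1).indices q.2, v q a ^ S q a),
          ← mul_assoc ((∏ a ∈ (T q.1).lowIndices q.2, v q a) ^ (α + β)), mul_inv_cancel, one_mul]
      rw [h3, h5]
      simp only [Pi.mul_apply, Pi.pow_apply, Finset.prod_apply, Units.val_mul, Units.coe_prod,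
        Units.val_zpow_eq_zpow_val]
      rw [hl.det]
    · rw [if_neg hq, if_neg hq, if_neg hq]
      simp

end group

end Pool.Agent.MP100fe7G
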