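import Pool.Agent.Lib.MP_100fe7_ntG.Fac
import Pool.Agent.Lib.MP_100fe7_ntG.ExpD

/-!
The periods in terms of the local periods, in the group of the functions of the data: the formula.
-/

set_option linter.unusedSectionVars false

namespace Pool.Agent.MP100fe7G

open MP100fe7U Matrix MP100fe7L

variable {ι : Type} [Fintype ι] [DecidableEq ι] {F : ι → Type} [∀ i, Field (F i)]
  [∀ i, NumberField (F i)] {E : Type} [Field E] [NumberField E] {n : ι → ℕ} {w : ι → ℤ}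
  {T : ∀ i, MType (F i) E (n i) (w i)} {hE : Split F E} {τ₀ : E →+* ℂ} {Φ : Finset (Emb F E)}

section empty

variable {c d D : Emb F E → Fun T} {v : Emb F E → ℤ → Fun T}

theorem indices_empty {q : Emb F E} (h : n q.1 = 0) : (T q.1).indices q.2 = ∅ := by
  unfold MType.indices
  rw [Finset.image_eq_empty, Finset.univ_eq_empty_iff, h]
  exact Fin.isEmpty

theorem det_empty {m : ℕ} (h : m = 0) (X : Matrix (Fin m) (Fin m) ℂ) : X.det = 1 := by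
  subst h
  exact Matrix.det_isEmpty

theorem realPeriod_empty {M : ∀ i, Datum (T i)} {q : Emb F E} (h : n q.1 = 0) {τ : E →+* ℂ}
    {δ : ℤ} {x : ℂ} (hx : (M q.1).IsRealPeriod τ q.2 δ x) : x = 1 := by
  obtain ⟨a, e, rfl⟩ := hx
  have : IsEmpty (Fin (n q.1)) := by
    rw [h]
    exact Fin.isEmpty
  exact Matrix.det_isEmpty

theorem resFactor_empty (hG : Good T hE τ₀ Φ) (hl : IsLocal c d D v) {q : Emb F E}
    (h : n q.1 = 0) (M : ∀ i, Datum (T i)) (τ : E →+* ℂ) :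
    resFactor T hE τ₀ Φ c D v q M τ = 1 ∧ resFactor T hE τ₀ Φ d D v q M τ = 1 := by
  have h1 : (T q.1).lowIndices q.2 = ∅ := by
    unfold MType.lowIndices
    rw [indices_empty h, Finset.filter_empty]
  have h2 : D (act (conjElt hE τ₀) q) M τ = 1 := by
    apply Units.ext
    rw [hl.det]
    exact det_empty (m := n q.1) h _
  unfold resFactor
  by_cases hr : IsConj τ₀ q.2 q.2
  · rw [if_pos hr, if_pos hr]
    constructor
    · exact Units.ext (realPeriod_empty h (hl.pos q M τ ((isConj_tau hG τ q).mpr hr)))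
    · exact Units.ext (realPeriod_empty h (hl.neg q M τ ((isConj_tau hG τ q).mpr hr)))
  · rw [if_neg hr, h1, if_neg hr]
    by_cases hq : q ∈ Φ
    · rw [if_pos hq]
      rw [Finset.prod_empty, mul_one]
      exact ⟨h2, h2⟩
    · rw [if_neg hq]
      exact ⟨rfl, rfl⟩

theorem resPeriod_empty (hG : Good T hE τ₀ Φ) (hl : IsLocal c d D v) {i : ι} (h : n i = 0) :
    resPeriod T hE τ₀ Φ c D v i = 1 ∧ resPeriod T hE τ₀ Φ d D v i = 1 := by
  unfold resPeriod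
  constructor
  · apply Finset.prod_eq_one
    intro φ _
    funext M τ
    exact (resFactor_empty hG hl (q := ⟨i, φ⟩) h M τ).1
  · apply Finset.prod_eq_one
    intro φ _
    funext M τ
    exact (resFactor_empty hG hl (q := ⟨i, φ⟩) h M τ).2

theorem monoAt_empty {G : Type} [CommGroup G] {v : Emb F E → ℤ → G} {q : Emb F E}
    (h : n q.1 = 0) (yy : Emb F E → ℤ → ℤ) : monoAt T τ₀ Φ v yy q = 1 := by
  have h1 : (T q.1).lowIndices q.2 = ∅ := by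
    unfold MType.lowIndices
    rw [indices_empty h, Finset.filter_empty]
  unfold monoAt
  rw [h1, indices_empty h]
  simp

end empty

variable {κ : Type} [Fintype κ] [DecidableEq κ] (ρ : Rep F E n κ)

/-- the exponents at the fields `F i` -/
theorem exists_ab (hG : Good T hE τ₀ Φ) {ε : E} (hε : ε * ε = 1) {a₀ : ℤ}
    (hst : ρ.IsStep T hE τ₀ ε a₀) {A B : Emb F ℂ → ℤ} {k : ι → ℤ} {S : Emb F E → ℤ → ℤ}
    (hx : ρ.IsExponents T hE τ₀ ε a₀ A B k S) (i : ι) (hi : n i ≠ 0) :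
    ∃ α β : ℤ, (∀ (φ : Hm F E i) (j : Fin (n i)), α + β =
        ∑ s ∈ ρ.lowPart T a₀, ρ.weight s ⟨⟨i, φ⟩, j⟩ +
          ∑ s ∈ ρ.lowPart T a₀, ρ.weight s (cpt hE τ₀ ⟨⟨i, φ⟩, j⟩)) ∧
      (∀ (φ : Hm F E i) (j : Fin (n i)), IsConj τ₀ φ φ → (T i).sgn (τ₀.comp φ) j = 1 →
        ((2 * α : ℤ) : E) = trW T hE τ₀ ρ ε ⟨⟨i, φ⟩, j⟩) ∧
      (∀ (φ : Hm F E i) (j : Fin (n i)), IsConj τ₀ φ φ → (T i).sgn (τ₀.comp φ) j = -1 →
        ((2 * β : ℤ) : E) = trW T hE τ₀ ρ ε ⟨⟨i, φ⟩, j⟩) ∧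
      (∀ φ : Hm F E i, ¬ IsConj τ₀ φ φ → β = 0 ∧ k i = α + β) ∧
      ∀ (φ : Hm F E i) (τ : E →+* ℂ), IsConj τ₀ φ φ →
        A (toC τ ⟨i, φ⟩) = α ∧ B (toC τ ⟨i, φ⟩) = β := by
  classical
  obtain ⟨φ₀⟩ := exists_hm hE τ₀ i
  by_cases hr : IsConj τ₀ φ₀ φ₀
  · have hr' : ∀ φ : Hm F E i, IsConj τ₀ φ φ := fun φ => (real_const hG i φ₀ φ).mp hr
    obtain ⟨c1, c2, c3⟩ := card_sgn hG τ₀ ⟨i, φ₀⟩ hr
    dsimp only at c1 c2 c3
    have hpos : 0 < Fintype.card {j // 2 * (T i).p φ₀ j < w i} := by omega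
    obtain ⟨⟨jp, hjp⟩⟩ := Fintype.card_pos_iff.mp (c1 ▸ hpos)
    obtain ⟨⟨jm, hjm⟩⟩ := Fintype.card_pos_iff.mp (c2 ▸ hpos)
    have htr : ∀ (φ : Hm F E i) (j : Fin (n i)),
        trW T hE τ₀ ρ ε ⟨⟨i, φ⟩, j⟩ = trW T hE τ₀ ρ ε ⟨⟨i, φ₀⟩, j⟩ := by
      intro φ j
      obtain ⟨g, hg⟩ := exists_act hE τ₀ i φ₀ φ
      have h1 := trW_gal hG ρ g ε ⟨i, φ₀⟩ j
      change trW T hE τ₀ ρ ε ⟨⟨i, g.1 i φ₀⟩, j⟩ = _ at h1
      rw [hg] at h1
      exact h1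
    have hP : ∀ (φ : Hm F E i) (j : Fin (n i)), (T i).sgn (τ₀.comp φ) j = 1 →
        ((2 * A (toC τ₀ ⟨i, φ⟩) : ℤ) : E) = trW T hE τ₀ ρ ε ⟨⟨i, φ₀⟩, j⟩ := by
      intro φ j hj
      rw [← htr φ j]
      exact hx.real_pos ⟨i, φ⟩ j (hr' φ) hj
    have hN : ∀ (φ : Hm F E i) (j : Fin (n i)), (T i).sgn (τ₀.comp φ) j = -1 →
        ((2 * B (toC τ₀ ⟨i, φ⟩) : ℤ) : E) = trW T hE τ₀ ρ ε ⟨⟨i, φ₀⟩, j⟩ := by
      intro φ j hj
      rw [← htr φ j]
      exact hx.real_neg ⟨i, φ⟩ j (hr' φ) hj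
    have hjp' : ∀ φ : Hm F E i, (T i).sgn (τ₀.comp φ) jp = 1 := by
      intro φ
      rw [hG.sgn i (τ₀.comp φ) (τ₀.comp φ₀)]
      exact hjp
    have hjm' : ∀ φ : Hm F E i, (T i).sgn (τ₀.comp φ) jm = -1 := by
      intro φ
      rw [hG.sgn i (τ₀.comp φ) (τ₀.comp φ₀)]
      exact hjm
    have hcan : ∀ x y : ℤ, ((2 * x : ℤ) : E) = ((2 * y : ℤ) : E) → x = y := by
      intro x y h
      have h1 : (2 * x : ℤ) = 2 * y := by exact_mod_cast h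
      omega
    have hA0 : ∀ φ : Hm F E i, A (toC τ₀ ⟨i, φ⟩) = A (toC τ₀ ⟨i, φ₀⟩) := fun φ =>
      hcan _ _ ((hP φ jp (hjp' φ)).trans (hP φ₀ jp (hjp' φ₀)).symm)
    have hB0 : ∀ φ : Hm F E i, B (toC τ₀ ⟨i, φ⟩) = B (toC τ₀ ⟨i, φ₀⟩) := fun φ =>
      hcan _ _ ((hN φ jm (hjm' φ)).trans (hN φ₀ jm (hjm' φ₀)).symm)
    refine ⟨A (toC τ₀ ⟨i, φ₀⟩), B (toC τ₀ ⟨i, φ₀⟩), ?_, ?_, ?_, ?_, ?_⟩
    · intro φ j
      have h1 := low_real hG ρ hε hst ⟨i, φ⟩ (hr' φ) jp jm j (hjp' φ) (hjm' φ)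
      rw [htr φ jp, htr φ jm, ← hP φ₀ jp (hjp' φ₀), ← hN φ₀ jm (hjm' φ₀), ← Int.cast_add,
        ← mul_add] at h1
      have h2 := hcan _ _ h1
      rw [h2]
      have h3 : cpt hE τ₀ (⟨⟨i, φ⟩, j⟩ : Tot F E n) = ⟨⟨i, φ⟩, Fin.rev j⟩ := by
        change (⟨⟨i, (conjElt hE τ₀).1 i φ⟩, Fin.rev j⟩ : Tot F E n) = _
        rw [(conj_eq_iff hE τ₀ i φ).mpr (hr' φ)]
      rw [h3]
    · intro φ j _ hj
      rw [htr φ j]
      exact hP φ₀ j (by rw [hG.sgn i (τ₀.comp φ₀) (τ₀.comp φ)]; exact hj)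
    · intro φ j _ hj
      rw [htr φ j]
      exact hN φ₀ j (by rw [hG.sgn i (τ₀.comp φ₀) (τ₀.comp φ)]; exact hj)
    · intro φ h
      exact absurd (hr' φ) h
    · intro φ τ _
      rw [← toC_act hE τ₀ τ ⟨i, φ⟩]
      exact ⟨hA0 _, hB0 _⟩
  · have hr' : ∀ φ : Hm F E i, ¬ IsConj τ₀ φ φ := fun φ h => hr ((real_const hG i φ φ₀).mp h)
    refine ⟨k i, 0, ?_, ?_, ?_, ?_, ?_⟩
    · intro φ j
      have h1 := isConj_conjElt hE τ₀ i φ
      have h2 : (conjElt hE τ₀).1 i φ ≠ φ := fun h => hr' φ ((conj_eq_iff hE τ₀ i φ).mp h)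
      have h3 := hx.complex i τ₀ φ _ j h1 h2
      rw [add_zero, h3, Finset.sum_add_distrib]
      rfl
    · intro φ j h
      exact absurd h (hr' φ)
    · intro φ j h
      exact absurd h (hr' φ)
    · intro φ _
      exact ⟨rfl, (add_zero _).symm⟩
    · intro φ τ h
      exact absurd h (hr' φ)

theorem per_formula (hG : Good T hE τ₀ Φ) {ε : E} (hε : ε = 1 ∨ ε = -1) {a₀ : ℤ}
    (hst : ρ.IsStep T hE τ₀ ε a₀) :
    ∃ (α β : ι → ℤ) (y : Pt T → ℤ),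
      (∀ t : Tot F E n, α t.1.1 + β t.1.1 = ∑ s ∈ ρ.lowPart T a₀, ρ.weight s t +
        ∑ s ∈ ρ.lowPart T a₀, ρ.weight s (cpt hE τ₀ t)) ∧
      (∀ t : Tot F E n, y (pt T t) = ∑ s ∈ ρ.lowPart T a₀, ρ.weight s t -
          if 2 * (T t.1.1).p t.1.2 t.2 < w t.1.1 then α t.1.1 + β t.1.1 else 0) ∧
      (∀ t : Tot F E n, IsConj τ₀ t.1.2 t.1.2 → (T t.1.1).sgn (τ₀.comp t.1.2) t.2 = 1 →
        ((2 * α t.1.1 : ℤ) : E) = trW T hE τ₀ ρ ε t) ∧
      (∀ i, n i = 0 → α i = 0 ∧ β i = 0) ∧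
      (∀ t : Tot F E n, ¬ IsConj τ₀ t.1.2 t.1.2 → β t.1.1 = 0) ∧
      (∃ X : Fun T, ∀ M, ρ.IsPeriod M hE τ₀ ε fun τ => (X M τ : ℂ)) ∧
      ∀ (c d D : Emb F E → Fun T) (v : Emb F E → ℤ → Fun T),
        IsLocal c d D v → ∀ X : Fun T,
          (∀ M, ρ.IsPeriod M hE τ₀ ε fun τ => (X M τ : ℂ)) →
          ∃ a ∈ coefficients T, ∃ b ∈ artinPeriods T hE τ₀,
            X = a * b * (∏ i, (resPeriod T hE τ₀ Φ c D v i ^ α i *
              resPeriod T hE τ₀ Φ d D v i ^ β i)) *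
              ∏ z : Pt T with InHalf τ₀ Φ z, Qf v z ^ y z := by
  classical
  obtain ⟨-, -, g3, g4⟩ := all_number_fields F E hE τ₀ n w T κ ρ (fun _ => Φ) hG.choice
  obtain ⟨A, B, k, S, u, hx, hu, hrel, hM⟩ := g4 ε _ hε hst
  have hε2 : ε * ε = 1 := by
    rcases hε with h | h
    · rw [h, mul_one]
    · rw [h]
      ring
  obtain ⟨χ, hχ, hχ2⟩ := exists_chi hG ρ hε2 hst
  have hab : ∀ i, ∃ α β : ℤ, (n i = 0 → α = 0 ∧ β = 0) ∧
      (∀ (φ : Hm F E i) (j : Fin (n i)), α + β =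
        ∑ s ∈ ρ.lowPart T a₀, ρ.weight s ⟨⟨i, φ⟩, j⟩ +
          ∑ s ∈ ρ.lowPart T a₀, ρ.weight s (cpt hE τ₀ ⟨⟨i, φ⟩, j⟩)) ∧
      (∀ (φ : Hm F E i) (j : Fin (n i)), IsConj τ₀ φ φ → (T i).sgn (τ₀.comp φ) j = 1 →
        ((2 * α : ℤ) : E) = trW T hE τ₀ ρ ε ⟨⟨i, φ⟩, j⟩) ∧
      (n i ≠ 0 → ∀ φ : Hm F E i, ¬ IsConj τ₀ φ φ → β = 0 ∧ k i = α + β) ∧
      (n i ≠ 0 → ∀ (φ : Hm F E i) (τ : E →+* ℂ), IsConj τ₀ φ φ →
        A (toC τ ⟨i, φ⟩) = α ∧ B (toC τ ⟨i, φ⟩) = β) := by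
    intro i
    by_cases hi : n i = 0
    · have hem : ∀ j : Fin (n i), False := fun j => absurd (Fin.pos j) (by omega)
      exact ⟨0, 0, fun _ => ⟨rfl, rfl⟩, fun φ j => (hem j).elim, fun φ j => (hem j).elim,
        fun h => absurd hi h, fun h => absurd hi h⟩
    · obtain ⟨α, β, h1, h2, h3, h4, h5⟩ := exists_ab ρ hG hε2 hst hx i hi
      exact ⟨α, β, fun h => absurd h hi, h1, h2, fun _ => h4, fun _ => h5⟩
  choose α β hab0 hab1 hab2 hab4 hab5 using hab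
  let yy : Emb F E → ℤ → ℤ := fun q a => S q a - if 2 * a < w q.1 then α q.1 + β q.1 else 0
  refine ⟨α, β, fun z => yy z.1 z.2.1, ?_, ?_, ?_, hab0, ?_, ?_, ?_⟩
  · rintro ⟨⟨i, φ⟩, j⟩
    exact hab1 i φ j
  · rintro ⟨⟨i, φ⟩, j⟩
    have h1 := hx.low ⟨i, φ⟩ j
    change S ⟨i, φ⟩ ((T i).p φ j) - (if 2 * (T i).p φ j < w i then α i + β i else 0) = _
    dsimp only at h1 ⊢
    rw [h1]
  · rintro ⟨⟨i, φ⟩, j⟩ h1 h2
    exact hab2 i φ j h1 h2
  · rintro ⟨⟨i, φ⟩, j⟩ h1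
    have h2 : 0 < n i := Fin.pos j
    exact (hab4 i (by omega) φ h1).1
  · have h1 : ∀ M : ∀ i, Datum (T i), ∃ x : (E →+* ℂ) → ℂˣ,
        ρ.IsPeriod M hE τ₀ ε fun τ => (x τ : ℂ) := by
      intro M
      obtain ⟨⟨x₀, hx₀⟩, hM2⟩ := hM M
      have hne₀ := (hM2 x₀ hx₀).1
      exact ⟨fun τ => Units.mk0 (x₀ τ) (hne₀ τ), hx₀⟩
    choose X hX using h1
    exact ⟨X, hX⟩
  · intro c d D v hl X hX
    let P : Fun T := (∏ i, (resPeriod T hE τ₀ Φ c D v i ^ α i *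
      resPeriod T hE τ₀ Φ d D v i ^ β i)) *
        ∏ z : Pt T with InHalf τ₀ Φ z, Qf v z ^ yy z.1 z.2.1
    have hP : P = ∏ q : Emb F E, (resFactor T hE τ₀ Φ c D v q ^ α q.1 *
        resFactor T hE τ₀ Φ d D v q ^ β q.1 * monoAt T τ₀ Φ v yy q) := by
      simp only [P]
      rw [prod_half v yy, Finset.prod_mul_distrib (f := fun q : Emb F E =>
        resFactor T hE τ₀ Φ c D v q ^ α q.1 * resFactor T hE τ₀ Φ d D v q ^ β q.1)]
      congr 1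
      rw [Fintype.prod_sigma]
      apply Finset.prod_congr rfl
      intro i _
      unfold resPeriod
      rw [← Finset.prod_zpow, ← Finset.prod_zpow, ← Finset.prod_mul_distrib]
    have hχne : ∀ g, χ g ≠ 0 := by
      intro g h
      have h1 := hχ.2 g g⁻¹
      rw [mul_inv_cancel, hχ.1, h, zero_mul] at h1
      exact one_ne_zero h1
    let b : Fun T := fun _ τ => Units.mk0 (τ (χ (galElt hE τ τ₀)))
      ((map_ne_zero τ).mpr (hχne _))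
    have hval : ∀ M, ∃ e : E, e ≠ 0 ∧ ∀ τ, (X M τ : ℂ) = τ e * ((b * P) M τ : ℂˣ) := by
      intro M
      obtain ⟨hne, e, he, hform⟩ := (hM M).2 _ (hX M)
      refine ⟨e * u τ₀, mul_ne_zero he (hu τ₀), ?_⟩
      intro τ
      have h1 := hform τ (fun q => (c q M τ : ℂ)) (fun q => (d q M τ : ℂ))
        (fun q a => (v q a M τ : ℂ))
        (fun q hr _ => ⟨hl.pos q M τ hr, hl.neg q M τ hr⟩) (fun q a _ => hl.hodge q a M τ)
      have h2 : (P M τ : ℂ) = ∏ q : Emb F E, (((resFactor T hE τ₀ Φ c D v q ^ α q.1 *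
          resFactor T hE τ₀ Φ d D v q ^ β q.1 * monoAt T τ₀ Φ v yy q) M τ : ℂˣ) : ℂ) := by
        rw [hP, Finset.prod_apply, Finset.prod_apply, Units.coe_prod]
      have h3 : ∏ q, Rep.factor M hE (fun _ => Φ) A B k S τ (fun q => (c q M τ : ℂ))
          (fun q => (d q M τ : ℂ)) (fun q a => (v q a M τ : ℂ)) q = (P M τ : ℂ) := by
        rw [h2]
        apply Finset.prod_congr rfl
        intro q _
        by_cases hq : n q.1 = 0
        · obtain ⟨e1, e2⟩ := resFactor_empty hG hl (q := q) hq M τ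
          have e3 : monoAt T τ₀ Φ v yy q = 1 := monoAt_empty hq yy
          rw [e3]
          simp only [Pi.mul_apply, Pi.pow_apply, e1, e2, _root_.one_zpow, mul_one]
          have e4 : (T q.1).lowIndices q.2 = ∅ := by
            unfold MType.lowIndices
            rw [indices_empty hq, Finset.filter_empty]
          unfold Rep.factor
          rw [e4, indices_empty hq]
          by_cases hr : IsConj τ q.2 q.2
          · rw [if_pos hr, if_pos (isScalar hG τ q hr)]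
            beta_reduce
            rw [realPeriod_empty hq (hl.pos q M τ hr), realPeriod_empty hq (hl.neg q M τ hr)]
            simp
          · rw [if_neg hr, det_empty (m := n q.1) hq]
            simp
        · exact factor_eq hG hl M A B k S τ q (α q.1) (β q.1)
            (fun hr => hab5 q.1 hq q.2 τ hr) (fun hr => (hab4 q.1 hq q.2 hr).2)
      have h4 : u τ = u τ₀ * χ (galElt hE τ τ₀) := by
        apply (hrel τ τ₀ (hG.conj τ) (fun q => hG.sgn q.1 _ _) rfl _).mp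
        rw [galElt_self, inv_one, one_mul]
        exact hχ2 _
      have h5 : ((b * P) M τ : ℂˣ) = b M τ * P M τ := rfl
      rw [h1, h3, h4, h5, Units.val_mul, map_mul, map_mul]
      change _ = τ e * τ (u τ₀) * (τ (χ (galElt hE τ τ₀)) * (P M τ : ℂ))
      ring
    refine ⟨X * (b * P)⁻¹, ?_, b, ⟨χ, hχ, fun _ _ => rfl⟩, ?_⟩
    · intro M
      obtain ⟨e, he, h1⟩ := hval M
      refine ⟨e, he, ?_⟩
      intro τ
      have h2 : (X * (b * P)⁻¹) M τ = X M τ * ((b * P) M τ)⁻¹ := rfl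
      rw [h2, Units.val_mul, h1, mul_assoc, ← Units.val_mul, mul_inv_cancel, Units.val_one,
        mul_one]
    · have h1 : X * (b * P)⁻¹ * b * P = X := by
        rw [mul_assoc, inv_mul_cancel_right]
      have h2 : P = (∏ i, (resPeriod T hE τ₀ Φ c D v i ^ α i *
        resPeriod T hE τ₀ Φ d D v i ^ β i)) *
          ∏ z : Pt T with InHalf τ₀ Φ z, Qf v z ^ yy z.1 z.2.1 := rfl
      rw [mul_assoc, ← h2]
      exact h1.symm

end Pool.Agent.MP100fe7G
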