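import Pool.Agent.Lib.MP_100fe7_ntG.ValsA

/-!
The local periods take arbitrary values.
-/

set_option linter.unusedSectionVars false

namespace Pool.Agent.MP100fe7G

open MP100fe7U Matrix MP100fe7L
open MP100fe7Cv.Real (exists_blocks)

variable {ι : Type} [Fintype ι] [DecidableEq ι] {F : ι → Type} [∀ i, Field (F i)]
  [∀ i, NumberField (F i)] {E : Type} [Field E] [NumberField E] {n : ι → ℕ} {w : ι → ℤ}
  {T : ∀ i, MType (F i) E (n i) (w i)} {hE : Split F E} {τ₀ : E →+* ℂ} {Φ : Finset (Emb F E)}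

/-- the comparison matrix -/
private noncomputable def valsX (T : ∀ i, MType (F i) E (n i) (w i)) (Φ : Finset (Emb F E))
    (b y : (E →+* ℂ) → ∀ i, (F i →+* E) → Fin (n i) → ℂˣ) (i : ι) (τ : E →+* ℂ)
    (φ : F i →+* E) : Matrix (Fin (n i)) (Fin (n i)) ℂ :=
  diagonal (fun j => (b τ i φ j : ℂ)) * (gam T (fun _ => Φ) τ i φ).map τ *
    diagonal (fun j => (y τ i φ j : ℂ))

private theorem vals_unit (b y : (E →+* ℂ) → ∀ i, (F i →+* E) → Fin (n i) → ℂˣ) (i : ι)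
    (τ : E →+* ℂ) (φ : F i →+* E) : IsUnit (valsX T Φ b y i τ φ).det := by
  unfold valsX
  rw [det_mul, det_mul, det_diagonal, det_diagonal, isUnit_iff_ne_zero]
  refine mul_ne_zero (mul_ne_zero ?_ ?_) ?_
  · exact Finset.prod_ne_zero_iff.2 fun j _ => Units.ne_zero _
  · rw [show ((gam T (fun _ => Φ) τ i φ).map τ).det = τ (gam T (fun _ => Φ) τ i φ).det from
      (RingHom.map_det τ _).symm]
    exact (map_ne_zero τ).2 (gam_det T _ τ i φ)
  · exact Finset.prod_ne_zero_iff.2 fun j _ => Units.ne_zero _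

private theorem vals_rel (hG : Good T hE τ₀ Φ)
    {b y : (E →+* ℂ) → ∀ i, (F i →+* E) → Fin (n i) → ℂˣ}
    (hy : ∀ τ i (φ φ' : F i →+* E), IsConj τ φ φ' → y τ i φ' = y τ i φ) {i : ι} {τ : E →+* ℂ}
    {φ φ' : F i →+* E} (h : IsConj τ φ φ') (x : Fin (n i) → ℂ) (k : Fin (n i)) :
    (valsX T Φ b y i τ φ' *ᵥ (fun j => ((T i).sgn (τ.comp φ) j : ℂ) * x j)) k =
      (b τ i φ' k : ℂ) * ((b τ i φ (Fin.rev k))⁻¹ : ℂˣ) *
        (valsX T Φ b y i τ φ *ᵥ x) (Fin.rev k) := by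
  unfold valsX
  rw [hy τ i φ φ' h]
  refine vRel (D := (dg T τ i φ).map τ) ?_ ?_ x k
  · unfold dg
    rw [diagonal_map (map_zero τ)]
    congr 1
    funext j
    exact map_intCast τ _
  · have hw : wm T τ i φ = Rv (n i) E := by
      unfold wm
      split_ifs
      · exact Wr_eq_Rv (hG.mid i φ)
      · rfl
    rw [← Matrix.map_mul, gam_rel T (fun _ => Φ) τ (fun τ i φ φ' h => hG.choice τ i φ φ' h) h,
      hw, Matrix.map_mul, Rv_map]

/-- the datum -/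
private noncomputable def valsD (hG : Good T hE τ₀ Φ)
    (b y : (E →+* ℂ) → ∀ i, (F i →+* E) → Fin (n i) → ℂˣ)
    (hy : ∀ τ i (φ φ' : F i →+* E), IsConj τ φ φ' → y τ i φ' = y τ i φ) (i : ι) :
    Datum (T i) where
  comp τ φ := valsX T Φ b y i τ φ
  comp_unit τ φ := vals_unit b y i τ φ
  hodge τ φ a := vH ((T i).p φ) (valsX T Φ b y i τ φ) a
  internal τ φ := vH_internal _ (vals_unit b y i τ φ)
  hodge_conj τ φ φ' h a x hx := by
    rw [vH_mem] at hx ⊢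
    intro k hk
    rw [vals_rel hG hy h, hx (Fin.rev k), mul_zero]
    intro h1
    apply hk
    have h2 := (T i).p_conj τ φ φ' h (Fin.rev k)
    rw [Fin.rev_rev] at h2
    omega
  fil_hodge τ φ a z := vH_fil _ (vals_unit b y i τ φ) a z

private theorem vals_hodge (hG : Good T hE τ₀ Φ)
    (b y : (E →+* ℂ) → ∀ i, (F i →+* E) → Fin (n i) → ℂˣ)
    (hy : ∀ τ i (φ φ' : F i →+* E), IsConj τ φ φ' → y τ i φ' = y τ i φ) {i : ι} {τ : E →+* ℂ}
    {φ φ' : F i →+* E} (h : IsConj τ φ φ') (a : ℤ) (q : ℂ)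
    (hq : q = ∏ j : (T i).Block φ a, ((b τ i φ j.1 : ℂ) * ((b τ i φ' (Fin.rev j.1))⁻¹ : ℂˣ))) :
    (valsD hG b y hy i).IsHodgePeriod τ φ a q := by
  have hX := vals_unit (T := T) (Φ := Φ) b y i τ φ'
  have hz : ∀ j : Fin (n i), valsX T Φ b y i τ φ' *ᵥ ((valsX T Φ b y i τ φ')⁻¹ *ᵥ
      Pi.single j 1) = Pi.single j 1 := by
    intro j
    rw [mulVec_mulVec, mul_nonsing_inv _ hX, one_mulVec]
  refine ⟨φ', h, fun j => (valsX T Φ b y i τ φ')⁻¹ *ᵥ Pi.single (Fin.rev j.1) 1, ?_, ?_, ?_⟩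
  · intro j k hk
    change (valsX T Φ b y i τ φ' *ᵥ ((valsX T Φ b y i τ φ')⁻¹ *ᵥ
      Pi.single (Fin.rev j.1) 1)) k = 0
    rw [hz, Pi.single_apply, if_neg]
    rintro rfl
    apply hk
    have h2 := (T i).p_conj τ φ φ' h j.1
    have h3 := j.2
    change (T i).p φ' (Fin.rev j.1) = w i - a
    omega
  · intro j k _
    change (valsX T Φ b y i τ φ' *ᵥ ((valsX T Φ b y i τ φ')⁻¹ *ᵥ
      Pi.single (Fin.rev j.1) 1)) k = _
    rw [hz, Pi.single_apply]
  · have h1 : (Matrix.of fun (l j : (T i).Block φ a) =>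
        ((valsD hG b y hy i).comp τ φ).mulVec (fun k => ((T i).sgn (τ.comp φ') k : ℂ) *
          ((valsX T Φ b y i τ φ')⁻¹ *ᵥ Pi.single (Fin.rev j.1) 1) k) l.1) =
        diagonal fun j => ((b τ i φ j.1 : ℂ) * ((b τ i φ' (Fin.rev j.1))⁻¹ : ℂˣ)) := by
      ext l j
      rw [of_apply]
      change (valsX T Φ b y i τ φ *ᵥ (fun k => ((T i).sgn (τ.comp φ') k : ℂ) *
          ((valsX T Φ b y i τ φ')⁻¹ *ᵥ Pi.single (Fin.rev j.1) 1) k)) l.1 = _
      rw [vals_rel hG hy (isConj_symm h), hz, Pi.single_apply, diagonal_apply]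
      by_cases hlj : l = j
      · rw [if_pos hlj, if_pos (by rw [hlj]), mul_one]
      · rw [if_neg hlj, if_neg, mul_zero]
        intro h4
        exact hlj (Subtype.ext (Fin.rev_injective h4))
    rw [hq, h1, det_diagonal]

theorem exists_datum (hG : Good T hE τ₀ Φ) (c d D : Emb F E → (E →+* ℂ) → ℂˣ)
    (v : Emb F E → ℤ → (E →+* ℂ) → ℂˣ) : ∃ M : ∀ i, Datum (T i),
    ∀ (q : Emb F E) (τ : E →+* ℂ), n q.1 ≠ 0 →
      (IsConj τ q.2 q.2 → (M q.1).IsRealPeriod τ q.2 1 (c q τ) ∧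
        (M q.1).IsRealPeriod τ q.2 (-1) (d q τ) ∧
        ∀ a ∈ (T q.1).indices q.2, 2 * a < w q.1 → (M q.1).IsHodgePeriod τ q.2 a (v q a τ)) ∧
      (q ∈ Φ → ((M q.1).comp τ (act (conjElt hE τ₀) q).2).det = D q τ ∧
        ∀ a ∈ (T q.1).indices q.2, (M q.1).IsHodgePeriod τ q.2 a (v q a τ)) := by
  classical
  have hc : ∀ (τ : E →+* ℂ) (i : ι) (φ : F i →+* E), IsConj τ φ ((conjElt hE τ₀).1 i φ) := by
    intro τ i φ
    rw [← hG.conj τ]
    exact isConj_conjElt hE τ i φ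
  have hcc : ∀ (τ : E →+* ℂ) (i : ι) (φ φ' : F i →+* E), IsConj τ φ φ' →
      φ' = (conjElt hE τ₀).1 i φ := by
    intro τ i φ φ' h
    rw [← hG.conj τ]
    exact (isConj_iff hE τ i φ φ').mp h
  have hreal : ∀ (τ : E →+* ℂ) (i : ι) (φ : F i →+* E), IsConj τ φ φ →
      (⟨i, φ⟩ : Emb F E) ∉ Φ := by
    intro τ i φ h h1
    exact ((hG.choice τ i φ φ h).mp h1).1 rfl
  -- the diagonal matrices `b`
  have hβ : ∀ (τ : E →+* ℂ) (i : ι) (φ : F i →+* E), ∃ β : Fin (n i) → ℂˣ, ∀ j,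
      ∏ l : {l : Fin (n i) // (T i).p φ l = (T i).p φ j}, (β l.1 : ℂ) =
        v ⟨i, φ⟩ ((T i).p φ j) τ :=
    fun τ i φ => exists_blocks ((T i).p φ) fun a => v ⟨i, φ⟩ a τ
  choose β hβ using hβ
  let b : (E →+* ℂ) → ∀ i, (F i →+* E) → Fin (n i) → ℂˣ := fun τ i φ j =>
    if IsConj τ φ φ then (if 2 * (T i).p φ j < w i then β τ i φ j else 1)
    else if (⟨i, φ⟩ : Emb F E) ∈ Φ then β τ i φ j else 1
  -- the diagonal matrices `y`
  have hy0 : ∀ (τ : E →+* ℂ) (i : ι) (φ : F i →+* E), ∃ y : Fin (n i) → ℂˣ, n i ≠ 0 →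
      (IsConj τ φ φ →
        RPer ((T i).sgn (τ.comp φ)) ((T i).p φ) (diagonal (fun j => (b τ i φ j : ℂ)) *
          (Gam ((T i).sgn (τ.comp φ)) ((T i).p φ) (w i) E).map τ *
          diagonal (fun j => (y j : ℂ))) 1 (c ⟨i, φ⟩ τ) ∧
        RPer ((T i).sgn (τ.comp φ)) ((T i).p φ) (diagonal (fun j => (b τ i φ j : ℂ)) *
          (Gam ((T i).sgn (τ.comp φ)) ((T i).p φ) (w i) E).map τ *
          diagonal (fun j => (y j : ℂ))) (-1) (d ⟨i, φ⟩ τ)) ∧
      ((⟨i, φ⟩ : Emb F E) ∈ Φ →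
        (diagonal (fun j => (b τ i ((conjElt hE τ₀).1 i φ) j : ℂ)) *
          (gam T (fun _ => Φ) τ i ((conjElt hE τ₀).1 i φ)).map τ *
          diagonal (fun j => (y j : ℂ))).det = D ⟨i, φ⟩ τ) := by
    intro τ i φ
    by_cases hn : n i = 0
    · exact ⟨1, fun h => absurd hn h⟩
    by_cases hr : IsConj τ φ φ
    · obtain ⟨h1, h2, h3⟩ := card_sgn hG τ ⟨i, φ⟩ hr
      have h4 : 0 < Fintype.card {j // 2 * (T i).p φ j < w i} := by
        change 2 * Fintype.card {j // 2 * (T i).p φ j < w i} = n i at h3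
        omega
      have h5 : ∃ j, (T i).sgn (τ.comp φ) j = 1 := by
        obtain ⟨j⟩ := Fintype.card_pos_iff.1 (lt_of_lt_of_eq h4 h1.symm)
        exact ⟨j.1, j.2⟩
      have h6 : ∃ j, (T i).sgn (τ.comp φ) j = -1 := by
        obtain ⟨j⟩ := Fintype.card_pos_iff.1 (lt_of_lt_of_eq h4 h2.symm)
        exact ⟨j.1, j.2⟩
      obtain ⟨y, hy⟩ := exists_y_real (realType T τ hr) ⟨1, Or.inl rfl, h1⟩ (E := E) τ h5 h6
        (b τ i φ) (c ⟨i, φ⟩ τ) (d ⟨i, φ⟩ τ)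
      exact ⟨y, fun _ => ⟨fun _ => hy, fun h => absurd h (hreal τ i φ hr)⟩⟩
    · have hn' : 0 < n i := Nat.pos_of_ne_zero hn
      have h1 : (diagonal (fun j => (b τ i ((conjElt hE τ₀).1 i φ) j : ℂ)) *
          (gam T (fun _ => Φ) τ i ((conjElt hE τ₀).1 i φ)).map τ).det ≠ 0 := by
        rw [det_mul, det_diagonal]
        refine mul_ne_zero (Finset.prod_ne_zero_iff.2 fun j _ => Units.ne_zero _) ?_
        rw [show ((gam T (fun _ => Φ) τ i ((conjElt hE τ₀).1 i φ)).map τ).det =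
          τ (gam T (fun _ => Φ) τ i ((conjElt hE τ₀).1 i φ)).det from (RingHom.map_det τ _).symm]
        exact (map_ne_zero τ).2 (gam_det T _ τ i _)
      refine ⟨fun j => if j = ⟨0, hn'⟩ then D ⟨i, φ⟩ τ * (Units.mk0 _ h1)⁻¹ else 1,
        fun _ => ⟨fun h => absurd h hr, fun _ => ?_⟩⟩
      rw [det_mul, det_diagonal]
      have h2 : ∏ j : Fin (n i), (((if j = ⟨0, hn'⟩ then D ⟨i, φ⟩ τ * (Units.mk0 _ h1)⁻¹
          else 1 : ℂˣ)) : ℂ) = ((D ⟨i, φ⟩ τ * (Units.mk0 _ h1)⁻¹ : ℂˣ) : ℂ) := by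
        rw [← prod_ite_one (⟨0, hn'⟩ : Fin (n i)) ((D ⟨i, φ⟩ τ * (Units.mk0 _ h1)⁻¹ : ℂˣ) : ℂ)]
        refine Finset.prod_congr rfl fun j _ => ?_
        split_ifs
        · rfl
        · rfl
      rw [h2, Units.val_mul, Units.val_inv_eq_inv_val, Units.val_mk0]
      field_simp
  choose y₀ hy₀ using hy0
  let y : (E →+* ℂ) → ∀ i, (F i →+* E) → Fin (n i) → ℂˣ := fun τ i φ =>
    if IsConj τ φ φ ∨ (⟨i, φ⟩ : Emb F E) ∈ Φ then y₀ τ i φ
    else y₀ τ i ((conjElt hE τ₀).1 i φ)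
  have hy : ∀ τ i (φ φ' : F i →+* E), IsConj τ φ φ' → y τ i φ' = y τ i φ := by
    intro τ i φ φ' h
    by_cases hr : IsConj τ φ φ
    · have h1 : φ' = φ := by
        rw [hcc τ i φ φ' h, ← hcc τ i φ φ hr]
      rw [h1]
    · have hr' : ¬ IsConj τ φ' φ' := by
        intro h2
        apply hr
        have h3 := real_conj h h2
        rwa [h3] at h2
      have hne : φ' ≠ φ := by
        rintro rfl
        exact hr h
      have h4 := hG.choice τ i φ φ' h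
      have h5 : (conjElt hE τ₀).1 i φ = φ' := (hcc τ i φ φ' h).symm
      have h6 : (conjElt hE τ₀).1 i φ' = φ := (hcc τ i φ' φ (isConj_symm h)).symm
      change (if IsConj τ φ' φ' ∨ (⟨i, φ'⟩ : Emb F E) ∈ Φ then y₀ τ i φ'
        else y₀ τ i ((conjElt hE τ₀).1 i φ')) = (if IsConj τ φ φ ∨ (⟨i, φ⟩ : Emb F E) ∈ Φ then
        y₀ τ i φ else y₀ τ i ((conjElt hE τ₀).1 i φ))
      by_cases hm : (⟨i, φ⟩ : Emb F E) ∈ Φ
      · have hm' := (h4.mp hm).2
        rw [if_neg (not_or.2 ⟨hr', hm'⟩), if_pos (Or.inr hm), h6]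
      · have hm' : (⟨i, φ'⟩ : Emb F E) ∈ Φ := by
          by_contra h7
          exact hm (h4.mpr ⟨hne, h7⟩)
        rw [if_pos (Or.inr hm'), if_neg (not_or.2 ⟨hr, hm⟩), h5]
  refine ⟨fun i => valsD hG b y hy i, ?_⟩
  rintro ⟨i, φ⟩ τ hn
  have hblk : ∀ a ∈ (T i).indices φ, ∏ l : (T i).Block φ a, (β τ i φ l.1 : ℂ) =
      v ⟨i, φ⟩ a τ := by
    intro a ha
    obtain ⟨j, -, rfl⟩ := Finset.mem_image.mp ha
    exact hβ τ i φ j
  constructor
  · intro hr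
    change IsConj τ φ φ at hr
    have h1 := ((hy₀ τ i φ) hn).1 hr
    have hyr : y τ i φ = y₀ τ i φ := if_pos (Or.inl hr)
    have hX : valsX T Φ b y i τ φ = diagonal (fun j => (b τ i φ j : ℂ)) *
          (Gam ((T i).sgn (τ.comp φ)) ((T i).p φ) (w i) E).map τ *
          diagonal (fun j => (y₀ τ i φ j : ℂ)) := by
      unfold valsX gam
      rw [if_pos hr, hyr]
    rw [← hX] at h1
    refine ⟨h1.1, h1.2, ?_⟩
    intro a ha hlt
    change 2 * a < w i at hlt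
    refine vals_hodge hG b y hy hr a _ ?_
    change (v ⟨i, φ⟩ a τ : ℂ) = _
    rw [← hblk a ha]
    refine Finset.prod_congr rfl fun j _ => ?_
    have h2 : b τ i φ j.1 = β τ i φ j.1 := by
      change (if IsConj τ φ φ then (if 2 * (T i).p φ j.1 < w i then β τ i φ j.1 else 1)
        else if (⟨i, φ⟩ : Emb F E) ∈ Φ then β τ i φ j.1 else 1) = _
      have h3 := j.2
      rw [if_pos hr, if_pos (by rw [h3]; exact hlt)]
    have h4 : b τ i φ (Fin.rev j.1) = 1 := by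
      change (if IsConj τ φ φ then (if 2 * (T i).p φ (Fin.rev j.1) < w i then
        β τ i φ (Fin.rev j.1) else 1)
        else if (⟨i, φ⟩ : Emb F E) ∈ Φ then β τ i φ (Fin.rev j.1) else 1) = _
      have h3 := j.2
      have h5 := (T i).p_conj τ φ φ hr j.1
      rw [if_pos hr, if_neg (by omega)]
    rw [h2, h4, inv_one, Units.val_one, mul_one]
  · intro hm
    have hr : ¬ IsConj τ φ φ := fun h => hreal τ i φ h hm
    have h := hc τ i φ
    have hr' : ¬ IsConj τ ((conjElt hE τ₀).1 i φ) ((conjElt hE τ₀).1 i φ) := by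
      intro h2
      apply hr
      have h3 := real_conj h h2
      rwa [h3] at h2
    have hm' := ((hG.choice τ i φ _ h).mp hm).2
    have h1 := ((hy₀ τ i φ) hn).2 hm
    have hyr : y τ i ((conjElt hE τ₀).1 i φ) = y₀ τ i φ := by
      rw [hy τ i φ _ h]
      exact if_pos (Or.inr hm)
    constructor
    · change (valsX T Φ b y i τ ((conjElt hE τ₀).1 i φ)).det = _
      unfold valsX
      rw [hyr]
      exact h1
    · intro a ha
      refine vals_hodge hG b y hy h a _ ?_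
      change (v ⟨i, φ⟩ a τ : ℂ) = _
      rw [← hblk a ha]
      refine Finset.prod_congr rfl fun j _ => ?_
      have h2 : b τ i φ j.1 = β τ i φ j.1 := by
        change (if IsConj τ φ φ then (if 2 * (T i).p φ j.1 < w i then β τ i φ j.1 else 1)
          else if (⟨i, φ⟩ : Emb F E) ∈ Φ then β τ i φ j.1 else 1) = _
        rw [if_neg hr, if_pos hm]
      have h4 : b τ i ((conjElt hE τ₀).1 i φ) (Fin.rev j.1) = 1 := by
        change (if IsConj τ ((conjElt hE τ₀).1 i φ) ((conjElt hE τ₀).1 i φ) then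
          (if 2 * (T i).p ((conjElt hE τ₀).1 i φ) (Fin.rev j.1) < w i then
          β τ i ((conjElt hE τ₀).1 i φ) (Fin.rev j.1) else 1)
          else if (⟨i, (conjElt hE τ₀).1 i φ⟩ : Emb F E) ∈ Φ then
          β τ i ((conjElt hE τ₀).1 i φ) (Fin.rev j.1) else 1) = _
        rw [if_neg hr', if_neg hm']
      rw [h2, h4, inv_one, Units.val_one, mul_one]

end Pool.Agent.MP100fe7G
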