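import Pool.Agent.Lib.MP_100fe7_ntG.FacB
import Pool.Agent.Lib.MP_100fe7_ntG.Vals

/-!
The local periods are independent.
-/

set_option linter.unusedSectionVars false

namespace Pool.Agent.MP100fe7G

open MP100fe7U Matrix MP100fe7L

variable {ι : Type} [Fintype ι] [DecidableEq ι] {F : ι → Type} [∀ i, Field (F i)]
  [∀ i, NumberField (F i)] {E : Type} [Field E] [NumberField E] {n : ι → ℕ} {w : ι → ℤ}
  {T : ∀ i, MType (F i) E (n i) (w i)} {hE : Split F E} {τ₀ : E →+* ℂ} {Φ : Finset (Emb F E)}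
  {c d D : Emb F E → Fun T} {v : Emb F E → ℤ → Fun T}

theorem prod_zpow_sum {G I : Type} [CommGroup G] (s : Finset I) (f : I → ℤ) (t : G) :
    ∏ i ∈ s, t ^ f i = t ^ ∑ i ∈ s, f i := by
  classical
  induction s using Finset.induction_on with
  | empty => simp
  | insert a s ha ih =>
    rw [Finset.prod_insert ha, Finset.sum_insert ha, ih, _root_.zpow_add]

/-- a number none of whose powers is in the image of `E` -/
theorem exists_trans (τ₀ : E →+* ℂ) : ∃ t : ℂˣ, ∀ m : ℤ, (∃ e : E, ((t ^ m : ℂˣ) : ℂ) = τ₀ e) →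
    m = 0 := by
  have h1 : Transcendental ℤ (liouvilleNumber (2 : ℕ)) :=
    transcendental_liouvilleNumber (m := 2) le_rfl
  set r : ℝ := liouvilleNumber (2 : ℕ) with hr
  have h0 : r ≠ 0 := by
    intro h
    apply h1
    rw [h]
    exact isAlgebraic_zero
  have halg : ∀ e : E, IsAlgebraic ℚ (τ₀ e) := by
    intro e
    have h2 : IsAlgebraic ℚ e := Algebra.IsAlgebraic.isAlgebraic e
    exact h2.algHom (RingHom.toRatAlgHom τ₀)
  have key : ∀ m : ℕ, 0 < m → ¬ IsAlgebraic ℚ (((r : ℂ)) ^ m) := by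
    intro m hm h
    have h2 : IsAlgebraic ℚ (r : ℂ) := IsAlgebraic.of_pow hm h
    have h3 : IsAlgebraic ℚ r := by
      have h4 : IsAlgebraic ℚ (algebraMap ℝ ℂ r) := h2
      exact (isAlgebraic_algebraMap_iff (algebraMap ℝ ℂ).injective).mp h4
    have h5 : IsAlgebraic ℤ r := (IsFractionRing.isAlgebraic_iff ℤ ℚ ℝ).mpr h3
    exact h1 h5
  refine ⟨Units.mk0 (r : ℂ) (by exact_mod_cast h0), ?_⟩
  rintro m ⟨e, he⟩
  rw [Units.val_zpow_eq_zpow_val, Units.val_mk0] at he
  by_contra hm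
  rcases lt_or_gt_of_ne hm with h | h
  · obtain ⟨k, hk⟩ : ∃ k : ℕ, m = - (k : ℤ) := ⟨m.natAbs, by omega⟩
    have hk0 : 0 < k := by omega
    apply key k hk0
    have h2 : ((r : ℂ)) ^ k = τ₀ e⁻¹ := by
      rw [map_inv₀, ← he, hk, _root_.zpow_neg, zpow_natCast, inv_inv]
    rw [h2]
    exact halg _
  · obtain ⟨k, hk⟩ : ∃ k : ℕ, m = (k : ℤ) := ⟨m.natAbs, by omega⟩
    have hk0 : 0 < k := by omega
    apply key k hk0
    have h2 : ((r : ℂ)) ^ k = τ₀ e := by
      rw [← he, hk, zpow_natCast]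
    rw [h2]
    exact halg _

theorem closure_val (hE : Split F E) (τ₀ : E →+* ℂ) (X : Fun T)
    (hX : X ∈ Subgroup.closure (coefficients T ∪ artinPeriods T hE τ₀))
    (M : ∀ i, Datum (T i)) : ∃ e : E, (X M τ₀ : ℂ) = τ₀ e := by
  refine Subgroup.closure_induction (p := fun X _ => ∃ e : E, (X M τ₀ : ℂ) = τ₀ e)
    ?_ ?_ ?_ ?_ hX
  · rintro X (h | ⟨χ, hχ, h⟩)
    · obtain ⟨e, -, h2⟩ := h M
      exact ⟨e, h2 τ₀⟩
    · exact ⟨_, h M τ₀⟩
  · exact ⟨1, by rw [map_one]; rfl⟩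
  · rintro X Y _ _ ⟨e, he⟩ ⟨e', he'⟩
    refine ⟨e * e', ?_⟩
    rw [map_mul, ← he, ← he']
    rfl
  · rintro X _ ⟨e, he⟩
    refine ⟨e⁻¹, ?_⟩
    rw [map_inv₀, ← he]
    exact Units.val_inv_eq_inv_val _

theorem indep (hG : Good T hE τ₀ Φ) (hl : IsLocal c d D v) (α β : ι → ℤ)
    (y : Emb F E → ℤ → ℤ)
    (hy : ∀ q a, y q a ≠ 0 → if IsConj τ₀ q.2 q.2 then 2 * a < w q.1 else q ∈ Φ)
    (h : (∏ i, (resPeriod T hE τ₀ Φ c D v i ^ α i * resPeriod T hE τ₀ Φ d D v i ^ β i)) *
      ∏ q, ∏ a ∈ (T q.1).indices q.2, v q a ^ y q a ∈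
        Subgroup.closure (coefficients T ∪ artinPeriods T hE τ₀)) :
    (∀ i, n i ≠ 0 → α i + β i = 0 ∧ ((∃ φ : Hm F E i, IsConj τ₀ φ φ) → α i = 0)) ∧
      ∀ q, ∀ a ∈ (T q.1).indices q.2, y q a = 0 := by
  classical
  obtain ⟨t, ht⟩ := exists_trans τ₀
  obtain ⟨-, g2, -, -⟩ := all_number_fields F E hE τ₀ n w T (Fin 0)
    { mat := 1, twist := fun _ => 0, wt := fun s => s.elim0, deg := fun _ => 0,
      sum_wt := fun s => s.elim0,
      map_mul := fun S _ _ A B => by ext i j; exact i.elim0,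
      map_diagonal := fun S _ _ x => by ext i j; exact i.elim0,
      perm := fun _ => 1, perm_one := rfl,
      perm_mul := fun g h => by ext i j; exact i.elim0,
      perm_eval := fun g S _ _ A => by ext i j; exact i.elim0 } (fun _ => Φ) hG.choice
  obtain ⟨g1, -, -, -⟩ := all_number_fields F E hE τ₀ n w T (Fin 0)
    { mat := 1, twist := fun _ => 0, wt := fun s => s.elim0, deg := fun _ => 0,
      sum_wt := fun s => s.elim0,
      map_mul := fun S _ _ A B => by ext i j; exact i.elim0,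
      map_diagonal := fun S _ _ x => by ext i j; exact i.elim0,
      perm := fun _ => 1, perm_one := rfl,
      perm_mul := fun g h => by ext i j; exact i.elim0,
      perm_eval := fun g S _ _ A => by ext i j; exact i.elim0 } (fun _ => Φ) hG.choice
  obtain ⟨M, hM⟩ := exists_datum hG (fun q _ => t ^ α q.1) (fun q _ => t ^ β q.1)
    (fun q _ => t ^ (α q.1 + β q.1 - ∑ a ∈ (T q.1).lowIndices q.2, y q a))
    (fun q a _ => t ^ y q a)
  have hcv : ∀ q : Emb F E, n q.1 ≠ 0 → IsConj τ₀ q.2 q.2 →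
      c q M τ₀ = t ^ α q.1 ∧ d q M τ₀ = t ^ β q.1 := by
    intro q hq hr
    obtain ⟨h1, -⟩ := hM q τ₀ hq
    obtain ⟨h2, h3, -⟩ := h1 hr
    have h4 := isScalar hG τ₀ q hr
    constructor
    · obtain ⟨x, -, h5⟩ := g2 M τ₀ q 1 hr h4 (Or.inl rfl)
      apply Units.ext
      rw [(h5 _).mp h2, (h5 _).mp (hl.pos q M τ₀ hr)]
    · obtain ⟨x, -, h5⟩ := g2 M τ₀ q (-1) hr h4 (Or.inr rfl)
      apply Units.ext
      rw [(h5 _).mp h3, (h5 _).mp (hl.neg q M τ₀ hr)]
  have hvv : ∀ (q : Emb F E) (a : ℤ), n q.1 ≠ 0 → a ∈ (T q.1).indices q.2 →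
      (if IsConj τ₀ q.2 q.2 then 2 * a < w q.1 else q ∈ Φ) → v q a M τ₀ = t ^ y q a := by
    intro q a hq ha h1
    obtain ⟨x, -, h5⟩ := g1 M τ₀ q a
    apply Units.ext
    rw [(h5 _).mp (hl.hodge q a M τ₀)]
    obtain ⟨h2, h3⟩ := hM q τ₀ hq
    by_cases hr : IsConj τ₀ q.2 q.2
    · rw [if_pos hr] at h1
      rw [(h5 _).mp ((h2 hr).2.2 a ha h1)]
    · rw [if_neg hr] at h1
      rw [(h5 _).mp ((h3 h1).2 a ha)]
  let Sq : Emb F E → ℤ := fun q => if n q.1 = 0 then 0 else
    if IsConj τ₀ q.2 q.2 then α q.1 ^ 2 + β q.1 ^ 2 + ∑ a ∈ (T q.1).indices q.2, y q a ^ 2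
    else if q ∈ Φ then (α q.1 + β q.1) ^ 2 + ∑ a ∈ (T q.1).indices q.2, y q a ^ 2 else 0
  have hval : ∀ q : Emb F E, ((resFactor T hE τ₀ Φ c D v q ^ α q.1 *
      resFactor T hE τ₀ Φ d D v q ^ β q.1) * ∏ a ∈ (T q.1).indices q.2, v q a ^ y q a) M τ₀ =
      t ^ Sq q := by
    intro q
    have e0 : ((resFactor T hE τ₀ Φ c D v q ^ α q.1 * resFactor T hE τ₀ Φ d D v q ^ β q.1) *
        ∏ a ∈ (T q.1).indices q.2, v q a ^ y q a) M τ₀ =
        (resFactor T hE τ₀ Φ c D v q M τ₀ ^ α q.1 * resFactor T hE τ₀ Φ d D v q M τ₀ ^ β q.1) *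
        ∏ a ∈ (T q.1).indices q.2, v q a M τ₀ ^ y q a := by
      simp only [Pi.mul_apply, Pi.pow_apply, Finset.prod_apply]
    rw [e0]
    simp only [Sq]
    by_cases hq : n q.1 = 0
    · obtain ⟨e1, e2⟩ := resFactor_empty hG hl (q := q) hq M τ₀
      rw [if_pos hq, e1, e2, indices_empty hq]
      simp
    · rw [if_neg hq]
      by_cases hr : IsConj τ₀ q.2 q.2
      · rw [if_pos hr]
        have e1 : ∏ a ∈ (T q.1).indices q.2, v q a M τ₀ ^ y q a =
            t ^ ∑ a ∈ (T q.1).indices q.2, y q a ^ 2 := by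
          rw [← prod_zpow_sum]
          apply Finset.prod_congr rfl
          intro a ha
          by_cases h0 : y q a = 0
          · rw [h0]
            simp
          · rw [hvv q a hq ha (hy q a h0), ← _root_.zpow_mul, sq]
        unfold resFactor
        rw [if_pos hr, if_pos hr, (hcv q hq hr).1, (hcv q hq hr).2, e1, ← _root_.zpow_mul,
          ← _root_.zpow_mul, ← _root_.zpow_add, ← _root_.zpow_add, sq, sq]
      · rw [if_neg hr]
        by_cases hm : q ∈ Φ
        · rw [if_pos hm]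
          have e1 : ∏ a ∈ (T q.1).indices q.2, v q a M τ₀ ^ y q a =
              t ^ ∑ a ∈ (T q.1).indices q.2, y q a ^ 2 := by
            rw [← prod_zpow_sum]
            apply Finset.prod_congr rfl
            intro a ha
            rw [hvv q a hq ha (by rw [if_neg hr]; exact hm), ← _root_.zpow_mul, sq]
          have e2 : D (act (conjElt hE τ₀) q) M τ₀ =
              t ^ (α q.1 + β q.1 - ∑ a ∈ (T q.1).lowIndices q.2, y q a) := by
            apply Units.ext
            rw [hl.det]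
            exact ((hM q τ₀ hq).2 hm).1
          have e3 : (∏ a ∈ (T q.1).lowIndices q.2, v q a) M τ₀ =
              t ^ ∑ a ∈ (T q.1).lowIndices q.2, y q a := by
            rw [Finset.prod_apply, Finset.prod_apply, ← prod_zpow_sum]
            apply Finset.prod_congr rfl
            intro a ha
            exact hvv q a hq (Finset.mem_filter.mp ha).1 (by rw [if_neg hr]; exact hm)
          have e4 : ∀ c : Emb F E → Fun T, resFactor T hE τ₀ Φ c D v q M τ₀ =
              t ^ (α q.1 + β q.1) := by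
            intro c
            unfold resFactor
            rw [if_neg hr, if_pos hm, Pi.mul_apply, Pi.mul_apply, e2, e3, ← _root_.zpow_add,
              sub_add_cancel]
          rw [e4, e4, e1, ← _root_.zpow_mul, ← _root_.zpow_mul, ← _root_.zpow_add,
            ← _root_.zpow_add]
          congr 1
          ring
        · rw [if_neg hm]
          have e4 : ∀ c : Emb F E → Fun T, resFactor T hE τ₀ Φ c D v q M τ₀ = 1 := by
            intro c
            unfold resFactor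
            rw [if_neg hr, if_neg hm]
            rfl
          have e5 : ∀ a, y q a = 0 := by
            intro a
            by_contra h0
            have h1 := hy q a h0
            rw [if_neg hr] at h1
            exact hm h1
          rw [e4, e4]
          simp [e5]
  have hsum : ∑ q, Sq q = 0 := by
    apply ht
    obtain ⟨e, he⟩ := closure_val hE τ₀ _ h M
    refine ⟨e, ?_⟩
    rw [← he]
    congr 1
    rw [← prod_zpow_sum, ← Finset.prod_congr rfl (fun q _ => hval q)]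
    have e1 : (∏ i, (resPeriod T hE τ₀ Φ c D v i ^ α i * resPeriod T hE τ₀ Φ d D v i ^ β i)) *
        ∏ q, ∏ a ∈ (T q.1).indices q.2, v q a ^ y q a =
        ∏ q : Emb F E, ((resFactor T hE τ₀ Φ c D v q ^ α q.1 *
          resFactor T hE τ₀ Φ d D v q ^ β q.1) * ∏ a ∈ (T q.1).indices q.2, v q a ^ y q a) := by
      rw [Finset.prod_mul_distrib (f := fun q : Emb F E =>
        resFactor T hE τ₀ Φ c D v q ^ α q.1 * resFactor T hE τ₀ Φ d D v q ^ β q.1)]
      congr 1
      rw [Fintype.prod_sigma]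
      apply Finset.prod_congr rfl
      intro i _
      unfold resPeriod
      rw [← Finset.prod_zpow, ← Finset.prod_zpow, ← Finset.prod_mul_distrib]
    rw [e1, Finset.prod_apply, Finset.prod_apply]
  have hnn : ∀ q, 0 ≤ Sq q := by
    intro q
    simp only [Sq]
    have e1 : 0 ≤ ∑ a ∈ (T q.1).indices q.2, y q a ^ 2 :=
      Finset.sum_nonneg fun a _ => sq_nonneg _
    split_ifs
    · exact le_rfl
    · positivity
    · positivity
    · exact le_rfl
  have hz : ∀ q, Sq q = 0 := fun q =>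
    (Finset.sum_eq_zero_iff_of_nonneg fun q _ => hnn q).mp hsum q (Finset.mem_univ q)
  have hys : ∀ q : Emb F E, n q.1 ≠ 0 → (IsConj τ₀ q.2 q.2 ∨ q ∈ Φ) →
      (α q.1 + β q.1 = 0 ∧ (IsConj τ₀ q.2 q.2 → α q.1 = 0)) ∧
        ∀ a ∈ (T q.1).indices q.2, y q a = 0 := by
    intro q hq h1
    have e1 := hz q
    have e2 : 0 ≤ ∑ a ∈ (T q.1).indices q.2, y q a ^ 2 :=
      Finset.sum_nonneg fun a _ => sq_nonneg _
    have e3 : ∑ a ∈ (T q.1).indices q.2, y q a ^ 2 = 0 →
        ∀ a ∈ (T q.1).indices q.2, y q a = 0 := by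
      intro h2 a ha
      exact pow_eq_zero_iff (two_ne_zero) |>.mp
        ((Finset.sum_eq_zero_iff_of_nonneg fun a _ => sq_nonneg _).mp h2 a ha)
    simp only [Sq] at e1
    rw [if_neg hq] at e1
    by_cases hr : IsConj τ₀ q.2 q.2
    · rw [if_pos hr] at e1
      have e4 := sq_nonneg (α q.1)
      have e5 := sq_nonneg (β q.1)
      have e6 : α q.1 ^ 2 = 0 := by linarith
      have e7 : β q.1 ^ 2 = 0 := by linarith
      have e8 := pow_eq_zero_iff (two_ne_zero) |>.mp e6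
      have e9 := pow_eq_zero_iff (two_ne_zero) |>.mp e7
      exact ⟨⟨by omega, fun _ => e8⟩, e3 (by linarith)⟩
    · rcases h1 with h1 | h1
      · exact absurd h1 hr
      rw [if_neg hr, if_pos h1] at e1
      have e4 := sq_nonneg (α q.1 + β q.1)
      have e6 : (α q.1 + β q.1) ^ 2 = 0 := by linarith
      have e8 := pow_eq_zero_iff (two_ne_zero) |>.mp e6
      exact ⟨⟨e8, fun h => absurd h hr⟩, e3 (by linarith)⟩
  constructor
  · intro i hi
    obtain ⟨φ⟩ := exists_hm hE τ₀ i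
    by_cases hr : IsConj τ₀ φ φ
    · obtain ⟨⟨h1, h2⟩, -⟩ := hys ⟨i, φ⟩ hi (Or.inl hr)
      exact ⟨h1, fun _ => h2 hr⟩
    · have hch := hG.choice τ₀ i φ _ (isConj_conjElt hE τ₀ i φ)
      have hne : (conjElt hE τ₀).1 i φ ≠ φ := fun h => hr ((conj_eq_iff hE τ₀ i φ).mp h)
      have hno : ¬ ∃ φ' : Hm F E i, IsConj τ₀ φ' φ' := by
        rintro ⟨φ', hφ'⟩
        exact hr ((real_const hG i φ' φ).mp hφ')
      by_cases hm : (⟨i, φ⟩ : Emb F E) ∈ Φ
      · obtain ⟨⟨h1, h2⟩, -⟩ := hys ⟨i, φ⟩ hi (Or.inr hm)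
        exact ⟨h1, fun h => absurd h hno⟩
      · have hm' : (⟨i, (conjElt hE τ₀).1 i φ⟩ : Emb F E) ∈ Φ := by
          by_contra h1
          exact hm (hch.mpr ⟨hne, h1⟩)
        obtain ⟨⟨h1, h2⟩, -⟩ := hys ⟨i, (conjElt hE τ₀).1 i φ⟩ hi (Or.inr hm')
        exact ⟨h1, fun h => absurd h hno⟩
  · intro q a ha
    by_cases hq : n q.1 = 0
    · rw [indices_empty hq] at ha
      exact absurd ha (Finset.notMem_empty a)
    · by_cases h1 : IsConj τ₀ q.2 q.2 ∨ q ∈ Φ
      · exact (hys q hq h1).2 a ha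
      · by_contra h2
        have h3 := hy q a h2
        apply h1
        by_cases hr : IsConj τ₀ q.2 q.2
        · exact Or.inl hr
        · rw [if_neg hr] at h3
          exact Or.inr h3

end Pool.Agent.MP100fe7G
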