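import Pool.Agent.Lib.MP_100fe7_ntG.GrpE
import Pool.Agent.Lib.MP_100fe7_ntG.Art
import Pool.Agent.Lib.MP_100fe7_ntG.Ind
import Pool.Agent.Lib.MP_100fe7_ntG.DefsI

/-!
The theorem in terms of the named definitions.
-/

set_option linter.unusedSectionVars false

namespace Pool.Agent.MP100fe7G

open MP100fe7U

section

variable {ι : Type} [Fintype ι] [DecidableEq ι] {F : ι → Type} [∀ i, Field (F i)]
  [∀ i, NumberField (F i)] {E : Type} [Field E] [NumberField E] {n : ι → ℕ} {w : ι → ℤ}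
  {T : ∀ i, MType (F i) E (n i) (w i)} {hE : Split F E} {τ₀ : E →+* ℂ} {Φ : Finset (Emb F E)}
  {c d D : Emb F E → Fun T} {v : Emb F E → ℤ → Fun T}

theorem exists_local (hG : Good T hE τ₀ Φ) :
    ∃ (c d D : Emb F E → Fun T) (v : Emb F E → ℤ → Fun T), IsLocal c d D v := by
  classical
  obtain ⟨g1, g2, -, -⟩ := all_number_fields F E hE τ₀ n w T _
    (noRep n (r := 0) (fun _ _ => 0)) (fun _ => Φ) hG.choice
  have h1 : ∀ (δ : ℤ) (hδ : δ = 1 ∨ δ = -1) (q : Emb F E) (M : ∀ i, Datum (T i))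
      (τ : E →+* ℂ), ∃ x : ℂˣ, IsConj τ q.2 q.2 → (M q.1).IsRealPeriod τ q.2 δ x := by
    intro δ hδ q M τ
    by_cases hr : IsConj τ q.2 q.2
    · obtain ⟨x, hx, h2⟩ := g2 M τ q δ hr (isScalar hG τ q hr) hδ
      exact ⟨Units.mk0 x hx, fun _ => (h2 _).mpr rfl⟩
    · exact ⟨1, fun h => absurd h hr⟩
  have h2 : ∀ (q : Emb F E) (a : ℤ) (M : ∀ i, Datum (T i)) (τ : E →+* ℂ), ∃ x : ℂˣ,
      (M q.1).IsHodgePeriod τ q.2 a x := by
    intro q a M τ
    obtain ⟨x, hx, h3⟩ := g1 M τ q a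
    exact ⟨Units.mk0 x hx, (h3 _).mpr rfl⟩
  choose c hc using h1 1 (Or.inl rfl)
  choose d hd using h1 (-1) (Or.inr rfl)
  choose v hv using h2
  exact ⟨c, d, fun q M τ => Units.mk0 ((M q.1).comp τ q.2).det
    ((M q.1).comp_unit τ q.2).ne_zero, v, hc, hd, fun q M τ => rfl, hv⟩

theorem all_le (hG : Good T hE τ₀ Φ) (hl : IsLocal c d D v) :
    Subgroup.closure (coefficients T ∪ allPeriods T hE τ₀) ≤
      Subgroup.closure (gens T hE τ₀ Φ c d D v) := by
  obtain ⟨M₀, -⟩ := exists_datum hG (fun _ _ => 1) (fun _ _ => 1) (fun _ _ => 1)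
    (fun _ _ _ => 1)
  rw [Subgroup.closure_le]
  rintro X (hX | hX)
  · exact Subgroup.subset_closure (Or.inl (Or.inl hX))
  · exact periods_mem hG hl M₀ X hX

theorem tensor_sub : tensorPeriods T hE τ₀ ⊆ allPeriods T hE τ₀ := by
  rintro X ⟨κ, h1, h2, ρ, r, ω, S, ε, -, -, hε, hX⟩
  exact ⟨κ, h1, h2, ρ, ε, hε, hX⟩

theorem no_fam_eq {r : ℕ} (g : Gal F E) (S V : Fams F E n r) :
    S = fact g V ↔ ∀ q, S (act g q) = V q := by
  have h1 : ∀ (i : ι) (φ : Hm F E i), (g⁻¹ : Gal F E).1 i (g.1 i φ) = φ := by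
    intro i φ
    exact eq_of_heq (Sigma.mk.inj_iff.mp (act_inv_act g (⟨i, φ⟩ : Emb F E))).2
  have h2 : ∀ (i : ι) (φ : Hm F E i), g.1 i ((g⁻¹ : Gal F E).1 i φ) = φ := by
    intro i φ
    have h3 := act_inv_act g⁻¹ (⟨i, φ⟩ : Emb F E)
    rw [inv_inv] at h3
    exact eq_of_heq (Sigma.mk.inj_iff.mp h3).2
  constructor
  · rintro h ⟨i, φ⟩
    rw [h]
    show V ⟨i, (g⁻¹ : Gal F E).1 i (g.1 i φ)⟩ = V ⟨i, φ⟩
    rw [h1]
  · intro h
    funext q
    obtain ⟨i, φ⟩ := q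
    have h3 := h ⟨i, (g⁻¹ : Gal F E).1 i φ⟩
    show S ⟨i, φ⟩ = V ⟨i, (g⁻¹ : Gal F E).1 i φ⟩
    rw [← h3]
    show S ⟨i, φ⟩ = S ⟨i, g.1 i ((g⁻¹ : Gal F E).1 i φ)⟩
    rw [h2]

theorem no_tensor {r : ℕ} (ω : Emb F E → Fin r → ℕ) :
    IsTensor (noRep n ω) ω (fun S : KO n ω => S.1) where
  injective := Subtype.val_injective
  range := by
    intro U
    have h1 : ∀ g : Gal F E, prof U = pact g ω ↔ ∀ q k, (U (act g q) k).card = ω q k := by
      intro g
      constructor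
      · intro h q k
        have h2 := congrFun (congrFun h (act g q)) k
        have h3 : act g⁻¹ (act g q) = q := act_inv_act g q
        unfold prof pact at h2
        rw [h2, h3]
      · intro h
        funext q k
        have h2 := h (act g⁻¹ q) k
        have h3 : act g (act g⁻¹ q) = q := by
          have h4 := act_inv_act g⁻¹ q
          rwa [inv_inv] at h4
        unfold prof pact
        rw [← h2, h3]
    constructor
    · rintro ⟨S, rfl⟩
      obtain ⟨g, hg⟩ := S.2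
      exact ⟨g, (h1 g).mp hg⟩
    · rintro ⟨g, hg⟩
      exact ⟨⟨U, g, (h1 g).mpr hg⟩, rfl⟩
  mat := fun s t => rfl
  twist := fun i => rfl
  perm_eq := fun g s t h => by
    classical
    exact (Matrix.of_apply _ _ _).trans (if_pos ((no_fam_eq g _ _).mpr h))
  perm_ne := fun g s t h => by
    classical
    exact (Matrix.of_apply _ _ _).trans (if_neg fun h1 => h ((no_fam_eq g _ _).mp h1))

theorem no_sub : noPeriods T hE τ₀ ⊆ tensorPeriods T hE τ₀ := by
  rintro X ⟨r, ω, ε, hε, hm, hX⟩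
  exact ⟨_, _, _, noRep n ω, r, ω, _, ε, no_tensor ω, hm, hε, hX⟩

theorem rankOne_eq : rankOnePeriods T hE τ₀ = artinPeriods T hE τ₀ := by
  ext X
  constructor
  · rintro ⟨χ, h1, h2, hχ⟩
    exact ⟨χ, ⟨h1, h2⟩, hχ⟩
  · rintro ⟨χ, ⟨h1, h2⟩, hχ⟩
    exact ⟨χ, h1, h2, hχ⟩

theorem generated_eq (S : Set (Fun T)) :
    generated T hE τ₀ S = Subgroup.closure (coefficients T ∪ artinPeriods T hE τ₀ ∪ S) := by
  unfold generated
  rw [rankOne_eq]

theorem grp_le : grp T hE τ₀ ≤ generated T hE τ₀ (tensorPeriods T hE τ₀) := by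
  rw [generated_eq]
  exact Subgroup.closure_mono (Set.union_subset_union_right _ no_sub)

theorem tensor_le : generated T hE τ₀ (tensorPeriods T hE τ₀) ≤ periodGroup T hE τ₀ := by
  rw [generated_eq]
  unfold periodGroup
  rw [Subgroup.closure_le]
  rintro X ((hX | hX) | hX)
  · exact Subgroup.subset_closure (Or.inl hX)
  · exact Subgroup.subset_closure (Or.inr (artin_mem X hX))
  · exact Subgroup.subset_closure (Or.inr (tensor_sub hX))

theorem gens_le (hG : Good T hE τ₀ Φ) (hl : IsLocal c d D v) {b : ℤ} (hb : ParityCond T b) :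
    Subgroup.closure (gens T hE τ₀ Φ c d D v) ≤ grp T hE τ₀ := by
  rw [Subgroup.closure_le]
  rintro X ((hX | hX) | ⟨⟨i, rfl⟩ | ⟨i, rfl⟩⟩ | ⟨q, a, rfl⟩)
  · exact Subgroup.subset_closure (Or.inl (Or.inl hX))
  · exact Subgroup.subset_closure (Or.inl (Or.inr hX))
  · exact (res_mem hG hl i).1
  · exact (res_mem hG hl i).2
  · exact orbit_mem hG hl hb q a

end

theorem g_main {ι : Type} [Fintype ι] [DecidableEq ι] (F : ι → Type)
    [∀ i, Field (F i)] [∀ i, NumberField (F i)] (E : Type) [Field E] [NumberField E]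
    (hE : Split F E) (τ₀ : E →+* ℂ) (hc : ∀ τ, conjElt hE τ = conjElt hE τ₀) (n : ι → ℕ)
    (w : ι → ℤ) (T : ∀ i, MType (F i) E (n i) (w i))
    (hmid : ∀ (i : ι) (φ : Hm F E i) (j : Fin (n i)), 2 * (T i).p φ j ≠ w i)
    (hs : ∀ (i : ι) (σ σ' : Hm F ℂ i), (T i).sgn σ = (T i).sgn σ')
    (hp : ∀ (i : ι) (φ : Hm F E i), Monotone ((T i).p φ)) (Φ : Finset (Emb F E))
    (hΦ : IsChoice fun _ : E →+* ℂ => Φ) :
    (∃ (c d D : Emb F E → Fun T) (v : Emb F E → ℤ → Fun T), IsLocal c d D v) ∧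
    ∀ (c d D : Emb F E → Fun T) (v : Emb F E → ℤ → Fun T), IsLocal c d D v →
      periodGroup T hE τ₀ ≤ generated T hE τ₀ (localPeriods T hE τ₀ Φ c d D v) ∧
      ((∃ b e, ParityCondition T b e) →
        periodGroup T hE τ₀ = generated T hE τ₀ (localPeriods T hE τ₀ Φ c d D v) ∧
        periodGroup T hE τ₀ = generated T hE τ₀ (tensorPeriods T hE τ₀)) ∧
      Independent T hE τ₀ Φ c d D v := by
  have hG : Good T hE τ₀ Φ := ⟨hc, hmid, hs, hp, hΦ⟩
  refine ⟨exists_local hG, fun c d D v hl => ?_⟩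
  have h1 : periodGroup T hE τ₀ ≤ generated T hE τ₀ (localPeriods T hE τ₀ Φ c d D v) := by
    rw [generated_eq]
    exact all_le hG hl
  refine ⟨h1, ?_, ?_⟩
  · rintro ⟨b, e, hbe⟩
    have hb := parityCond hbe
    have h2 : generated T hE τ₀ (tensorPeriods T hE τ₀) ≤ periodGroup T hE τ₀ := tensor_le
    have h3 : generated T hE τ₀ (localPeriods T hE τ₀ Φ c d D v) ≤
        generated T hE τ₀ (tensorPeriods T hE τ₀) := by
      rw [generated_eq (localPeriods T hE τ₀ Φ c d D v)]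
      exact (gens_le hG hl hb).trans grp_le
    exact ⟨le_antisymm h1 (h3.trans h2), le_antisymm (h1.trans h3) h2⟩
  · intro α β y hy h
    refine indep hG hl α β y hy ?_
    have h4 : generated T hE τ₀ ∅ = Subgroup.closure (coefficients T ∪ artinPeriods T hE τ₀) := by
      rw [generated_eq, Set.union_empty]
    rw [← h4]
    exact h

end Pool.Agent.MP100fe7G
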