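import Mathlib

/-!
Products over one half of a set with an involution.
-/

set_option linter.unusedSectionVars false

namespace Pool.Agent.MP100fe7G

theorem half_orbit {X G : Type} [Fintype X] [DecidableEq X] [CommGroup G] (m : X → X)
    (hm : ∀ x, m (m x) = x) (H : X → Prop) [DecidablePred H] (hH : ∀ x, H x ↔ ¬ H (m x))
    (Q : X → G) (hQ : ∀ x, Q (m x) = (Q x)⁻¹) (O : Finset X) :
    ∏ z ∈ O, Q z =
      ∏ z with H z, Q z ^ ((if z ∈ O then 1 else 0) - (if m z ∈ O then 1 else 0) : ℤ) := by
  have h1 : ∏ z ∈ O, Q z = ∏ z, (if z ∈ O then Q z else 1) := by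
    rw [Finset.prod_ite_mem, Finset.univ_inter]
  have h2 : ∏ z with ¬ H z, (if z ∈ O then Q z else 1) =
      ∏ z with H z, (if m z ∈ O then Q (m z) else 1) := by
    refine Finset.prod_nbij' m m ?_ ?_ (fun x _ => hm x) (fun x _ => hm x) ?_
    · intro x hx
      rw [Finset.mem_filter] at hx ⊢
      refine ⟨Finset.mem_univ _, ?_⟩
      by_contra hc
      exact hx.2 ((hH x).2 hc)
    · intro x hx
      rw [Finset.mem_filter] at hx ⊢
      exact ⟨Finset.mem_univ _, (hH x).1 hx.2⟩
    · intro x _
      rw [hm x]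
  rw [h1, ← Finset.prod_filter_mul_prod_filter_not Finset.univ H, h2, ← Finset.prod_mul_distrib]
  refine Finset.prod_congr rfl fun z _ => ?_
  rw [hQ z]
  by_cases ha : z ∈ O <;> by_cases hb : m z ∈ O
  · rw [if_pos ha, if_pos hb, if_pos ha, if_pos hb, mul_inv_cancel, sub_self, zpow_zero]
  · rw [if_pos ha, if_neg hb, if_pos ha, if_neg hb, mul_one, sub_zero, zpow_one]
  · rw [if_neg ha, if_pos hb, if_neg ha, if_pos hb, one_mul, zero_sub, zpow_neg, zpow_one]
  · rw [if_neg ha, if_neg hb, if_neg ha, if_neg hb, one_mul, sub_zero, zpow_zero]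

theorem half_mono {X G : Type} [Fintype X] [DecidableEq X] [CommGroup G] (m : X → X)
    (hm : ∀ x, m (m x) = x) (H : X → Prop) [DecidablePred H] (hH : ∀ x, H x ↔ ¬ H (m x))
    (Q : X → G) (hQ : ∀ x, Q (m x) = (Q x)⁻¹) (R : X → Finset X) (hR1 : ∀ x, x ∈ R x)
    (hR2 : ∀ x y, y ∈ R x → R y = R x) (hRm : ∀ x y, y ∈ R x → m y ∈ R (m x)) (K : Subgroup G)
    (hK : ∀ x, ∏ z ∈ R x, Q z ∈ K) (y : X → ℤ) (hy : ∀ x, y (m x) = - y x)
    (hyR : ∀ x z, z ∈ R x → y z = y x) : ∏ x with H x, Q x ^ y x ∈ K := by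
  induction hn : (Finset.univ.filter fun x => y x ≠ 0).card using Nat.strong_induction_on
    generalizing y with
  | _ n ih =>
  by_cases h0 : ∀ x, y x = 0
  · have h1 : ∏ x with H x, Q x ^ y x = 1 := by
      refine Finset.prod_eq_one fun x _ => ?_
      rw [h0 x, zpow_zero]
    rw [h1]
    exact K.one_mem
  push Not at h0
  obtain ⟨x, hx⟩ := h0
  have hmx : m x ∉ R x := by
    intro h
    have h1 := hyR x (m x) h
    rw [hy x] at h1
    omega
  have hmem : ∀ u v, v ∈ R u → ∀ w, w ∈ R v ↔ w ∈ R u := by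
    intro u v h w
    rw [hR2 u v h]
  have hmR : ∀ u v, m v ∈ R u ↔ v ∈ R (m u) := by
    intro u v
    constructor
    · intro h
      have h1 := hRm u (m v) h
      rwa [hm] at h1
    · intro h
      have h1 := hRm (m u) v h
      rwa [hm] at h1
  have hsym : ∀ u v, v ∈ R u → u ∈ R v := by
    intro u v h
    rw [hR2 u v h]
    exact hR1 u
  let d : X → ℤ := fun z => (if z ∈ R x then 1 else 0) - (if m z ∈ R x then 1 else 0)
  have hd1 : ∀ z, d (m z) = - d z := by
    intro z
    change ((if m z ∈ R x then 1 else 0) - (if m (m z) ∈ R x then 1 else 0) : ℤ) =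
      - ((if z ∈ R x then 1 else 0) - (if m z ∈ R x then 1 else 0))
    rw [hm]
    ring
  have hd2 : ∀ u z, z ∈ R u → d z = d u := by
    intro u z h
    have e1 : z ∈ R x ↔ u ∈ R x := by
      constructor
      · intro h1
        have h2 := hsym u z h
        rw [hR2 x z h1] at h2
        exact h2
      · intro h1
        rw [hR2 x u h1] at h
        exact h
    have e2 : m z ∈ R x ↔ m u ∈ R x := by
      have h3 := hRm u z h
      constructor
      · intro h1
        have h2 := hsym (m u) (m z) h3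
        rw [hR2 x (m z) h1] at h2
        exact h2
      · intro h1
        rw [hR2 x (m u) h1] at h3
        exact h3
    change ((if z ∈ R x then 1 else 0) - (if m z ∈ R x then 1 else 0) : ℤ) =
      ((if u ∈ R x then 1 else 0) - (if m u ∈ R x then 1 else 0))
    simp only [e1, e2]
  have hdx : d x = 1 := by
    change ((if x ∈ R x then 1 else 0) - (if m x ∈ R x then 1 else 0) : ℤ) = 1
    rw [if_pos (hR1 x), if_neg hmx, sub_zero]
  let y' : X → ℤ := fun z => y z - y x * d z
  have hsupp : ∀ z, y z = 0 → d z = 0 := by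
    intro z hz
    have h1 : z ∉ R x := by
      intro h
      have h2 := hyR x z h
      rw [hz] at h2
      exact hx h2.symm
    have h2 : m z ∉ R x := by
      intro h
      have h3 := hyR x (m z) h
      rw [hy z, hz, neg_zero] at h3
      exact hx h3.symm
    change ((if z ∈ R x then 1 else 0) - (if m z ∈ R x then 1 else 0) : ℤ) = 0
    rw [if_neg h1, if_neg h2, sub_zero]
  have hlt : (Finset.univ.filter fun z => y' z ≠ 0).card < n := by
    rw [← hn]
    refine Finset.card_lt_card ?_
    rw [Finset.ssubset_iff_of_subset]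
    · refine ⟨x, ?_, ?_⟩
      · rw [Finset.mem_filter]
        exact ⟨Finset.mem_univ _, hx⟩
      · rw [Finset.mem_filter]
        rintro ⟨_, h⟩
        refine h ?_
        change y x - y x * d x = 0
        rw [hdx, mul_one, sub_self]
    · intro z hz
      rw [Finset.mem_filter] at hz ⊢
      refine ⟨hz.1, fun h => hz.2 ?_⟩
      change y z - y x * d z = 0
      rw [h, hsupp z h, mul_zero, sub_zero]
  have h1 := ih _ hlt y' (fun z => by
      change y (m z) - y x * d (m z) = - (y z - y x * d z)
      rw [hy, hd1]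
      ring) (fun u z h => by
      change y z - y x * d z = y u - y x * d u
      rw [hyR u z h, hd2 u z h]) rfl
  have h2 : ∏ z with H z, Q z ^ d z ∈ K := by
    have h3 := hK x
    rw [half_orbit m hm H hH Q hQ (R x)] at h3
    exact h3
  have h4 : ∏ z with H z, Q z ^ y z =
      (∏ z with H z, Q z ^ y' z) * (∏ z with H z, Q z ^ d z) ^ y x := by
    rw [← Finset.prod_zpow, ← Finset.prod_mul_distrib]
    refine Finset.prod_congr rfl fun z _ => ?_
    rw [← zpow_mul, ← zpow_add]
    congr 1
    change y z = y z - y x * d z + d z * y x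
    ring
  rw [h4]
  exact K.mul_mem h1 (K.zpow_mem h2 _)

end Pool.Agent.MP100fe7G
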