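import Pool.Agent.Lib.MP_100fe7_ntU.FinalV

/-!
The periods of conjugate pairs are inverse to each other.
-/

set_option linter.unusedSectionVars false

namespace Pool.Agent.MP100fe7G

open MP100fe7U Matrix MP100fe7L

private theorem loc_col {n : ℕ} {s p p' : Fin n → ℤ} {w : ℤ} {X X' : Matrix (Fin n) (Fin n) ℂ}
    {H H' : ℤ → Submodule ℂ (Fin n → ℂ)} (h : PairPt s p p' w X X' H H') (a : ℤ)
    (j : {j : Fin n // p j = a}) :
    (fun k => Zr s p' X' H' k j.1)
      = ∑ k : {k : Fin n // p k = a}, (X * Zr s p' X' H') k.1 j.1 • zc p X H k.1 := by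
  refine z_unique h.unit h.fil h.int (j := j.1) (Zr_mem h j.1) ?_ ?_
  · refine Submodule.sum_mem _ fun k _ => Submodule.smul_mem _ _ ?_
    have h1 := (zc_spec h.unit h.fil k.1).1
    have h2 : p k.1 = p j.1 := k.2.trans j.2.symm
    rw [h2] at h1
    exact h1
  · intro i hi
    rw [← commonZ_mul_Zr, mulVec_sum, Finset.sum_apply]
    have h1 : ∀ k : {k : Fin n // p k = a},
        (X *ᵥ ((X * Zr s p' X' H') k.1 j.1 • zc p X H k.1)) i
          = (X * Zr s p' X' H') k.1 j.1 * if i = k.1 then 1 else 0 := by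
      intro k
      rw [mulVec_smul, Pi.smul_apply, smul_eq_mul, (zc_spec h.unit h.fil k.1).2 i (by
        rw [k.2, ← j.2]
        exact hi)]
    rw [Finset.sum_congr rfl fun k _ => h1 k]
    rcases hi.lt_or_eq with hlt | heq
    · rw [Zr_low h i j.1 hlt]
      refine (Finset.sum_eq_zero fun k _ => ?_).symm
      rw [if_neg, mul_zero]
      intro hik
      rw [hik, k.2, j.2] at hlt
      exact lt_irrefl _ hlt
    · rw [Finset.sum_eq_single (⟨i, heq.trans j.2⟩ : {k : Fin n // p k = a})]
      · rw [if_pos rfl, mul_one]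
      · intro b _ hb
        rw [if_neg, mul_zero]
        intro hib
        exact hb (Subtype.ext hib.symm)
      · intro hn
        exact absurd (Finset.mem_univ _) hn

theorem hper_inv {n : ℕ} {s p p' : Fin n → ℤ} {w : ℤ} {X X' : Matrix (Fin n) (Fin n) ℂ}
    {H H' : ℤ → Submodule ℂ (Fin n → ℂ)} (h : PairPt s p p' w X X' H H') (a : ℤ) {v v' : ℂ}
    (h1 : HPer s p p' w X X' H' a v) (h2 : HPer s p' p w X' X H (w - a) v') : v * v' = 1 := by
  have hs := h.symm
  rw [hper_iff h] at h1
  rw [hper_iff hs] at h2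
  let e : {j : Fin n // p j = a} ≃ {j : Fin n // p' j = w - a} :=
    { toFun := fun j => ⟨Fin.rev j.1, by rw [h.hp, j.2]⟩
      invFun := fun j => ⟨Fin.rev j.1, by
        have := hs.hp j.1
        rw [j.2] at this
        omega⟩
      left_inv := fun j => Subtype.ext (Fin.rev_rev _)
      right_inv := fun j => Subtype.ext (Fin.rev_rev _) }
  have hss : ∀ k, (s k : ℂ) * s k = 1 := by
    intro k
    rcases h.hs k with hk | hk
    · rw [hk]
      norm_num
    · rw [hk]
      norm_num
  have key : (pblk p' (X' * Zr s p X H) (w - a)).submatrix e e * pblk p (X * Zr s p' X' H') a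
      = 1 := by
    ext i j
    have hj := (e j).2
    have hz := zc_spec h.unit' h.fil' (e j).1
    have h3 := hz.2 (e i).1 (by rw [(e i).2, (e j).2])
    have h4 : zc p' X' H' (e j).1 = ∑ k : {k : Fin n // p k = a},
        (X * Zr s p' X' H') k.1 j.1 • fun l => Zr s p X H l (e k).1 := by
      funext l
      have h5 := congrFun (loc_col h a j) l
      simp only [Finset.sum_apply, Pi.smul_apply, smul_eq_mul] at h5 ⊢
      have h6 : ∀ k : {k : Fin n // p k = a}, (X * Zr s p' X' H') k.1 j.1 * Zr s p X H l (e k).1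
          = (s l : ℂ) * ((X * Zr s p' X' H') k.1 j.1 * zc p X H k.1 l) := by
        intro k
        have : Zr s p X H l (e k).1 = (s l : ℂ) * zc p X H k.1 l := by
          change (s l : ℂ) * zc p X H (Fin.rev (Fin.rev k.1)) l = _
          rw [Fin.rev_rev]
        rw [this]
        ring
      rw [Finset.sum_congr rfl fun k _ => h6 k, ← Finset.mul_sum, ← h5]
      change _ = (s l : ℂ) * ((s l : ℂ) * zc p' X' H' (Fin.rev j.1) l)
      rw [← mul_assoc, hss, one_mul]
      rfl
    rw [h4, mulVec_sum, Finset.sum_apply] at h3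
    rw [mul_apply, one_apply]
    have h7 : ∀ k : {k : Fin n // p k = a},
        (pblk p' (X' * Zr s p X H) (w - a)).submatrix e e i k * pblk p (X * Zr s p' X' H') a k j
          = (X' *ᵥ ((X * Zr s p' X' H') k.1 j.1 • fun l => Zr s p X H l (e k).1)) (e i).1 := by
      intro k
      rw [mulVec_smul, Pi.smul_apply, smul_eq_mul, ← commonZ_mul_Zr, mul_comm]
      rfl
    rw [Finset.sum_congr rfl fun k _ => h7 k, h3]
    by_cases hij : i = j
    · rw [hij, if_pos rfl, if_pos rfl]
    · rw [if_neg hij, if_neg]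
      intro h8
      exact hij (e.injective (Subtype.ext h8))
  have h9 := congrArg det key
  rw [det_mul, det_submatrix_equiv_self, det_one] at h9
  rw [h1, h2, mul_comm]
  exact h9

end Pool.Agent.MP100fe7G
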