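import Pool.Agent.Lib.MP_100fe7_ntG.FacB
import Pool.Agent.Lib.MP_100fe7_ntG.Loc
import Pool.Agent.Lib.MP_100fe7_ntG.Half

/-!
The periods are in the group generated by the local periods.
-/

set_option linter.unusedSectionVars false

namespace Pool.Agent.MP100fe7G

open MP100fe7U Matrix MP100fe7L

variable {ι : Type} [Fintype ι] [DecidableEq ι] {F : ι → Type} [∀ i, Field (F i)]
  [∀ i, NumberField (F i)] {E : Type} [Field E] [NumberField E] {n : ι → ℕ} {w : ι → ℤ}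
  {T : ∀ i, MType (F i) E (n i) (w i)} {hE : Split F E} {τ₀ : E →+* ℂ} {Φ : Finset (Emb F E)}

section orbit

theorem inOrbit_refl (q : Emb F E) : InOrbit T q q := ⟨1, fun _ => rfl, rfl⟩

theorem inOrbit_symm {q q' : Emb F E} (h : InOrbit T q q') : InOrbit T q' q := by
  obtain ⟨g, hg, rfl⟩ := h
  refine ⟨g⁻¹, ?_, act_inv_act g q⟩
  intro r
  have h1 := hg (act g⁻¹ r)
  have h2 : (act g (act g⁻¹ r)).2 = r.2 := eq_of_heq (Sigma.mk.inj_iff.mp (act_act_inv g r)).2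
  change (T r.1).p (act g (act g⁻¹ r)).2 = (T r.1).p (act g⁻¹ r).2 at h1
  rw [h2] at h1
  exact h1.symm

theorem inOrbit_trans {q q' q'' : Emb F E} (h : InOrbit T q q') (h' : InOrbit T q' q'') :
    InOrbit T q q'' := by
  obtain ⟨g, hg, rfl⟩ := h
  obtain ⟨g', hg', rfl⟩ := h'
  refine ⟨g' * g, ?_, act_mul g' g q⟩
  intro r
  exact (hg' (act g r)).trans (hg r)

theorem inOrbit_fst {q q' : Emb F E} (h : InOrbit T q q') : q'.1 = q.1 := by
  obtain ⟨g, hg, rfl⟩ := h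
  rfl

/-- the orbit of a pair -/
noncomputable def orbP (z : Pt T) : Finset (Pt T) :=
  Finset.univ.filter fun z' => InOrbit T z.1 z'.1 ∧ z'.2.1 = z.2.1

theorem mem_orbP (z z' : Pt T) : z' ∈ orbP z ↔ InOrbit T z.1 z'.1 ∧ z'.2.1 = z.2.1 := by
  unfold orbP
  rw [Finset.mem_filter]
  simp

theorem orbP_self (z : Pt T) : z ∈ orbP z := (mem_orbP z z).mpr ⟨inOrbit_refl _, rfl⟩

theorem orbP_eq {z z' : Pt T} (h : z' ∈ orbP z) : orbP z' = orbP z := by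
  obtain ⟨h1, h2⟩ := (mem_orbP z z').mp h
  ext u
  rw [mem_orbP, mem_orbP, h2]
  exact ⟨fun h3 => ⟨inOrbit_trans h1 h3.1, h3.2⟩,
    fun h3 => ⟨inOrbit_trans (inOrbit_symm h1) h3.1, h3.2⟩⟩

theorem orbP_mir (hG : Good T hE τ₀ Φ) {z z' : Pt T} (h : z' ∈ orbP z) :
    mir hE τ₀ z' ∈ orbP (mir hE τ₀ z) := by
  obtain ⟨h1, h2⟩ := (mem_orbP z z').mp h
  have h3 := inOrbit_fst h1
  obtain ⟨g, hg, hq⟩ := h1
  rw [mem_orbP]
  constructor
  · refine ⟨g, hg, ?_⟩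
    change act g (act (conjElt hE τ₀) z.1) = act (conjElt hE τ₀) z'.1
    rw [← act_mul, central hG g, act_mul, hq]
  · change w z'.1.1 - z'.2.1 = w z.1.1 - z.2.1
    rw [h2, h3]

theorem orbit_prod {G : Type} [CommGroup G] (v : Emb F E → ℤ → G) (z : Pt T) :
    ∏ z' ∈ orbP z, Qf v z' = orbitPeriod T v z.1 z.2.1 := by
  classical
  unfold orbitPeriod
  refine Finset.prod_bij (fun z' _ => z'.1) ?_ ?_ ?_ ?_
  · intro z' hz'
    rw [Finset.mem_filter]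
    exact ⟨Finset.mem_univ _, ((mem_orbP z z').mp hz').1⟩
  · intro z₁ h1 z₂ h2 h3
    have e1 := ((mem_orbP z z₁).mp h1).2
    have e2 := ((mem_orbP z z₂).mp h2).2
    obtain ⟨q₁, a₁, ha₁⟩ := z₁
    obtain ⟨q₂, a₂, ha₂⟩ := z₂
    dsimp only at e1 e2 h3
    subst h3
    subst e1
    subst e2
    rfl
  · intro q' hq'
    obtain ⟨g, hg, hq⟩ := (Finset.mem_filter.mp hq').2
    have hg' : HodgeGal T g := hg
    refine ⟨gpt hg' z, ?_, hq⟩
    rw [mem_orbP]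
    exact ⟨⟨g, hg, rfl⟩, rfl⟩
  · intro z' hz'
    have e1 := ((mem_orbP z z').mp hz').2
    unfold Qf
    rw [e1]

end orbit

section hodge

variable {c d D : Emb F E → Fun T} {v : Emb F E → ℤ → Fun T}

theorem Qf_mir (hG : Good T hE τ₀ Φ) (hl : IsLocal c d D v) (z : Pt T) :
    Qf v (mir hE τ₀ z) = (Qf v z)⁻¹ := by
  rw [eq_inv_iff_mul_eq_one, mul_comm]
  funext M τ
  apply Units.ext
  have h1 : IsConj τ z.1.2 ((conjElt hE τ₀).1 z.1.1 z.1.2) := by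
    have h2 := isConj_conjElt hE τ z.1.1 z.1.2
    rw [hG.conj τ] at h2
    exact h2
  have h2 := (hodge_iff M hE τ h1 _ _).mp (hl.hodge z.1 z.2.1 M τ)
  have h3 := (hodge_iff M hE τ (isConj_symm h1) _ _).mp
    (hl.hodge (act (conjElt hE τ₀) z.1) (w z.1.1 - z.2.1) M τ)
  rw [sgn_conj_eq T τ h1] at h3
  exact hper_inv (pairPt T τ M h1) z.2.1 h2 h3

end hodge

end Pool.Agent.MP100fe7G
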