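import Pool.Agent.Lib.MP_100fe7_ntG.GrpA

/-!
The periods are in the group generated by the local periods.
-/

set_option linter.unusedSectionVars false

namespace Pool.Agent.MP100fe7G

open MP100fe7U Matrix MP100fe7L

variable {ι : Type} [Fintype ι] [DecidableEq ι] {F : ι → Type} [∀ i, Field (F i)]
  [∀ i, NumberField (F i)] {E : Type} [Field E] [NumberField E] {n : ι → ℕ} {w : ι → ℤ}
  {T : ∀ i, MType (F i) E (n i) (w i)} {hE : Split F E} {τ₀ : E →+* ℂ} {Φ : Finset (Emb F E)}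
  {κ : Type} [Fintype κ] [DecidableEq κ] (ρ : Rep F E n κ)

theorem lo_cpt (hG : Good T hE τ₀ Φ) (t : Tot F E n) :
    2 * (T (cpt hE τ₀ t).1.1).p (cpt hE τ₀ t).1.2 (cpt hE τ₀ t).2 < w (cpt hE τ₀ t).1.1 ↔
      ¬ 2 * (T t.1.1).p t.1.2 t.2 < w t.1.1 := by
  rw [p_cpt hE τ₀ t]
  have hk := hG.mid t.1.1 t.1.2 t.2
  have h1 : w (cpt hE τ₀ t).1.1 = w t.1.1 := rfl
  rw [h1]
  omega

theorem y_mir (hG : Good T hE τ₀ Φ) {a₀ : ℤ} {α β : ι → ℤ} {y : Pt T → ℤ}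
    (h1 : ∀ t : Tot F E n, α t.1.1 + β t.1.1 = ∑ s ∈ ρ.lowPart T a₀, ρ.weight s t +
        ∑ s ∈ ρ.lowPart T a₀, ρ.weight s (cpt hE τ₀ t))
    (h2 : ∀ t : Tot F E n, y (pt T t) = ∑ s ∈ ρ.lowPart T a₀, ρ.weight s t -
          if 2 * (T t.1.1).p t.1.2 t.2 < w t.1.1 then α t.1.1 + β t.1.1 else 0) (z : Pt T) :
    y (mir hE τ₀ z) = - y z := by
  obtain ⟨t, rfl⟩ := exists_pt z
  rw [mir_pt, h2, h2]
  have h3 := h1 t
  have h4 : α (cpt hE τ₀ t).1.1 + β (cpt hE τ₀ t).1.1 = α t.1.1 + β t.1.1 := rfl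
  rw [h4]
  by_cases h : 2 * (T t.1.1).p t.1.2 t.2 < w t.1.1
  · rw [if_pos h, if_neg (fun h' => (lo_cpt hG t).mp h' h)]
    omega
  · rw [if_neg h, if_pos ((lo_cpt hG t).mpr h)]
    omega

theorem y_orb {a₀ : ℤ} {α β : ι → ℤ} {y : Pt T → ℤ}
    (h2 : ∀ t : Tot F E n, y (pt T t) = ∑ s ∈ ρ.lowPart T a₀, ρ.weight s t -
          if 2 * (T t.1.1).p t.1.2 t.2 < w t.1.1 then α t.1.1 + β t.1.1 else 0) (z z' : Pt T)
    (h : z' ∈ orbP z) : y z' = y z := by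
  obtain ⟨⟨g, hg, hq⟩, h3⟩ := (mem_orbP z z').mp h
  have hg' : HodgeGal T g := hg
  have h4 : z' = gpt hg' z := by
    obtain ⟨q', a', ha'⟩ := z'
    obtain ⟨q, a, ha⟩ := z
    dsimp only at hq h3
    subst hq
    subst h3
    rfl
  rw [h4]
  obtain ⟨t, rfl⟩ := exists_pt z
  rw [gpt_pt, h2, h2]
  have h5 : ∑ s ∈ ρ.lowPart T a₀, ρ.weight s ⟨act g t.1, t.2⟩ =
      ∑ s ∈ ρ.lowPart T a₀, ρ.weight s t := low_gal ρ hg' _ t.1 t.2
  rw [h5]
  have h7 : (T (act g t.1).1).p (act g t.1).2 t.2 = (T t.1.1).p t.1.2 t.2 :=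
    congrFun (hg' t.1) t.2
  have h8 : (2 * (T (act g t.1).1).p (act g t.1).2 t.2 < w (act g t.1).1) ↔
      2 * (T t.1.1).p t.1.2 t.2 < w t.1.1 := by
    rw [h7]
  congr 1
  by_cases h9 : 2 * (T t.1.1).p t.1.2 t.2 < w t.1.1
  · rw [if_pos h9]
    exact if_pos (h8.mpr h9)
  · rw [if_neg h9]
    exact if_neg (fun h10 => h9 (h8.mp h10))

/-- the generators of the group of the local periods -/
def gens (T : ∀ i, MType (F i) E (n i) (w i)) (hE : Split F E) (τ₀ : E →+* ℂ)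
    (Φ : Finset (Emb F E)) (c d D : Emb F E → Fun T) (v : Emb F E → ℤ → Fun T) :
    Set (Fun T) :=
  coefficients T ∪ artinPeriods T hE τ₀ ∪ localPeriods T hE τ₀ Φ c d D v

/-- a period gives a step of the Hodge filtration -/
theorem isStep_of_isPeriod {M : ∀ i, Datum (T i)} {ε : E} {x : (E →+* ℂ) → ℂ}
    (h : ρ.IsPeriod M hE τ₀ ε x) : ∃ a₀, ρ.IsStep T hE τ₀ ε a₀ := by
  obtain ⟨a, d, A, B, hA, hB, hker, -⟩ := h
  have hd : d = (ρ.lowPart T a).card := by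
    obtain ⟨B₀, hB₀, hker₀⟩ := exists_B ρ T a
    have h1 : LinearMap.ker B.mulVecLin = LinearMap.ker B₀.mulVecLin := by
      ext v
      rw [LinearMap.mem_ker, LinearMap.mem_ker]
      change B.mulVec v = 0 ↔ B₀.mulVec v = 0
      rw [hker, hker₀]
      rfl
    have h2 := LinearMap.finrank_range_add_finrank_ker B.mulVecLin
    have h3 := LinearMap.finrank_range_add_finrank_ker B₀.mulVecLin
    have h4 : LinearMap.range B.mulVecLin = ⊤ := LinearMap.range_eq_top.mpr hB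
    have h5 : LinearMap.range B₀.mulVecLin = ⊤ := LinearMap.range_eq_top.mpr hB₀
    rw [h4, finrank_top, Module.finrank_fintype_fun_eq_card, Fintype.card_fin] at h2
    rw [h5, finrank_top, Module.finrank_fintype_fun_eq_card, Fintype.card_fin] at h3
    rw [h1] at h2
    omega
  subst hd
  exact ⟨a, A, hA⟩

theorem periods_mem (hG : Good T hE τ₀ Φ) {c d D : Emb F E → Fun T} {v : Emb F E → ℤ → Fun T}
    (hl : IsLocal c d D v) (M₀ : ∀ i, Datum (T i)) (X : Fun T) (hX : X ∈ allPeriods T hE τ₀) :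
    X ∈ Subgroup.closure (gens T hE τ₀ Φ c d D v) := by
  classical
  obtain ⟨κ, _, _, ρ, ε, hε, hper⟩ := hX
  obtain ⟨a₀, hst⟩ := isStep_of_isPeriod ρ (hper M₀)
  obtain ⟨α, β, y, h1, h2, -, -, -, -, h3⟩ := per_formula ρ hG hε hst
  obtain ⟨a, ha, b, hb, h4⟩ := h3 c d D v hl X hper
  rw [h4]
  refine Subgroup.mul_mem _ (Subgroup.mul_mem _ (Subgroup.mul_mem _ ?_ ?_) ?_) ?_
  · exact Subgroup.subset_closure (Or.inl (Or.inl ha))
  · exact Subgroup.subset_closure (Or.inl (Or.inr hb))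
  · apply Subgroup.prod_mem
    intro i _
    apply Subgroup.mul_mem
    · apply Subgroup.zpow_mem
      exact Subgroup.subset_closure (Or.inr (Or.inl (Or.inl ⟨i, rfl⟩)))
    · apply Subgroup.zpow_mem
      exact Subgroup.subset_closure (Or.inr (Or.inl (Or.inr ⟨i, rfl⟩)))
  · refine half_mono (mir hE τ₀) (mir_mir hE τ₀) (InHalf τ₀ Φ) (half_mir hE τ₀ hG) (Qf v)
      (Qf_mir hG hl) orbP orbP_self (fun z z' h => orbP_eq h) (fun z z' h => orbP_mir hG h) _ ?_ y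
      (y_mir ρ hG h1 h2) (y_orb ρ h2)
    intro z
    rw [orbit_prod]
    exact Subgroup.subset_closure (Or.inr (Or.inr ⟨_, _, rfl⟩))

end Pool.Agent.MP100fe7G
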