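import Pool.Agent.Lib.MP_100fe7_ntG.Base

/-!
The vector obtained by crossing the wall.
-/

set_option linter.unusedSectionVars false

namespace Pool.Agent.MP100fe7G

variable {J : Type} [Fintype J] [DecidableEq J] (Γ : Subgroup (Equiv.Perm J)) {lam : J → ℤ}

open Classical in
/-- the permutations of the group as a finite set -/
private noncomputable def latBG : Finset (Equiv.Perm J) := Finset.univ.filter fun γ => γ ∈ Γ

private theorem latB_mem (γ : Equiv.Perm J) : γ ∈ latBG Γ ↔ γ ∈ Γ := by simp [latBG]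

private theorem latB_inv1 (γ : Equiv.Perm J) (i : J) : γ⁻¹ (γ i) = i := γ.symm_apply_apply i

private theorem latB_inv2 (γ : Equiv.Perm J) (i : J) : γ (γ⁻¹ i) = i := γ.apply_symm_apply i

private theorem latB_tr_mul (γ δ : Equiv.Perm J) (x : J → ℕ) :
    tr (γ * δ) x = tr γ (tr δ x) := by
  funext j
  simp only [tr, mul_inv_rev, Equiv.Perm.mul_apply]

open Classical in
private theorem latB_orb (x : J → ℕ) : orb Γ x = (latBG Γ).image fun γ => tr γ x := by
  ext ν
  simp only [orb, Finset.mem_image, Finset.mem_filter, latB_mem, Finset.mem_univ, true_and]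

open Classical in
private theorem latB_sum (f : (J → ℕ) → ℤ) (x : J → ℕ) :
    ∑ γ ∈ latBG Γ, f (tr γ x) =
      (((latBG Γ).filter fun γ => tr γ x = x).card : ℤ) * ∑ ν ∈ orb Γ x, f ν := by
  rw [latB_orb, Finset.sum_comp f (fun γ => tr γ x), Finset.mul_sum]
  refine Finset.sum_congr rfl fun ν hν => ?_
  obtain ⟨δ, hδ, rfl⟩ := Finset.mem_image.1 hν
  rw [nsmul_eq_mul]
  have hδ' := (latB_mem Γ δ).1 hδ
  have hc : ((latBG Γ).filter fun γ => tr γ x = tr δ x).card =
      ((latBG Γ).filter fun γ => tr γ x = x).card := by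
    refine Finset.card_bij' (fun γ _ => δ⁻¹ * γ) (fun γ _ => δ * γ) ?_ ?_ ?_ ?_
    · intro γ hγ
      rw [Finset.mem_filter, latB_mem] at hγ ⊢
      refine ⟨Γ.mul_mem (Γ.inv_mem hδ') hγ.1, ?_⟩
      rw [latB_tr_mul, hγ.2, ← latB_tr_mul, inv_mul_cancel]
      rfl
    · intro γ hγ
      rw [Finset.mem_filter, latB_mem] at hγ ⊢
      refine ⟨Γ.mul_mem hδ' hγ.1, ?_⟩
      rw [latB_tr_mul, hγ.2]
    · intro γ _
      exact mul_inv_cancel_left δ γ
    · intro γ _
      exact inv_mul_cancel_left δ γ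
  rw [hc]

private theorem latB_low (hpar : ∀ γ ∈ Γ, ∀ j, Even (lam (γ j) - lam j)) {γ : Equiv.Perm J}
    (hγ : γ ∈ Γ) (x : J → ℕ) (j : J) :
    lowv lam (tr γ x) j =
      if Odd (∑ i, lam i * (x i : ℤ)) ∧ ∑ i, lam (γ i) * (x i : ℤ) < 0
        then (x (γ⁻¹ j) : ℤ) else 0 := by
  have h2 : ∑ i, lam i * (tr γ x i : ℤ) = ∑ i, lam (γ i) * (x i : ℤ) := by
    rw [← Equiv.sum_comp γ]
    refine Finset.sum_congr rfl fun i _ => ?_
    simp only [tr, latB_inv1]
  have h4 : Even (∑ i, lam (γ i) * (x i : ℤ) - ∑ i, lam i * (x i : ℤ)) := by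
    rw [← Finset.sum_sub_distrib]
    apply Finset.even_sum
    intro i _
    rw [← sub_mul]
    exact (hpar γ hγ i).mul_right _
  have h3 : Odd (∑ i, lam (γ i) * (x i : ℤ)) ↔ Odd (∑ i, lam i * (x i : ℤ)) := by
    constructor
    · intro h
      have h5 := h.sub_even h4
      rwa [sub_sub_cancel] at h5
    · intro h
      have h5 := h4.add_odd h
      rwa [sub_add_cancel] at h5
  unfold lowv
  rw [h2]
  by_cases h5 : ∑ i, lam (γ i) * (x i : ℤ) < 0
  · by_cases h6 : Odd (∑ i, lam (γ i) * (x i : ℤ))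
    · rw [if_pos ⟨h6, h5⟩, if_pos ⟨h3.1 h6, h5⟩]
      rfl
    · rw [if_neg fun hh => h6 hh.1, if_neg fun hh => h6 (h3.2 hh.1)]
  · rw [if_neg fun hh => h5 hh.2, if_neg fun hh => h5 hh.2]

open Classical in
private theorem latB_Vo (hpar : ∀ γ ∈ Γ, ∀ j, Even (lam (γ j) - lam j)) {z : J → ℤ} {s : J}
    (hsum : ∑ j, lam j = 0) (h2 : ∑ j, lam j * z j = 0) {x : J → ℕ} {a c : ℤ} {f : J → ℤ}
    (ha : ∀ i i', f i - f i' < a) (hf1 : ∀ i, f i = f s → i = s)
    (hf2 : ∀ γ ∈ Γ, γ s = s → (∀ j, z (γ j) = z j) → ∀ j, f (γ j) = f j)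
    (hodd : Odd (∑ j, lam j * f j))
    (hx : ∀ i, (x i : ℤ) = a * z i + c + f i) (j : J) :
    (((latBG Γ).filter fun γ => γ s = s ∧ ∀ i, z (γ i) = z i).card : ℤ) * Vo Γ lam x j =
      ∑ γ ∈ latBG Γ, if a * (∑ i, lam (γ i) * z i) + ∑ i, lam (γ i) * f i < 0
        then (x (γ⁻¹ j) : ℤ) else 0 := by
  have hst : ∀ γ ∈ Γ, (tr γ x = x ↔ (γ s = s ∧ ∀ i, z (γ i) = z i)) := by
    intro γ hγ
    have e1 : tr γ x = x ↔ ∀ i, x (γ i) = x i := by
      constructor
      · intro h i
        have h2 := congrFun h (γ i)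
        simp only [tr, latB_inv1] at h2
        exact h2.symm
      · intro h
        funext i
        have h2 := h (γ⁻¹ i)
        rw [latB_inv2] at h2
        exact h2.symm
    rw [e1]
    constructor
    · intro h
      have h5 : ∀ i, z (γ i) = z i := by
        intro i
        have h2 : (x (γ i) : ℤ) = (x i : ℤ) := by rw [h i]
        rw [hx, hx] at h2
        have h6 : a * (z (γ i) - z i) = f i - f (γ i) := by linarith
        have h7 := ha i (γ i)
        have h8 := ha (γ i) i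
        rcases lt_trichotomy (z (γ i) - z i) 0 with h9 | h9 | h9
        · have h10 : z (γ i) - z i ≤ -1 := by omega
          nlinarith
        · omega
        · have h10 : 1 ≤ z (γ i) - z i := by omega
          nlinarith
      refine ⟨?_, h5⟩
      apply hf1
      have h2 : (x (γ s) : ℤ) = (x s : ℤ) := by rw [h s]
      rw [hx, hx, h5 s] at h2
      linarith
    · rintro ⟨hs, hz⟩ i
      have h2 : (x (γ i) : ℤ) = (x i : ℤ) := by rw [hx, hx, hz, hf2 γ hγ hs hz]
      exact_mod_cast h2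
  have hfl : ((latBG Γ).filter fun γ => γ s = s ∧ ∀ i, z (γ i) = z i) =
      (latBG Γ).filter fun γ => tr γ x = x := by
    refine Finset.filter_congr fun γ hγ => (hst γ ((latB_mem Γ γ).1 hγ)).symm
  have hval : ∀ γ : Equiv.Perm J, ∑ i, lam (γ i) * (x i : ℤ) =
      a * (∑ i, lam (γ i) * z i) + ∑ i, lam (γ i) * f i := by
    intro γ
    have h0 : ∑ i, lam (γ i) = 0 := by
      rw [Equiv.sum_comp γ lam]
      exact hsum
    have h1 : ∀ i, lam (γ i) * (x i : ℤ) = a * (lam (γ i) * z i) + c * lam (γ i) +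
        lam (γ i) * f i := by
      intro i
      rw [hx]
      ring
    rw [Finset.sum_congr rfl fun i _ => h1 i, Finset.sum_add_distrib, Finset.sum_add_distrib,
      ← Finset.mul_sum, ← Finset.mul_sum, h0]
    ring
  have hodd' : Odd (∑ i, lam i * (x i : ℤ)) := by
    have h1 := hval 1
    have h3 : ∀ i, (1 : Equiv.Perm J) i = i := fun i => rfl
    simp only [h3] at h1
    rw [h1, h2, mul_zero, zero_add]
    exact hodd
  rw [hfl]
  unfold Vo
  rw [← latB_sum Γ (fun ν => lowv lam ν j) x]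
  refine Finset.sum_congr rfl fun γ hγ => ?_
  rw [latB_low Γ hpar ((latB_mem Γ γ).1 hγ), hval]
  by_cases h : a * (∑ i, lam (γ i) * z i) + ∑ i, lam (γ i) * f i < 0
  · rw [if_pos ⟨hodd', h⟩, if_pos h]
  · rw [if_neg fun hh => h hh.2, if_neg h]

open Classical in
private theorem latB_Vd (hpar : ∀ γ ∈ Γ, ∀ j, Even (lam (γ j) - lam j)) {z : J → ℤ} {s : J}
    (hs : Odd (lam s)) (hsum : ∑ j, lam j = 0) (h2 : ∑ j, lam j * z j = 0) {x : J → ℕ}
    {a c d : ℤ} (hd : Odd d) (hda : d < a) (hda' : - d < a)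
    (hx : ∀ i, (x i : ℤ) = a * z i + c + (if i = s then d else 0)) (j : J) :
    (((latBG Γ).filter fun γ => γ s = s ∧ ∀ i, z (γ i) = z i).card : ℤ) * Vo Γ lam x j =
      ∑ γ ∈ latBG Γ, if a * (∑ i, lam (γ i) * z i) + d * lam (γ s) < 0
        then (x (γ⁻¹ j) : ℤ) else 0 := by
  have hd0 : d ≠ 0 := by
    rintro rfl
    exact absurd hd (by decide)
  have h0 : 0 < a := by omega
  have h3 : ∀ γ : Equiv.Perm J, ∑ i, lam (γ i) * (if i = s then d else 0) = d * lam (γ s) := by
    intro γ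
    rw [Finset.sum_eq_single s]
    · rw [if_pos rfl]
      ring
    · intro i _ hi
      rw [if_neg hi, mul_zero]
    · intro h
      exact absurd (Finset.mem_univ s) h
  have h4 := latB_Vo Γ hpar (z := z) (s := s) hsum h2 (x := x) (a := a) (c := c)
    (f := fun i => if i = s then d else 0) ?_ ?_ ?_ ?_ hx j
  · rw [h4]
    refine Finset.sum_congr rfl fun γ _ => ?_
    rw [h3]
  · intro i i'
    split_ifs <;> omega
  · intro i h
    by_contra hne
    simp only [if_neg hne, if_true] at h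
    exact hd0 h.symm
  · intro γ _ hs _ i
    have h5 : (γ i = s) ↔ (i = s) := by
      constructor
      · intro hi
        exact γ.injective (hi.trans hs.symm)
      · intro hi
        rw [hi, hs]
    by_cases hi : i = s
    · simp only [if_pos hi, if_pos (h5.2 hi)]
    · simp only [if_neg hi, if_neg fun hh => hi (h5.1 hh)]
  · have h6 := h3 1
    have h7 : ∀ i, (1 : Equiv.Perm J) i = i := fun i => rfl
    simp only [h7] at h6
    rw [h6]
    exact hd.mul hs

private theorem latB_sign {S e a : ℤ} (h1 : -a < e) (h2 : e < a) (hS : S ≠ 0) :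
    a * S + e < 0 ↔ S < 0 := by
  constructor
  · intro h3
    by_contra h4
    have h5 : 1 ≤ S := by omega
    nlinarith
  · intro h3
    have h5 : S ≤ -1 := by omega
    nlinarith

open Classical in
private theorem latB_odd (hpar : ∀ γ ∈ Γ, ∀ j, Even (lam (γ j) - lam j)) (hne0 : ∀ j, lam j ≠ 0)
    (hsum : ∑ j, lam j = 0) {s : J} (hs : Odd (lam s)) {z : J → ℤ} (h2 : ∑ j, lam j * z j = 0) :
    ∃ u ∈ Lat Γ lam, ∀ j,
      (((latBG Γ).filter fun γ => γ s = s ∧ ∀ i, z (γ i) = z i).card : ℤ) * u j =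
        Int.sign (lam j) *
          (((latBG Γ).filter fun γ => γ s = j ∧ ∑ i, lam (γ i) * z i = 0).card : ℤ) := by
  classical
  -- constants
  obtain ⟨M, hM0, hM⟩ : ∃ M : ℤ, 0 < M ∧ ∀ j, |lam j| < M := by
    refine ⟨1 + ∑ j, |lam j|, ?_, fun j => ?_⟩
    · have : 0 ≤ ∑ j, |lam j| := Finset.sum_nonneg fun j _ => abs_nonneg _
      linarith
    · have : |lam j| ≤ ∑ j, |lam j| :=
        Finset.single_le_sum (f := fun j => |lam j|) (fun j _ => abs_nonneg _)
          (Finset.mem_univ j)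
      linarith
  obtain ⟨C, hC⟩ : ∃ C : ℤ, ∀ i, M * |z i| + 1 ≤ C := by
    refine ⟨M * (∑ j, |z j|) + 1, fun i => ?_⟩
    have : |z i| ≤ ∑ j, |z j| :=
      Finset.single_le_sum (f := fun j => |z j|) (fun j _ => abs_nonneg _)
        (Finset.mem_univ i)
    nlinarith
  have hx : ∀ (a c d : ℤ), (∀ i, 0 ≤ a * z i + c + (if i = s then d else 0)) →
      ∃ x : J → ℕ, ∀ i, (x i : ℤ) = a * z i + c + (if i = s then d else 0) :=
    fun a c d h => ⟨fun i => (a * z i + c + (if i = s then d else 0)).toNat,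
      fun i => Int.toNat_of_nonneg (h i)⟩
  have hab : ∀ i, -(C - 1) ≤ M * z i := by
    intro i
    have e1 := hC i
    have e2 := neg_abs_le (z i)
    nlinarith
  obtain ⟨x1, hx1⟩ := hx (2 * M) (2 * C) 1 (by
    intro i
    have := hab i
    split_ifs <;> linarith)
  obtain ⟨x2, hx2⟩ := hx (2 * M) (2 * C) (-1) (by
    intro i
    have := hab i
    split_ifs <;> linarith)
  obtain ⟨y1, hy1⟩ := hx (4 * M) (4 * C) 1 (by
    intro i
    have := hab i
    split_ifs <;> linarith)
  obtain ⟨y2, hy2⟩ := hx (4 * M) (4 * C) (-3) (by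
    intro i
    have := hab i
    split_ifs <;> linarith)
  have v1 := latB_Vd Γ hpar hs hsum h2 (a := 2 * M) (d := 1) odd_one (by omega) (by omega) hx1
  have v2 := latB_Vd Γ hpar hs hsum h2 (a := 2 * M) (d := -1) (by decide) (by omega) (by omega) hx2
  have v3 := latB_Vd Γ hpar hs hsum h2 (a := 4 * M) (d := 1) odd_one (by omega) (by omega) hy1
  have v4 := latB_Vd Γ hpar hs hsum h2 (a := 4 * M) (d := -3) (by decide) (by omega) (by omega) hy2
  set g0 : ℤ := (((latBG Γ).filter fun γ => γ s = s ∧ ∀ i, z (γ i) = z i).card : ℤ) with hg0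
  -- the number of the permutations
  set N : J → ℤ := fun j =>
    (((latBG Γ).filter fun γ => γ s = j ∧ ∑ i, lam (γ i) * z i = 0).card : ℤ) with hN
  set u : J → ℤ := fun j => 2 * Vo Γ lam x2 j - Vo Γ lam y2 j - 2 * Vo Γ lam x1 j + Vo Γ lam y1 j
    with hu
  have key : ∀ j, g0 * u j = Int.sign (lam j) * N j := by
    intro j
    have e1 : g0 * u j = 2 * (g0 * Vo Γ lam x2 j) - g0 * Vo Γ lam y2 j -
        2 * (g0 * Vo Γ lam x1 j) + g0 * Vo Γ lam y1 j := by
      rw [hu]
      ring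
    rw [e1, v1, v2, v3, v4, Finset.mul_sum, Finset.mul_sum, ← Finset.sum_sub_distrib,
      ← Finset.sum_sub_distrib, ← Finset.sum_add_distrib, hN]
    dsimp only
    rw [Finset.card_filter, Nat.cast_sum, Finset.mul_sum]
    refine Finset.sum_congr rfl fun γ _ => ?_
    have hl := abs_lt.1 (hM (γ s))
    have hne : lam (γ s) ≠ 0 := hne0 (γ s)
    have hinv : (γ⁻¹ j = s) ↔ (γ s = j) := by
      constructor
      · intro h
        rw [← h, latB_inv2]
      · intro h
        rw [← h, latB_inv1]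
    have a1 := hx1 (γ⁻¹ j)
    have a2 := hx2 (γ⁻¹ j)
    have a3 := hy1 (γ⁻¹ j)
    have a4 := hy2 (γ⁻¹ j)
    set S := ∑ i, lam (γ i) * z i with hS
    have q2 : 2 * (x2 (γ⁻¹ j) : ℤ) - (y2 (γ⁻¹ j) : ℤ) = if γ s = j then 1 else 0 := by
      rw [a2, a4]
      by_cases h : γ s = j
      · simp only [if_pos h, if_pos (hinv.2 h)]
        ring
      · have h' : ¬ γ⁻¹ j = s := fun hh => h (hinv.1 hh)
        simp only [if_neg h, if_neg h']
        ring
    have q1 : 2 * (x1 (γ⁻¹ j) : ℤ) - (y1 (γ⁻¹ j) : ℤ) = if γ s = j then 1 else 0 := by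
      rw [a1, a3]
      by_cases h : γ s = j
      · simp only [if_pos h, if_pos (hinv.2 h)]
        ring
      · have h' : ¬ γ⁻¹ j = s := fun hh => h (hinv.1 hh)
        simp only [if_neg h, if_neg h']
        ring
    by_cases hS0 : S = 0
    · rcases lt_or_gt_of_ne hne with hn | hn
      · rw [if_neg (by rw [hS0]; linarith : ¬ (2 * M * S + -1 * lam (γ s) < 0)),
          if_neg (by rw [hS0]; linarith : ¬ (4 * M * S + -3 * lam (γ s) < 0)),
          if_pos (by rw [hS0]; linarith : 2 * M * S + 1 * lam (γ s) < 0),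
          if_pos (by rw [hS0]; linarith : 4 * M * S + 1 * lam (γ s) < 0)]
        by_cases h : γ s = j
        · rw [if_pos h] at q1
          rw [if_pos ⟨h, hS0⟩, ← h, Int.sign_eq_neg_one_of_neg hn]
          rw [h]
          push_cast
          linarith
        · rw [if_neg h] at q1
          rw [if_neg fun hh => h hh.1]
          push_cast
          linarith
      · rw [if_pos (by rw [hS0]; linarith : 2 * M * S + -1 * lam (γ s) < 0),
          if_pos (by rw [hS0]; linarith : 4 * M * S + -3 * lam (γ s) < 0),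
          if_neg (by rw [hS0]; linarith : ¬ (2 * M * S + 1 * lam (γ s) < 0)),
          if_neg (by rw [hS0]; linarith : ¬ (4 * M * S + 1 * lam (γ s) < 0))]
        by_cases h : γ s = j
        · rw [if_pos h] at q2
          rw [if_pos ⟨h, hS0⟩, ← h, Int.sign_eq_one_of_pos hn]
          rw [h]
          push_cast
          linarith
        · rw [if_neg h] at q2
          rw [if_neg fun hh => h hh.1]
          push_cast
          linarith
    · have s1 : 2 * M * S + 1 * lam (γ s) < 0 ↔ S < 0 :=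
        latB_sign (by linarith) (by linarith) hS0
      have s2 : 2 * M * S + -1 * lam (γ s) < 0 ↔ S < 0 :=
        latB_sign (by linarith) (by linarith) hS0
      have s3 : 4 * M * S + 1 * lam (γ s) < 0 ↔ S < 0 :=
        latB_sign (by linarith) (by linarith) hS0
      have s4 : 4 * M * S + -3 * lam (γ s) < 0 ↔ S < 0 :=
        latB_sign (by linarith) (by linarith) hS0
      rw [if_neg fun hh : γ s = j ∧ S = 0 => hS0 hh.2]
      by_cases hn : S < 0
      · rw [if_pos (s1.2 hn), if_pos (s2.2 hn), if_pos (s3.2 hn), if_pos (s4.2 hn)]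
        push_cast
        linarith
      · rw [if_neg fun hh => hn (s1.1 hh), if_neg fun hh => hn (s2.1 hh),
          if_neg fun hh => hn (s3.1 hh), if_neg fun hh => hn (s4.1 hh)]
        push_cast
        ring
  have hmemV : ∀ x : J → ℕ, Vo Γ lam x ∈ Lat Γ lam := fun x =>
    Submodule.subset_span ⟨x, rfl⟩
  refine ⟨u, ?_, key⟩
  have e1 : u = (2 : ℤ) • Vo Γ lam x2 - Vo Γ lam y2 - (2 : ℤ) • Vo Γ lam x1 + Vo Γ lam y1 := by
    funext j
    simp only [hu, Pi.add_apply, Pi.sub_apply, Pi.smul_apply, smul_eq_mul]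
  rw [e1]
  exact Submodule.add_mem _ (Submodule.sub_mem _ (Submodule.sub_mem _
    (Submodule.smul_mem _ _ (hmemV _)) (hmemV _)) (Submodule.smul_mem _ _ (hmemV _))) (hmemV _)

open Classical in
private theorem latB_even (hpar : ∀ γ ∈ Γ, ∀ j, Even (lam (γ j) - lam j)) (hne0 : ∀ j, lam j ≠ 0)
    (hsum : ∑ j, lam j = 0) {s : J} (hs : Even (lam s)) {z e : J → ℤ}
    (h2 : ∑ j, lam j * z j = 0) (he : Odd (∑ j, lam j * e j))
    (he2 : ∀ γ ∈ Γ, γ s = s → (∀ j, z (γ j) = z j) → ∀ j, e (γ j) = e j) :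
    ∃ u ∈ Lat Γ lam, ∀ j,
      (((latBG Γ).filter fun γ => γ s = s ∧ ∀ i, z (γ i) = z i).card : ℤ) * u j =
        Int.sign (lam j) *
          (((latBG Γ).filter fun γ => γ s = j ∧ ∑ i, lam (γ i) * z i = 0).card : ℤ) := by
  obtain ⟨M, hM0, hM⟩ : ∃ M : ℤ, 0 < M ∧ ∀ j, |lam j| < M := by
    refine ⟨1 + ∑ j, |lam j|, ?_, fun j => ?_⟩
    · have : 0 ≤ ∑ j, |lam j| := Finset.sum_nonneg fun j _ => abs_nonneg _
      linarith
    · have : |lam j| ≤ ∑ j, |lam j| :=
        Finset.single_le_sum (f := fun j => |lam j|) (fun j _ => abs_nonneg _)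
          (Finset.mem_univ j)
      linarith
  set B : ℤ := ∑ j, |e j| with hB
  have hB0 : 0 ≤ B := Finset.sum_nonneg fun j _ => abs_nonneg _
  have hBe : ∀ j, |e j| ≤ B := fun j =>
    Finset.single_le_sum (f := fun j => |e j|) (fun j _ => abs_nonneg _) (Finset.mem_univ j)
  have hE : ∀ γ : Equiv.Perm J, |∑ i, lam (γ i) * e i| ≤ M * B := by
    intro γ
    refine (Finset.abs_sum_le_sum_abs _ _).trans ?_
    rw [hB, Finset.mul_sum]
    apply Finset.sum_le_sum
    intro i _
    rw [abs_mul]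
    exact mul_le_mul_of_nonneg_right (hM (γ i)).le (abs_nonneg _)
  set K : ℤ := M * B + 2 * B + 1 with hK
  have hMB : 0 ≤ M * B := mul_nonneg hM0.le hB0
  have hK0 : 0 < K := by omega
  set a : ℤ := M * B + (K + 1) * M + 2 * B + (K + 1) + 1 with ha
  have hKM : 0 < (K + 1) * M := mul_pos (by omega) hM0
  have ha0 : 0 < a := by omega
  obtain ⟨C, hC⟩ : ∃ C : ℤ, ∀ i, a * |z i| + (B + K + 2) ≤ C := by
    refine ⟨a * (∑ j, |z j|) + (B + K + 2), fun i => ?_⟩
    have : |z i| ≤ ∑ j, |z j| :=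
      Finset.single_le_sum (f := fun j => |z j|) (fun j _ => abs_nonneg _)
        (Finset.mem_univ i)
    have := mul_le_mul_of_nonneg_left this ha0.le
    omega
  have hx : ∀ k : ℤ, |k| ≤ K + 1 →
      ∃ x : J → ℕ, ∀ i, (x i : ℤ) = a * z i + C + (e i + if i = s then k else 0) := by
    intro k hk
    refine ⟨fun i => (a * z i + C + (e i + if i = s then k else 0)).toNat,
      fun i => Int.toNat_of_nonneg ?_⟩
    have e1 := hC i
    have e2 := mul_le_mul_of_nonneg_left (neg_abs_le (z i)) ha0.le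
    have e3 := abs_le.1 (hBe i)
    have e4 := abs_le.1 hk
    have e5 : a * -|z i| = - (a * |z i|) := by ring
    rw [e5] at e2
    split_ifs
    · omega
    · omega
  have hsumk : ∀ (γ : Equiv.Perm J) (k : ℤ),
      ∑ i, lam (γ i) * (e i + if i = s then k else 0) =
        ∑ i, lam (γ i) * e i + k * lam (γ s) := by
    intro γ k
    rw [Finset.sum_congr rfl fun i _ => mul_add (lam (γ i)) (e i) _, Finset.sum_add_distrib]
    congr 1
    rw [Finset.sum_eq_single s]
    · rw [if_pos rfl]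
      ring
    · intro i _ hi
      rw [if_neg hi, mul_zero]
    · intro h
      exact absurd (Finset.mem_univ s) h
  have hV : ∀ k : ℤ, K ≤ |k| → |k| ≤ K + 1 → ∀ x : J → ℕ,
      (∀ i, (x i : ℤ) = a * z i + C + (e i + if i = s then k else 0)) → ∀ j,
      (((latBG Γ).filter fun γ => γ s = s ∧ ∀ i, z (γ i) = z i).card : ℤ) * Vo Γ lam x j =
        ∑ γ ∈ latBG Γ, if a * (∑ i, lam (γ i) * z i) + (∑ i, lam (γ i) * e i + k * lam (γ s)) < 0
          then (x (γ⁻¹ j) : ℤ) else 0 := by
    intro k hk1 hk2 x hxx j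
    have h4 := latB_Vo Γ hpar (z := z) (s := s) hsum h2 (x := x) (a := a) (c := C)
      (f := fun i => e i + if i = s then k else 0) ?_ ?_ ?_ ?_ hxx j
    · rw [h4]
      refine Finset.sum_congr rfl fun γ _ => ?_
      rw [hsumk]
    · intro i i'
      have e1 := abs_le.1 (hBe i)
      have e2 := abs_le.1 (hBe i')
      have e3 := abs_le.1 hk2
      split_ifs <;> omega
    · intro i h
      by_contra hne
      have e1 := abs_le.1 (hBe i)
      have e2 := abs_le.1 (hBe s)
      rw [if_neg hne, if_pos rfl] at h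
      have e3 : |k| ≤ 2 * B := by
        rw [abs_le]
        constructor <;> omega
      omega
    · intro γ hγ hs' hz i
      have h5 : (γ i = s) ↔ (i = s) := by
        constructor
        · intro hi
          exact γ.injective (hi.trans hs'.symm)
        · intro hi
          rw [hi, hs']
      have h6 := he2 γ hγ hs' hz i
      by_cases hi : i = s
      · simp only [if_pos hi, if_pos (h5.2 hi), h6]
      · simp only [if_neg hi, if_neg fun hh => hi (h5.1 hh), h6]
    · have h6 := hsumk 1 k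
      have h7 : ∀ i, (1 : Equiv.Perm J) i = i := fun i => rfl
      simp only [h7] at h6
      rw [h6]
      exact he.add_even (hs.mul_left k)
  have hK1 : |K| = K := abs_of_pos hK0
  have hK2 : |K + 1| = K + 1 := abs_of_pos (by omega)
  have hK3 : |-K| = K := by rw [abs_neg, hK1]
  have hK4 : |-(K + 1)| = K + 1 := by rw [abs_neg, hK2]
  obtain ⟨x1, hx1⟩ := hx K (by omega)
  obtain ⟨x2, hx2⟩ := hx (K + 1) (by omega)
  obtain ⟨x3, hx3⟩ := hx (-K) (by omega)
  obtain ⟨x4, hx4⟩ := hx (-(K + 1)) (by omega)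
  have v1 := hV K (by omega) (by omega) x1 hx1
  have v2 := hV (K + 1) (by omega) (by omega) x2 hx2
  have v3 := hV (-K) (by omega) (by omega) x3 hx3
  have v4 := hV (-(K + 1)) (by omega) (by omega) x4 hx4
  have hmemV : ∀ x : J → ℕ, Vo Γ lam x ∈ Lat Γ lam := fun x =>
    Submodule.subset_span ⟨x, rfl⟩
  refine ⟨Vo Γ lam x3 - Vo Γ lam x4 - Vo Γ lam x2 + Vo Γ lam x1, Submodule.add_mem _
    (Submodule.sub_mem _ (Submodule.sub_mem _ (hmemV _) (hmemV _)) (hmemV _)) (hmemV _), ?_⟩
  intro j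
  rw [Pi.add_apply, Pi.sub_apply, Pi.sub_apply, mul_add, mul_sub, mul_sub, v1, v2, v3, v4,
    ← Finset.sum_sub_distrib, ← Finset.sum_sub_distrib, ← Finset.sum_add_distrib]
  rw [Finset.card_filter, Nat.cast_sum, Finset.mul_sum]
  refine Finset.sum_congr rfl fun γ _ => ?_
  have hl := abs_lt.1 (hM (γ s))
  have hne : lam (γ s) ≠ 0 := hne0 (γ s)
  have hEγ := abs_le.1 (hE γ)
  have hinv : (γ⁻¹ j = s) ↔ (γ s = j) := by
    constructor
    · intro h
      rw [← h, latB_inv2]
    · intro h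
      rw [← h, latB_inv1]
  have q1 : (x2 (γ⁻¹ j) : ℤ) - (x1 (γ⁻¹ j) : ℤ) = if γ s = j then 1 else 0 := by
    rw [hx1, hx2]
    by_cases h : γ s = j
    · simp only [if_pos h, if_pos (hinv.2 h)]
      ring
    · have h' : ¬ γ⁻¹ j = s := fun hh => h (hinv.1 hh)
      simp only [if_neg h, if_neg h']
      ring
  have q2 : (x3 (γ⁻¹ j) : ℤ) - (x4 (γ⁻¹ j) : ℤ) = if γ s = j then 1 else 0 := by
    rw [hx3, hx4]
    by_cases h : γ s = j
    · simp only [if_pos h, if_pos (hinv.2 h)]
      ring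
    · have h' : ¬ γ⁻¹ j = s := fun hh => h (hinv.1 hh)
      simp only [if_neg h, if_neg h']
      ring
  set S := ∑ i, lam (γ i) * z i with hS
  set Eγ := ∑ i, lam (γ i) * e i with hEg
  have b1 : ∀ k : ℤ, |k| ≤ K + 1 → |k * lam (γ s)| ≤ (K + 1) * M := by
    intro k hk
    rw [abs_mul]
    exact mul_le_mul hk (hM (γ s)).le (abs_nonneg _) (by omega)
  by_cases hS0 : S = 0
  · rcases lt_or_gt_of_ne hne with hn | hn
    · have c1 : K * lam (γ s) ≤ - K := by
        have : lam (γ s) ≤ -1 := by omega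
        nlinarith
      have c2 : (K + 1) * lam (γ s) ≤ - K := by nlinarith
      have c3 : K ≤ -K * lam (γ s) := by nlinarith
      have c4 : K ≤ -(K + 1) * lam (γ s) := by nlinarith
      rw [hS0, mul_zero, if_neg (by omega), if_neg (by omega), if_pos (by omega),
        if_pos (by omega)]
      by_cases h : γ s = j
      · rw [if_pos h] at q1
        rw [if_pos ⟨h, rfl⟩, ← h, Int.sign_eq_neg_one_of_neg hn]
        rw [h]
        push_cast
        linarith
      · rw [if_neg h] at q1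
        rw [if_neg fun hh => h hh.1]
        push_cast
        linarith
    · have c1 : K ≤ K * lam (γ s) := by
        have : 1 ≤ lam (γ s) := by omega
        nlinarith
      have c2 : K ≤ (K + 1) * lam (γ s) := by nlinarith
      have c3 : -K * lam (γ s) ≤ -K := by nlinarith
      have c4 : -(K + 1) * lam (γ s) ≤ -K := by nlinarith
      rw [hS0, mul_zero, if_pos (by omega), if_pos (by omega), if_neg (by omega),
        if_neg (by omega)]
      by_cases h : γ s = j
      · rw [if_pos h] at q2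
        rw [if_pos ⟨h, rfl⟩, ← h, Int.sign_eq_one_of_pos hn]
        rw [h]
        push_cast
        linarith
      · rw [if_neg h] at q2
        rw [if_neg fun hh => h hh.1]
        push_cast
        linarith
  · have s0 : ∀ k : ℤ, |k| ≤ K + 1 → (a * S + (Eγ + k * lam (γ s)) < 0 ↔ S < 0) := by
      intro k hk
      have d1 := abs_le.1 (b1 k hk)
      exact latB_sign (by omega) (by omega) hS0
    have s1 := s0 K (by omega)
    have s2 := s0 (K + 1) (by omega)
    have s3 := s0 (-K) (by omega)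
    have s4 := s0 (-(K + 1)) (by omega)
    rw [if_neg fun hh : γ s = j ∧ S = 0 => hS0 hh.2]
    by_cases hn : S < 0
    · rw [if_pos (s1.2 hn), if_pos (s2.2 hn), if_pos (s3.2 hn), if_pos (s4.2 hn)]
      push_cast
      linarith
    · rw [if_neg fun hh => hn (s1.1 hh), if_neg fun hh => hn (s2.1 hh),
        if_neg fun hh => hn (s3.1 hh), if_neg fun hh => hn (s4.1 hh)]
      push_cast
      ring

theorem exists_u (hpar : ∀ γ ∈ Γ, ∀ j, Even (lam (γ j) - lam j)) (hne0 : ∀ j, lam j ≠ 0)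
    (hsum : ∑ j, lam j = 0) (s : J) {z : J → ℤ}
    (hs : Odd (lam s) ∨ ∃ e : J → ℤ, Odd (∑ j, lam j * e j) ∧
      ∀ γ ∈ Γ, (∀ j, lam (γ j) = lam j) → γ s = s → ∀ j, e (γ j) = e j)
    (h1 : ∀ γ ∈ Γ, (∀ j, lam (γ j) = lam j) → γ s = s → ∀ j, z (γ j) = z j)
    (h2 : ∑ j, lam j * z j = 0)
    (h3 : ∀ γ ∈ Γ, ∑ j, lam (γ j) * z j = 0 → |lam (γ s)| ≤ |lam s| ∧
      (lam (γ s) = lam s → ∀ j, lam (γ j) = lam j) ∧
      (lam (γ s) = - lam s → ∀ j, lam (γ j) = - lam j))
    (h4 : ∀ γ ∈ Γ, γ s = s → (∀ j, z (γ j) = z j) → ∀ j, lam (γ j) = lam j) :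
    ∃ u ∈ Lat Γ lam, (∀ j, |lam s| < |lam j| → u j = 0) ∧
      (∀ j, |lam j| = |lam s| → u j ≠ 0 → ∃ γ ∈ Γ, ((∀ i, lam (γ i) = lam i) ∨
        (∀ i, lam (γ i) = - lam i)) ∧ γ s = j) ∧
      u s = Int.sign (lam s) ∧
      (∀ γ ∈ Γ, (∀ i, lam (γ i) = lam i) → ∀ j, u (γ j) = u j) ∧
      (∀ γ ∈ Γ, (∀ i, lam (γ i) = - lam i) → ∀ j, u (γ j) = - u j) := by
  classical
  obtain ⟨u, huL, key⟩ : ∃ u ∈ Lat Γ lam, ∀ j,
      (((latBG Γ).filter fun γ => γ s = s ∧ ∀ i, z (γ i) = z i).card : ℤ) * u j =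
        Int.sign (lam j) *
          (((latBG Γ).filter fun γ => γ s = j ∧ ∑ i, lam (γ i) * z i = 0).card : ℤ) := by
    rcases Int.even_or_odd (lam s) with hev | hod
    · rcases hs with hs | ⟨e, he, he2⟩
      · exact absurd hev (Int.not_even_iff_odd.2 hs)
      · exact latB_even Γ hpar hne0 hsum hev h2 he
          (fun γ hγ hs' hz => he2 γ hγ (h4 γ hγ hs' hz) hs')
    · exact latB_odd Γ hpar hne0 hsum hod h2
  set g0 : ℤ := (((latBG Γ).filter fun γ => γ s = s ∧ ∀ i, z (γ i) = z i).card : ℤ) with hg0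
  have hg0p : 0 < g0 := by
    rw [hg0]
    have : (1 : Equiv.Perm J) ∈ (latBG Γ).filter fun γ => γ s = s ∧ ∀ i, z (γ i) = z i := by
      rw [Finset.mem_filter, latB_mem]
      exact ⟨Γ.one_mem, rfl, fun i => rfl⟩
    exact_mod_cast Finset.card_pos.2 ⟨_, this⟩
  set N : J → ℤ := fun j =>
    (((latBG Γ).filter fun γ => γ s = j ∧ ∑ i, lam (γ i) * z i = 0).card : ℤ) with hN
  replace key : ∀ j, g0 * u j = Int.sign (lam j) * N j := key
  have hsym : ∀ ε : ℤ, (ε = 1 ∨ ε = -1) → ∀ η ∈ Γ, (∀ i, lam (η i) = ε * lam i) →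
      ∀ j, u (η j) = ε * u j := by
    intro ε hε η hη hl j
    have hN' : N (η j) = N j := by
      rw [hN]
      dsimp only
      have hinv : ∀ i, lam (η⁻¹ i) = ε * lam i := by
        intro i
        have e1 := hl (η⁻¹ i)
        rw [latB_inv2] at e1
        rcases hε with rfl | rfl <;> linarith
      have hz : ∀ (f : J → ℤ), (∑ i, ε * f i = 0) ↔ (∑ i, f i = 0) := by
        intro f
        rw [← Finset.mul_sum]
        constructor
        · intro h
          rcases mul_eq_zero.1 h with h | h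
          · rcases hε with h' | h' <;> omega
          · exact h
        · intro h
          rw [h, mul_zero]
      have hc : ((latBG Γ).filter fun γ => γ s = η j ∧ ∑ i, lam (γ i) * z i = 0).card =
          ((latBG Γ).filter fun γ => γ s = j ∧ ∑ i, lam (γ i) * z i = 0).card := by
        refine Finset.card_bij' (fun γ _ => η⁻¹ * γ) (fun γ _ => η * γ) ?_ ?_ ?_ ?_
        · intro γ hγ
          rw [Finset.mem_filter, latB_mem] at hγ ⊢
          refine ⟨Γ.mul_mem (Γ.inv_mem hη) hγ.1, ?_, ?_⟩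
          · rw [Equiv.Perm.mul_apply, hγ.2.1, latB_inv1]
          · have e1 : ∀ i, lam ((η⁻¹ * γ) i) * z i = ε * (lam (γ i) * z i) := by
              intro i
              rw [Equiv.Perm.mul_apply, hinv]
              ring
            rw [Finset.sum_congr rfl fun i _ => e1 i]
            exact (hz _).2 hγ.2.2
        · intro γ hγ
          rw [Finset.mem_filter, latB_mem] at hγ ⊢
          refine ⟨Γ.mul_mem hη hγ.1, ?_, ?_⟩
          · rw [Equiv.Perm.mul_apply, hγ.2.1]
          · have e1 : ∀ i, lam ((η * γ) i) * z i = ε * (lam (γ i) * z i) := by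
              intro i
              rw [Equiv.Perm.mul_apply, hl]
              ring
            rw [Finset.sum_congr rfl fun i _ => e1 i]
            exact (hz _).2 hγ.2.2
        · intro γ _
          exact mul_inv_cancel_left η γ
        · intro γ _
          exact inv_mul_cancel_left η γ
      rw [hc]
    have e1 := key (η j)
    have e2 := key j
    rw [hN', hl j] at e1
    have e3 : Int.sign (ε * lam j) = ε * Int.sign (lam j) := by
      rcases hε with rfl | rfl
      · rw [one_mul, one_mul]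
      · rw [neg_one_mul, neg_one_mul, Int.sign_neg]
    rw [e3] at e1
    have e4 : g0 * u (η j) = g0 * (ε * u j) := by
      rw [e1, mul_left_comm, e2]
      ring
    exact mul_left_cancel₀ hg0p.ne' e4
  refine ⟨u, huL, ?_, ?_, ?_, ?_, ?_⟩
  · intro j hj
    have e1 := key j
    have e2 : N j = 0 := by
      rw [hN]
      dsimp only
      rw [Nat.cast_eq_zero, Finset.card_eq_zero, Finset.filter_eq_empty_iff]
      rintro γ hγ ⟨ha, hb⟩
      have := (h3 γ ((latB_mem Γ γ).1 hγ) hb).1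
      rw [ha] at this
      linarith
    rw [e2, mul_zero] at e1
    rcases mul_eq_zero.1 e1 with h | h
    · exact absurd h hg0p.ne'
    · exact h
  · intro j hj huj
    have e1 := key j
    have e2 : N j ≠ 0 := by
      intro h0
      rw [h0, mul_zero] at e1
      rcases mul_eq_zero.1 e1 with h | h
      · exact hg0p.ne' h
      · exact huj h
    rw [hN] at e2
    dsimp only at e2
    rw [Nat.cast_ne_zero, Finset.card_ne_zero] at e2
    obtain ⟨γ, hγ⟩ := e2
    rw [Finset.mem_filter, latB_mem] at hγ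
    obtain ⟨hγ, ha, hb⟩ := hγ
    have e3 := h3 γ hγ hb
    refine ⟨γ, hγ, ?_, ha⟩
    rw [← ha] at hj
    rcases abs_eq_abs.1 hj with h | h
    · exact Or.inl (e3.2.1 h)
    · exact Or.inr (e3.2.2 h)
  · have e1 := key s
    have e2 : N s = g0 := by
      rw [hN, hg0]
      dsimp only
      have e3 : ((latBG Γ).filter fun γ => γ s = s ∧ ∑ i, lam (γ i) * z i = 0) =
          (latBG Γ).filter fun γ => γ s = s ∧ ∀ i, z (γ i) = z i := by
        refine Finset.filter_congr fun γ hγ => ?_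
        rw [latB_mem] at hγ
        constructor
        · rintro ⟨ha, hb⟩
          refine ⟨ha, h1 γ hγ ?_ ha⟩
          exact (h3 γ hγ hb).2.1 (by rw [ha])
        · rintro ⟨ha, hb⟩
          refine ⟨ha, ?_⟩
          have e4 := h4 γ hγ ha hb
          rw [Finset.sum_congr rfl fun i _ => by rw [e4 i]]
          exact h2
      rw [e3]
    rw [e2, mul_comm (Int.sign (lam s))] at e1
    exact mul_left_cancel₀ hg0p.ne' e1
  · intro γ hγ hl j
    have := hsym 1 (Or.inl rfl) γ hγ (fun i => by rw [hl i, one_mul]) j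
    rw [this, one_mul]
  · intro γ hγ hl j
    have := hsym (-1) (Or.inr rfl) γ hγ (fun i => by rw [hl i, neg_one_mul]) j
    rw [this, neg_one_mul]

end Pool.Agent.MP100fe7G
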