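import Pool.Agent.Lib.MP_100fe7_ntG.LatA
import Pool.Agent.Lib.MP_100fe7_ntG.LatB

/-!
The lattice of the sums of the low weights.
-/

set_option linter.unusedSectionVars false

namespace Pool.Agent.MP100fe7G

variable {J : Type} [Fintype J] [DecidableEq J] (Γ : Subgroup (Equiv.Perm J)) {lam : J → ℤ}

private def latMu (lam : J → ℤ) (y : J → ℤ) : ℕ :=
  ∑ j, if y j = 0 then 0 else (Fintype.card J + 1) ^ (lam j).natAbs

private theorem latMu_lt (hne0 : ∀ j, lam j ≠ 0) (y y' : J → ℤ) (s : J) (hs : y s ≠ 0)
    (hs' : y' s = 0)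
    (h : ∀ j, |lam s| ≤ |lam j| → y j = 0 → y' j = 0) : latMu lam y' < latMu lam y := by
  have hL : 1 ≤ (lam s).natAbs := by
    have := hne0 s
    omega
  have hpt : ∀ j, (if y' j = 0 then 0 else (Fintype.card J + 1) ^ (lam j).natAbs) +
      (if j = s then (Fintype.card J + 1) ^ (lam s).natAbs else 0) ≤
      (if y j = 0 then 0 else (Fintype.card J + 1) ^ (lam j).natAbs) +
      (Fintype.card J + 1) ^ ((lam s).natAbs - 1) := by
    intro j
    by_cases hj : j = s
    · subst hj
      rw [if_pos hs', if_pos rfl, if_neg hs]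
      omega
    · rw [if_neg hj]
      by_cases hy' : y' j = 0
      · rw [if_pos hy']
        exact Nat.zero_le _
      · rw [if_neg hy']
        by_cases hl : |lam s| ≤ |lam j|
        · have hy : y j ≠ 0 := fun h0 => hy' (h j hl h0)
          rw [if_neg hy]
          omega
        · have hl' : (lam j).natAbs ≤ (lam s).natAbs - 1 := by
            rw [Int.abs_eq_natAbs, Int.abs_eq_natAbs] at hl
            omega
          have := Nat.pow_le_pow_right (n := Fintype.card J + 1) (Nat.succ_pos _) hl'
          omega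
  have hsum := Finset.sum_le_sum (s := Finset.univ) fun j _ => hpt j
  rw [Finset.sum_add_distrib, Finset.sum_add_distrib, Finset.sum_ite_eq' Finset.univ s] at hsum
  simp only [Finset.mem_univ, if_true, Finset.sum_const, Finset.card_univ, smul_eq_mul] at hsum
  have hK : (Fintype.card J + 1) ^ (lam s).natAbs =
      Fintype.card J * (Fintype.card J + 1) ^ ((lam s).natAbs - 1) +
        (Fintype.card J + 1) ^ ((lam s).natAbs - 1) := by
    obtain ⟨k, hk⟩ := Nat.exists_eq_add_of_le hL
    rw [hk, Nat.add_sub_cancel_left, pow_add, pow_one]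
    ring
  have hpos : 0 < (Fintype.card J + 1) ^ ((lam s).natAbs - 1) := Nat.pow_pos (Nat.succ_pos _)
  unfold latMu
  omega

theorem lattice (hpar : ∀ γ ∈ Γ, ∀ j, Even (lam (γ j) - lam j)) (hne0 : ∀ j, lam j ≠ 0)
    (hsum : ∑ j, lam j = 0)
    (hhelp : ∀ s, Odd (lam s) ∨ ∃ e : J → ℤ, Odd (∑ j, lam j * e j) ∧
      ∀ γ ∈ Γ, (∀ j, lam (γ j) = lam j) → γ s = s → ∀ j, e (γ j) = e j) (y : J → ℤ)
    (h1 : ∀ γ ∈ Γ, (∀ j, lam (γ j) = lam j) → ∀ j, y (γ j) = y j)
    (h2 : ∀ γ ∈ Γ, (∀ j, lam (γ j) = - lam j) → ∀ j, y (γ j) = - y j) : y ∈ Lat Γ lam := by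
  induction hm : latMu lam y using Nat.strong_induction_on generalizing y with
  | _ m ih =>
    by_cases hy : ∀ j, y j = 0
    · have : y = 0 := funext hy
      rw [this]
      exact Submodule.zero_mem _
    · have hne : (Finset.univ.filter fun j => y j ≠ 0).Nonempty := by
        rw [not_forall] at hy
        obtain ⟨j, hj⟩ := hy
        exact ⟨j, Finset.mem_filter.2 ⟨Finset.mem_univ _, hj⟩⟩
      obtain ⟨s, hsm, hmax⟩ := Finset.exists_max_image _ (fun j => |lam j|) hne
      have hs : y s ≠ 0 := (Finset.mem_filter.1 hsm).2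
      have hmax' : ∀ j, y j ≠ 0 → |lam j| ≤ |lam s| := fun j hj =>
        hmax j (Finset.mem_filter.2 ⟨Finset.mem_univ _, hj⟩)
      obtain ⟨z, hz1, hz2, hz3, hz4⟩ := exists_generic Γ s (hne0 s)
      obtain ⟨u, hu, hu1, hu2, hu3, hu4, hu5⟩ := exists_u Γ hpar hne0 hsum s (hhelp s) hz1 hz2 hz3 hz4
      have hls : lam s ≠ 0 := hne0 s
      have hsg : Int.sign (lam s) * Int.sign (lam s) = 1 := by
        rcases lt_or_gt_of_ne hls with h | h
        · rw [Int.sign_eq_neg_one_of_neg h]
          norm_num
        · rw [Int.sign_eq_one_of_pos h]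
          norm_num
      have hmem : (y - (y s * Int.sign (lam s)) • u) ∈ Lat Γ lam := by
        refine ih _ ?_ (y - (y s * Int.sign (lam s)) • u) ?_ ?_ rfl
        · rw [← hm]
          refine latMu_lt hne0 y _ s hs ?_ ?_
          · rw [Pi.sub_apply, Pi.smul_apply, smul_eq_mul, hu3, mul_assoc, hsg, mul_one, sub_self]
          · intro j hj hyj
            have huj : u j = 0 := by
              rcases lt_or_eq_of_le hj with hlt | heq
              · exact hu1 j hlt
              · by_contra hne'
                obtain ⟨γ, hγ, hγ', hγs⟩ := hu2 j heq.symm hne'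
                rcases hγ' with hp | hn
                · have := h1 γ hγ hp s
                  rw [hγs, hyj] at this
                  exact hs this.symm
                · have := h2 γ hγ hn s
                  rw [hγs, hyj] at this
                  apply hs
                  omega
            rw [Pi.sub_apply, Pi.smul_apply, smul_eq_mul, huj, hyj, mul_zero, sub_zero]
        · intro γ hγ hp j
          rw [Pi.sub_apply, Pi.sub_apply, Pi.smul_apply, Pi.smul_apply, smul_eq_mul, smul_eq_mul,
            h1 γ hγ hp j, hu4 γ hγ hp j]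
        · intro γ hγ hn j
          rw [Pi.sub_apply, Pi.sub_apply, Pi.smul_apply, Pi.smul_apply, smul_eq_mul, smul_eq_mul,
            h2 γ hγ hn j, hu5 γ hγ hn j]
          ring
      have := Submodule.add_mem _ hmem (Submodule.smul_mem _ (y s * Int.sign (lam s)) hu)
      rwa [sub_add_cancel] at this

end Pool.Agent.MP100fe7G
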