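import Pool.Agent.Lib.MP_100fe7_ntG.ExpC
import Pool.Agent.Lib.MP_100fe7_ntG.NO

/-!
The restriction of scalars of `M i` is one of the `N_ω`.
-/

set_option linter.unusedSectionVars false

namespace Pool.Agent.MP100fe7G

open MP100fe7U Matrix MP100fe7L

variable {ι : Type} [Fintype ι] [DecidableEq ι] {F : ι → Type} [∀ i, Field (F i)]
  [∀ i, NumberField (F i)] {E : Type} [Field E] [NumberField E] {n : ι → ℕ} {w : ι → ℤ}
  {T : ∀ i, MType (F i) E (n i) (w i)} {hE : Split F E} {τ₀ : E →+* ℂ} {Φ : Finset (Emb F E)}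

/-- the profile of the standard representation -/
private noncomputable def res_om (i : ι) (φ : Hm F E i) : Emb F E → Fin 1 → ℕ :=
  fun q _ => if q = ⟨i, φ⟩ then 1 else 0

/-- the family of subsets with the one element `t` -/
private noncomputable def res_S (t : Tot F E n) : Fams F E n 1 :=
  fun q _ => Finset.univ.filter fun j => (⟨q, j⟩ : Tot F E n) = t

private theorem res_wtS (t u : Tot F E n) : wtS (res_S t) u = if u = t then 1 else 0 := by
  unfold wtS res_S
  by_cases h : u = t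
  · rw [if_pos h]
    have h1 : (Finset.univ.filter fun _ : Fin 1 => u.2 ∈ Finset.univ.filter fun j =>
        (⟨u.1, j⟩ : Tot F E n) = t) = Finset.univ := by
      ext k
      simp only [Finset.mem_filter, Finset.mem_univ, true_and, iff_true]
      exact h
    rw [h1]
    rfl
  · rw [if_neg h]
    rw [Finset.card_eq_zero, Finset.filter_eq_empty_iff]
    intro k _ h1
    exact h (Finset.mem_filter.mp h1).2

private theorem res_prof (t : Tot F E n) (q : Emb F E) (k : Fin 1) :
    prof (res_S t) q k = if q = t.1 then 1 else 0 := by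
  unfold prof res_S
  by_cases h : q = t.1
  · rw [if_pos h]
    subst h
    rw [Finset.card_eq_one]
    refine ⟨t.2, ?_⟩
    ext j
    simp only [Finset.mem_filter, Finset.mem_univ, true_and, Finset.mem_singleton]
    constructor
    · intro h1
      have h2 : (⟨t.1, j⟩ : Tot F E n) = ⟨t.1, t.2⟩ := h1
      exact eq_of_heq (Sigma.mk.inj_iff.mp h2).2
    · rintro rfl
      rfl
  · rw [if_neg h, Finset.card_eq_zero, Finset.filter_eq_empty_iff]
    intro j _ h1
    exact h (congrArg (fun t : Tot F E n => t.1) h1)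

private theorem res_pact (i : ι) (φ : Hm F E i) (g : Gal F E) (q : Emb F E) (k : Fin 1) :
    pact g (res_om i φ) q k = if q = act g ⟨i, φ⟩ then 1 else 0 := by
  unfold pact res_om
  by_cases h : q = act g ⟨i, φ⟩
  · rw [if_pos h, if_pos]
    rw [h]
    exact act_inv_act g ⟨i, φ⟩
  · rw [if_neg h, if_neg]
    intro h1
    apply h
    rw [← h1]
    exact (act_act_inv g q).symm

private theorem res_mem (hE : Split F E) (τ₀ : E →+* ℂ) (i : ι) (φ : Hm F E i) (t : Tot F E n)
    (ht : t.1.1 = i) : ∃ g : Gal F E, prof (res_S t) = pact g (res_om i φ) := by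
  obtain ⟨⟨i', φ'⟩, j⟩ := t
  have ht' : i' = i := ht
  subst ht'
  obtain ⟨τ, hτ⟩ := exists_gal hE τ₀ i' φ φ'
  refine ⟨galElt hE τ τ₀, ?_⟩
  funext q k
  rw [res_prof, res_pact]
  have h1 : act (galElt hE τ τ₀) (⟨i', φ⟩ : Emb F E) = ⟨i', φ'⟩ := by
    change (⟨i', (galElt hE τ τ₀).1 i' φ⟩ : Emb F E) = ⟨i', φ'⟩
    rw [hτ]
  rw [h1]

private theorem res_surj (i : ι) (φ : Hm F E i) (S : Fams F E n 1) (g : Gal F E)
    (hg : prof S = pact g (res_om i φ)) : ∃ t : Tot F E n, t.1.1 = i ∧ S = res_S t := by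
  have h1 : (S (act g ⟨i, φ⟩) 0).card = 1 := by
    have h2 := congrFun (congrFun hg (act g ⟨i, φ⟩)) 0
    rw [res_pact, if_pos rfl] at h2
    exact h2
  obtain ⟨j, hj⟩ := Finset.card_eq_one.mp h1
  refine ⟨⟨act g ⟨i, φ⟩, j⟩, rfl, ?_⟩
  funext q k
  have hk : k = 0 := Subsingleton.elim _ _
  subst hk
  unfold res_S
  by_cases h : q = act g ⟨i, φ⟩
  · subst h
    rw [hj]
    ext j'
    simp only [Finset.mem_filter, Finset.mem_univ, true_and, Finset.mem_singleton]
    constructor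
    · rintro rfl
      rfl
    · intro h2
      exact eq_of_heq (Sigma.mk.inj_iff.mp h2).2
  · have h2 : (S q 0).card = 0 := by
      have h3 := congrFun (congrFun hg q) 0
      rw [res_pact, if_neg h] at h3
      exact h3
    rw [Finset.card_eq_zero.mp h2]
    symm
    rw [Finset.filter_eq_empty_iff]
    intro j' _ h3
    exact h (congrArg (fun t : Tot F E n => t.1) h3)

/-- the basis vectors of the standard representation -/
private noncomputable def res_mk (hE : Split F E) (τ₀ : E →+* ℂ) (i : ι) (φ : Hm F E i)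
    (t : {t : Tot F E n // t.1.1 = i}) : KO n (res_om i φ) :=
  ⟨res_S t.1, res_mem hE τ₀ i φ t.1 t.2⟩

private theorem res_bij (hE : Split F E) (τ₀ : E →+* ℂ) (i : ι) (φ : Hm F E i) :
    Function.Bijective (res_mk (n := n) hE τ₀ i φ) := by
  constructor
  · intro t u h
    have h1 : res_S t.1 = res_S u.1 := congrArg Subtype.val h
    have h2 := res_wtS t.1 t.1
    rw [h1, res_wtS, if_pos rfl] at h2
    apply Subtype.ext
    by_contra h3
    rw [if_neg h3] at h2
    exact zero_ne_one h2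
  · rintro ⟨S, g, hg⟩
    obtain ⟨t, ht, hS⟩ := res_surj i φ S g hg
    refine ⟨⟨t, ht⟩, ?_⟩
    apply Subtype.ext
    exact hS.symm

private theorem res_sum (hE : Split F E) (τ₀ : E →+* ℂ) (i : ι) (φ : Hm F E i) {R : Type}
    [AddCommMonoid R] (f : KO n (res_om i φ) → R) :
    ∑ s, f s = ∑ t : {t : Tot F E n // t.1.1 = i}, f (res_mk hE τ₀ i φ t) :=
  (Function.Bijective.sum_comp (res_bij hE τ₀ i φ) f).symm

private theorem res_weight (hE : Split F E) (τ₀ : E →+* ℂ) (i : ι) (φ : Hm F E i)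
    (u : {t : Tot F E n // t.1.1 = i}) (t : Tot F E n) :
    (noRep n (res_om i φ)).weight (res_mk hE τ₀ i φ u) t = if t = u.1 then 1 else 0 := by
  have h1 : (noRep n (res_om i φ)).weight (res_mk hE τ₀ i φ u) t =
      (wtS (res_S u.1) t : ℤ) - ((0 : ℕ) : ℤ) := rfl
  rw [h1, res_wtS]
  by_cases h : t = u.1
  · rw [if_pos h, if_pos h]
    norm_num
  · rw [if_neg h, if_neg h]
    norm_num

/-- a sum with one term -/
private theorem res_one {R : Type} [AddCommMonoid R] (i : ι) (t : Tot F E n) (f : Tot F E n → R) :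
    (∑ u : {t : Tot F E n // t.1.1 = i}, if t = u.1 then f u.1 else 0) =
      if t.1.1 = i then f t else 0 := by
  by_cases h : t.1.1 = i
  · rw [if_pos h, Finset.sum_eq_single (⟨t, h⟩ : {t : Tot F E n // t.1.1 = i})]
    · rw [if_pos rfl]
    · intro u _ hu
      rw [if_neg]
      intro h1
      apply hu
      apply Subtype.ext
      exact h1.symm
    · intro h1
      exact absurd (Finset.mem_univ _) h1
  · rw [if_neg h]
    apply Finset.sum_eq_zero
    intro u _
    rw [if_neg]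
    intro h1
    exact h (by rw [h1]; exact u.2)

private theorem res_hodge (hE : Split F E) (τ₀ : E →+* ℂ) (i : ι) (φ : Hm F E i)
    (u : {t : Tot F E n // t.1.1 = i}) :
    (noRep n (res_om i φ)).hodgeIdx T (res_mk hE τ₀ i φ u) =
      (T u.1.1.1).p u.1.1.2 u.1.2 := by
  unfold Rep.hodgeIdx
  rw [Finset.sum_eq_single u.1]
  · rw [res_weight, if_pos rfl, one_mul]
  · intro t _ ht
    rw [res_weight, if_neg ht, zero_mul]
  · intro h1
    exact absurd (Finset.mem_univ _) h1

private theorem res_deg (i : ι) (φ : Hm F E i) (i' : ι) :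
    (noRep n (res_om i φ)).deg i' = if i' = i then 1 else 0 := by
  have h0 : (noRep n (res_om i φ)).deg i' =
      ∑ ψ : Hm F E i', ∑ k : Fin 1, res_om i φ ⟨i', ψ⟩ k := rfl
  have h1 : ∀ ψ : Hm F E i', ∑ k : Fin 1, res_om i φ ⟨i', ψ⟩ k =
      if (⟨i', ψ⟩ : Emb F E) = ⟨i, φ⟩ then 1 else 0 := by
    intro ψ
    rw [Fin.sum_univ_one]
    rfl
  rw [h0, Finset.sum_congr rfl fun ψ _ => h1 ψ]
  by_cases h : i' = i
  · subst h
    rw [if_pos rfl, Finset.sum_eq_single φ]
    · rw [if_pos rfl]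
    · intro ψ _ hψ
      rw [if_neg]
      intro h2
      exact hψ (eq_of_heq (Sigma.mk.inj_iff.mp h2).2)
    · intro h1
      exact absurd (Finset.mem_univ _) h1
  · rw [if_neg h]
    apply Finset.sum_eq_zero
    intro ψ _
    rw [if_neg]
    intro h2
    exact h (congrArg (fun q : Emb F E => q.1) h2)

private theorem res_mot (w : ι → ℤ) (i : ι) (φ : Hm F E i) :
    (noRep n (res_om i φ)).motWeight w = w i := by
  unfold Rep.motWeight
  rw [Finset.sum_eq_single i]
  · rw [res_deg, if_pos rfl]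
    have h1 : (noRep n (res_om i φ)).twist i = 0 := rfl
    rw [h1]
    push_cast
    ring
  · intro i' _ hi
    rw [res_deg, if_neg hi]
    have h1 : (noRep n (res_om i φ)).twist i' = 0 := rfl
    rw [h1]
    push_cast
    ring
  · intro h1
    exact absurd (Finset.mem_univ _) h1

private theorem res_perm (hE : Split F E) (τ₀ : E →+* ℂ) (i : ι) (φ : Hm F E i)
    (u : {t : Tot F E n // t.1.1 = i}) (hr : IsConj τ₀ u.1.1.2 u.1.1.2) :
    (noRep n (res_om i φ)).perm (conjElt hE τ₀) (res_mk hE τ₀ i φ u) (res_mk hE τ₀ i φ u) =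
      1 := by
  have h0 : (noRep n (res_om i φ)).perm (conjElt hE τ₀) (res_mk hE τ₀ i φ u)
      (res_mk hE τ₀ i φ u) = if res_S u.1 = fact (conjElt hE τ₀) (res_S u.1) then 1 else 0 := rfl
  rw [h0, if_pos]
  have hinv : (conjElt hE τ₀)⁻¹ = conjElt hE τ₀ := inv_eq_of_mul_eq_one_left (conjElt_sq hE τ₀)
  obtain ⟨u, hu⟩ := u
  have hr' : act (conjElt hE τ₀) u.1 = u.1 := (act_eq_iff hE τ₀ u.1).mpr hr
  funext q k
  unfold fact
  rw [hinv]
  by_cases h : q = u.1
  · subst h
    have h1 : (conjElt hE τ₀).1 u.1.1 u.1.2 = u.1.2 := (conj_eq_iff hE τ₀ u.1.1 u.1.2).mpr hr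
    change res_S u ⟨u.1.1, u.1.2⟩ k = res_S u ⟨u.1.1, (conjElt hE τ₀).1 u.1.1 u.1.2⟩ k
    rw [h1]
  · have h1 : act (conjElt hE τ₀) q ≠ u.1 := by
      intro h2
      apply h
      apply act_injective (conjElt hE τ₀)
      rw [h2, hr']
    have h2 : ∀ q' : Emb F E, q' ≠ u.1 → res_S u q' k = ∅ := by
      intro q' hq'
      have h3 := res_prof u q' k
      rw [if_neg hq'] at h3
      exact Finset.card_eq_zero.mp h3
    rw [h2 q h]
    symm
    exact h2 _ h1

private theorem res_frob (hE : Split F E) (τ₀ : E →+* ℂ) (i : ι) (φ : Hm F E i)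
    (u : {t : Tot F E n // t.1.1 = i}) (hr : IsConj τ₀ u.1.1.2 u.1.1.2) :
    (noRep n (res_om i φ)).frob T hE τ₀ (res_mk hE τ₀ i φ u) (res_mk hE τ₀ i φ u) =
      ((T u.1.1.1).sgn (τ₀.comp u.1.1.2) u.1.2 : ℤ) := by
  have h1 : (noRep n (res_om i φ)).ev E
      (fun q => diagonal fun j => ((T q.1).sgn (τ₀.comp q.2) j : E)) =
      diagonal fun s => ∏ t : Tot F E n, ((T t.1.1).sgn (τ₀.comp t.1.2) t.2 : E) ^
        (noRep n (res_om i φ)).wt s t := by
    have h2 := (noRep n (res_om i φ)).map_diagonal E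
      (fun t : Tot F E n => ((T t.1.1).sgn (τ₀.comp t.1.2) t.2 : E))
    unfold Rep.ev
    have h3 : ∏ q : Emb F E, (Matrix.det (diagonal fun j : Fin (n q.1) =>
        ((T q.1).sgn (τ₀.comp q.2) j : E))) ^ (noRep n (res_om i φ)).twist q.1 = 1 := by
      apply Finset.prod_eq_one
      intro q _
      exact pow_zero _
    rw [h3, Ring.inverse_one, one_smul]
    exact h2
  unfold Rep.frob
  rw [h1, Matrix.mul_diagonal, res_perm hE τ₀ i φ u hr, one_mul]
  rw [Finset.prod_eq_single u.1]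
  · have h2 : (noRep n (res_om i φ)).wt (res_mk hE τ₀ i φ u) u.1 = 1 := by
      have h3 : (noRep n (res_om i φ)).wt (res_mk hE τ₀ i φ u) u.1 = wtS (res_S u.1) u.1 := rfl
      rw [h3, res_wtS, if_pos rfl]
    rw [h2, pow_one]
  · intro t _ ht
    have h2 : (noRep n (res_om i φ)).wt (res_mk hE τ₀ i φ u) t = 0 := by
      have h3 : (noRep n (res_om i φ)).wt (res_mk hE τ₀ i φ u) t = wtS (res_S u.1) t := rfl
      rw [h3, res_wtS, if_neg ht]
    rw [h2, pow_zero]
  · intro h2
    exact absurd (Finset.mem_univ _) h2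

theorem res_exp (hG : Good T hE τ₀ Φ) (i : ι) : ∃ (r : ℕ) (ω : Emb F E → Fin r → ℕ),
    (noRep n ω).NoMiddle T ∧
    (∀ t : Tot F E n, ∑ s, (noRep n ω).weight s t = if t.1.1 = i then 1 else 0) ∧
    (∀ t : Tot F E n, ∑ s ∈ (noRep n ω).lowPart T (((noRep n ω).motWeight w + 1) / 2),
      (noRep n ω).weight s t =
        if t.1.1 = i ∧ 2 * (T t.1.1).p t.1.2 t.2 < w t.1.1 then 1 else 0) ∧
    ∀ (ε : E) (t : Tot F E n), IsConj τ₀ t.1.2 t.1.2 → trW T hE τ₀ (noRep n ω) ε t =
      if t.1.1 = i then 1 + ε * ((T t.1.1).sgn (τ₀.comp t.1.2) t.2 : ℤ) else 0 := by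
  obtain ⟨σ⟩ : Nonempty (Hm F ℂ i) := inferInstance
  obtain ⟨φ, -⟩ := hE τ₀ i σ
  refine ⟨1, res_om i φ, ?_, ?_, ?_, ?_⟩
  · intro s
    obtain ⟨u, rfl⟩ := (res_bij hE τ₀ i φ).2 s
    rw [res_hodge, res_mot]
    have hk := hG.mid u.1.1.1 u.1.1.2 u.1.2
    have h3 : w u.1.1.1 = w i := by rw [u.2]
    omega
  · intro t
    rw [res_sum hE τ₀ i φ]
    rw [Finset.sum_congr rfl fun u _ => res_weight hE τ₀ i φ u t]
    exact res_one i t fun _ => 1
  · intro t
    unfold Rep.lowPart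
    rw [Finset.sum_filter, res_sum hE τ₀ i φ]
    have h1 : ∀ u : {t : Tot F E n // t.1.1 = i},
        (if (noRep n (res_om i φ)).hodgeIdx T (res_mk hE τ₀ i φ u) <
            ((noRep n (res_om i φ)).motWeight w + 1) / 2 then
          (noRep n (res_om i φ)).weight (res_mk hE τ₀ i φ u) t else 0) =
        if t = u.1 then (if 2 * (T u.1.1.1).p u.1.1.2 u.1.2 < w u.1.1.1 then (1 : ℤ) else 0)
          else 0 := by
      intro u
      rw [res_hodge, res_mot, res_weight]
      have h2 : (T u.1.1.1).p u.1.1.2 u.1.2 < (w i + 1) / 2 ↔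
          2 * (T u.1.1.1).p u.1.1.2 u.1.2 < w u.1.1.1 := by
        have hk := hG.mid u.1.1.1 u.1.1.2 u.1.2
        have h3 : w u.1.1.1 = w i := by rw [u.2]
        omega
      by_cases h3 : 2 * (T u.1.1.1).p u.1.1.2 u.1.2 < w u.1.1.1
      · rw [if_pos h3, if_pos (h2.mpr h3)]
      · rw [if_neg h3, if_neg fun h4 => h3 (h2.mp h4), ite_self]
    rw [Finset.sum_congr rfl fun u _ => h1 u]
    refine (res_one i t fun u => if 2 * (T u.1.1).p u.1.2 u.2 < w u.1.1 then (1 : ℤ) else 0).trans ?_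
    by_cases h2 : t.1.1 = i
    · rw [if_pos h2]
      by_cases h3 : 2 * (T t.1.1).p t.1.2 t.2 < w t.1.1
      · rw [if_pos h3, if_pos ⟨h2, h3⟩]
      · rw [if_neg h3, if_neg fun h4 => h3 h4.2]
    · rw [if_neg h2, if_neg fun h4 => h2 h4.1]
  · intro ε t hr
    unfold trW
    rw [res_sum hE τ₀ i φ]
    have h1 : ∀ u : {t : Tot F E n // t.1.1 = i},
        (((noRep n (res_om i φ)).weight (res_mk hE τ₀ i φ u) t : ℤ) : E) *
          (1 + ε * (noRep n (res_om i φ)).frob T hE τ₀ (res_mk hE τ₀ i φ u)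
            (res_mk hE τ₀ i φ u)) =
        if t = u.1 then (1 + ε * ((T u.1.1.1).sgn (τ₀.comp u.1.1.2) u.1.2 : ℤ)) else 0 := by
      intro u
      rw [res_weight]
      by_cases h2 : t = u.1
      · rw [if_pos h2, if_pos h2, res_frob hE τ₀ i φ u (by rw [← h2]; exact hr), Int.cast_one,
          one_mul]
      · rw [if_neg h2, if_neg h2, Int.cast_zero, zero_mul]
    rw [Finset.sum_congr rfl fun u _ => h1 u]
    exact res_one i t fun u => 1 + ε * ((T u.1.1).sgn (τ₀.comp u.1.2) u.2 : ℤ)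

end Pool.Agent.MP100fe7G
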