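import Pool.Agent.Lib.MP_100fe7_ntG.GrpB
import Pool.Agent.Lib.MP_100fe7_ntG.DefsH
import Pool.Agent.Lib.MP_100fe7_ntG.Res
import Pool.Agent.Lib.MP_100fe7_ntG.Chr
import Pool.Agent.Lib.MP_100fe7_ntG.Lat

/-!
The periods of the restrictions of scalars are in the group generated by the periods of the
`N_ω`.
-/

set_option linter.unusedSectionVars false

namespace Pool.Agent.MP100fe7G

open MP100fe7U Matrix MP100fe7L

variable {ι : Type} [Fintype ι] [DecidableEq ι] {F : ι → Type} [∀ i, Field (F i)]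
  [∀ i, NumberField (F i)] {E : Type} [Field E] [NumberField E] {n : ι → ℕ} {w : ι → ℤ}
  {T : ∀ i, MType (F i) E (n i) (w i)} {hE : Split F E} {τ₀ : E →+* ℂ} {Φ : Finset (Emb F E)}
  {c d D : Emb F E → Fun T} {v : Emb F E → ℤ → Fun T}

theorem step_of_noMiddle {κ : Type} [Fintype κ] [DecidableEq κ] (ρ : Rep F E n κ)
    (hG : Good T hE τ₀ Φ) (hmid : ρ.NoMiddle T) {ε : E} (hε : ε = 1 ∨ ε = -1) :
    ρ.IsStep T hE τ₀ ε ((ρ.motWeight w + 1) / 2) := by
  obtain ⟨-, -, g3, -⟩ := all_number_fields F E hE τ₀ n w T κ ρ (fun _ => Φ) hG.choice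
  exact g3 hmid ε hε

/-- the group of these periods -/
def grp (T : ∀ i, MType (F i) E (n i) (w i)) (hE : Split F E) (τ₀ : E →+* ℂ) :
    Subgroup (Fun T) :=
  Subgroup.closure (coefficients T ∪ artinPeriods T hE τ₀ ∪ noPeriods T hE τ₀)

/-- the exponents for the restriction of scalars -/
theorem res_ab (hG : Good T hE τ₀ Φ) (i : ι) {ε : E} (hε : ε = 1 ∨ ε = -1) :
    ∃ (α β : ι → ℤ), (∀ i', i' ≠ i → α i' = 0 ∧ β i' = 0) ∧
      (n i ≠ 0 → α i + β i = 1 ∧ (∀ φ : Hm F E i, ¬ IsConj τ₀ φ φ → β i = 0) ∧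
        ∀ φ : Hm F E i, IsConj τ₀ φ φ → ((2 * α i : ℤ) : E) = 1 + ε) ∧
      ∀ (c d D : Emb F E → Fun T) (v : Emb F E → ℤ → Fun T), IsLocal c d D v →
        (∏ i, (resPeriod T hE τ₀ Φ c D v i ^ α i * resPeriod T hE τ₀ Φ d D v i ^ β i)) ∈
          grp T hE τ₀ := by
  classical
  obtain ⟨r, ω, h1, h2, h3, h4⟩ := res_exp hG i
  obtain ⟨α, β, y, e1, e2, e3, e5, e6, ⟨X, hX⟩, e7⟩ := per_formula (noRep n ω) hG hε
    (step_of_noMiddle _ hG h1 hε)
  have e1' : ∀ t : Tot F E n, α t.1.1 + β t.1.1 = if t.1.1 = i then 1 else 0 := by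
    intro t
    rw [e1, low_add _ hG h1, h2]
  have hpos : ∀ i' (φ : Hm F E i'), IsConj τ₀ φ φ → n i' ≠ 0 →
      ((2 * α i' : ℤ) : E) = if i' = i then 1 + ε else 0 := by
    intro i' φ hr hn
    obtain ⟨c1, c2, c3⟩ := card_sgn hG τ₀ ⟨i', φ⟩ hr
    dsimp only at c1 c2 c3
    have hp : 0 < Fintype.card {j // 2 * (T i').p φ j < w i'} := by omega
    obtain ⟨⟨jp, hjp⟩⟩ := Fintype.card_pos_iff.mp (c1 ▸ hp)
    have g1 := e3 ⟨⟨i', φ⟩, jp⟩ hr hjp
    have g2 := h4 ε ⟨⟨i', φ⟩, jp⟩ hr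
    dsimp only at g1 g2
    rw [g1, g2, hjp]
    simp
  have hsum : ∀ i', n i' ≠ 0 → α i' + β i' = if i' = i then 1 else 0 := by
    intro i' hn
    obtain ⟨φ⟩ := exists_hm hE τ₀ i'
    exact e1' ⟨⟨i', φ⟩, ⟨0, Nat.pos_of_ne_zero hn⟩⟩
  have hneg : ∀ i' (φ : Hm F E i'), ¬ IsConj τ₀ φ φ → n i' ≠ 0 → β i' = 0 := by
    intro i' φ hr hn
    exact e6 ⟨⟨i', φ⟩, ⟨0, Nat.pos_of_ne_zero hn⟩⟩ hr
  refine ⟨α, β, ?_, ?_, ?_⟩
  · intro i' hi'
    by_cases hn : n i' = 0
    · exact e5 i' hn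
    · have g1 := hsum i' hn
      rw [if_neg hi'] at g1
      obtain ⟨φ⟩ := exists_hm hE τ₀ i'
      by_cases hr : IsConj τ₀ φ φ
      · have g2 := hpos i' φ hr hn
        rw [if_neg hi'] at g2
        have g3 : (2 * α i' : ℤ) = 0 := by exact_mod_cast g2
        omega
      · have g2 := hneg i' φ hr hn
        omega
  · intro hn
    refine ⟨?_, ?_, ?_⟩
    · have g1 := hsum i hn
      rw [if_pos rfl] at g1
      exact g1
    · intro φ hr
      exact hneg i φ hr hn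
    · intro φ hr
      have g2 := hpos i φ hr hn
      rw [if_pos rfl] at g2
      exact g2
  · intro c d D v hl
    obtain ⟨a, ha, b, hb, h5⟩ := e7 c d D v hl X hX
    have hy : ∀ z, y z = 0 := by
      intro z
      obtain ⟨t, rfl⟩ := exists_pt z
      rw [e2, h3, e1']
      by_cases g1 : 2 * (T t.1.1).p t.1.2 t.2 < w t.1.1
      · rw [if_pos g1]
        by_cases g2 : t.1.1 = i
        · rw [if_pos ⟨g2, g1⟩, if_pos g2, sub_self]
        · rw [if_neg (fun h => g2 h.1), if_neg g2, sub_self]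
      · rw [if_neg g1, if_neg (fun h => g1 h.2), sub_self]
    have h6 : ∏ z : Pt T with InHalf τ₀ Φ z, Qf v z ^ y z = 1 := by
      apply Finset.prod_eq_one
      intro z _
      rw [hy, zpow_zero]
    rw [h6, mul_one] at h5
    have h7 : (∏ i, (resPeriod T hE τ₀ Φ c D v i ^ α i * resPeriod T hE τ₀ Φ d D v i ^ β i)) =
        (a * b)⁻¹ * X := by
      rw [h5, inv_mul_cancel_left]
    rw [h7]
    apply Subgroup.mul_mem
    · apply Subgroup.inv_mem
      exact Subgroup.mul_mem _ (Subgroup.subset_closure (Or.inl (Or.inl ha)))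
        (Subgroup.subset_closure (Or.inl (Or.inr hb)))
    · exact Subgroup.subset_closure (Or.inr ⟨r, ω, ε, hε, h1, hX⟩)

/-- the periods of the restrictions of scalars -/
theorem res_mem (hG : Good T hE τ₀ Φ) (hl : IsLocal c d D v) (i : ι) :
    resPeriod T hE τ₀ Φ c D v i ∈ grp T hE τ₀ ∧ resPeriod T hE τ₀ Φ d D v i ∈ grp T hE τ₀ := by
  classical
  by_cases hn : n i = 0
  · obtain ⟨h1, h2⟩ := resPeriod_empty hG hl hn
    rw [h1, h2]
    exact ⟨Subgroup.one_mem _, Subgroup.one_mem _⟩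
  have key : ∀ ε : E, (ε = 1 ∨ ε = -1) → ∃ a b : ℤ, a + b = 1 ∧
      (∀ φ : Hm F E i, ¬ IsConj τ₀ φ φ → b = 0) ∧
      (∀ φ : Hm F E i, IsConj τ₀ φ φ → ((2 * a : ℤ) : E) = 1 + ε) ∧
      resPeriod T hE τ₀ Φ c D v i ^ a * resPeriod T hE τ₀ Φ d D v i ^ b ∈ grp T hE τ₀ := by
    intro ε hε
    obtain ⟨α, β, h1, h2, h3⟩ := res_ab hG i hε
    obtain ⟨h4, h5, h6⟩ := h2 hn
    refine ⟨α i, β i, h4, h5, h6, ?_⟩
    have h7 := h3 c d D v hl
    rw [Finset.prod_eq_single i] at h7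
    · exact h7
    · intro i' _ hi'
      rw [(h1 i' hi').1, (h1 i' hi').2, zpow_zero, zpow_zero, mul_one]
    · simp
  obtain ⟨φ⟩ := exists_hm hE τ₀ i
  by_cases hr : IsConj τ₀ φ φ
  · constructor
    · obtain ⟨a, b, h1, -, h2, h3⟩ := key 1 (Or.inl rfl)
      have h4 := h2 φ hr
      have h5 : (2 * a : ℤ) = 2 := by
        have h6 : ((2 * a : ℤ) : E) = ((2 : ℤ) : E) := by
          rw [h4]
          push_cast
          ring
        exact_mod_cast h6
      have ha : a = 1 := by omega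
      have hb : b = 0 := by omega
      rw [ha, hb, zpow_one, zpow_zero, mul_one] at h3
      exact h3
    · obtain ⟨a, b, h1, -, h2, h3⟩ := key (-1) (Or.inr rfl)
      have h4 := h2 φ hr
      have h5 : (2 * a : ℤ) = 0 := by
        have h6 : ((2 * a : ℤ) : E) = ((0 : ℤ) : E) := by
          rw [h4]
          push_cast
          ring
        exact_mod_cast h6
      have ha : a = 0 := by omega
      have hb : b = 1 := by omega
      rw [ha, hb, zpow_one, zpow_zero, one_mul] at h3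
      exact h3
  · have h0 : resPeriod T hE τ₀ Φ c D v i = resPeriod T hE τ₀ Φ d D v i := by
      unfold resPeriod
      apply Finset.prod_congr rfl
      intro φ' _
      unfold resFactor
      have h1 : ¬ IsConj τ₀ φ' φ' := fun h => hr ((real_const hG i φ' φ).mp h)
      rw [if_neg h1, if_neg h1]
    obtain ⟨a, b, h1, h2, -, h3⟩ := key 1 (Or.inl rfl)
    have hb := h2 φ hr
    have ha : a = 1 := by omega
    rw [ha, hb, zpow_one, zpow_zero, mul_one] at h3
    exact ⟨h3, h0 ▸ h3⟩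

end Pool.Agent.MP100fe7G
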