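import Pool.Agent.Lib.MP_100fe7_ntG.GrpC

/-!
The lattice and the group of the periods.
-/

set_option linter.unusedSectionVars false

namespace Pool.Agent.MP100fe7G

open MP100fe7U Matrix MP100fe7L

variable {ι : Type} [Fintype ι] [DecidableEq ι] {F : ι → Type} [∀ i, Field (F i)]
  [∀ i, NumberField (F i)] {E : Type} [Field E] [NumberField E] {n : ι → ℕ} {w : ι → ℤ}
  {T : ∀ i, MType (F i) E (n i) (w i)} {hE : Split F E} {τ₀ : E →+* ℂ} {Φ : Finset (Emb F E)}
  {c d D : Emb F E → Fun T} {v : Emb F E → ℤ → Fun T}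

theorem two_hodge {κ : Type} [Fintype κ] [DecidableEq κ] (ρ : Rep F E n κ) (s : κ) :
    2 * ρ.hodgeIdx T s - ρ.motWeight w = ∑ t, lamT T t * ρ.weight s t := by
  have h1 : ρ.motWeight w = ∑ t : Tot F E n, w t.1.1 * ρ.weight s t := by
    unfold Rep.motWeight
    rw [Rep.sum_tot (fun t : Tot F E n => w t.1.1 * ρ.weight s t), Fintype.sum_sigma]
    apply Finset.sum_congr rfl
    intro i _
    change _ = ∑ φ : F i →+* E, ∑ j, w i * ρ.weight s ⟨⟨i, φ⟩, j⟩
    have h2 := ρ.sum_wt s i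
    simp only [← Finset.mul_sum]
    rw [mul_comm]
    congr 1
    rw [← h2]
    unfold Rep.weight
    push_cast
    simp only [Finset.sum_sub_distrib, Finset.sum_const, Finset.card_univ, Fintype.card_fin,
      nsmul_eq_mul]
    ring
  rw [h1]
  unfold Rep.hodgeIdx
  rw [Finset.mul_sum, ← Finset.sum_sub_distrib]
  apply Finset.sum_congr rfl
  intro t _
  unfold lamT
  ring

/-- the quotients by `b` -/
def lamB (T : ∀ i, MType (F i) E (n i) (w i)) (b : ℤ) (t : Tot F E n) : ℤ := lamT T t / b.natAbs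

theorem lamB_aux {b : ℤ} (hb : b ≠ 0) {t : Tot F E n} {m : ℤ} (h : lamT T t = b * m) :
    lamT T t = b.natAbs * lamB T b t ∧ (lamB T b t = m ∨ lamB T b t = - m) := by
  have hpos : (0 : ℤ) < b.natAbs := by omega
  unfold lamB
  rcases le_or_gt 0 b with hb' | hb'
  · have h3 : (b.natAbs : ℤ) = b := by omega
    rw [h3, h, Int.mul_ediv_cancel_left _ hb]
    exact ⟨rfl, Or.inl rfl⟩
  · have h3 : (b.natAbs : ℤ) = - b := by omega
    have h4 : b * m = (- b) * (- m) := by ring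
    rw [h3, h, h4, Int.mul_ediv_cancel_left _ (neg_ne_zero.mpr hb)]
    exact ⟨rfl, Or.inr rfl⟩

theorem lamB_eq {b : ℤ} (hb : ParityCond T b) (t : Tot F E n) :
    lamT T t = b.natAbs * lamB T b t := by
  rcases hb.2 t.1 with h | ⟨h, -⟩
  · obtain ⟨k, hk⟩ := h t.1.2 t.2
    exact (lamB_aux hb.1 (t := t) hk).1
  · obtain ⟨k, hk⟩ := h t.1.2 t.2
    exact (lamB_aux hb.1 (t := t) hk).1

theorem lamB_odd {b : ℤ} (hb : b ≠ 0) {t : Tot F E n} (h : OddMultiples T b t.1.1) :
    Odd (lamB T b t) := by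
  obtain ⟨k, hk⟩ := h t.1.2 t.2
  rcases (lamB_aux hb (t := t) hk).2 with h1 | h1
  · exact ⟨k, h1⟩
  · exact ⟨- k - 1, by rw [h1]; ring⟩

theorem lamB_even {b : ℤ} (hb : b ≠ 0) {t : Tot F E n} (h : EvenMultiples T b t.1.1) :
    Even (lamB T b t) := by
  obtain ⟨k, hk⟩ := h t.1.2 t.2
  rcases (lamB_aux hb (t := t) hk).2 with h1 | h1
  · exact ⟨k, by rw [h1]; ring⟩
  · exact ⟨- k, by rw [h1]; ring⟩

theorem lamB_ne (hG : Good T hE τ₀ Φ) {b : ℤ} (hb : ParityCond T b) (t : Tot F E n) :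
    lamB T b t ≠ 0 := by
  intro h
  have h1 := lamB_eq hb t
  rw [h, mul_zero] at h1
  have h2 := hG.mid t.1.1 t.1.2 t.2
  unfold lamT at h1
  omega

theorem exists_par {b : ℤ} (hb : ParityCond T b) :
    ∃ e : ι → ℤ, ∀ t : Tot F E n, Even (lamB T b t - e t.1.1) := by
  classical
  refine ⟨fun i => if OddMultiples T b i then 1 else 0, fun t => ?_⟩
  dsimp only
  by_cases h : OddMultiples T b t.1.1
  · rw [if_pos h]
    exact (lamB_odd hb.1 h).sub_odd odd_one
  · rw [if_neg h, sub_zero]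
    rcases hb.2 t.1 with h1 | ⟨h1, -⟩
    · exact absurd h1 h
    · exact lamB_even hb.1 h1

theorem natAbs_pos {b : ℤ} (hb : ParityCond T b) : (0 : ℤ) < b.natAbs := by
  have := hb.1
  omega

theorem lamT_cpt (t : Tot F E n) : lamT T (cpt hE τ₀ t) = - lamT T t := by
  unfold lamT
  rw [p_cpt hE τ₀ t]
  have h1 : w (cpt hE τ₀ t).1.1 = w t.1.1 := rfl
  rw [h1]
  ring

theorem lamT_sum (hE : Split F E) (τ₀ : E →+* ℂ) : ∑ t, lamT T t = 0 := by
  have h1 : ∑ t, lamT T t = ∑ t, lamT T (cpt hE τ₀ t) := by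
    refine (Equiv.sum_comp (⟨cpt hE τ₀, cpt hE τ₀, cpt_cpt hE τ₀, cpt_cpt hE τ₀⟩ :
      Equiv.Perm (Tot F E n)) (fun t => lamT T t)).symm
  have h2 : ∑ t, lamT T (cpt hE τ₀ t) = - ∑ t, lamT T t := by
    rw [← Finset.sum_neg_distrib]
    exact Finset.sum_congr rfl fun t _ => lamT_cpt t
  omega

theorem lamB_cpt {b : ℤ} (hb : ParityCond T b) (t : Tot F E n) :
    lamB T b (cpt hE τ₀ t) = - lamB T b t := by
  have h1 := lamB_eq hb t
  have h2 := lamB_eq hb (cpt hE τ₀ t)
  rw [lamT_cpt, h1] at h2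
  have h3 := natAbs_pos hb
  have h4 : (b.natAbs : ℤ) * (- lamB T b t) = b.natAbs * lamB T b (cpt hE τ₀ t) := by
    rw [← h2]
    ring
  exact (mul_left_cancel₀ (ne_of_gt h3) h4).symm

theorem lamB_sum (hE : Split F E) (τ₀ : E →+* ℂ) {b : ℤ} (hb : ParityCond T b) :
    ∑ t, lamB T b t = 0 := by
  have h1 := lamT_sum (T := T) hE τ₀
  rw [Finset.sum_congr rfl (fun t _ => lamB_eq hb t), ← Finset.mul_sum] at h1
  rcases mul_eq_zero.mp h1 with h2 | h2
  · have := natAbs_pos hb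
    omega
  · exact h2

theorem odd_sum {b : ℤ} {e : ι → ℤ} (he : ∀ t : Tot F E n, Even (lamB T b t - e t.1.1))
    (x : Tot F E n → ℤ) :
    Odd (∑ t, lamB T b t * x t) ↔ Odd (∑ t : Tot F E n, e t.1.1 * x t) := by
  have h1 : Even (∑ t, lamB T b t * x t - ∑ t : Tot F E n, e t.1.1 * x t) := by
    rw [← Finset.sum_sub_distrib]
    apply Finset.even_sum
    intro t _
    rw [← sub_mul]
    exact (he t).mul_right _
  constructor
  · intro h
    have h3 := Odd.sub_even h h1
    rwa [sub_sub_cancel] at h3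
  · intro h
    have h3 := Even.add_odd h1 h
    rwa [sub_add_cancel] at h3

/-- the properties needed of a vector of the lattice -/
def Fine (hE : Split F E) (τ₀ : E →+* ℂ) (Φ : Finset (Emb F E))
    (c d D : Emb F E → Fun T) (v : Emb F E → ℤ → Fun T) (u : Tot F E n → ℤ) : Prop :=
  ∃ (α β : ι → ℤ) (y : Pt T → ℤ),
    (∀ t : Tot F E n, y (pt T t) =
      u t - if 2 * (T t.1.1).p t.1.2 t.2 < w t.1.1 then α t.1.1 + β t.1.1 else 0) ∧
    (∀ t : Tot F E n, u t + u (cpt hE τ₀ t) = α t.1.1 + β t.1.1) ∧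
    (∏ i, (resPeriod T hE τ₀ Φ c D v i ^ α i * resPeriod T hE τ₀ Φ d D v i ^ β i)) *
      ∏ z : Pt T with InHalf τ₀ Φ z, Qf v z ^ y z ∈ grp T hE τ₀

theorem fine_zero : Fine hE τ₀ Φ c d D v 0 := by
  refine ⟨0, 0, 0, ?_, ?_, ?_⟩
  · intro t
    simp
  · intro t
    simp
  · simp only [Pi.zero_apply, zpow_zero, mul_one, Finset.prod_const_one]
    exact Subgroup.one_mem _

theorem fine_add {u u' : Tot F E n → ℤ} (h : Fine hE τ₀ Φ c d D v u)
    (h' : Fine hE τ₀ Φ c d D v u') : Fine hE τ₀ Φ c d D v (u + u') := by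
  obtain ⟨α, β, y, h1, h2, h3⟩ := h
  obtain ⟨α', β', y', h1', h2', h3'⟩ := h'
  refine ⟨α + α', β + β', y + y', ?_, ?_, ?_⟩
  · intro t
    rw [Pi.add_apply, h1, h1', Pi.add_apply, Pi.add_apply, Pi.add_apply]
    by_cases h : 2 * (T t.1.1).p t.1.2 t.2 < w t.1.1
    · rw [if_pos h, if_pos h, if_pos h]
      ring
    · rw [if_neg h, if_neg h, if_neg h]
      ring
  · intro t
    have e1 := h2 t
    have e2 := h2' t
    simp only [Pi.add_apply]
    omega
  · have e1 := Subgroup.mul_mem _ h3 h3'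
    have e2 : (∏ i, (resPeriod T hE τ₀ Φ c D v i ^ (α + α') i *
        resPeriod T hE τ₀ Φ d D v i ^ (β + β') i)) =
        (∏ i, (resPeriod T hE τ₀ Φ c D v i ^ α i * resPeriod T hE τ₀ Φ d D v i ^ β i)) *
        ∏ i, (resPeriod T hE τ₀ Φ c D v i ^ α' i * resPeriod T hE τ₀ Φ d D v i ^ β' i) := by
      rw [← Finset.prod_mul_distrib]
      apply Finset.prod_congr rfl
      intro i _
      rw [Pi.add_apply, Pi.add_apply, _root_.zpow_add, _root_.zpow_add]
      exact mul_mul_mul_comm _ _ _ _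
    have e3 : ∏ z : Pt T with InHalf τ₀ Φ z, Qf v z ^ (y + y') z =
        (∏ z : Pt T with InHalf τ₀ Φ z, Qf v z ^ y z) *
          ∏ z : Pt T with InHalf τ₀ Φ z, Qf v z ^ y' z := by
      rw [← Finset.prod_mul_distrib]
      apply Finset.prod_congr rfl
      intro z _
      rw [Pi.add_apply, _root_.zpow_add]
    rw [e2, e3, mul_mul_mul_comm]
    exact e1

theorem fine_smul (m : ℤ) {u : Tot F E n → ℤ} (h : Fine hE τ₀ Φ c d D v u) :
    Fine hE τ₀ Φ c d D v (m • u) := by
  obtain ⟨α, β, y, h1, h2, h3⟩ := h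
  refine ⟨m • α, m • β, m • y, ?_, ?_, ?_⟩
  · intro t
    simp only [Pi.smul_apply, smul_eq_mul]
    rw [h1]
    by_cases h : 2 * (T t.1.1).p t.1.2 t.2 < w t.1.1
    · rw [if_pos h, if_pos h]
      ring
    · rw [if_neg h, if_neg h]
      ring
  · intro t
    have e1 := h2 t
    simp only [Pi.smul_apply, smul_eq_mul]
    rw [← mul_add, ← mul_add, e1]
  · have e1 := Subgroup.zpow_mem _ h3 m
    have e2 : (∏ i, (resPeriod T hE τ₀ Φ c D v i ^ (m • α) i *
        resPeriod T hE τ₀ Φ d D v i ^ (m • β) i)) =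
        (∏ i, (resPeriod T hE τ₀ Φ c D v i ^ α i * resPeriod T hE τ₀ Φ d D v i ^ β i)) ^ m := by
      rw [← Finset.prod_zpow]
      apply Finset.prod_congr rfl
      intro i _
      rw [Pi.smul_apply, Pi.smul_apply, smul_eq_mul, smul_eq_mul, _root_.mul_zpow,
        mul_comm m (α i), mul_comm m (β i), _root_.zpow_mul, _root_.zpow_mul]
    have e3 : ∏ z : Pt T with InHalf τ₀ Φ z, Qf v z ^ (m • y) z =
        (∏ z : Pt T with InHalf τ₀ Φ z, Qf v z ^ y z) ^ m := by
      rw [← Finset.prod_zpow]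
      apply Finset.prod_congr rfl
      intro z _
      rw [Pi.smul_apply, smul_eq_mul, mul_comm m (y z), _root_.zpow_mul]
    rw [e2, e3, ← _root_.mul_zpow]
    exact e1

theorem fine_sum {I : Type} (s : Finset I) {u : I → Tot F E n → ℤ}
    (h : ∀ i, Fine hE τ₀ Φ c d D v (u i)) : Fine hE τ₀ Φ c d D v (∑ i ∈ s, u i) := by
  classical
  induction s using Finset.induction_on with
  | empty =>
    rw [Finset.sum_empty]
    exact fine_zero
  | insert a s ha ih =>
    rw [Finset.sum_insert ha]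
    exact fine_add (h a) ih

/-- the sum of the low weights of `N_ω` -/
noncomputable def Vn (T : ∀ i, MType (F i) E (n i) (w i)) (b : ℤ) {r : ℕ}
    (ω : Emb F E → Fin r → ℕ) (t : Tot F E n) : ℤ :=
  ∑ S : KO n ω, lowv (lamB T b) (wtS S.1) t

theorem weight_no {r : ℕ} (ω : Emb F E → Fin r → ℕ) (S : KO n ω) (t : Tot F E n) :
    (noRep n ω).weight S t = (wtS S.1 t : ℤ) := by
  unfold Rep.weight
  change (wtS S.1 t : ℤ) - ((0 : ℕ) : ℤ) = _
  simp

theorem fine_Vn (hG : Good T hE τ₀ Φ) (hl : IsLocal c d D v) {b : ℤ} (hb : ParityCond T b)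
    {r : ℕ} (ω : Emb F E → Fin r → ℕ) : Fine hE τ₀ Φ c d D v (Vn T b ω) := by
  classical
  obtain ⟨e, he⟩ := exists_par hb
  have hdeg : ∀ S : KO n ω, ∑ t : Tot F E n, e t.1.1 * (wtS S.1 t : ℤ) =
      ∑ i, e i * ((noRep n ω).deg i : ℤ) := by
    intro S
    rw [Fintype.sum_sigma, Fintype.sum_sigma]
    apply Finset.sum_congr rfl
    intro i _
    have h1 := (noRep n ω).sum_wt S i
    change ∑ φ : F i →+* E, ∑ j, e i * (wtS S.1 ⟨⟨i, φ⟩, j⟩ : ℤ) = _
    rw [← h1]
    push_cast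
    rw [Finset.mul_sum]
    apply Finset.sum_congr rfl
    intro φ _
    rw [Finset.mul_sum]
    rfl
  by_cases hodd : Odd (∑ i, e i * ((noRep n ω).deg i : ℤ))
  · have hz : ∀ S : KO n ω, Odd (∑ t, lamB T b t * (wtS S.1 t : ℤ)) := by
      intro S
      rw [odd_sum he, hdeg S]
      exact hodd
    have htw : ∀ S : KO n ω, 2 * (noRep n ω).hodgeIdx T S - (noRep n ω).motWeight w =
        b.natAbs * ∑ t, lamB T b t * (wtS S.1 t : ℤ) := by
      intro S
      rw [two_hodge, Finset.mul_sum]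
      apply Finset.sum_congr rfl
      intro t _
      rw [weight_no, lamB_eq hb t, mul_assoc]
    have hbp := natAbs_pos hb
    have hmid : (noRep n ω).NoMiddle T := by
      intro S hS
      have h1 := htw S
      have h2 := hz S
      rw [hS, sub_self] at h1
      rcases mul_eq_zero.mp h1.symm with h3 | h3
      · omega
      · rw [h3] at h2
        exact absurd h2 (by decide)
    have hV : ∀ t, Vn T b ω t = ∑ s ∈ (noRep n ω).lowPart T
        (((noRep n ω).motWeight w + 1) / 2), (noRep n ω).weight s t := by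
      intro t
      unfold Vn Rep.lowPart
      rw [Finset.sum_filter]
      apply Finset.sum_congr rfl
      intro S _
      rw [weight_no]
      unfold lowv
      have h1 := htw S
      have h0 := hmid S
      have h2 := hz S
      have h5 : (∑ t, lamB T b t * (wtS S.1 t : ℤ)) < 0 ↔
          2 * (noRep n ω).hodgeIdx T S - (noRep n ω).motWeight w < 0 := by
        rw [h1]
        constructor
        · intro h
          exact mul_neg_of_pos_of_neg hbp h
        · intro h
          exact (pos_iff_neg_of_mul_neg h).mp hbp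
      by_cases h3 : (noRep n ω).hodgeIdx T S < ((noRep n ω).motWeight w + 1) / 2
      · rw [if_pos h3, if_pos]
        refine ⟨h2, h5.mpr ?_⟩
        omega
      · rw [if_neg h3, if_neg]
        rintro ⟨-, h4⟩
        have h6 := h5.mp h4
        omega
    obtain ⟨α, β, y, e1, e2, -, -, -, ⟨X, hX⟩, e8⟩ := per_formula (noRep n ω) hG
      (ε := (1 : E)) (Or.inl rfl) (step_of_noMiddle _ hG hmid (Or.inl rfl))
    obtain ⟨a, ha, b', hb', h5⟩ := e8 c d D v hl X hX
    refine ⟨α, β, y, ?_, ?_, ?_⟩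
    · intro t
      rw [e2, hV]
    · intro t
      rw [hV, hV, e1]
    · have h7 : (∏ i, (resPeriod T hE τ₀ Φ c D v i ^ α i * resPeriod T hE τ₀ Φ d D v i ^ β i)) *
          ∏ z : Pt T with InHalf τ₀ Φ z, Qf v z ^ y z = (a * b')⁻¹ * X := by
        rw [h5, mul_assoc (a * b'), inv_mul_cancel_left]
      rw [h7]
      apply Subgroup.mul_mem
      · apply Subgroup.inv_mem
        exact Subgroup.mul_mem _ (Subgroup.subset_closure (Or.inl (Or.inl ha)))
          (Subgroup.subset_closure (Or.inl (Or.inr hb')))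
      · exact Subgroup.subset_closure (Or.inr ⟨r, ω, 1, Or.inl rfl, hmid, hX⟩)
  · have h1 : Vn T b ω = 0 := by
      funext t
      unfold Vn
      apply Finset.sum_eq_zero
      intro S _
      unfold lowv
      rw [if_neg]
      rintro ⟨h2, -⟩
      rw [odd_sum he, hdeg S] at h2
      exact hodd h2
    rw [h1]
    exact fine_zero

theorem fine_lat (hG : Good T hE τ₀ Φ) (hl : IsLocal c d D v) {b : ℤ} (hb : ParityCond T b)
    (u : Tot F E n → ℤ) (hu : u ∈ Lat (gam F E n) (lamB T b)) : Fine hE τ₀ Φ c d D v u := by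
  unfold Lat at hu
  refine Submodule.span_induction (p := fun u _ => Fine hE τ₀ Φ c d D v u) ?_ ?_ ?_ ?_ hu
  · rintro u ⟨x, rfl⟩
    obtain ⟨r, I, _, ω, m, h1⟩ := orb_span (F := F) (E := E) n x
    have h2 : Vo (gam F E n) (lamB T b) x = ∑ i, m i • Vn T b (ω i) := by
      funext t
      unfold Vo
      rw [h1 (fun ν => lowv (lamB T b) ν t), Finset.sum_apply]
      rfl
    rw [h2]
    exact fine_sum _ fun i => fine_smul (m i) (fine_Vn hG hl hb (ω i))
  · exact fine_zero
  · intro x y _ _ h1 h2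
    exact fine_add h1 h2
  · intro m x _ h1
    exact fine_smul m h1

end Pool.Agent.MP100fe7G
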