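import Pool.Agent.Lib.MP_100fe7_ntG.GrpD

/-!
The orbit products are in the group of the periods; the theorem.
-/

set_option linter.unusedSectionVars false

namespace Pool.Agent.MP100fe7G

open MP100fe7U Matrix MP100fe7L

variable {ι : Type} [Fintype ι] [DecidableEq ι] {F : ι → Type} [∀ i, Field (F i)]
  [∀ i, NumberField (F i)] {E : Type} [Field E] [NumberField E] {n : ι → ℕ} {w : ι → ℤ}
  {T : ∀ i, MType (F i) E (n i) (w i)} {hE : Split F E} {τ₀ : E →+* ℂ} {Φ : Finset (Emb F E)}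
  {c d D : Emb F E → Fun T} {v : Emb F E → ℤ → Fun T}

/-- a permutation of the basis vectors over `g` which preserves the Hodge indices -/
theorem hodgeGal_of (hG : Good T hE τ₀ Φ) {γ : Equiv.Perm (Tot F E n)} {g : Gal F E}
    (hg : ∀ t, (γ t).1 = act g t.1)
    (hp : ∀ t, (T (γ t).1.1).p (γ t).1.2 (γ t).2 = (T t.1.1).p t.1.2 t.2) : HodgeGal T g := by
  intro q
  have h1 : ∀ j : Fin (n q.1), ∃ j' : Fin (n q.1), γ ⟨q, j⟩ = ⟨act g q, j'⟩ := by
    intro j
    have h2 := hg ⟨q, j⟩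
    generalize γ ⟨q, j⟩ = t at h2
    obtain ⟨q', j'⟩ := t
    dsimp only at h2
    subst h2
    exact ⟨j', rfl⟩
  choose e he using h1
  have hinj : Function.Injective e := by
    intro j j' h
    have h2 : γ ⟨q, j⟩ = γ ⟨q, j'⟩ := by rw [he, he, h]
    have h3 := γ.injective h2
    exact eq_of_heq (Sigma.mk.inj_iff.mp h3).2
  let e' : Equiv.Perm (Fin (n q.1)) := Equiv.ofBijective e (Finite.injective_iff_bijective.mp hinj)
  have h3 : (T q.1).p (act g q).2 ∘ e' = (T q.1).p q.2 := by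
    funext j
    have h4 := hp ⟨q, j⟩
    rw [he] at h4
    exact h4
  have h5 : Monotone ((T q.1).p (act g q).2 ∘ e') := by
    rw [h3]
    exact hG.mono q.1 q.2
  have h6 : Monotone ((T q.1).p (act g q).2 ∘ (1 : Equiv.Perm (Fin (n q.1)))) := by
    exact hG.mono q.1 (act g q).2
  have h7 := Tuple.unique_monotone h6 h5
  rw [h3] at h7
  exact h7

theorem pt_orb (hG : Good T hE τ₀ Φ) {b : ℤ} (hb : ParityCond T b) {γ : Equiv.Perm (Tot F E n)}
    (hγ : γ ∈ gam F E n) (hlam : ∀ t, lamB T b (γ t) = lamB T b t) (t : Tot F E n) :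
    pt T (γ t) ∈ orbP (pt T t) := by
  obtain ⟨g, hg⟩ := hγ
  have hp : ∀ t, (T (γ t).1.1).p (γ t).1.2 (γ t).2 = (T t.1.1).p t.1.2 t.2 := by
    intro t
    have h1 : lamT T (γ t) = lamT T t := by
      rw [lamB_eq hb _, lamB_eq hb t, hlam t]
    unfold lamT at h1
    have h2 : (γ t).1.1 = t.1.1 := by
      rw [hg t]
    have h3 : w (γ t).1.1 = w t.1.1 := by rw [h2]
    omega
  have h1 := hodgeGal_of hG hg hp
  rw [mem_orbP]
  exact ⟨⟨g, h1, (hg t).symm⟩, hp t⟩

/-- the difference of the indicator functions of the orbit of a pair and its mirror image -/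
noncomputable def yO (hE : Split F E) (τ₀ : E →+* ℂ) (z₀ z : Pt T) : ℤ :=
  (if z ∈ orbP z₀ then 1 else 0) - (if mir hE τ₀ z ∈ orbP z₀ then 1 else 0)

theorem mem_orbP_iff {z₀ z z' : Pt T} (h : z' ∈ orbP z) : z' ∈ orbP z₀ ↔ z ∈ orbP z₀ := by
  constructor
  · intro h1
    have h2 := orbP_eq h
    have h3 := orbP_eq h1
    have h4 := orbP_self z
    rw [← h2, h3] at h4
    exact h4
  · intro h1
    rw [← orbP_eq h1]
    exact h

theorem yO_orb (hG : Good T hE τ₀ Φ) {z₀ z z' : Pt T} (h : z' ∈ orbP z) :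
    yO hE τ₀ z₀ z' = yO hE τ₀ z₀ z := by
  have h1 := mem_orbP_iff (z₀ := z₀) h
  have h2 := mem_orbP_iff (z₀ := z₀) (orbP_mir hG h)
  unfold yO
  by_cases h3 : z ∈ orbP z₀
  · rw [if_pos h3, if_pos (h1.mpr h3)]
    by_cases h4 : mir hE τ₀ z ∈ orbP z₀
    · rw [if_pos h4, if_pos (h2.mpr h4)]
    · rw [if_neg h4, if_neg (fun h => h4 (h2.mp h))]
  · rw [if_neg h3, if_neg (fun h => h3 (h1.mp h))]
    by_cases h4 : mir hE τ₀ z ∈ orbP z₀
    · rw [if_pos h4, if_pos (h2.mpr h4)]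
    · rw [if_neg h4, if_neg (fun h => h4 (h2.mp h))]

theorem yO_mir (z₀ z : Pt T) : yO hE τ₀ z₀ (mir hE τ₀ z) = - yO hE τ₀ z₀ z := by
  unfold yO
  rw [mir_mir]
  ring

/-- the complex conjugation as a permutation of the basis vectors -/
noncomputable def cptP (hE : Split F E) (τ₀ : E →+* ℂ) : Equiv.Perm (Tot F E n) :=
  ⟨cpt hE τ₀, cpt hE τ₀, cpt_cpt hE τ₀, cpt_cpt hE τ₀⟩

theorem cptP_mem : (cptP hE τ₀ : Equiv.Perm (Tot F E n)) ∈ gam F E n :=
  ⟨conjElt hE τ₀, fun _ => rfl⟩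

theorem gam_fst {γ : Equiv.Perm (Tot F E n)} (hγ : γ ∈ gam F E n) (t : Tot F E n) :
    (γ t).1.1 = t.1.1 := by
  obtain ⟨g, hg⟩ := hγ
  rw [hg t]

theorem gam_par {b : ℤ} (hb : ParityCond T b) :
    ∀ γ ∈ gam F E n, ∀ t, Even (lamB T b (γ t) - lamB T b t) := by
  intro γ hγ t
  obtain ⟨e, he⟩ := exists_par hb
  have h1 := (he (γ t)).sub (he t)
  rw [gam_fst hγ t] at h1
  rwa [sub_sub_sub_cancel_right] at h1

theorem gam_p {b : ℤ} (hb : ParityCond T b) {γ : Equiv.Perm (Tot F E n)}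
    (hγ : γ ∈ gam F E n) (hlam : ∀ t, lamB T b (γ t) = lamB T b t) (t : Tot F E n) :
    (T (γ t).1.1).p (γ t).1.2 (γ t).2 = (T t.1.1).p t.1.2 t.2 := by
  have h1 : lamT T (γ t) = lamT T t := by
    rw [lamB_eq hb _, lamB_eq hb t, hlam t]
  unfold lamT at h1
  have h3 : w (γ t).1.1 = w t.1.1 := by rw [gam_fst hγ t]
  omega

theorem exists_helper {b : ℤ} (hb : ParityCond T b) (s : Tot F E n) :
    Odd (lamB T b s) ∨ ∃ e : Tot F E n → ℤ, Odd (∑ t, lamB T b t * e t) ∧
      ∀ γ ∈ gam F E n, (∀ t, lamB T b (γ t) = lamB T b t) → γ s = s → ∀ t, e (γ t) = e t := by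
  classical
  rcases hb.2 s.1 with h | ⟨-, q', a, hfix, hq', hodd⟩
  · exact Or.inl (lamB_odd hb.1 h)
  · refine Or.inr ⟨fun t => if t.1 = q' ∧ (T t.1.1).p t.1.2 t.2 = a then 1 else 0, ?_, ?_⟩
    · have h0 : ∑ t : Tot F E n, lamB T b t *
          (if t.1 = q' ∧ (T t.1.1).p t.1.2 t.2 = a then 1 else 0) =
          ∑ j : Fin (n q'.1), if (T q'.1).p q'.2 j = a then lamB T b ⟨q', j⟩ else 0 := by
        rw [Fintype.sum_sigma, Finset.sum_eq_single q']
        · apply Finset.sum_congr rfl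
          intro j _
          by_cases h1 : (T q'.1).p q'.2 j = a
          · rw [if_pos ⟨rfl, h1⟩, if_pos h1, mul_one]
          · rw [if_neg fun h2 => h1 h2.2, if_neg h1, mul_zero]
        · intro q _ hq
          apply Finset.sum_eq_zero
          intro j _
          rw [if_neg fun h2 => hq h2.1, mul_zero]
        · intro h
          exact absurd (Finset.mem_univ _) h
      rw [h0]
      have h1 : ∀ j : Fin (n q'.1), (if (T q'.1).p q'.2 j = a then lamB T b ⟨q', j⟩ else 0) =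
          if (T q'.1).p q'.2 j = a then (2 * a - w q'.1) / b.natAbs else 0 := by
        intro j
        by_cases h2 : (T q'.1).p q'.2 j = a
        · rw [if_pos h2, if_pos h2]
          unfold lamB lamT
          rw [h2]
        · rw [if_neg h2, if_neg h2]
      rw [Finset.sum_congr rfl fun j _ => h1 j, ← Finset.sum_filter, Finset.sum_const,
        nsmul_eq_mul]
      have h2 : ((Finset.univ.filter fun j => (T q'.1).p q'.2 j = a).card : ℤ) =
          (Fintype.card ((T q'.1).Block q'.2 a) : ℤ) := by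
        rw [Fintype.card_subtype]
      rw [h2]
      apply Odd.mul
      · exact_mod_cast hodd
      · have h3 : 0 < Fintype.card ((T q'.1).Block q'.2 a) := hodd.pos
        obtain ⟨⟨j, hj⟩⟩ := Fintype.card_pos_iff.mp h3
        have h4 := lamB_odd hb.1 (t := (⟨q', j⟩ : Tot F E n)) hq'
        unfold lamB lamT at h4
        rw [hj] at h4
        exact h4
    · intro γ hγ hlam hs t
      have hp := gam_p hb hγ hlam t
      obtain ⟨g, hg⟩ := hγ
      have h1 : act g s.1 = s.1 := by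
        rw [← hg s, hs]
      have h2 := hfix g h1
      have h3 : (γ t).1 = q' ↔ t.1 = q' := by
        rw [hg t]
        constructor
        · intro h4
          have h5 := act_inv_act g t.1
          rw [h4, ← h2, act_inv_act] at h5
          exact h5.symm
        · intro h4
          rw [h4]
          exact h2
      simp only [h3, hp]

theorem yO_lat (hG : Good T hE τ₀ Φ) {b : ℤ} (hb : ParityCond T b) (z₀ : Pt T) :
    (fun t => yO hE τ₀ z₀ (pt T t)) ∈ Lat (gam F E n) (lamB T b) := by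
  have h1 : ∀ γ ∈ gam F E n, (∀ t, lamB T b (γ t) = lamB T b t) →
      ∀ t, yO hE τ₀ z₀ (pt T (γ t)) = yO hE τ₀ z₀ (pt T t) := by
    intro γ hγ hl t
    exact yO_orb hG (pt_orb hG hb hγ hl t)
  apply lattice (gam F E n) (gam_par hb) (lamB_ne hG hb) (lamB_sum hE τ₀ hb) (exists_helper hb) _
    h1
  intro γ hγ hl t
  have h2 := h1 (cptP hE τ₀ * γ) (Subgroup.mul_mem _ cptP_mem hγ) (by
    intro t
    change lamB T b (cpt hE τ₀ (γ t)) = lamB T b t
    rw [lamB_cpt hb, hl, neg_neg]) t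
  change yO hE τ₀ z₀ (pt T (cpt hE τ₀ (γ t))) = _ at h2
  rw [← mir_pt, yO_mir] at h2
  change yO hE τ₀ z₀ (pt T (γ t)) = - yO hE τ₀ z₀ (pt T t)
  omega

theorem v_empty (hl : IsLocal c d D v) {q : Emb F E} {a : ℤ}
    (ha : a ∉ (T q.1).indices q.2) : v q a = 1 := by
  funext M τ
  apply Units.ext
  obtain ⟨φ', h1, z, h2, h3, h4⟩ := hl.hodge q a M τ
  rw [h4]
  have : IsEmpty ((T q.1).Block q.2 a) :=
    ⟨fun j => ha (Finset.mem_image.mpr ⟨j.1, Finset.mem_univ _, j.2⟩)⟩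
  exact Matrix.det_isEmpty

theorem orbit_mem (hG : Good T hE τ₀ Φ) (hl : IsLocal c d D v) {b : ℤ} (hb : ParityCond T b)
    (q : Emb F E) (a : ℤ) : orbitPeriod T v q a ∈ grp T hE τ₀ := by
  classical
  by_cases ha : a ∈ (T q.1).indices q.2
  · have h0 := orbit_prod (T := T) v ⟨q, a, ha⟩
    set z₀ : Pt T := ⟨q, a, ha⟩ with hz₀
    have h1 := half_orbit (mir hE τ₀) (mir_mir hE τ₀) (InHalf τ₀ Φ) (half_mir hE τ₀ hG) (Qf v)
      (Qf_mir hG hl) (orbP z₀)
    obtain ⟨α, β, y, h2, h3, h4⟩ := fine_lat hG hl hb _ (yO_lat hG hb z₀)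
    have h5 : ∀ t : Tot F E n, α t.1.1 + β t.1.1 = 0 := by
      intro t
      rw [← h3 t]
      change yO hE τ₀ z₀ (pt T t) + yO hE τ₀ z₀ (pt T (cpt hE τ₀ t)) = 0
      rw [← mir_pt, yO_mir]
      ring
    have h6 : ∀ z, y z = yO hE τ₀ z₀ z := by
      intro z
      obtain ⟨t, rfl⟩ := exists_pt z
      rw [h2 t, h5 t]
      simp
    have h7 : (∏ i, (resPeriod T hE τ₀ Φ c D v i ^ α i * resPeriod T hE τ₀ Φ d D v i ^ β i)) ∈
        grp T hE τ₀ := by
      apply Subgroup.prod_mem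
      intro i _
      exact Subgroup.mul_mem _ (Subgroup.zpow_mem _ (res_mem hG hl i).1 _)
        (Subgroup.zpow_mem _ (res_mem hG hl i).2 _)
    have h8 := (Subgroup.mul_mem_cancel_left _ h7).mp h4
    have h9 : orbitPeriod T v q a = ∏ z : Pt T with InHalf τ₀ Φ z, Qf v z ^ y z := by
      rw [← h0, h1]
      apply Finset.prod_congr rfl
      intro z _
      rw [h6]
      rfl
    rw [h9]
    exact h8
  · have h1 : orbitPeriod T v q a = 1 := by
      unfold orbitPeriod
      apply Finset.prod_eq_one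
      intro q' hq'
      obtain ⟨g, hg, rfl⟩ := (Finset.mem_filter.mp hq').2
      apply v_empty hl
      intro h
      apply ha
      unfold MType.indices at h ⊢
      have h2 : (T (act g q).1).p (act g q).2 = (T q.1).p q.2 := hg q
      rw [h2] at h
      exact h
    rw [h1]
    exact Subgroup.one_mem _

end Pool.Agent.MP100fe7G
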