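import Pool.Agent.Lib.MP_100fe7_ntG.Base

/-!
A generic vector on the wall.
-/

set_option linter.unusedSectionVars false

namespace Pool.Agent.MP100fe7G

variable {J : Type} [Fintype J] [DecidableEq J] (Γ : Subgroup (Equiv.Perm J)) {lam : J → ℤ}

/-- a vector which lies in no proper member of a finite family of subspaces -/
private theorem latA_avoid {E ι : Type} [AddCommGroup E] [Module ℚ E] [Finite ι]
    (p : ι → Submodule ℚ E) : ∃ z : E, ∀ i, z ∈ p i → p i = ⊤ := by
  classical
  have := Fintype.ofFinite ι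
  have h1 : ⊤ ∉ (Finset.univ.image p).filter (· ≠ ⊤) := by
    intro h
    exact (Finset.mem_filter.1 h).2 rfl
  have h2 := Subspace.biUnion_ne_univ_of_top_notMem h1
  obtain ⟨z, hz⟩ := (Set.ne_univ_iff_exists_notMem _).1 h2
  refine ⟨z, fun i hi => ?_⟩
  by_contra hne
  refine hz (Set.mem_iUnion₂.2 ⟨p i, ?_, hi⟩)
  exact Finset.mem_filter.2 ⟨Finset.mem_image.2 ⟨i, Finset.mem_univ _, rfl⟩, hne⟩

/-- the permutations of the group which fix the weight and the point -/
private noncomputable def latA_H (lam : J → ℤ) (s : J) : Finset (Equiv.Perm J) := by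
  classical
  exact Finset.univ.filter fun γ => γ ∈ Γ ∧ (∀ j, lam (γ j) = lam j) ∧ γ s = s

private theorem latA_mem (lam : J → ℤ) (s : J) (γ : Equiv.Perm J) :
    γ ∈ latA_H Γ lam s ↔ γ ∈ Γ ∧ (∀ j, lam (γ j) = lam j) ∧ γ s = s := by
  classical
  unfold latA_H
  simp

private theorem latA_mul (lam : J → ℤ) (s : J) {γ δ : Equiv.Perm J}
    (h1 : γ ∈ latA_H Γ lam s) (h2 : δ ∈ latA_H Γ lam s) : γ * δ ∈ latA_H Γ lam s := by
  rw [latA_mem] at h1 h2 ⊢
  obtain ⟨a1, a2, a3⟩ := h1
  obtain ⟨b1, b2, b3⟩ := h2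
  refine ⟨Γ.mul_mem a1 b1, fun j => ?_, ?_⟩
  · rw [Equiv.Perm.mul_apply, a2, b2]
  · rw [Equiv.Perm.mul_apply, b3, a3]

private theorem latA_inv (lam : J → ℤ) (s : J) {γ : Equiv.Perm J}
    (h1 : γ ∈ latA_H Γ lam s) : γ⁻¹ ∈ latA_H Γ lam s := by
  rw [latA_mem] at h1 ⊢
  obtain ⟨a1, a2, a3⟩ := h1
  refine ⟨Γ.inv_mem a1, fun j => ?_, ?_⟩
  · have h := a2 (γ⁻¹ j)
    rw [show γ (γ⁻¹ j) = j from γ.apply_symm_apply j] at h
    exact h.symm
  · rw [Equiv.Perm.inv_eq_iff_eq, a3]

/-- the space of the vectors on the wall which are invariant -/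
private def latA_Y (lam : J → ℤ) (s : J) : Submodule ℚ (J → ℚ) where
  carrier := {z | (∀ γ ∈ Γ, (∀ j, lam (γ j) = lam j) → γ s = s → ∀ j, z (γ j) = z j) ∧
    ∑ j, (lam j : ℚ) * z j = 0}
  add_mem' := by
    rintro z w ⟨h1, h2⟩ ⟨h3, h4⟩
    refine ⟨fun γ a b c j => ?_, ?_⟩
    · rw [Pi.add_apply, Pi.add_apply, h1 γ a b c, h3 γ a b c]
    · simp only [Pi.add_apply, mul_add, Finset.sum_add_distrib, h2, h4, add_zero]
  zero_mem' := by
    refine ⟨fun γ a b c j => rfl, by simp⟩
  smul_mem' := by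
    rintro q z ⟨h1, h2⟩
    refine ⟨fun γ a b c j => ?_, ?_⟩
    · rw [Pi.smul_apply, Pi.smul_apply, h1 γ a b c]
    · have : ∑ j, (lam j : ℚ) * (q • z) j = q * ∑ j, (lam j : ℚ) * z j := by
        rw [Finset.mul_sum]
        refine Finset.sum_congr rfl fun j _ => ?_
        rw [Pi.smul_apply, smul_eq_mul]
        ring
      rw [this, h2, mul_zero]

/-- the first case: an element which kills the wall -/
private theorem latA_one (s : J) (hs0 : lam s ≠ 0) {γ : Equiv.Perm J}
    (hP : ∀ y : J → ℤ, (∀ h ∈ latA_H Γ lam s, ∀ j, y (h j) = y j) → ∑ j, lam j * y j = 0 →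
      ∑ j, lam (γ j) * y j = 0) :
    |lam (γ s)| ≤ |lam s| ∧ (lam (γ s) = lam s → ∀ j, lam (γ j) = lam j) ∧
      (lam (γ s) = - lam s → ∀ j, lam (γ j) = - lam j) := by
  classical
  set H := latA_H Γ lam s with hH
  have h1H : (1 : Equiv.Perm J) ∈ H := by
    rw [hH, latA_mem]
    exact ⟨Γ.one_mem, fun j => rfl, rfl⟩
  set N : ℤ := (H.card : ℤ) with hN
  have hNpos : 0 < N := by
    rw [hN]
    exact_mod_cast Finset.card_pos.2 ⟨1, h1H⟩
  set a : J → ℤ := fun j => lam (γ j) with ha
  set A : J → ℤ := fun j => ∑ h ∈ H, a (h j) with hA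
  set L : ℤ := ∑ j, lam j * lam j with hL
  have hLpos : 0 < L := by
    rw [hL]
    refine Finset.sum_pos' (fun j _ => mul_self_nonneg _) ⟨s, Finset.mem_univ _, ?_⟩
    exact mul_self_pos.2 hs0
  have hAinv : ∀ g ∈ H, ∀ j, A (g j) = A j := by
    intro g hg j
    rw [hA]
    refine Finset.sum_bij' (fun h _ => h * g) (fun h _ => h * g⁻¹) ?_ ?_ ?_ ?_ ?_
    · intro h hh
      exact latA_mul Γ lam s hh hg
    · intro h hh
      exact latA_mul Γ lam s hh (latA_inv Γ lam s hg)
    · intro h _
      exact mul_inv_cancel_right h g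
    · intro h _
      exact inv_mul_cancel_right h g
    · intro h _
      rfl
  have hdot : ∀ z : J → ℤ, (∀ h ∈ H, ∀ j, z (h j) = z j) →
      ∑ j, A j * z j = N * ∑ j, a j * z j := by
    intro z hz
    have e1 : ∀ j, A j * z j = ∑ h ∈ H, a (h j) * z j := fun j => by
      rw [hA, Finset.sum_mul]
    rw [Finset.sum_congr rfl fun j _ => e1 j, Finset.sum_comm]
    have e2 : ∀ h ∈ H, ∑ j, a (h j) * z j = ∑ j, a j * z j := by
      intro h hh
      rw [← Equiv.sum_comp h fun j => a j * z j]
      exact Finset.sum_congr rfl fun j _ => by rw [hz h hh j]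
    rw [Finset.sum_congr rfl e2, Finset.sum_const, nsmul_eq_mul, hN]
  have hlaminv : ∀ h ∈ H, ∀ j, lam (h j) = lam j := by
    intro h hh
    rw [hH, latA_mem] at hh
    exact hh.2.1
  set m : ℤ := ∑ j, lam j * A j with hm
  set y : J → ℤ := fun j => L * A j - m * lam j with hy
  have hyinv : ∀ h ∈ H, ∀ j, y (h j) = y j := by
    intro h hh j
    rw [hy]
    simp only
    rw [hAinv h hh, hlaminv h hh]
  have hy0 : ∑ j, lam j * y j = 0 := by
    have e1 : ∀ j, lam j * y j = L * (lam j * A j) - m * (lam j * lam j) := fun j => by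
      rw [hy]
      ring
    rw [Finset.sum_congr rfl fun j _ => e1 j, Finset.sum_sub_distrib, ← Finset.mul_sum,
      ← Finset.mul_sum, ← hm, ← hL]
    ring
  have hay : ∑ j, a j * y j = 0 := hP y hyinv hy0
  have hAy : ∑ j, A j * y j = 0 := by
    rw [hdot y hyinv, hay, mul_zero]
  have hyy : ∑ j, y j * y j = 0 := by
    have e1 : ∀ j, y j * y j = L * (A j * y j) - m * (lam j * y j) := fun j => by
      rw [hy]
      ring
    rw [Finset.sum_congr rfl fun j _ => e1 j, Finset.sum_sub_distrib, ← Finset.mul_sum,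
      ← Finset.mul_sum, hAy, hy0]
    ring
  have hyz : ∀ j, y j = 0 := by
    intro j
    have := (Finset.sum_eq_zero_iff_of_nonneg fun j _ => mul_self_nonneg (y j)).1 hyy j
      (Finset.mem_univ _)
    exact mul_self_eq_zero.1 this
  have hLA : ∀ j, L * A j = m * lam j := by
    intro j
    have := hyz j
    rw [hy] at this
    simp only at this
    linarith
  have hAs : A s = N * lam (γ s) := by
    rw [hA, hN]
    simp only
    rw [Finset.sum_congr rfl (g := fun _ => lam (γ s)) fun h hh => by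
      rw [hH, latA_mem] at hh
      rw [ha]
      simp only
      rw [hh.2.2], Finset.sum_const, nsmul_eq_mul]
  have h1 : L * N * lam (γ s) = m * lam s := by
    have := hLA s
    rw [hAs] at this
    linarith
  have haa : ∑ j, a j * a j = L := by
    rw [hL, ha]
    exact Equiv.sum_comp γ fun j => lam j * lam j
  have hAA : L * ∑ j, A j * A j = m ^ 2 := by
    have e1 : ∀ j, L * (A j * A j) = m * (lam j * A j) := fun j => by
      have := hLA j
      calc L * (A j * A j) = (L * A j) * A j := by ring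
        _ = m * lam j * A j := by rw [this]
        _ = m * (lam j * A j) := by ring
    rw [Finset.mul_sum, Finset.sum_congr rfl fun j _ => e1 j, ← Finset.mul_sum, ← hm]
    ring
  have haA : ∑ j, A j * A j = N * ∑ j, a j * A j := hdot A hAinv
  have hdiff : ∑ j, (N * a j - A j) * (N * a j - A j) = N ^ 2 * L - ∑ j, A j * A j := by
    have e1 : ∀ j, (N * a j - A j) * (N * a j - A j)
        = N ^ 2 * (a j * a j) - 2 * N * (a j * A j) + A j * A j := fun j => by ring
    rw [Finset.sum_congr rfl fun j _ => e1 j, Finset.sum_add_distrib, Finset.sum_sub_distrib,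
      ← Finset.mul_sum, ← Finset.mul_sum, haa]
    have : 2 * N * ∑ j, a j * A j = 2 * ∑ j, A j * A j := by rw [haA]; ring
    rw [this]
    ring
  have hge : 0 ≤ N ^ 2 * L - ∑ j, A j * A j := by
    rw [← hdiff]
    exact Finset.sum_nonneg fun j _ => mul_self_nonneg _
  have hm2 : m ^ 2 ≤ (N * L) ^ 2 := by
    have := mul_nonneg hLpos.le hge
    nlinarith
  have hmabs : |m| ≤ N * L := abs_le_of_sq_le_sq hm2 (by positivity)
  refine ⟨?_, ?_, ?_⟩
  · have h2 : |L * N * lam (γ s)| = |m * lam s| := by rw [h1]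
    rw [abs_mul (L * N), abs_mul m, abs_of_pos (mul_pos hLpos hNpos)] at h2
    have h3 : |m| * |lam s| ≤ N * L * |lam s| := mul_le_mul_of_nonneg_right hmabs (abs_nonneg _)
    have h4 : (L * N) * |lam (γ s)| ≤ (L * N) * |lam s| := by linarith
    exact le_of_mul_le_mul_left h4 (mul_pos hLpos hNpos)
  · intro he
    have hmN : m = L * N := by
      rw [he] at h1
      exact (mul_right_cancel₀ hs0 h1).symm
    intro j
    have h5 : ∑ j, (N * a j - A j) * (N * a j - A j) = 0 := by
      have h6 : L * ∑ j, A j * A j = L * (N ^ 2 * L) := by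
        rw [hAA, hmN]
        ring
      have h7 := mul_left_cancel₀ hLpos.ne' h6
      rw [hdiff, h7]
      ring
    have h6 := (Finset.sum_eq_zero_iff_of_nonneg fun j _ => mul_self_nonneg _).1 h5 j
      (Finset.mem_univ _)
    have h7 := mul_self_eq_zero.1 h6
    have h8 : (L * N) * lam (γ j) = (L * N) * lam j := by
      have h9 := hLA j
      have h10 : A j = N * lam (γ j) := by
        have : a j = lam (γ j) := rfl
        rw [← this]
        linarith
      rw [h10, hmN] at h9
      linarith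
    exact mul_left_cancel₀ (mul_pos hLpos hNpos).ne' h8
  · intro he
    have hmN : m = - (L * N) := by
      rw [he] at h1
      have h2 : (- (L * N)) * lam s = m * lam s := by linarith
      exact (mul_right_cancel₀ hs0 h2).symm
    intro j
    have h5 : ∑ j, (N * a j - A j) * (N * a j - A j) = 0 := by
      have h6 : L * ∑ j, A j * A j = L * (N ^ 2 * L) := by
        rw [hAA, hmN]
        ring
      have h7 := mul_left_cancel₀ hLpos.ne' h6
      rw [hdiff, h7]
      ring
    have h6 := (Finset.sum_eq_zero_iff_of_nonneg fun j _ => mul_self_nonneg _).1 h5 j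
      (Finset.mem_univ _)
    have h7 := mul_self_eq_zero.1 h6
    have h8 : (L * N) * lam (γ j) = (L * N) * (- lam j) := by
      have h9 := hLA j
      have h10 : A j = N * lam (γ j) := by
        have : a j = lam (γ j) := rfl
        rw [← this]
        linarith
      rw [h10, hmN] at h9
      linarith
    exact mul_left_cancel₀ (mul_pos hLpos hNpos).ne' h8

theorem exists_generic (s : J) (hs0 : lam s ≠ 0) : ∃ z : J → ℤ,
    (∀ γ ∈ Γ, (∀ j, lam (γ j) = lam j) → γ s = s → ∀ j, z (γ j) = z j) ∧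
    ∑ j, lam j * z j = 0 ∧
    (∀ γ ∈ Γ, ∑ j, lam (γ j) * z j = 0 → |lam (γ s)| ≤ |lam s| ∧
      (lam (γ s) = lam s → ∀ j, lam (γ j) = lam j) ∧
      (lam (γ s) = - lam s → ∀ j, lam (γ j) = - lam j)) ∧
    (∀ γ ∈ Γ, γ s = s → (∀ j, z (γ j) = z j) → ∀ j, lam (γ j) = lam j) := by
  classical
  -- the two families of subspaces of the wall
  set Y := latA_Y Γ lam s with hY
  set p : Equiv.Perm J ⊕ Equiv.Perm J → Submodule ℚ Y := fun i => Sum.elim
    (fun γ => (LinearMap.ker (∑ j, (lam (γ j) : ℚ) • (LinearMap.proj j : (J → ℚ) →ₗ[ℚ] ℚ))).comap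
      Y.subtype)
    (fun γ => (⨅ j, LinearMap.ker ((LinearMap.proj (γ j) : (J → ℚ) →ₗ[ℚ] ℚ)
      - LinearMap.proj j)).comap Y.subtype) i with hp
  have hp1 : ∀ (γ : Equiv.Perm J) (z : Y), z ∈ p (Sum.inl γ) ↔
      ∑ j, (lam (γ j) : ℚ) * z.1 j = 0 := by
    intro γ z
    simp [hp, LinearMap.sum_apply]
  have hp2 : ∀ (γ : Equiv.Perm J) (z : Y), z ∈ p (Sum.inr γ) ↔
      ∀ j, z.1 (γ j) = z.1 j := by
    intro γ z
    simp [hp, sub_eq_zero]
  obtain ⟨z₀, hz₀⟩ := latA_avoid p
  obtain ⟨hz1, hz2⟩ := z₀.2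
  -- a common denominator
  obtain ⟨⟨d, hd⟩, hdz⟩ := IsLocalization.exist_integer_multiples_of_finite (nonZeroDivisors ℤ)
    (z₀.1 : J → ℚ)
  choose z hz using hdz
  have hd0 : (d : ℚ) ≠ 0 := by
    have := nonZeroDivisors.ne_zero hd
    exact_mod_cast this
  have hzz : ∀ j, ((z j : ℤ) : ℚ) = d * z₀.1 j := by
    intro j
    have := hz j
    simpa using this
  -- a vector of the wall from an integral one
  have hmem : ∀ y : J → ℤ, (∀ h ∈ latA_H Γ lam s, ∀ j, y (h j) = y j) → ∑ j, lam j * y j = 0 →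
      (fun j => (y j : ℚ)) ∈ Y := by
    intro y h1 h2
    refine ⟨fun γ a b c j => ?_, ?_⟩
    · have := h1 γ ((latA_mem Γ lam s γ).2 ⟨a, b, c⟩) j
      simp only
      exact_mod_cast this
    · simp only
      exact_mod_cast h2
  refine ⟨z, fun γ a b c j => ?_, ?_, fun γ hγ h0 => ?_, fun γ hγ hs h0 => ?_⟩
  · have h1 := hz1 γ a b c j
    have h2 : ((z (γ j) : ℤ) : ℚ) = (z j : ℤ) := by rw [hzz, hzz, h1]
    exact_mod_cast h2
  · have h1 : ((∑ j, lam j * z j : ℤ) : ℚ) = 0 := by
      push_cast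
      have e1 : ∀ j, (lam j : ℚ) * (z j : ℚ) = d * ((lam j : ℚ) * z₀.1 j) := fun j => by
        rw [hzz]
        ring
      rw [Finset.sum_congr rfl fun j _ => e1 j, ← Finset.mul_sum, hz2, mul_zero]
    exact_mod_cast h1
  · have h1 : ∑ j, (lam (γ j) : ℚ) * z₀.1 j = 0 := by
      have h2 : (d : ℚ) * ∑ j, (lam (γ j) : ℚ) * z₀.1 j = 0 := by
        have h3 : ((∑ j, lam (γ j) * z j : ℤ) : ℚ) = 0 := by exact_mod_cast h0
        push_cast at h3
        rw [← h3, Finset.mul_sum]
        refine Finset.sum_congr rfl fun j _ => ?_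
        rw [hzz]
        ring
      exact (mul_eq_zero.1 h2).resolve_left hd0
    have htop := hz₀ (Sum.inl γ) ((hp1 γ z₀).2 h1)
    refine latA_one Γ s hs0 fun y h2 h3 => ?_
    have h4 : (⟨_, hmem y h2 h3⟩ : Y) ∈ p (Sum.inl γ) := by
      rw [htop]
      exact Submodule.mem_top
    have h5 := (hp1 γ _).1 h4
    simp only at h5
    exact_mod_cast h5
  · have h1 : ∀ j, z₀.1 (γ j) = z₀.1 j := by
      intro j
      have h2 : ((z (γ j) : ℤ) : ℚ) = (z j : ℤ) := by rw [h0 j]
      rw [hzz, hzz] at h2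
      exact mul_left_cancel₀ hd0 h2
    have htop := hz₀ (Sum.inr γ) ((hp2 γ z₀).2 h1)
    set L : ℤ := ∑ j, lam j * lam j with hL
    set y : J → ℤ := fun j => lam s * lam j - L * (if j = s then 1 else 0) with hy
    have hyinv : ∀ h ∈ latA_H Γ lam s, ∀ j, y (h j) = y j := by
      intro h hh j
      obtain ⟨-, b, c⟩ := (latA_mem Γ lam s h).1 hh
      have e1 : h j = s ↔ j = s := by
        constructor
        · intro he
          exact h.injective (he.trans c.symm)
        · rintro rfl
          exact c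
      rw [hy]
      simp only [b j, e1]
    have hy0 : ∑ j, lam j * y j = 0 := by
      have e1 : ∀ j, lam j * y j = lam s * (lam j * lam j) - L * (if j = s then lam j else 0) :=
        fun j => by
          rw [hy]
          by_cases hj : j = s
          · simp only [hj, if_true]
            ring
          · simp only [hj, if_false]
            ring
      rw [Finset.sum_congr rfl fun j _ => e1 j, Finset.sum_sub_distrib, ← Finset.mul_sum,
        ← Finset.mul_sum, ← hL, Finset.sum_ite_eq' Finset.univ s]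
      simp only [Finset.mem_univ, if_true]
      ring
    have h4 : (⟨_, hmem y hyinv hy0⟩ : Y) ∈ p (Sum.inr γ) := by
      rw [htop]
      exact Submodule.mem_top
    have h5 := (hp2 γ _).1 h4
    intro j
    have h6 : y (γ j) = y j := by
      have := h5 j
      simp only at this
      exact_mod_cast this
    have e1 : γ j = s ↔ j = s := by
      constructor
      · intro he
        exact γ.injective (he.trans hs.symm)
      · rintro rfl
        exact hs
    rw [hy] at h6
    simp only [e1] at h6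
    have h7 : lam s * lam (γ j) = lam s * lam j := by linarith
    exact mul_left_cancel₀ hs0 h7

end Pool.Agent.MP100fe7G
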