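import Pool.Agent.Lib.MP_100fe7_ntG.Base

/-!
Minors indexed by subsets.
-/

set_option linter.unusedSectionVars false

namespace Pool.Agent.MP100fe7G

open MP100fe7U MP100fe7Cv Matrix

section mnr

variable {m : ℕ} {S : Type} [CommRing S]

private theorem mnr_eq_of_card {k : ℕ} (X : Matrix (Fin m) (Fin m) S) (A B : Finset (Fin m))
    (hA : A.card = k) (hB : B.card = k) :
    mnr X A B = (X.submatrix (em (⟨A, hA⟩ : Sub m k)) (em (⟨B, hB⟩ : Sub m k))).det := by
  subst hA
  exact dif_pos hB

private theorem mnr_eq_zero_of_card (X : Matrix (Fin m) (Fin m) S) (A B : Finset (Fin m))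
    (h : B.card ≠ A.card) : mnr X A B = 0 := dif_neg h

/-- Cauchy - Binet -/
theorem mnr_mul (X Y : Matrix (Fin m) (Fin m) S) (A B : Finset (Fin m)) :
    mnr (X * Y) A B = ∑ C, mnr X A C * mnr Y C B := by
  classical
  by_cases h : B.card = A.card
  · rw [mnr_eq_of_card (k := A.card) (X * Y) A B rfl h]
    rw [Matrix.submatrix_mul X Y (em (⟨A, rfl⟩ : Sub m A.card)) (id : Fin m → Fin m)
      (em (⟨B, h⟩ : Sub m A.card)) Function.bijective_id, cauchy_binet]
    have h1 : ∑ C, mnr X A C * mnr Y C B =
        ∑ C ∈ Finset.univ.filter (fun C : Finset (Fin m) => C.card = A.card),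
          mnr X A C * mnr Y C B := by
      symm
      apply Finset.sum_subset (Finset.filter_subset _ _)
      intro C _ hC
      rw [mnr_eq_zero_of_card X A C fun h2 => hC (Finset.mem_filter.mpr
        ⟨Finset.mem_univ _, h2⟩), zero_mul]
    rw [h1, Finset.sum_subtype (p := fun C : Finset (Fin m) => C.card = A.card)
      (Finset.univ.filter (fun C : Finset (Fin m) => C.card = A.card)) (fun C => by simp)]
    apply Finset.sum_congr rfl
    intro C _
    rw [mnr_eq_of_card (k := A.card) X A C.1 rfl C.2,
      mnr_eq_of_card (k := A.card) Y C.1 B C.2 h]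
    rfl
  · rw [mnr_eq_zero_of_card _ A B h]
    symm
    apply Finset.sum_eq_zero
    intro C _
    by_cases h2 : C.card = A.card
    · rw [mnr_eq_zero_of_card Y C B fun h3 => h (h3.trans h2), mul_zero]
    · rw [mnr_eq_zero_of_card X A C h2, zero_mul]

theorem mnr_diagonal (x : Fin m → S) (A B : Finset (Fin m)) :
    mnr (diagonal x) A B = if A = B then ∏ j ∈ A, x j else 0 := by
  classical
  by_cases h : A = B
  · subst h
    rw [if_pos rfl, mnr_eq_of_card (k := A.card) _ A A rfl rfl]
    rw [Matrix.submatrix_diagonal x _ (em (⟨A, rfl⟩ : Sub m A.card)).injective, det_diagonal]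
    have h1 : ∏ j ∈ (Finset.univ.image (em (⟨A, rfl⟩ : Sub m A.card))), x j =
        ∏ i, x (em (⟨A, rfl⟩ : Sub m A.card) i) :=
      Finset.prod_image fun i _ j _ hij => (em (⟨A, rfl⟩ : Sub m A.card)).injective hij
    rw [image_em] at h1
    exact h1.symm
  · rw [if_neg h]
    by_cases hc : B.card = A.card
    · rw [mnr_eq_of_card (k := A.card) _ A B rfl hc]
      have h2 : ¬ A ⊆ B := fun h3 => h (Finset.eq_of_subset_of_card_le h3 hc.le)
      obtain ⟨a, ha, hb⟩ := Finset.not_subset.mp h2
      have h3 : a ∈ Finset.univ.image (em (⟨A, rfl⟩ : Sub m A.card)) := by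
        rw [image_em]
        exact ha
      obtain ⟨i, -, hi⟩ := Finset.mem_image.mp h3
      apply Matrix.det_eq_zero_of_row_eq_zero i
      intro j
      rw [Matrix.submatrix_apply, hi]
      apply diagonal_apply_ne
      intro h4
      apply hb
      have h5 : em (⟨B, hc⟩ : Sub m A.card) j ∈
          Finset.univ.image (em (⟨B, hc⟩ : Sub m A.card)) :=
        Finset.mem_image_of_mem _ (Finset.mem_univ _)
      rw [image_em] at h5
      rw [h4]
      exact h5
    · exact mnr_eq_zero_of_card _ A B hc

theorem mnr_map {S' : Type} [CommRing S'] (f : S →+* S') (X : Matrix (Fin m) (Fin m) S)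
    (A B : Finset (Fin m)) : mnr (X.map f) A B = f (mnr X A B) := by
  by_cases h : B.card = A.card
  · rw [mnr_eq_of_card (k := A.card) _ A B rfl h, mnr_eq_of_card (k := A.card) _ A B rfl h,
      RingHom.map_det]
    rfl
  · rw [mnr_eq_zero_of_card _ A B h, mnr_eq_zero_of_card _ A B h, map_zero]

theorem mnr_card {X : Matrix (Fin m) (Fin m) S} {A B : Finset (Fin m)} (h : mnr X A B ≠ 0) :
    A.card = B.card := by
  by_contra h2
  exact h (dif_neg fun h3 => h2 h3.symm)

end mnr

end Pool.Agent.MP100fe7G
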