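import Pool.Agent.Lib.MP_100fe7_ntG.DefsG
import Pool.Agent.Lib.MP_100fe7_ntU.FinalV

/-!
The pairs (embedding, Hodge index) and the involution given by the complex conjugation.
-/

set_option linter.unusedSectionVars false

namespace Pool.Agent.MP100fe7G

open MP100fe7U Matrix MP100fe7L

variable {ι : Type} [Fintype ι] [DecidableEq ι] {F : ι → Type} [∀ i, Field (F i)]
  [∀ i, NumberField (F i)] {E : Type} [Field E] [NumberField E] {n : ι → ℕ} {w : ι → ℤ}

/-- the assumptions on the fields, the signs, the Hodge indices -/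
structure Good (T : ∀ i, MType (F i) E (n i) (w i)) (hE : Split F E) (τ₀ : E →+* ℂ)
    (Φ : Finset (Emb F E)) : Prop where
  conj : ∀ τ, conjElt hE τ = conjElt hE τ₀
  mid : ∀ (i : ι) (φ : Hm F E i) (j : Fin (n i)), 2 * (T i).p φ j ≠ w i
  sgn : ∀ (i : ι) (σ σ' : Hm F ℂ i), (T i).sgn σ = (T i).sgn σ'
  mono : ∀ (i : ι) (φ : Hm F E i), Monotone ((T i).p φ)
  choice : IsChoice fun _ : E →+* ℂ => Φ

variable (T : ∀ i, MType (F i) E (n i) (w i))

/-- the pairs (embedding, Hodge index) -/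
abbrev Pt : Type := Σ q : Emb F E, {a : ℤ // a ∈ (T q.1).indices q.2}

/-- the pair of a basis vector -/
def pt (t : Tot F E n) : Pt T :=
  ⟨t.1, ⟨(T t.1.1).p t.1.2 t.2, Finset.mem_image_of_mem _ (Finset.mem_univ _)⟩⟩

/-- twice the distance of the Hodge index to the middle -/
def lamT (t : Tot F E n) : ℤ := 2 * (T t.1.1).p t.1.2 t.2 - w t.1.1

/-- `g` preserves the Hodge indices -/
def HodgeGal (g : Gal F E) : Prop := ∀ q : Emb F E, (T q.1).p (act g q).2 = (T q.1).p q.2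

noncomputable instance decPt : DecidableEq (Pt T) := Classical.decEq _

variable {T}

/-- the action of these elements on the pairs -/
def gpt {g : Gal F E} (hg : HodgeGal T g) (x : Pt T) : Pt T :=
  ⟨act g x.1, ⟨x.2.1, by
    have h := x.2.2
    unfold MType.indices at h ⊢
    have h2 : (T (act g x.1).1).p (act g x.1).2 = (T x.1.1).p x.1.2 := hg x.1
    rw [h2]
    exact h⟩⟩

theorem gpt_pt {g : Gal F E} (hg : HodgeGal T g) (t : Tot F E n) :
    gpt hg (pt T t) = pt T ⟨act g t.1, t.2⟩ := by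
  unfold gpt pt
  refine Sigma.ext rfl (heq_of_eq (Subtype.ext ?_))
  exact (congrFun (hg t.1) t.2).symm

theorem exists_pt (x : Pt T) : ∃ t : Tot F E n, pt T t = x := by
  obtain ⟨q, a, ha⟩ := x
  obtain ⟨j, -, hj⟩ := Finset.mem_image.mp ha
  refine ⟨⟨q, j⟩, ?_⟩
  unfold pt
  refine Sigma.ext rfl (heq_of_eq (Subtype.ext ?_))
  exact hj

variable (hE : Split F E) (τ₀ : E →+* ℂ)

/-- the complex conjugate of the basis vector -/
noncomputable def cpt (t : Tot F E n) : Tot F E n := ⟨act (conjElt hE τ₀) t.1, Fin.rev t.2⟩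

theorem p_cpt (t : Tot F E n) :
    (T (cpt hE τ₀ t).1.1).p (cpt hE τ₀ t).1.2 (cpt hE τ₀ t).2 = w t.1.1 - (T t.1.1).p t.1.2 t.2 :=
  (T t.1.1).p_conj τ₀ t.1.2 _ (isConj_conjElt hE τ₀ t.1.1 t.1.2) t.2

theorem cpt_cpt (t : Tot F E n) : cpt hE τ₀ (cpt hE τ₀ t) = t := by
  obtain ⟨q, j⟩ := t
  unfold cpt
  refine Sigma.ext (conj_conj_act hE τ₀ q) ?_
  exact heq_of_eq (Fin.rev_rev j)

/-- the involution on the pairs -/
noncomputable def mir (x : Pt T) : Pt T :=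
  ⟨act (conjElt hE τ₀) x.1, ⟨w x.1.1 - x.2.1, by
    obtain ⟨t, rfl⟩ := exists_pt x
    refine Finset.mem_image.mpr ⟨Fin.rev t.2, Finset.mem_univ _, ?_⟩
    exact p_cpt hE τ₀ t⟩⟩

theorem mir_pt (t : Tot F E n) : mir hE τ₀ (pt T t) = pt T (cpt hE τ₀ t) := by
  unfold mir pt
  refine Sigma.ext rfl (heq_of_eq (Subtype.ext ?_))
  exact (p_cpt hE τ₀ t).symm

theorem mir_mir (x : Pt T) : mir hE τ₀ (mir hE τ₀ x) = x := by
  obtain ⟨t, rfl⟩ := exists_pt x
  rw [mir_pt, mir_pt, cpt_cpt]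

variable (Φ : Finset (Emb F E))

/-- one pair of each pair of conjugate pairs -/
def InHalf (x : Pt T) : Prop :=
  if IsConj τ₀ x.1.2 x.1.2 then 2 * x.2.1 < w x.1.1 else x.1 ∈ Φ

noncomputable instance decHalf : DecidablePred (InHalf (T := T) τ₀ Φ) := Classical.decPred _

/-- the Hodge period of the pair -/
def Qf {G : Type} (v : Emb F E → ℤ → G) (x : Pt T) : G := v x.1 x.2.1

theorem half_mir {Φ} (hG : Good T hE τ₀ Φ) (x : Pt T) :
    InHalf τ₀ Φ x ↔ ¬ InHalf τ₀ Φ (mir hE τ₀ x) := by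
  have h1 := isConj_conjElt hE τ₀ x.1.1 x.1.2
  have h2 := hG.choice τ₀ x.1.1 x.1.2 _ h1
  unfold InHalf mir
  by_cases hr : IsConj τ₀ x.1.2 x.1.2
  · have h3 : (conjElt hE τ₀).1 x.1.1 x.1.2 = x.1.2 := (conj_eq_iff hE τ₀ x.1.1 x.1.2).mpr hr
    have h4 : IsConj τ₀ (act (conjElt hE τ₀) x.1).2 (act (conjElt hE τ₀) x.1).2 := by
      change IsConj τ₀ ((conjElt hE τ₀).1 x.1.1 x.1.2) ((conjElt hE τ₀).1 x.1.1 x.1.2)
      rw [h3]
      exact hr
    rw [if_pos hr, if_pos h4]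
    obtain ⟨t, rfl⟩ := exists_pt x
    have h5 := hG.mid t.1.1 t.1.2 t.2
    change 2 * (T t.1.1).p t.1.2 t.2 < w t.1.1 ↔
      ¬ 2 * (w t.1.1 - (T t.1.1).p t.1.2 t.2) < w t.1.1
    omega
  · have h4 : ¬ IsConj τ₀ (act (conjElt hE τ₀) x.1).2 (act (conjElt hE τ₀) x.1).2 := by
      intro h5
      apply hr
      have h6 := real_conj h1 h5
      change (conjElt hE τ₀).1 x.1.1 x.1.2 = x.1.2 at h6
      rw [h6] at h1
      exact h1
    have h7 : (conjElt hE τ₀).1 x.1.1 x.1.2 ≠ x.1.2 := by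
      intro h8
      exact hr ((conj_eq_iff hE τ₀ x.1.1 x.1.2).mp h8)
    rw [if_neg hr, if_neg h4]
    constructor
    · intro h9
      exact (h2.mp h9).2
    · intro h9
      exact h2.mpr ⟨h7, h9⟩

end Pool.Agent.MP100fe7G
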