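import Pool.Agent.Lib.MP_100fe7_ntG.ExpC
import Pool.Agent.Lib.MP_100fe7_nt.CvReal

/-!
Data of motives with prescribed local periods: linear algebra at one place.
-/

set_option linter.unusedSectionVars false

namespace Pool.Agent.MP100fe7G

open MP100fe7U Matrix MP100fe7L
open MP100fe7Cv.Real (coord sup_coord internal_coord exists_blocks)

section alg

variable {n : ℕ} {X : Matrix (Fin n) (Fin n) ℂ}

/-- the Hodge component of the datum with comparison matrix `X` -/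
def vH (p : Fin n → ℤ) (X : Matrix (Fin n) (Fin n) ℂ) (a : ℤ) : Submodule ℂ (Fin n → ℂ) :=
  (coord (R := ℂ) p {a}).comap X.mulVecLin

theorem vH_mem {p : Fin n → ℤ} {a : ℤ} {x : Fin n → ℂ} :
    x ∈ vH p X a ↔ ∀ j, p j ≠ a → (X *ᵥ x) j = 0 := Iff.rfl

/-- the isomorphism given by the inverse of `X` -/
noncomputable def vE (hX : IsUnit X.det) : (Fin n → ℂ) ≃ₗ[ℂ] (Fin n → ℂ) :=
  LinearEquiv.ofLinearMap (X⁻¹).mulVecLin X.mulVecLin
    (by
      rw [← Matrix.mulVecLin_mul, nonsing_inv_mul _ hX, Matrix.mulVecLin_one])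
    (by
      rw [← Matrix.mulVecLin_mul, mul_nonsing_inv _ hX, Matrix.mulVecLin_one])

theorem vE_map (hX : IsUnit X.det) (N : Submodule ℂ (Fin n → ℂ)) :
    N.comap X.mulVecLin = N.map (vE hX : (Fin n → ℂ) →ₗ[ℂ] (Fin n → ℂ)) := by
  ext x
  constructor
  · intro hx
    refine ⟨X *ᵥ x, hx, ?_⟩
    change X⁻¹ *ᵥ (X *ᵥ x) = x
    rw [mulVec_mulVec, nonsing_inv_mul _ hX, one_mulVec]
  · rintro ⟨y, hy, rfl⟩
    change X *ᵥ (X⁻¹ *ᵥ y) ∈ N
    rw [mulVec_mulVec, mul_nonsing_inv _ hX, one_mulVec]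
    exact hy

theorem vH_internal (p : Fin n → ℤ) (hX : IsUnit X.det) : DirectSum.IsInternal (vH p X) := by
  rw [DirectSum.isInternal_submodule_iff_iSupIndep_and_iSup_eq_top]
  have h0 := internal_coord (R := ℂ) p
  rw [DirectSum.isInternal_submodule_iff_iSupIndep_and_iSup_eq_top] at h0
  have h1 : vH p X = fun a => (coord (R := ℂ) p {a}).map
      (vE hX : (Fin n → ℂ) →ₗ[ℂ] (Fin n → ℂ)) := funext fun a => vE_map hX _
  rw [h1]
  constructor
  · exact (iSupIndep_map_orderIso_iff (Submodule.orderIsoMapComap (vE hX))).2 h0.1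
  · rw [← Submodule.map_iSup, h0.2, Submodule.map_top]
    exact LinearEquiv.range (vE hX)

theorem vH_fil (p : Fin n → ℤ) (hX : IsUnit X.det) (a : ℤ) (y : Fin n → ℂ) :
    y ∈ (⨆ b, ⨆ (_ : a ≤ b), vH p X b).map X.mulVecLin ↔ ∀ j, p j < a → y j = 0 := by
  have h1 : (⨆ b, ⨆ (_ : a ≤ b), vH p X b) =
      (coord (R := ℂ) p (Set.Ici a)).comap X.mulVecLin := by
    rw [vE_map hX, ← sup_coord]
    simp only [Submodule.map_iSup, Set.mem_Ici]
    exact iSup_congr fun b => iSup_congr fun _ => vE_map hX _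
  rw [h1]
  constructor
  · rintro ⟨x, hx, rfl⟩ j hj
    exact hx j (by rw [Set.mem_Ici]; exact not_le.2 hj)
  · intro hy
    have h2 : X *ᵥ (X⁻¹ *ᵥ y) = y := by
      rw [mulVec_mulVec, mul_nonsing_inv _ hX, one_mulVec]
    refine ⟨X⁻¹ *ᵥ y, ?_, h2⟩
    change X *ᵥ (X⁻¹ *ᵥ y) ∈ coord (R := ℂ) p (Set.Ici a)
    rw [h2]
    intro j hj
    rw [Set.mem_Ici, not_le] at hj
    exact hy j hj

theorem Rv_mulVec (u : Fin n → ℂ) (k : Fin n) : (Rv n ℂ *ᵥ u) k = u (Fin.rev k) := by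
  unfold Rv
  rw [mulVec, dotProduct, Finset.sum_eq_single (Fin.rev k)]
  · rw [of_apply, Fin.rev_rev, if_pos rfl, one_mul]
  · intro j _ hj
    rw [of_apply, if_neg, zero_mul]
    rintro rfl
    exact hj (Fin.rev_rev j).symm
  · intro h
    exact absurd (Finset.mem_univ _) h

/-- the relation between the comparison matrices at complex conjugate places -/
theorem vRel {G G' D : Matrix (Fin n) (Fin n) ℂ} {s : Fin n → ℤ} {b b' y : Fin n → ℂˣ}
    (hD : D = diagonal fun j => (s j : ℂ)) (hG : G' * D = Rv n ℂ * G) (x : Fin n → ℂ)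
    (k : Fin n) :
    ((diagonal (fun j => (b' j : ℂ)) * G' * diagonal (fun j => (y j : ℂ))) *ᵥ
      (fun j => (s j : ℂ) * x j)) k =
    (b' k : ℂ) * ((b (Fin.rev k))⁻¹ : ℂˣ) *
      ((diagonal (fun j => (b j : ℂ)) * G * diagonal (fun j => (y j : ℂ))) *ᵥ x) (Fin.rev k) := by
  have h1 : (fun j => (s j : ℂ) * x j) = D *ᵥ x := by
    funext j
    rw [hD, mulVec_diagonal]
  have h2 : diagonal (fun j => (b' j : ℂ)) * G' * diagonal (fun j => (y j : ℂ)) * D =
      diagonal (fun j => (b' j : ℂ)) * (Rv n ℂ * (G * diagonal (fun j => (y j : ℂ)))) := by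
    have h3 : diagonal (fun j => (y j : ℂ)) * D = D * diagonal (fun j => (y j : ℂ)) := by
      rw [hD, diagonal_mul_diagonal, diagonal_mul_diagonal]
      congr 1
      funext j
      exact mul_comm _ _
    rw [Matrix.mul_assoc, h3, Matrix.mul_assoc, ← Matrix.mul_assoc G', hG]
    simp only [Matrix.mul_assoc]
  rw [h1, mulVec_mulVec, h2, ← mulVec_mulVec, mulVec_diagonal, ← mulVec_mulVec, Rv_mulVec]
  have h5 : ((diagonal (fun j => (b j : ℂ)) * G * diagonal (fun j => (y j : ℂ))) *ᵥ x)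
      (Fin.rev k) = (b (Fin.rev k) : ℂ) *
        ((G * diagonal fun j => (y j : ℂ)) *ᵥ x) (Fin.rev k) := by
    rw [Matrix.mul_assoc, ← mulVec_mulVec, mulVec_diagonal]
  rw [h5]
  have h4 : ((b (Fin.rev k))⁻¹ : ℂˣ) * (b (Fin.rev k) : ℂ) = 1 := Units.inv_mul _
  linear_combination (-(b' k : ℂ)) * (((G * diagonal fun j => (y j : ℂ)) *ᵥ x) (Fin.rev k)) * h4

end alg

section real

variable {n : ℕ} {s p : Fin n → ℤ} {w : ℤ}

/-- a product with one free factor -/
theorem prod_ite_one {I : Type} [Fintype I] [DecidableEq I] (j₀ : I) (x : ℂ) :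
    ∏ j : I, (if j = j₀ then x else 1) = x := by
  rw [Finset.prod_ite_eq' Finset.univ j₀ fun _ => x, if_pos (Finset.mem_univ _)]

/-- the real place: the two Deligne periods can be any units -/
theorem exists_y_real (hr : RealType s p w) (hsc : Scal s p w) {E : Type} [Field E] [CharZero E]
    (f : E →+* ℂ) (h1 : ∃ j, s j = 1) (h2 : ∃ j, s j = -1) (b : Fin n → ℂˣ) (c d : ℂˣ) :
    ∃ y : Fin n → ℂˣ,
      RPer s p (diagonal (fun j => (b j : ℂ)) * (Gam s p w E).map f *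
        diagonal (fun j => (y j : ℂ))) 1 c ∧
      RPer s p (diagonal (fun j => (b j : ℂ)) * (Gam s p w E).map f *
        diagonal (fun j => (y j : ℂ))) (-1) d := by
  classical
  obtain ⟨j₁, hj₁⟩ := h1
  obtain ⟨j₂, hj₂⟩ := h2
  have key : ∀ δ : ℤ, δ = 1 ∨ δ = -1 → ∀ (j₀ : {j // s j = δ}) (c : ℂˣ), ∃ z : ℂˣ,
      ∀ y : Fin n → ℂˣ, y j₀.1 = z → (∀ j, s j = δ → j ≠ j₀.1 → y j = 1) →
        RPer s p (diagonal (fun j => (b j : ℂ)) * (Gam s p w E).map f *
          diagonal (fun j => (y j : ℂ))) δ c := by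
    intro δ hδ j₀ c
    obtain ⟨a, ⟨e⟩⟩ := exists_step hr hsc δ hδ
    have hg := Gam_minor hr hsc E δ hδ a e
    have hB : ∏ j : {j // s j = δ}, (b (e j).1 : ℂ) ≠ 0 :=
      Finset.prod_ne_zero_iff.2 fun j _ => (b (e j).1).ne_zero
    have hf : f ((Gam s p w E).submatrix (fun j : {j // s j = δ} => (e j).1)
        (fun j : {j // s j = δ} => j.1)).det ≠ 0 := (map_ne_zero f).2 hg
    refine ⟨Units.mk0 ((c : ℂ) * ((∏ j : {j // s j = δ}, (b (e j).1 : ℂ)) *
      f ((Gam s p w E).submatrix (fun j : {j // s j = δ} => (e j).1)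
        (fun j : {j // s j = δ} => j.1)).det)⁻¹)
      (mul_ne_zero c.ne_zero (inv_ne_zero (mul_ne_zero hB hf))), ?_⟩
    intro y hy0 hy1
    refine ⟨a, e, ?_⟩
    have h3 : (diagonal (fun j => (b j : ℂ)) * (Gam s p w E).map f *
        diagonal (fun j => (y j : ℂ))).submatrix (fun j : {j // s j = δ} => (e j).1)
        (fun j : {j // s j = δ} => j.1) =
        diagonal (fun j : {j // s j = δ} => (b (e j).1 : ℂ)) *
        ((Gam s p w E).submatrix (fun j : {j // s j = δ} => (e j).1)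
        (fun j : {j // s j = δ} => j.1)).map f * diagonal (fun j : {j // s j = δ} => (y j.1 : ℂ)) := by
      ext i j
      rw [submatrix_apply, mul_diagonal, diagonal_mul, mul_diagonal, diagonal_mul]
      rfl
    have h4 : ∏ j : {j // s j = δ}, (y j.1 : ℂ) = (y j₀.1 : ℂ) := by
      rw [← prod_ite_one j₀ (y j₀.1 : ℂ)]
      refine Finset.prod_congr rfl fun j _ => ?_
      by_cases hj : j = j₀
      · rw [if_pos hj, hj]
      · rw [if_neg hj, hy1 j.1 j.2 fun h => hj (Subtype.ext h), Units.val_one]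
    rw [h3, det_mul, det_mul, det_diagonal, det_diagonal, h4, hy0, Units.val_mk0,
      show (((Gam s p w E).submatrix (fun j : {j // s j = δ} => (e j).1)
        (fun j : {j // s j = δ} => j.1)).map f).det = f ((Gam s p w E).submatrix
        (fun j : {j // s j = δ} => (e j).1) (fun j : {j // s j = δ} => j.1)).det from
        (RingHom.map_det f _).symm]
    field_simp
  obtain ⟨z₁, hz₁⟩ := key 1 (Or.inl rfl) ⟨j₁, hj₁⟩ c
  obtain ⟨z₂, hz₂⟩ := key (-1) (Or.inr rfl) ⟨j₂, hj₂⟩ d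
  have h12 : j₂ ≠ j₁ := by
    rintro rfl
    rw [hj₁] at hj₂
    norm_num at hj₂
  refine ⟨fun j => if j = j₁ then z₁ else if j = j₂ then z₂ else 1, hz₁ _ ?_ ?_, hz₂ _ ?_ ?_⟩
  · exact if_pos rfl
  · intro j hj hne
    change (if j = j₁ then z₁ else if j = j₂ then z₂ else 1) = 1
    rw [if_neg hne, if_neg]
    rintro rfl
    rw [hj₂] at hj
    norm_num at hj
  · change (if j₂ = j₁ then z₁ else if j₂ = j₂ then z₂ else 1) = z₂
    rw [if_neg h12, if_pos rfl]
  · intro j hj hne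
    change (if j = j₁ then z₁ else if j = j₂ then z₂ else 1) = 1
    rw [if_neg, if_neg hne]
    rintro rfl
    rw [hj₁] at hj
    norm_num at hj

/-- without a middle index -/
theorem Wr_eq_Rv {E : Type} [Field E] (hmid : ∀ j, 2 * p j ≠ w) : Wr s p w E = Rv n E := by
  unfold Wr Rv
  ext k j
  rw [of_apply, of_apply, if_neg (hmid j)]

end real

end Pool.Agent.MP100fe7G
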